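import Pool.Agent.Lib.H65C.Work

/-!
# Project H65C, chunk A1 (S): renaming
-/

namespace Pool.Agent.H65C

open ZFSet

/-- The renaming under a binder. -/
def lft (f : ℕ → ℕ) : ℕ → ℕ
  | 0 => 0
  | n + 1 => f n + 1

/-- Renaming of variables and of class symbols. -/
def ren (g : ℕ → ℕ) : (ℕ → ℕ) → Fm → Fm
  | f, .mem i j => .mem (f i) (f j)
  | f, .eq i j => .eq (f i) (f j)
  | f, .cls c i => .cls (g c) (f i)
  | _, .bot => .bot
  | f, .imp φ ψ => .imp (ren g f φ) (ren g f ψ)
  | f, .all φ => .all (ren g (lft f) φ)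

/-- Proof. Induction on `φ`; `(fun i => cons a v (lft f i)) = cons a (fun i => v (f i))`. -/
theorem A1_sat (N : Set ZFSet.{0}) (X : ℕ → Set ZFSet.{0}) (g f : ℕ → ℕ) (φ : Fm) (v : ℕ → ZFSet.{0}) :
    Sat N X (ren g f φ) v ↔ Sat N (fun c => X (g c)) φ (fun i => v (f i)) := by
  induction φ generalizing f v with
  | mem i j => exact Iff.rfl
  | eq i j => exact Iff.rfl
  | cls c i => exact Iff.rfl
  | bot => exact Iff.rfl
  | imp φ ψ h1 h2 => exact imp_congr (h1 f v) (h2 f v)
  | all φ h =>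
    refine forall_congr' fun a => imp_congr Iff.rfl ?_
    have e : (fun i => cons a v (lft f i)) = cons a (fun i => v (f i)) := by
      funext i
      cases i <;> rfl
    rw [← e]
    exact h (lft f) (cons a v)

end Pool.Agent.H65C
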