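import Pool.Agent.Lib.H65C.A1

/-!
# Project H65C, chunk A2 (M): closure properties of definable predicates

In all statements the class family `𝒳` must be nonempty (because a formula comes with a sequence of classes of `𝒳`).
For `imp`: take `Z (2 c) = X c`, `Z (2 c + 1) = Y c` and rename the class symbols (`A1_sat` with `g c = 2 c`, `2 c + 1`,
`f = id`); everything else follows from `bot`, `imp`, `all`, `congr` and `ren`.
-/

namespace Pool.Agent.H65C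

open ZFSet

variable {N : Set ZFSet.{0}} {𝒳 : Set (Set ZFSet.{0})} {R S : (ℕ → ZFSet.{0}) → Prop}

theorem a2_cons {a : ZFSet.{0}} {v : ℕ → ZFSet.{0}} (ha : a ∈ N) (hv : ∀ i, v i ∈ N) : ∀ i, cons a v i ∈ N := by
  intro i
  cases i with
  | zero => exact ha
  | succ i => exact hv i

theorem dfn_congr (h : Dfn N 𝒳 R) (hc : ∀ v, (∀ i, v i ∈ N) → (R v ↔ S v)) : Dfn N 𝒳 S := by
  obtain ⟨φ, X, hX, h⟩ := h
  exact ⟨φ, X, hX, fun v hv => (h v hv).trans (hc v hv)⟩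

theorem dfn_mem (h : 𝒳.Nonempty) (i j : ℕ) : Dfn N 𝒳 fun v => v i ∈ v j := by
  obtain ⟨X, hX⟩ := h
  exact ⟨.mem i j, fun _ => X, fun _ => hX, fun v _ => Iff.rfl⟩

theorem dfn_eq (h : 𝒳.Nonempty) (i j : ℕ) : Dfn N 𝒳 fun v => v i = v j := by
  obtain ⟨X, hX⟩ := h
  exact ⟨.eq i j, fun _ => X, fun _ => hX, fun v _ => Iff.rfl⟩

theorem dfn_cls {X : Set ZFSet.{0}} (h : X ∈ 𝒳) (i : ℕ) : Dfn N 𝒳 fun v => v i ∈ X :=
  ⟨.cls 0 i, fun _ => X, fun _ => h, fun v _ => Iff.rfl⟩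

theorem dfn_false (h : 𝒳.Nonempty) : Dfn N 𝒳 fun _ => False := by
  obtain ⟨X, hX⟩ := h
  exact ⟨.bot, fun _ => X, fun _ => hX, fun v _ => Iff.rfl⟩

theorem dfn_imp (hR : Dfn N 𝒳 R) (hS : Dfn N 𝒳 S) : Dfn N 𝒳 fun v => R v → S v := by
  obtain ⟨φ, X, hX, h1⟩ := hR
  obtain ⟨ψ, Y, hY, h2⟩ := hS
  refine ⟨.imp (ren (fun c => 2 * c) id φ) (ren (fun c => 2 * c + 1) id ψ),
    fun c => if c % 2 = 0 then X (c / 2) else Y (c / 2), fun c => ?_, fun v hv => ?_⟩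
  · by_cases hc : c % 2 = 0
    · simp only [hc, if_true]
      exact hX _
    · simp only [hc, if_false]
      exact hY _
  · have e1 : (fun c : ℕ => (fun c : ℕ => if c % 2 = 0 then X (c / 2) else Y (c / 2)) (2 * c)) = X := by
      funext c
      have a1 : 2 * c % 2 = 0 := by omega
      have a2 : 2 * c / 2 = c := by omega
      simp only [a1, a2, if_true]
    have e2 : (fun c : ℕ => (fun c : ℕ => if c % 2 = 0 then X (c / 2) else Y (c / 2)) (2 * c + 1)) = Y := by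
      funext c
      have a1 : ¬ (2 * c + 1) % 2 = 0 := by omega
      have a2 : (2 * c + 1) / 2 = c := by omega
      simp only [a1, a2, if_false]
    have k1 := A1_sat N (fun c : ℕ => if c % 2 = 0 then X (c / 2) else Y (c / 2)) (fun c => 2 * c) id φ v
    have k2 := A1_sat N (fun c : ℕ => if c % 2 = 0 then X (c / 2) else Y (c / 2)) (fun c => 2 * c + 1) id ψ v
    rw [e1] at k1
    rw [e2] at k2
    exact imp_congr (k1.trans (h1 v hv)) (k2.trans (h2 v hv))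

theorem dfn_all (hR : Dfn N 𝒳 R) : Dfn N 𝒳 fun v => ∀ a ∈ N, R (cons a v) := by
  obtain ⟨φ, X, hX, h⟩ := hR
  exact ⟨.all φ, X, hX, fun v hv => forall₂_congr fun a ha => h _ (a2_cons ha hv)⟩

theorem dfn_ren (hR : Dfn N 𝒳 R) (f : ℕ → ℕ) : Dfn N 𝒳 fun v => R fun i => v (f i) := by
  obtain ⟨φ, X, hX, h⟩ := hR
  refine ⟨ren id f φ, X, hX, fun v hv => ?_⟩
  exact (A1_sat N X id f φ v).trans (h _ fun i => hv (f i))

theorem dfn_nonempty (hR : Dfn N 𝒳 R) : 𝒳.Nonempty := by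
  obtain ⟨φ, X, hX, h⟩ := hR
  exact ⟨X 0, hX 0⟩

theorem dfn_true (h : 𝒳.Nonempty) : Dfn N 𝒳 fun _ => True :=
  dfn_congr (dfn_imp (dfn_false h) (dfn_false h)) fun _ _ => by simp

theorem dfn_not (hR : Dfn N 𝒳 R) : Dfn N 𝒳 fun v => ¬ R v :=
  dfn_imp hR (dfn_false (dfn_nonempty hR))

theorem dfn_and (hR : Dfn N 𝒳 R) (hS : Dfn N 𝒳 S) : Dfn N 𝒳 fun v => R v ∧ S v :=
  dfn_congr (dfn_not (dfn_imp hR (dfn_not hS))) fun _ _ => by
    constructor
    · intro h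
      by_contra hc
      exact h fun h1 h2 => hc ⟨h1, h2⟩
    · intro h h1
      exact h1 h.1 h.2

theorem dfn_or (hR : Dfn N 𝒳 R) (hS : Dfn N 𝒳 S) : Dfn N 𝒳 fun v => R v ∨ S v :=
  dfn_congr (dfn_imp (dfn_not hR) hS) fun _ _ => by
    constructor
    · intro h
      by_contra hc
      rw [not_or] at hc
      exact hc.2 (h hc.1)
    · rintro (h | h) h1
      · exact absurd h h1
      · exact h

theorem dfn_iff (hR : Dfn N 𝒳 R) (hS : Dfn N 𝒳 S) : Dfn N 𝒳 fun v => (R v ↔ S v) :=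
  dfn_congr (dfn_and (dfn_imp hR hS) (dfn_imp hS hR)) fun _ _ => ⟨fun h => ⟨h.1, h.2⟩, fun h => ⟨h.1, h.2⟩⟩

theorem dfn_ex (hR : Dfn N 𝒳 R) : Dfn N 𝒳 fun v => ∃ a ∈ N, R (cons a v) :=
  dfn_congr (dfn_not (dfn_all (dfn_not hR))) fun _ _ => by
    constructor
    · intro h
      by_contra hc
      exact h fun a ha hr => hc ⟨a, ha, hr⟩
    · rintro ⟨a, ha, hr⟩ h
      exact h a ha hr

end Pool.Agent.H65C
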