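import Pool.Agent.Lib.H65C.A2

/-!
# Project H65C, chunk A3 (M): definability of pairs

`dfn_ball`, `dfn_bex`: `N` is transitive, so a quantifier over the elements of `v j` is a quantifier over `N`. `dfn_upair`:
`v i = {v j, v k}` iff for all `a ∈ N`, `a ∈ v i ↔ a = v j ∨ a = v k` (transitivity). `dfn_opair`: `pair x y = {{x}, {x, y}}`, with
`{x} = {x, x}`; since `N` is closed under pairing, `z = pair x y` iff there are `a b ∈ N` with `a = {x, x}`, `b = {x, y}`,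
`z = {a, b}`. The others: `∃ z ∈ N, z = pair (v j) (v k) ∧ z ∈ v i`, etc. To use `dfn_ex` for such a predicate give `R` explicitly,
for example `dfn_ex (R := fun w => ...)`, with the variables shifted by one; `cons a v (n + 1) = v n` by `rfl`.
-/

namespace Pool.Agent.H65C

open ZFSet

variable {N : Set ZFSet.{0}} {𝒳 : Set (Set ZFSet.{0})} {R : (ℕ → ZFSet.{0}) → Prop}

theorem base_insert (hN : Base N) {x y : ZFSet.{0}} (hx : x ∈ N) (hy : y ∈ N) : (insert x y : ZFSet.{0}) ∈ N := by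
  have h1 : (⋃₀ ({({x, x} : ZFSet.{0}), y} : ZFSet.{0}) : ZFSet.{0}) ∈ N :=
    hN.union _ (hN.pairing _ (hN.pairing x hx x hx) y hy)
  have h2 : (insert x y : ZFSet.{0}) = ⋃₀ ({({x, x} : ZFSet.{0}), y} : ZFSet.{0}) := by
    ext z
    rw [mem_insert_iff, mem_sUnion]
    constructor
    · rintro (rfl | hz)
      · exact ⟨{z, z}, mem_pair.2 (Or.inl rfl), mem_pair.2 (Or.inl rfl)⟩
      · exact ⟨y, mem_pair.2 (Or.inr rfl), hz⟩
    · rintro ⟨w, hw, hz⟩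
      rcases mem_pair.1 hw with rfl | rfl
      · rcases mem_pair.1 hz with h | h
        · exact Or.inl h
        · exact Or.inl h
      · exact Or.inr hz
  rw [h2]
  exact h1

theorem base_pair (hN : Base N) {x y : ZFSet.{0}} (hx : x ∈ N) (hy : y ∈ N) : pair x y ∈ N := by
  have h1 : ({({x, x} : ZFSet.{0}), ({x, y} : ZFSet.{0})} : ZFSet.{0}) ∈ N :=
    hN.pairing _ (hN.pairing x hx x hx) _ (hN.pairing x hx y hy)
  rw [pair_eq_singleton] at h1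
  exact h1

theorem base_of_pair (hN : Base N) {x y : ZFSet.{0}} (h : pair x y ∈ N) : x ∈ N ∧ y ∈ N := by
  have h1 : ({x, y} : ZFSet.{0}) ∈ pair x y := mem_pair.2 (Or.inr rfl)
  have h2 : ({x, y} : ZFSet.{0}) ∈ N := hN.trans _ h _ h1
  exact ⟨hN.trans _ h2 _ (mem_pair.2 (Or.inl rfl)), hN.trans _ h2 _ (mem_pair.2 (Or.inr rfl))⟩

theorem dfn_ball (hN : Base N) (hR : Dfn N 𝒳 R) (j : ℕ) : Dfn N 𝒳 fun v => ∀ a ∈ v j, R (cons a v) := by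
  have h1 : Dfn N 𝒳 fun v => ∀ a ∈ N, a ∈ v j → R (cons a v) :=
    dfn_all (R := fun w => w 0 ∈ w (j + 1) → R w) (dfn_imp (dfn_mem (dfn_nonempty hR) 0 (j + 1)) hR)
  exact dfn_congr h1 fun v hv => ⟨fun h a ha => h a (hN.trans _ (hv j) a ha) ha, fun h a _ ha => h a ha⟩

theorem dfn_bex (hN : Base N) (hR : Dfn N 𝒳 R) (j : ℕ) : Dfn N 𝒳 fun v => ∃ a ∈ v j, R (cons a v) := by
  have h1 : Dfn N 𝒳 fun v => ∃ a ∈ N, a ∈ v j ∧ R (cons a v) :=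
    dfn_ex (R := fun w => w 0 ∈ w (j + 1) ∧ R w) (dfn_and (dfn_mem (dfn_nonempty hR) 0 (j + 1)) hR)
  exact dfn_congr h1 fun v hv => ⟨fun ⟨a, _, ha, hr⟩ => ⟨a, ha, hr⟩,
    fun ⟨a, ha, hr⟩ => ⟨a, hN.trans _ (hv j) a ha, ha, hr⟩⟩

theorem dfn_upair (hN : Base N) (h : 𝒳.Nonempty) (i j k : ℕ) : Dfn N 𝒳 fun v => v i = {v j, v k} := by
  have h1 : Dfn N 𝒳 fun v => ∀ a ∈ N, (a ∈ v i ↔ (a = v j ∨ a = v k)) :=
    dfn_all (R := fun w => (w 0 ∈ w (i + 1) ↔ (w 0 = w (j + 1) ∨ w 0 = w (k + 1))))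
      (dfn_iff (dfn_mem h 0 (i + 1)) (dfn_or (dfn_eq h 0 (j + 1)) (dfn_eq h 0 (k + 1))))
  refine dfn_congr h1 fun v hv => ⟨fun h2 => ?_, fun h2 a _ => ?_⟩
  · ext a
    rw [mem_pair]
    refine ⟨fun h3 => (h2 a (hN.trans _ (hv i) a h3)).1 h3, fun h3 => ?_⟩
    have h4 : a ∈ N := by
      rcases h3 with rfl | rfl
      · exact hv j
      · exact hv k
    exact (h2 a h4).2 h3
  · rw [h2, mem_pair]

theorem dfn_opair (hN : Base N) (h : 𝒳.Nonempty) (i j k : ℕ) : Dfn N 𝒳 fun v => v i = pair (v j) (v k) := by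
  have h1 : Dfn N 𝒳 fun v => ∃ a ∈ N, ∃ b ∈ N, a = ({v j, v j} : ZFSet.{0}) ∧ (b = ({v j, v k} : ZFSet.{0}) ∧
      v i = ({a, b} : ZFSet.{0})) :=
    dfn_ex (R := fun w => ∃ b ∈ N, w 0 = ({w (j + 1), w (j + 1)} : ZFSet.{0}) ∧
      (b = ({w (j + 1), w (k + 1)} : ZFSet.{0}) ∧ w (i + 1) = ({w 0, b} : ZFSet.{0})))
      (dfn_ex (R := fun w => w 1 = ({w (j + 2), w (j + 2)} : ZFSet.{0}) ∧
        (w 0 = ({w (j + 2), w (k + 2)} : ZFSet.{0}) ∧ w (i + 2) = ({w 1, w 0} : ZFSet.{0})))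
        (dfn_and (dfn_upair hN h 1 (j + 2) (j + 2))
          (dfn_and (dfn_upair hN h 0 (j + 2) (k + 2)) (dfn_upair hN h (i + 2) 1 0))))
  refine dfn_congr h1 fun v hv => ⟨?_, fun h2 => ?_⟩
  · rintro ⟨a, _, b, _, rfl, rfl, h5⟩
    rw [pair_eq_singleton] at h5
    exact h5
  · refine ⟨_, hN.pairing _ (hv j) _ (hv j), _, hN.pairing _ (hv j) _ (hv k), rfl, rfl, ?_⟩
    rw [pair_eq_singleton]
    exact h2

theorem dfn_opair_mem (hN : Base N) (h : 𝒳.Nonempty) (i j k : ℕ) : Dfn N 𝒳 fun v => pair (v j) (v k) ∈ v i := by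
  have h1 : Dfn N 𝒳 fun v => ∃ z ∈ N, z = pair (v j) (v k) ∧ z ∈ v i :=
    dfn_ex (R := fun w => w 0 = pair (w (j + 1)) (w (k + 1)) ∧ w 0 ∈ w (i + 1))
      (dfn_and (dfn_opair hN h 0 (j + 1) (k + 1)) (dfn_mem h 0 (i + 1)))
  refine dfn_congr h1 fun v hv => ⟨?_, fun h2 => ⟨_, base_pair hN (hv j) (hv k), rfl, h2⟩⟩
  rintro ⟨z, _, rfl, h3⟩
  exact h3

theorem dfn_opair_cls (hN : Base N) {X : Set ZFSet.{0}} (h : X ∈ 𝒳) (j k : ℕ) :
    Dfn N 𝒳 fun v => pair (v j) (v k) ∈ X := by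
  have h1 : Dfn N 𝒳 fun v => ∃ z ∈ N, z = pair (v j) (v k) ∧ z ∈ X :=
    dfn_ex (R := fun w => w 0 = pair (w (j + 1)) (w (k + 1)) ∧ w 0 ∈ X)
      (dfn_and (dfn_opair hN ⟨X, h⟩ 0 (j + 1) (k + 1)) (dfn_cls h 0))
  refine dfn_congr h1 fun v hv => ⟨?_, fun h2 => ⟨_, base_pair hN (hv j) (hv k), rfl, h2⟩⟩
  rintro ⟨z, _, rfl, h3⟩
  exact h3

theorem dfn_empty (hN : Base N) (h : 𝒳.Nonempty) (i : ℕ) : Dfn N 𝒳 fun v => v i = ∅ := by
  have h1 : Dfn N 𝒳 fun v => ∀ a ∈ N, a ∈ v i → False :=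
    dfn_all (R := fun w => w 0 ∈ w (i + 1) → False) (dfn_imp (dfn_mem h 0 (i + 1)) (dfn_false h))
  refine dfn_congr h1 fun v hv => ⟨fun h2 => ?_, fun h2 a _ ha => ?_⟩
  · rw [eq_empty]
    exact fun a ha => h2 a (hN.trans _ (hv i) a ha) ha
  · rw [h2] at ha
    exact notMem_empty a ha

/-- `v i = v j ∪ {v j}`. -/
theorem dfn_succ (hN : Base N) (h : 𝒳.Nonempty) (i j : ℕ) : Dfn N 𝒳 fun v => v i = insert (v j) (v j) := by
  have h1 : Dfn N 𝒳 fun v => ∀ a ∈ N, (a ∈ v i ↔ (a = v j ∨ a ∈ v j)) :=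
    dfn_all (R := fun w => (w 0 ∈ w (i + 1) ↔ (w 0 = w (j + 1) ∨ w 0 ∈ w (j + 1))))
      (dfn_iff (dfn_mem h 0 (i + 1)) (dfn_or (dfn_eq h 0 (j + 1)) (dfn_mem h 0 (j + 1))))
  refine dfn_congr h1 fun v hv => ⟨fun h2 => ?_, fun h2 a _ => ?_⟩
  · ext a
    rw [mem_insert_iff]
    refine ⟨fun h3 => (h2 a (hN.trans _ (hv i) a h3)).1 h3, fun h3 => ?_⟩
    have h4 : a ∈ N := by
      rcases h3 with rfl | h3
      · exact hv j
      · exact hN.trans _ (hv j) a h3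
    exact (h2 a h4).2 h3
  · rw [h2, mem_insert_iff]

end Pool.Agent.H65C
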