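import Pool.Agent.Lib.H65C.Work

/-!
# Project H65C, chunk N1 (S): natural numbers as sets
-/

namespace Pool.Agent.H65C

open ZFSet

theorem n1_mk_ofNat (n : ℕ) : ZFSet.mk (PSet.ofNat n) = nat n := by
  induction n with
  | zero => rfl
  | succ n ih =>
    show (insert (ZFSet.mk (PSet.ofNat n)) (ZFSet.mk (PSet.ofNat n)) : ZFSet.{0}) = insert (nat n) (nat n)
    rw [ih]

/-- Proof. `omega = mk PSet.omega`, the elements of `PSet.omega` are the `PSet.ofNat n`, and `mk (PSet.ofNat n) = nat n` by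
induction. -/
theorem N1_mem_omega (x : ZFSet.{0}) : x ∈ omega ↔ ∃ n, x = nat n := by
  constructor
  · intro h
    induction x using Quotient.inductionOn with
    | _ a =>
      obtain ⟨b, hb⟩ : a ∈ PSet.omega := h
      refine ⟨b.down, ?_⟩
      rw [← n1_mk_ofNat]
      exact ZFSet.sound hb
  · rintro ⟨n, rfl⟩
    induction n with
    | zero => exact omega_zero
    | succ n ih => exact omega_succ ih

theorem N1_mem_nat (x : ZFSet.{0}) (n : ℕ) : x ∈ nat n ↔ ∃ m < n, x = nat m := by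
  induction n generalizing x with
  | zero =>
    constructor
    · intro h
      exact absurd h (ZFSet.notMem_empty x)
    · rintro ⟨m, hm, _⟩
      exact absurd hm (Nat.not_lt_zero m)
  | succ n ih =>
    show x ∈ (insert (nat n) (nat n) : ZFSet.{0}) ↔ _
    rw [mem_insert_iff, ih]
    constructor
    · rintro (h | ⟨m, hm, h⟩)
      · exact ⟨n, Nat.lt_succ_self n, h⟩
      · exact ⟨m, hm.trans (Nat.lt_succ_self n), h⟩
    · rintro ⟨m, hm, h⟩
      rcases Nat.lt_succ_iff_lt_or_eq.mp hm with h1 | h1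
      · exact Or.inr ⟨m, h1, h⟩
      · exact Or.inl (h1 ▸ h)

/-- For example by ranks: the rank of `nat n` is `n`; or `m < n` gives `nat m ∈ nat n` and `∈` is irreflexive. -/
theorem N1_inj (m n : ℕ) (h : nat m = nat n) : m = n := by
  by_contra hne
  rcases Nat.lt_or_gt_of_ne hne with h1 | h1
  · have h2 : nat m ∈ nat n := (N1_mem_nat _ _).mpr ⟨m, h1, rfl⟩
    rw [h] at h2
    exact mem_irrefl _ h2
  · have h2 : nat n ∈ nat m := (N1_mem_nat _ _).mpr ⟨n, h1, rfl⟩
    rw [h] at h2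
    exact mem_irrefl _ h2

/-- Proof. If `x ≠ y` then `x ∈ y` and `y ∈ x`, against `mem_asymm`. -/
theorem N1_succ_inj (x y : ZFSet.{0}) (h : (insert x x : ZFSet.{0}) = insert y y) : x = y := by
  by_contra hne
  have h1 : x ∈ (insert y y : ZFSet.{0}) := by
    rw [← h, mem_insert_iff]; exact Or.inl rfl
  have h2 : y ∈ (insert x x : ZFSet.{0}) := by
    rw [h, mem_insert_iff]; exact Or.inl rfl
  rw [mem_insert_iff] at h1 h2
  rcases h1 with h1 | h1
  · exact hne h1
  · rcases h2 with h2 | h2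
    · exact hne h2.symm
    · exact mem_asymm h1 h2

theorem N1_trans (x y : ZFSet.{0}) (h : x ∈ omega) (hy : y ∈ x) : y ∈ omega := by
  obtain ⟨n, rfl⟩ := (N1_mem_omega x).mp h
  obtain ⟨m, _, rfl⟩ := (N1_mem_nat y n).mp hy
  exact (N1_mem_omega _).mpr ⟨m, rfl⟩

theorem N1_nat_mem {N : Set ZFSet.{0}} (hN : Base N) (n : ℕ) : nat n ∈ N := by
  exact hN.trans _ hN.infinity _ ((N1_mem_omega _).mpr ⟨n, rfl⟩)

theorem N1_base {N : Set ZFSet.{0}} (hN : ZFCModel N) : Base N := by
  exact ⟨hN.trans, hN.pairing, hN.union, hN.infinity⟩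

end Pool.Agent.H65C
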