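import Pool.Agent.Lib.H65C.A3
import Pool.Agent.Lib.H65C.N1

/-!
# Project H65C, chunk A4 (S/M): definability of ω
-/

namespace Pool.Agent.H65C

open ZFSet

variable {N : Set ZFSet.{0}} {𝒳 : Set (Set ZFSet.{0})}

/-- Proof. (→) clear, with `N1_mem_omega`. (←) `ω ⊆ w` by induction. If `y ∈ w` is not in `ω`, take such a `y` of least rank (or use
`ZFSet.inductionOn`): `y ≠ ∅`, so `y = insert z z` with `z ∈ w`; `z ∈ y`, so `z ∈ ω` by minimality and then `y ∈ ω`. -/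
theorem A4_omega (w : ZFSet.{0}) : w = omega ↔
    (∅ ∈ w ∧ (∀ y ∈ w, (insert y y : ZFSet.{0}) ∈ w) ∧ ∀ y ∈ w, y = ∅ ∨ ∃ z ∈ w, y = insert z z) := by
  constructor
  · rintro rfl
    refine ⟨(N1_mem_omega _).2 ⟨0, rfl⟩, fun y hy => ?_, fun y hy => ?_⟩
    · obtain ⟨n, rfl⟩ := (N1_mem_omega _).1 hy
      exact (N1_mem_omega _).2 ⟨n + 1, rfl⟩
    · obtain ⟨n, rfl⟩ := (N1_mem_omega _).1 hy
      rcases n with _ | n
      · exact Or.inl rfl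
      · exact Or.inr ⟨nat n, (N1_mem_omega _).2 ⟨n, rfl⟩, rfl⟩
  · rintro ⟨h1, h2, h3⟩
    ext x
    constructor
    · refine ZFSet.inductionOn (p := fun x => x ∈ w → x ∈ omega) x fun y ih hy => ?_
      rcases h3 y hy with rfl | ⟨z, hz, rfl⟩
      · exact (N1_mem_omega _).2 ⟨0, rfl⟩
      · obtain ⟨n, rfl⟩ := (N1_mem_omega _).1 (ih z (ZFSet.mem_insert_iff.2 (Or.inl rfl)) hz)
        exact (N1_mem_omega _).2 ⟨n + 1, rfl⟩
    · intro hx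
      obtain ⟨n, rfl⟩ := (N1_mem_omega _).1 hx
      clear hx
      induction n with
      | zero => exact h1
      | succ n ih => exact h2 _ ih

/-- From `A4_omega`: inside `N`, `∅ ∈ w` is `∃ a ∈ N, a = ∅ ∧ a ∈ w` (`∅ ∈ N` by `N1_nat_mem`), `insert y y ∈ w` is
`∃ a ∈ N, a = insert y y ∧ a ∈ w`. -/
theorem dfn_omega (hN : Base N) (h : 𝒳.Nonempty) (i : ℕ) : Dfn N 𝒳 fun v => v i = omega := by
  refine dfn_congr (dfn_and (dfn_bex hN (dfn_empty hN h 0) i) (dfn_and (dfn_ball hN (dfn_bex hN (dfn_succ hN h 0 1) (i + 1)) i)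
    (dfn_ball hN (dfn_or (dfn_empty hN h 0) (dfn_bex hN (dfn_succ hN h 1 0) (i + 1))) i))) fun v _ => ?_
  have h0 : ((∃ a ∈ v i, a = ∅) ∧ (∀ y ∈ v i, ∃ a ∈ v i, a = (insert y y : ZFSet.{0})) ∧
      ∀ y ∈ v i, y = ∅ ∨ ∃ z ∈ v i, y = insert z z) ↔ v i = omega := by
    rw [A4_omega (v i)]
    constructor
    · rintro ⟨⟨a, ha, rfl⟩, h2, h3⟩
      refine ⟨ha, fun y hy => ?_, h3⟩
      obtain ⟨b, hb, rfl⟩ := h2 y hy
      exact hb
    · rintro ⟨h1, h2, h3⟩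
      exact ⟨⟨∅, h1, rfl⟩, fun y hy => ⟨_, h2 y hy, rfl⟩, h3⟩
  exact h0

/-- `∃ w ∈ N, w = ω ∧ v i ∈ w`. -/
theorem dfn_mem_omega (hN : Base N) (h : 𝒳.Nonempty) (i : ℕ) : Dfn N 𝒳 fun v => v i ∈ omega := by
  refine dfn_congr (dfn_ex (dfn_and (dfn_omega hN h 0) (dfn_mem h (i + 1) 0))) fun v _ => ?_
  have h0 : (∃ a ∈ N, a = omega ∧ v i ∈ a) ↔ v i ∈ omega := by
    constructor
    · rintro ⟨a, -, rfl, h1⟩
      exact h1
    · intro h1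
      exact ⟨omega, hN.infinity, rfl, h1⟩
  exact h0

end Pool.Agent.H65C
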