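import Pool.Agent.Lib.H65C.G4

/-!
# Project H65C, chunk E1 (S): monotonicity
-/

namespace Pool.Agent.H65C

open ZFSet

variable {C : Set (Set ZFSet.{0})} {P L : Set ZFSet.{0}}

theorem E1_dg (hF : ClassForcing C P L) {t : ℕ} {q r u : ZFSet.{0}} (h : Dg L t q u) (hr : pair r q ∈ L) :
    Dg L t r u := by
  intro ht
  obtain ⟨n, hn⟩ := h ht
  exact ⟨n, G4_W0_mono hF hn hr⟩

theorem e1_oc (hF : ClassForcing C P L) {q r u w : ZFSet.{0}} (h : Oc L q w u) (hr : pair r q ∈ L) :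
    Oc L r w u := by
  obtain ⟨p, h1, h2⟩ := h
  exact ⟨p, h1, hF.trans _ _ _ hr h2⟩

theorem e1_refl (hF : ClassForcing C P L) {q r : ZFSet.{0}} (hr : pair r q ∈ L) : pair r r ∈ L := by
  obtain ⟨p, hp, q', hq', h⟩ := hF.rel _ hr
  obtain ⟨h1, h2⟩ := pair_inj.1 h
  rw [h1]
  exact hF.refl p hp

theorem E1_num (hF : ClassForcing C P L) {t : ℕ} {q r u z : ZFSet.{0}} (h : NUM L t q u z) (hr : pair r q ∈ L) :
    NUM L t r u z := by
  cases t with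
  | zero =>
    obtain ⟨n, h1, h2⟩ := h
    exact ⟨n, h1, G4_W0_mono hF h2 hr⟩
  | succ t =>
    obtain ⟨h1, h2⟩ := h
    exact ⟨fun m hm r1 hr1 => h1 m hm r1 (hF.trans _ _ _ hr1 hr),
      fun r1 hr1 => h2 r1 (hF.trans _ _ _ hr1 hr)⟩

theorem E1_eq (hF : ClassForcing C P L) {t s : ℕ} {q r u w : ZFSet.{0}} (h : EQ L t s q u w) (hr : pair r q ∈ L) :
    EQ L t s r u w := by
  cases t with
  | zero =>
    cases s with
    | zero =>
      obtain ⟨z, hz, h1, h2⟩ := h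
      exact ⟨z, hz, E1_num hF h1 hr, E1_num hF h2 hr⟩
    | succ s =>
      obtain ⟨z, hz, h1, h2⟩ := h
      exact ⟨z, hz, E1_num hF h1 hr, E1_num hF h2 hr⟩
  | succ t =>
    cases s with
    | zero =>
      obtain ⟨z, hz, h1, h2⟩ := h
      exact ⟨z, hz, E1_num hF h1 hr, E1_num hF h2 hr⟩
    | succ s =>
      obtain ⟨h1, h2⟩ := h
      exact ⟨fun r1 hr1 => h1 r1 (hF.trans _ _ _ hr1 hr),
        fun r1 hr1 => h2 r1 (hF.trans _ _ _ hr1 hr)⟩

theorem E1_mem (hF : ClassForcing C P L) {t s : ℕ} {q r u w : ZFSet.{0}} (h : MEM L t s q u w) (hr : pair r q ∈ L) :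
    MEM L t s r u w :=
  fun r1 hr1 => h r1 (hF.trans _ _ _ hr1 hr)

/-- Density implies the relation; here and below use `G2`-style facts `refl`, `trans` of `ClassForcing` (if `pair r q ∈ L` then
`r ∈ P` by `rel` and `pair_inj`). Note that `h` is applied to `r ≤ q` first, then the clause to the condition itself. -/
theorem E1_eq_dense (hF : ClassForcing C P L) {t s : ℕ} {q u w : ZFSet.{0}}
    (h : ∀ r, pair r q ∈ L → ∃ r', pair r' r ∈ L ∧ EQ L (t + 1) (s + 1) r' u w) : EQ L (t + 1) (s + 1) q u w := by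
  refine ⟨?_, ?_⟩
  · intro r hr u' hu' hd
    obtain ⟨r1, hr1, h1, _⟩ := h r hr
    obtain ⟨r2, hr2, w', hw', he⟩ := h1 r1 (e1_refl hF hr1) u' (e1_oc hF hu' hr1) (E1_dg hF hd hr1)
    exact ⟨r2, hF.trans _ _ _ hr2 hr1, w', hw', he⟩
  · intro r hr w' hw' hd
    obtain ⟨r1, hr1, _, h2⟩ := h r hr
    obtain ⟨r2, hr2, u', hu', he⟩ := h2 r1 (e1_refl hF hr1) w' (e1_oc hF hw' hr1) (E1_dg hF hd hr1)
    exact ⟨r2, hF.trans _ _ _ hr2 hr1, u', hu', he⟩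

theorem E1_mem_dense (hF : ClassForcing C P L) {t s : ℕ} {q u w : ZFSet.{0}}
    (h : ∀ r, pair r q ∈ L → ∃ r', pair r' r ∈ L ∧ MEM L t s r' u w) : MEM L t s q u w := by
  intro r hr
  obtain ⟨r1, hr1, h1⟩ := h r hr
  obtain ⟨r2, hr2, w', hw', he⟩ := h1 r1 (e1_refl hF hr1)
  exact ⟨r2, hF.trans _ _ _ hr2 hr1, w', hw', he⟩

end Pool.Agent.H65C
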