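import Pool.Agent.Lib.H65C.N1

/-!
# Project H65C, chunk G1 (S): names, values, the extension
-/

namespace Pool.Agent.H65C

open ZFSet

theorem G1_empty_name (P : Set ZFSet.{0}) : IsName P ∅ := by
  exact IsName.mk ∅ (fun z hz => absurd hz (ZFSet.notMem_empty z))
    (fun τ p h => absurd h (ZFSet.notMem_empty _))

theorem G1_val_empty (G : Set ZFSet.{0}) : val G ∅ = ∅ := by
  ext x
  rw [mem_val]
  constructor
  · rintro ⟨τ, p, _, h, _⟩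
    exact absurd h (ZFSet.notMem_empty _)
  · intro h
    exact absurd h (ZFSet.notMem_empty _)

theorem G1_sub {P : Set ZFSet.{0}} {σ : ZFSet.{0}} (h : IsName P σ) {τ p : ZFSet.{0}} (hp : pair τ p ∈ σ) :
    IsName P τ ∧ p ∈ P := by
  obtain ⟨_, h1, h2⟩ := h
  refine ⟨h2 τ p hp, ?_⟩
  obtain ⟨τ', p', hp', he⟩ := h1 _ hp
  rw [(pair_inj.mp he).2]
  exact hp'

/-- If `(τ, p) ∈ σ ∈ M` then `τ, p ∈ M` (`M` transitive). -/
theorem G1_mem {M : Set ZFSet.{0}} (hM : Base M) {σ τ p : ZFSet.{0}} (h : σ ∈ M) (hp : pair τ p ∈ σ) : τ ∈ M ∧ p ∈ M := by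
  have h0 : pair τ p ∈ M := hM.trans σ h _ hp
  have h1 : ({τ} : ZFSet.{0}) ∈ M := hM.trans _ h0 _ (by simp [pair])
  have h2 : ({τ, p} : ZFSet.{0}) ∈ M := hM.trans _ h0 _ (by simp [pair])
  exact ⟨hM.trans _ h1 _ (by simp), hM.trans _ h2 _ (by simp)⟩

/-- An element of `σ^G`, for `σ ∈ M` a name, is `τ^G` for a name `τ ∈ M` with `(τ, p) ∈ σ`, `p ∈ G`. -/
theorem G1_elt {M P G : Set ZFSet.{0}} (hM : Base M) {σ : ZFSet.{0}} (h : σ ∈ M) (hn : IsName P σ) {x : ZFSet.{0}}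
    (hx : x ∈ val G σ) : ∃ τ ∈ M, IsName P τ ∧ x = val G τ ∧ ∃ p ∈ G, pair τ p ∈ σ := by
  obtain ⟨τ, p, hp, hτ, hx⟩ := (mem_val G σ x).mp hx
  exact ⟨τ, (G1_mem hM h hτ).1, (G1_sub hn hτ).1, hx, p, hp, hτ⟩

theorem G1_trans {M P G : Set ZFSet.{0}} (hM : Base M) : ∀ x ∈ MG M P G, ∀ y ∈ x, y ∈ MG M P G := by
  rintro x ⟨σ, hσ, hn, rfl⟩ y hy
  obtain ⟨τ, hτ, hτn, hy, _⟩ := G1_elt hM hσ hn hy
  exact ⟨τ, hτ, hτn, hy⟩

/-- `Oc` is monotone, and a `q ∈ G` with `Oc L q w u` gives `w^G ∈ u^G`. -/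
theorem G1_oc_mono {C : Set (Set ZFSet.{0})} {P L : Set ZFSet.{0}} (hF : ClassForcing C P L) {q r w u : ZFSet.{0}}
    (h : Oc L q w u) (hr : pair r q ∈ L) : Oc L r w u := by
  obtain ⟨p, hp, hq⟩ := h
  exact ⟨p, hp, hF.trans r q p hr hq⟩

theorem G1_oc_val {C : Set (Set ZFSet.{0})} {P L G : Set ZFSet.{0}} (hG : Generic C P L G) {q w u : ZFSet.{0}}
    (h : Oc L q w u) (hq : q ∈ G) : val G w ∈ val G u := by
  obtain ⟨p, hp, hqp⟩ := h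
  exact (mem_val G u _).mpr ⟨w, p, hG.up q hq p hqp, hp, rfl⟩

theorem G1_oc_mem {M : Set ZFSet.{0}} {P L : Set ZFSet.{0}} (hM : Base M) {q w u : ZFSet.{0}}
    (h : Oc L q w u) (hu : u ∈ M) : w ∈ M ∧ (IsName P u → IsName P w) := by
  obtain ⟨p, hp, _⟩ := h
  exact ⟨(G1_mem hM hu hp).1, fun hn => (G1_sub hn hp).1⟩

/-- Conversely `x ∈ u^G` gives `w` with `x = w^G` and a `q ∈ G` with `Oc L q w u`. -/
theorem G1_val_oc {C : Set (Set ZFSet.{0})} {P L G : Set ZFSet.{0}} (hF : ClassForcing C P L) (hG : Generic C P L G)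
    {u x : ZFSet.{0}} (hx : x ∈ val G u) : ∃ w, x = val G w ∧ ∃ q ∈ G, Oc L q w u := by
  obtain ⟨w, p, hp, hw, hx⟩ := (mem_val G u x).mp hx
  exact ⟨w, hx, p, hp, p, hw, hF.refl p (hG.sub hp)⟩

end Pool.Agent.H65C
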