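import Pool.Agent.Lib.H65C.A3
import Pool.Agent.Lib.H65C.G1

/-!
# Project H65C, chunk G2 (S/M): classes of conditions and genericity
-/

namespace Pool.Agent.H65C

open ZFSet

/-- `Q` is a class in `C`. -/
def Cl (M : Set ZFSet.{0}) (C : Set (Set ZFSet.{0})) (Q : ZFSet.{0} → Prop) : Prop := {a | a ∈ M ∧ Q a} ∈ C

variable {M : Set ZFSet.{0}} {C : Set (Set ZFSet.{0})} {P L G : Set ZFSet.{0}}

/-- From comprehension. -/
theorem G2_cl (hB : GBModel M C) {R : (ℕ → ZFSet.{0}) → Prop} (hR : Dfn M C R) {v : ℕ → ZFSet.{0}} (hv : ∀ i, v i ∈ M) :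
    Cl M C fun a => R (cons a v) := by
  obtain ⟨φ, X, hX, h⟩ := hR
  have h1 := hB.comprehension φ X hX v hv
  have h2 : {a | a ∈ M ∧ Sat M X φ (cons a v)} = {a | a ∈ M ∧ R (cons a v)} := by
    ext a
    constructor
    · rintro ⟨ha, hs⟩
      exact ⟨ha, (h _ (fun i => by cases i with
        | zero => exact ha
        | succ n => exact hv n)).mp hs⟩
    · rintro ⟨ha, hs⟩
      exact ⟨ha, (h _ (fun i => by cases i with
        | zero => exact ha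
        | succ n => exact hv n)).mpr hs⟩
  rw [h2] at h1
  exact h1

theorem G2_sub (hB : GBModel M C) (hF : ClassForcing C P L) {p q : ZFSet.{0}} (h : pair p q ∈ L) :
    p ∈ P ∧ q ∈ P ∧ p ∈ M ∧ q ∈ M := by
  obtain ⟨p', hp', q', hq', he⟩ := hF.rel _ h
  obtain ⟨h1, h2⟩ := pair_inj.mp he
  subst h1; subst h2
  exact ⟨hp', hq', hB.sub P hF.carrier hp', hB.sub P hF.carrier hq'⟩

/-- Proof. Let `X = {a ∈ M | Q a}`. The class `D = {p ∈ P | p ∈ X or no r ≤ p is in X}` is in `C` (comprehension, the formula uses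
the classes `P`, `L`, `X`; `dfn_cls`, `dfn_opair_cls` and `A2`) and dense. -/
theorem G2_decide (hB : GBModel M C) (hF : ClassForcing C P L) (hG : Generic C P L G) {Q : ZFSet.{0} → Prop}
    (hQ : Cl M C Q) : ∃ q ∈ G, Q q ∨ ∀ r, pair r q ∈ L → ¬ Q r := by
  have hω : ∀ i : ℕ, (fun _ : ℕ => omega) i ∈ M := fun _ => hB.zfc.infinity
  have hD : Dfn M C fun v => v 0 ∈ P ∧ (v 0 ∈ {a | a ∈ M ∧ Q a} ∨
      ∀ r ∈ M, (fun w : ℕ → ZFSet.{0} => pair (w 0) (w 1) ∈ L → ¬ w 0 ∈ {a | a ∈ M ∧ Q a}) (cons r v)) :=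
    dfn_and (dfn_cls hF.carrier 0) (dfn_or (dfn_cls hQ 0)
      (dfn_all (dfn_imp (dfn_opair_cls (N1_base hB.zfc) hF.order 0 1) (dfn_not (dfn_cls hQ 0)))))
  have hC := G2_cl hB hD hω
  obtain ⟨q, hq, hqG⟩ := hG.dense _ hC (fun a ha => ha.2.1) (by
    intro p hp
    by_cases h : ∃ r, pair r p ∈ L ∧ Q r
    · obtain ⟨r, hr, hQr⟩ := h
      obtain ⟨h1, _, h3, _⟩ := G2_sub hB hF hr
      exact ⟨r, ⟨h3, h1, Or.inl ⟨h3, hQr⟩⟩, hr⟩
    · refine ⟨p, ⟨hB.sub P hF.carrier hp, hp, Or.inr ?_⟩, hF.refl p hp⟩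
      intro r hr hrp hrQ
      exact h ⟨r, hrp, hrQ.2⟩)
  refine ⟨q, hqG, ?_⟩
  rcases hq.2.2 with h | h
  · exact Or.inl h.2
  · refine Or.inr fun r hr hQr => ?_
    obtain ⟨_, _, h3, _⟩ := G2_sub hB hF hr
    exact h r h3 hr ⟨h3, hQr⟩

/-- Proof. `G2_decide` gives `q' ∈ G`; take `r ∈ G` below `q` and `q'` and a `r' ≤ r` with `Q r'`: this excludes the second
alternative. -/
theorem G2_below (hB : GBModel M C) (hF : ClassForcing C P L) (hG : Generic C P L G) {Q : ZFSet.{0} → Prop}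
    (hQ : Cl M C Q) {q : ZFSet.{0}} (hq : q ∈ G) (h : ∀ r, pair r q ∈ L → ∃ r', pair r' r ∈ L ∧ Q r') : ∃ r ∈ G, Q r := by
  obtain ⟨q', hq', h1⟩ := G2_decide hB hF hG hQ
  rcases h1 with h1 | h1
  · exact ⟨q', hq', h1⟩
  · obtain ⟨r, _, hr1, hr2⟩ := hG.dir q hq q' hq'
    obtain ⟨r', hr', hQ'⟩ := h r hr1
    exact absurd hQ' (h1 r' (hF.trans _ _ _ hr' hr2))

/-- The generic filter is nonempty (it meets the class `P`). -/
theorem G2_nonempty (hF : ClassForcing C P L) (hG : Generic C P L G) : ∃ q, q ∈ G := by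
  obtain ⟨q, _, hq⟩ := hG.dense P hF.carrier subset_rfl (fun p hp => ⟨p, hp, hF.refl p hp⟩)
  exact ⟨q, hq⟩

end Pool.Agent.H65C
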