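import Pool.Agent.Lib.H65C.K1
import Pool.Agent.Lib.H65C.G2
import Pool.Agent.Lib.H65C.E1

/-!
# Project H65C, chunk D1 (M): definability of the forcing relations, first part
-/

namespace Pool.Agent.H65C

open ZFSet

variable {M : Set ZFSet.{0}} {C : Set (Set ZFSet.{0})} {P L : Set ZFSet.{0}} {R : (ℕ → ZFSet.{0}) → Prop}

/-- `pair r (v i) ∈ L` gives `r ∈ M` (`G2_sub`), so the quantifier can be restricted to `M`. -/
theorem D1_all (hB : GBModel M C) (hF : ClassForcing C P L) (hR : Dfn M C R) (i : ℕ) :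
    Dfn M C fun v => ∀ r, pair r (v i) ∈ L → R (cons r v) := by
  refine dfn_congr (dfn_all (R := fun w => pair (w 0) (w (i + 1)) ∈ L → R w)
    (dfn_imp (dfn_opair_cls (N1_base hB.zfc) hF.order 0 (i + 1)) hR)) fun v _ => ?_
  constructor
  · intro h r hr
    exact h r (G2_sub hB hF hr).2.2.1 hr
  · intro h r _ hr
    exact h r hr

theorem D1_ex (hB : GBModel M C) (hF : ClassForcing C P L) (hR : Dfn M C R) (i : ℕ) :
    Dfn M C fun v => ∃ r, pair r (v i) ∈ L ∧ R (cons r v) := by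
  refine dfn_congr (dfn_ex (R := fun w => pair (w 0) (w (i + 1)) ∈ L ∧ R w)
    (dfn_and (dfn_opair_cls (N1_base hB.zfc) hF.order 0 (i + 1)) hR)) fun v _ => ?_
  constructor
  · rintro ⟨r, _, hr, h⟩
    exact ⟨r, hr, h⟩
  · rintro ⟨r, hr, h⟩
    exact ⟨r, (G2_sub hB hF hr).2.2.1, hr, h⟩

theorem D1_oc (hB : GBModel M C) (hF : ClassForcing C P L) (i j k : ℕ) : Dfn M C fun v => Oc L (v i) (v j) (v k) := by
  have hM := N1_base hB.zfc
  have hn : C.Nonempty := ⟨L, hF.order⟩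
  refine dfn_congr (dfn_ex (R := fun w => pair (w (j + 1)) (w 0) ∈ w (k + 1) ∧ pair (w (i + 1)) (w 0) ∈ L)
    (dfn_and (dfn_opair_mem hM hn (k + 1) (j + 1) 0) (dfn_opair_cls hM hF.order (i + 1) 0))) fun v _ => ?_
  constructor
  · rintro ⟨p, _, h1, h2⟩
    exact ⟨p, h1, h2⟩
  · rintro ⟨p, h1, h2⟩
    exact ⟨p, (G2_sub hB hF h2).2.2.2, h1, h2⟩

theorem D1_oc_all (hB : GBModel M C) (hF : ClassForcing C P L) (hR : Dfn M C R) (i k : ℕ) :
    Dfn M C fun v => ∀ w, Oc L (v i) w (v k) → R (cons w v) := by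
  refine dfn_congr (dfn_all (R := fun x => Oc L (x (i + 1)) (x 0) (x (k + 1)) → R x)
    (dfn_imp (D1_oc hB hF (i + 1) 0 (k + 1)) hR)) fun v hv => ?_
  constructor
  · intro h w hw
    exact h w (G1_oc_mem (P := P) (N1_base hB.zfc) hw (hv k)).1 hw
  · intro h w _ hw
    exact h w hw

theorem D1_oc_ex (hB : GBModel M C) (hF : ClassForcing C P L) (hR : Dfn M C R) (i k : ℕ) :
    Dfn M C fun v => ∃ w, Oc L (v i) w (v k) ∧ R (cons w v) := by
  refine dfn_congr (dfn_ex (R := fun x => Oc L (x (i + 1)) (x 0) (x (k + 1)) ∧ R x)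
    (dfn_and (D1_oc hB hF (i + 1) 0 (k + 1)) hR)) fun v hv => ?_
  constructor
  · rintro ⟨w, _, hw, h⟩
    exact ⟨w, hw, h⟩
  · rintro ⟨w, hw, h⟩
    exact ⟨w, (G1_oc_mem (P := P) (N1_base hB.zfc) hw (hv k)).1, hw, h⟩

/-- From `K1_dfn` with `S = fun w => Oc L (w (i + 2)) (w 0) (w 1)`. -/
theorem D1_wc (hB : GBModel M C) (hF : ClassForcing C P L) (i j k : ℕ) :
    Dfn M C fun v => ∃ n, v k = nat n ∧ Wc L (v i) (v j) n := by
  exact K1_dfn (N1_base hB.zfc) (S := fun w => Oc L (w (i + 2)) (w 0) (w 1)) (D1_oc hB hF (i + 2) 0 1)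
    (fun v _ x hx y h => (G1_oc_mem (P := P) (N1_base hB.zfc) h hx).1) j k

theorem D1_w0 (hB : GBModel M C) (hF : ClassForcing C P L) (i j k : ℕ) :
    Dfn M C fun v => NUM L 0 (v i) (v j) (v k) := by
  have hM := N1_base hB.zfc
  have hn : C.Nonempty := ⟨L, hF.order⟩
  have d1 : Dfn M C fun w => ¬ ∃ a ∈ M, a = insert (w (k + 1)) (w (k + 1)) ∧ ∃ n, a = nat n ∧ Wc L (w 0) (w (j + 1)) n :=
    dfn_not (dfn_ex (R := fun x => x 0 = insert (x (k + 2)) (x (k + 2)) ∧ ∃ n, x 0 = nat n ∧ Wc L (x 1) (x (j + 2)) n)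
      (dfn_and (dfn_succ hM hn 0 (k + 2)) (D1_wc hB hF 1 (j + 2) 0)))
  refine dfn_congr (dfn_and (D1_wc hB hF i j k) (D1_all hB hF d1 i)) fun v hv => ?_
  constructor
  · rintro ⟨⟨n, h1, h2⟩, h3⟩
    refine ⟨n, h1, h2, fun r hr hw => h3 r hr ?_⟩
    refine ⟨insert (v k) (v k), base_insert hM (hv k) (hv k), rfl, n + 1, ?_, hw⟩
    rw [h1]
    rfl
  · rintro ⟨n, h1, h2, h3⟩
    refine ⟨⟨n, h1, h2⟩, fun r hr hw => ?_⟩
    obtain ⟨a, _, ha, m, hm, hw⟩ := hw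
    have h4 : nat m = nat (n + 1) := by
      rw [← hm, ha]
      show (insert (v k) (v k) : ZFSet.{0}) = insert (nat n) (nat n)
      rw [h1]
    rw [N1_inj _ _ h4] at hw
    exact h3 r hr hw

/-- For `t = 0`: `∃ z ∈ M, NUM L 0 (v i) (v j) z`. -/
theorem D1_dg (hB : GBModel M C) (hF : ClassForcing C P L) (t i j : ℕ) : Dfn M C fun v => Dg L t (v i) (v j) := by
  have hM := N1_base hB.zfc
  rcases t with _ | t
  · refine dfn_congr (dfn_ex (R := fun w => NUM L 0 (w (i + 1)) (w (j + 1)) (w 0)) (D1_w0 hB hF (i + 1) (j + 1) 0))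
      fun v _ => ?_
    constructor
    · rintro ⟨z, _, n, _, h⟩ _
      exact ⟨n, h⟩
    · intro h
      obtain ⟨n, hn⟩ := h rfl
      exact ⟨nat n, N1_nat_mem hM n, n, rfl, hn⟩
  · refine dfn_congr (dfn_true ⟨L, hF.order⟩) fun v _ => ?_
    constructor
    · intro _ h
      exact absurd h (Nat.succ_ne_zero t)
    · intro _
      trivial

/-- Induction on `t`. -/
theorem D1_num (hB : GBModel M C) (hF : ClassForcing C P L) (t i j k : ℕ) :
    Dfn M C fun v => NUM L t (v i) (v j) (v k) := by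
  have hM := N1_base hB.zfc
  induction t generalizing i j k with
  | zero => exact D1_w0 hB hF i j k
  | succ t ih =>
    have e1 : Dfn M C fun v => ∃ w, Oc L (v 0) w (v (j + 3)) ∧ NUM L t (v 0) w (v 2) :=
      D1_oc_ex (R := fun x => NUM L t (x 1) (x 0) (x 3)) hB hF (ih 1 0 3) 0 (j + 3)
    have e2 : Dfn M C fun v => ∃ r', pair r' (v 0) ∈ L ∧ ∃ w, Oc L r' w (v (j + 2)) ∧ NUM L t r' w (v 1) :=
      D1_ex (R := fun x => ∃ w, Oc L (x 0) w (x (j + 3)) ∧ NUM L t (x 0) w (x 2)) hB hF e1 0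
    have e3 : Dfn M C fun v => ∀ r, pair r (v (i + 1)) ∈ L →
        ∃ r', pair r' r ∈ L ∧ ∃ w, Oc L r' w (v (j + 1)) ∧ NUM L t r' w (v 0) :=
      D1_all (R := fun x => ∃ r', pair r' (x 0) ∈ L ∧ ∃ w, Oc L r' w (x (j + 2)) ∧ NUM L t r' w (x 1)) hB hF e2 (i + 1)
    have e4 : Dfn M C fun v => ∀ m ∈ v k, ∀ r, pair r (v i) ∈ L →
        ∃ r', pair r' r ∈ L ∧ ∃ w, Oc L r' w (v j) ∧ NUM L t r' w m :=
      dfn_ball (R := fun x => ∀ r, pair r (x (i + 1)) ∈ L →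
        ∃ r', pair r' r ∈ L ∧ ∃ w, Oc L r' w (x (j + 1)) ∧ NUM L t r' w (x 0)) hM e3 k
    have f1 : Dfn M C fun v => ∃ m ∈ v (k + 3), NUM L t (v 0) (v 1) m :=
      dfn_bex (R := fun x => NUM L t (x 1) (x 2) (x 0)) hM (ih 1 2 0) (k + 3)
    have f2 : Dfn M C fun v => ∃ r', pair r' (v 1) ∈ L ∧ ∃ m ∈ v (k + 2), NUM L t r' (v 0) m :=
      D1_ex (R := fun x => ∃ m ∈ x (k + 3), NUM L t (x 0) (x 1) m) hB hF f1 1
    have f3 : Dfn M C fun v => ∀ w, Oc L (v 0) w (v (j + 1)) → Dg L t (v 0) w →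
        ∃ r', pair r' (v 0) ∈ L ∧ ∃ m ∈ v (k + 1), NUM L t r' w m :=
      D1_oc_all (R := fun x => Dg L t (x 1) (x 0) → ∃ r', pair r' (x 1) ∈ L ∧ ∃ m ∈ x (k + 2), NUM L t r' (x 0) m)
        hB hF (dfn_imp (D1_dg hB hF t 1 0) f2) 0 (j + 1)
    have f4 : Dfn M C fun v => ∀ r, pair r (v i) ∈ L → ∀ w, Oc L r w (v j) → Dg L t r w →
        ∃ r', pair r' r ∈ L ∧ ∃ m ∈ v k, NUM L t r' w m :=
      D1_all (R := fun x => ∀ w, Oc L (x 0) w (x (j + 1)) → Dg L t (x 0) w →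
        ∃ r', pair r' (x 0) ∈ L ∧ ∃ m ∈ x (k + 1), NUM L t r' w m) hB hF f3 i
    exact dfn_and e4 f4

end Pool.Agent.H65C
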