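import Pool.Agent.Lib.H65C.D1

/-!
# Project H65C, chunk D2 (S/M): definability of the forcing relations, second part
-/

namespace Pool.Agent.H65C

open ZFSet

variable {M : Set ZFSet.{0}} {C : Set (Set ZFSet.{0})} {P L : Set ZFSet.{0}}

theorem d2_base (hB : GBModel M C) : Base M := ⟨hB.zfc.trans, hB.zfc.pairing, hB.zfc.union, hB.zfc.infinity⟩

theorem d2_omega_ex (hB : GBModel M C) {R : (ℕ → ZFSet.{0}) → Prop} (hR : Dfn M C R) :
    Dfn M C fun v => ∃ z ∈ omega, R (cons z v) := by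
  refine dfn_congr (dfn_ex (R := fun w => w 0 ∈ omega ∧ R w)
    (dfn_and (dfn_mem_omega (d2_base hB) (dfn_nonempty hR) 0) hR)) fun v _ => ?_
  constructor
  · rintro ⟨a, _, h1, h2⟩
    exact ⟨a, h1, h2⟩
  · rintro ⟨a, h1, h2⟩
    exact ⟨a, (d2_base hB).trans _ (d2_base hB).infinity _ h1, h1, h2⟩

theorem d2_num (hB : GBModel M C) (hF : ClassForcing C P L) (t s i j k : ℕ) :
    Dfn M C fun v => ∃ z ∈ omega, NUM L t (v i) (v j) z ∧ NUM L s (v i) (v k) z :=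
  d2_omega_ex hB (R := fun w => NUM L t (w (i + 1)) (w (j + 1)) (w 0) ∧ NUM L s (w (i + 1)) (w (k + 1)) (w 0))
    (dfn_and (D1_num hB hF t (i + 1) (j + 1) 0) (D1_num hB hF s (i + 1) (k + 1) 0))

/-- Induction on `t` and `s` as in the definition. -/
theorem D2_eq (hB : GBModel M C) (hF : ClassForcing C P L) (t s i j k : ℕ) :
    Dfn M C fun v => EQ L t s (v i) (v j) (v k) := by
  induction t generalizing s i j k with
  | zero =>
    cases s with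
    | zero => exact dfn_congr (d2_num hB hF 0 0 i j k) fun v _ => by rw [EQ]
    | succ s => exact dfn_congr (d2_num hB hF 0 (s + 1) i j k) fun v _ => by rw [EQ]
  | succ t ih =>
    cases s with
    | zero => exact dfn_congr (d2_num hB hF (t + 1) 0 i j k) fun v _ => by rw [EQ]
    | succ s =>
      have a1 : Dfn M C fun w => ∃ w', Oc L (w 0) w' (w (k + 3)) ∧ EQ L t s (w 0) (w 1) w' :=
        D1_oc_ex hB hF (R := fun w => EQ L t s (w 1) (w 2) (w 0)) (ih s 1 2 0) 0 (k + 3)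
      have a2 : Dfn M C fun w => ∃ r', pair r' (w 1) ∈ L ∧ ∃ w', Oc L r' w' (w (k + 2)) ∧ EQ L t s r' (w 0) w' :=
        D1_ex hB hF (R := fun w => ∃ w', Oc L (w 0) w' (w (k + 3)) ∧ EQ L t s (w 0) (w 1) w') a1 1
      have a3 : Dfn M C fun w => ∀ u', Oc L (w 0) u' (w (j + 1)) → Dg L t (w 0) u' →
          ∃ r', pair r' (w 0) ∈ L ∧ ∃ w', Oc L r' w' (w (k + 1)) ∧ EQ L t s r' u' w' :=
        D1_oc_all hB hF (R := fun w => Dg L t (w 1) (w 0) →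
          ∃ r', pair r' (w 1) ∈ L ∧ ∃ w', Oc L r' w' (w (k + 2)) ∧ EQ L t s r' (w 0) w')
          (dfn_imp (D1_dg hB hF t 1 0) a2) 0 (j + 1)
      have a4 : Dfn M C fun w => ∀ r, pair r (w i) ∈ L → ∀ u', Oc L r u' (w j) → Dg L t r u' →
          ∃ r', pair r' r ∈ L ∧ ∃ w', Oc L r' w' (w k) ∧ EQ L t s r' u' w' :=
        D1_all hB hF (R := fun w => ∀ u', Oc L (w 0) u' (w (j + 1)) → Dg L t (w 0) u' →
          ∃ r', pair r' (w 0) ∈ L ∧ ∃ w', Oc L r' w' (w (k + 1)) ∧ EQ L t s r' u' w') a3 i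
      have b1 : Dfn M C fun w => ∃ u', Oc L (w 0) u' (w (j + 3)) ∧ EQ L t s (w 0) u' (w 1) :=
        D1_oc_ex hB hF (R := fun w => EQ L t s (w 1) (w 0) (w 2)) (ih s 1 0 2) 0 (j + 3)
      have b2 : Dfn M C fun w => ∃ r', pair r' (w 1) ∈ L ∧ ∃ u', Oc L r' u' (w (j + 2)) ∧ EQ L t s r' u' (w 0) :=
        D1_ex hB hF (R := fun w => ∃ u', Oc L (w 0) u' (w (j + 3)) ∧ EQ L t s (w 0) u' (w 1)) b1 1
      have b3 : Dfn M C fun w => ∀ w', Oc L (w 0) w' (w (k + 1)) → Dg L s (w 0) w' →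
          ∃ r', pair r' (w 0) ∈ L ∧ ∃ u', Oc L r' u' (w (j + 1)) ∧ EQ L t s r' u' w' :=
        D1_oc_all hB hF (R := fun w => Dg L s (w 1) (w 0) →
          ∃ r', pair r' (w 1) ∈ L ∧ ∃ u', Oc L r' u' (w (j + 2)) ∧ EQ L t s r' u' (w 0))
          (dfn_imp (D1_dg hB hF s 1 0) b2) 0 (k + 1)
      have b4 : Dfn M C fun w => ∀ r, pair r (w i) ∈ L → ∀ w', Oc L r w' (w k) → Dg L s r w' →
          ∃ r', pair r' r ∈ L ∧ ∃ u', Oc L r' u' (w j) ∧ EQ L t s r' u' w' :=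
        D1_all hB hF (R := fun w => ∀ w', Oc L (w 0) w' (w (k + 1)) → Dg L s (w 0) w' →
          ∃ r', pair r' (w 0) ∈ L ∧ ∃ u', Oc L r' u' (w (j + 1)) ∧ EQ L t s r' u' w') b3 i
      exact dfn_congr (dfn_and a4 b4) fun v _ => by rw [EQ]

theorem D2_mem (hB : GBModel M C) (hF : ClassForcing C P L) (t s i j k : ℕ) :
    Dfn M C fun v => MEM L t s (v i) (v j) (v k) := by
  have a1 : Dfn M C fun w => ∃ w', Oc L (w 0) w' (w (k + 2)) ∧ EQ L t s (w 0) (w (j + 2)) w' :=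
    D1_oc_ex hB hF (R := fun w => EQ L t s (w 1) (w (j + 3)) (w 0)) (D2_eq hB hF t s 1 (j + 3) 0) 0 (k + 2)
  have a2 : Dfn M C fun w => ∃ r', pair r' (w 0) ∈ L ∧ ∃ w', Oc L r' w' (w (k + 1)) ∧ EQ L t s r' (w (j + 1)) w' :=
    D1_ex hB hF (R := fun w => ∃ w', Oc L (w 0) w' (w (k + 2)) ∧ EQ L t s (w 0) (w (j + 2)) w') a1 0
  exact D1_all hB hF (R := fun w => ∃ r', pair r' (w 0) ∈ L ∧ ∃ w', Oc L r' w' (w (k + 1)) ∧ EQ L t s r' (w (j + 1)) w') a2 i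

end Pool.Agent.H65C
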