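import Mathlib

/-!
# Project H65C (MP_a6cc1b_lc): ZFC-preserving class forcings, definitions

Everything in this file is used in the statement of the final theorem. All sets are elements of `ZFSet.{0}`, classes are
`Set ZFSet.{0}`.
-/

namespace Pool.Agent.H65C

open ZFSet

/-- Formulas with variables `x_0, x_1, ...` (de Bruijn indices) and class symbols `X_0, X_1, ...`; `cls c i` is the formula
`x_i ∈ X_c`, and `all φ` quantifies over the variable `x_0` of `φ`. -/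
inductive Fm : Type
  | mem : ℕ → ℕ → Fm
  | eq : ℕ → ℕ → Fm
  | cls : ℕ → ℕ → Fm
  | bot : Fm
  | imp : Fm → Fm → Fm
  | all : Fm → Fm

/-- The assignment `a, v 0, v 1, ...`. -/
def cons {α : Type*} (a : α) (v : ℕ → α) : ℕ → α
  | 0 => a
  | n + 1 => v n

/-- Satisfaction in the structure `(N, ∈)` with classes `X c`; quantifiers range over `N`. -/
def Sat (N : Set ZFSet.{0}) (X : ℕ → Set ZFSet.{0}) : Fm → (ℕ → ZFSet.{0}) → Prop
  | .mem i j, v => v i ∈ v j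
  | .eq i j, v => v i = v j
  | .cls c i, v => v i ∈ X c
  | .bot, _ => False
  | .imp φ ψ, v => Sat N X φ v → Sat N X ψ v
  | .all φ, v => ∀ a ∈ N, Sat N X φ (cons a v)

/-- Satisfaction for the language `{∈}`: atoms with a class symbol are false. -/
def Sat0 (N : Set ZFSet.{0}) (φ : Fm) (v : ℕ → ZFSet.{0}) : Prop := Sat N (fun _ => ∅) φ v

/-- `N` is a transitive set or class and `(N, ∈)` is a model of ZFC. (Extensionality and foundation hold in every transitive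
class; the other axioms are written in the usual relativised form.) -/
structure ZFCModel (N : Set ZFSet.{0}) : Prop where
  trans : ∀ x ∈ N, ∀ y ∈ x, y ∈ N
  pairing : ∀ x ∈ N, ∀ y ∈ N, ({x, y} : ZFSet.{0}) ∈ N
  union : ∀ x ∈ N, (⋃₀ x : ZFSet.{0}) ∈ N
  infinity : omega ∈ N
  power : ∀ x ∈ N, ∃ y ∈ N, ∀ z ∈ N, z ∈ y ↔ z ⊆ x
  separation : ∀ (φ : Fm) (v : ℕ → ZFSet.{0}), (∀ i, v i ∈ N) → ∀ a ∈ N,
    ∃ b ∈ N, ∀ z, z ∈ b ↔ z ∈ a ∧ Sat0 N φ (cons z v)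
  replacement : ∀ (φ : Fm) (v : ℕ → ZFSet.{0}), (∀ i, v i ∈ N) → ∀ a ∈ N,
    (∀ x ∈ a, ∃! y, y ∈ N ∧ Sat0 N φ (cons y (cons x v))) →
    ∃ b ∈ N, ∀ y ∈ N, y ∈ b ↔ ∃ x ∈ a, Sat0 N φ (cons y (cons x v))
  choice : ∀ x ∈ N, (∀ y ∈ x, y ≠ ∅) → (∀ y ∈ x, ∀ z ∈ x, y ≠ z → ∀ w ∈ y, w ∉ z) →
    ∃ c ∈ N, ∀ y ∈ x, ∃! z, z ∈ y ∧ z ∈ c

/-- `(M, C)` is a model of Gödel-Bernays class theory, where `M` is a transitive model of ZFC and `C` a family of subsets of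
`M`: comprehension for formulas with class parameters from `C`, set parameters from `M` and quantifiers over `M` only, and
replacement for class functions. -/
structure GBModel (M : Set ZFSet.{0}) (C : Set (Set ZFSet.{0})) : Prop where
  zfc : ZFCModel M
  sub : ∀ X ∈ C, X ⊆ M
  comprehension : ∀ (φ : Fm) (X : ℕ → Set ZFSet.{0}), (∀ c, X c ∈ C) → ∀ v : ℕ → ZFSet.{0}, (∀ i, v i ∈ M) →
    {a | a ∈ M ∧ Sat M X φ (cons a v)} ∈ C
  replacement : ∀ F ∈ C, (∀ x y z, pair x y ∈ F → pair x z ∈ F → y = z) → ∀ a ∈ M,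
    ∃ b ∈ M, ∀ y, y ∈ b ↔ ∃ x ∈ a, pair x y ∈ F

/-- `(P, ≤)` is a partial order, `P ∈ C` and `≤ ∈ C`; `p ≤ q` is `pair p q ∈ L`. -/
structure ClassForcing (C : Set (Set ZFSet.{0})) (P L : Set ZFSet.{0}) : Prop where
  carrier : P ∈ C
  order : L ∈ C
  nonempty : P.Nonempty
  rel : ∀ z ∈ L, ∃ p ∈ P, ∃ q ∈ P, z = pair p q
  refl : ∀ p ∈ P, pair p p ∈ L
  trans : ∀ p q r, pair p q ∈ L → pair q r ∈ L → pair p r ∈ L
  antisymm : ∀ p q, pair p q ∈ L → pair q p ∈ L → p = q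

/-- `σ` is a name: its elements are pairs `(τ, p)` with `τ` a name and `p ∈ P`. -/
inductive IsName (P : Set ZFSet.{0}) : ZFSet.{0} → Prop
  | mk (σ : ZFSet.{0}) (h1 : ∀ z ∈ σ, ∃ τ, ∃ p ∈ P, z = pair τ p) (h2 : ∀ τ p, pair τ p ∈ σ → IsName P τ) : IsName P σ

/-- `τ` occurs in `σ` (as the first coordinate of an element). -/
def Occ (τ σ : ZFSet.{0}) : Prop := ∃ p, pair τ p ∈ σ

theorem occ_rank {τ σ : ZFSet.{0}} (h : Occ τ σ) : τ.rank < σ.rank := by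
  obtain ⟨p, hp⟩ := h
  have h1 : τ ∈ ({τ} : ZFSet.{0}) := by simp
  have h2 : ({τ} : ZFSet.{0}) ∈ pair τ p := by simp [pair]
  exact (rank_lt_of_mem h1).trans ((rank_lt_of_mem h2).trans (rank_lt_of_mem hp))

theorem occ_wf : WellFounded Occ :=
  Subrelation.wf (fun h => occ_rank h) (InvImage.wf ZFSet.rank wellFounded_lt)

instance occ_small (G : Set ZFSet.{0}) (σ : ZFSet.{0}) : Small.{0} {τ : ZFSet.{0} // ∃ p ∈ G, pair τ p ∈ σ} := by
  have h : ∀ x : {τ : ZFSet.{0} // ∃ p ∈ G, pair τ p ∈ σ}, x.1 ∈ (⋃₀ (⋃₀ σ) : ZFSet.{0}) := by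
    rintro ⟨τ, p, _, hp⟩
    rw [mem_sUnion]
    refine ⟨{τ}, ?_, by simp⟩
    rw [mem_sUnion]
    exact ⟨_, hp, by simp [pair]⟩
  exact small_of_injective (β := (⋃₀ (⋃₀ σ) : ZFSet.{0})) (f := fun x => ⟨x.1, h x⟩)
    (fun x y hxy => Subtype.ext (congrArg (fun z : (⋃₀ (⋃₀ σ) : ZFSet.{0}) => z.1) hxy))

/-- The evaluation `σ^G = {τ^G : (τ, p) ∈ σ for some p ∈ G}`, see `mem_val`. -/
noncomputable def val (G : Set ZFSet.{0}) : ZFSet.{0} → ZFSet.{0} :=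
  occ_wf.fix fun σ f => ZFSet.range fun x : {τ : ZFSet.{0} // ∃ p ∈ G, pair τ p ∈ σ} =>
    f x.1 (by obtain ⟨τ, p, _, hp⟩ := x; exact ⟨p, hp⟩)

theorem mem_val (G : Set ZFSet.{0}) (σ x : ZFSet.{0}) : x ∈ val G σ ↔ ∃ τ, ∃ p ∈ G, pair τ p ∈ σ ∧ x = val G τ := by
  unfold val
  rw [WellFounded.fix_eq, mem_range]
  constructor
  · rintro ⟨⟨τ, p, hp, h⟩, rfl⟩
    exact ⟨τ, p, hp, h, rfl⟩
  · rintro ⟨τ, p, hp, h, rfl⟩
    exact ⟨⟨τ, p, hp, h⟩, rfl⟩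

/-- `G` is a filter on `P` that meets every dense subclass of `P` in `C`. -/
structure Generic (C : Set (Set ZFSet.{0})) (P L G : Set ZFSet.{0}) : Prop where
  sub : G ⊆ P
  up : ∀ p ∈ G, ∀ q, pair p q ∈ L → q ∈ G
  dir : ∀ p ∈ G, ∀ q ∈ G, ∃ r ∈ G, pair r p ∈ L ∧ pair r q ∈ L
  dense : ∀ D ∈ C, D ⊆ P → (∀ p ∈ P, ∃ q ∈ D, pair q p ∈ L) → ∃ q ∈ D, q ∈ G

/-- The extension `M[G]`. -/
def MG (M P G : Set ZFSet.{0}) : Set ZFSet.{0} := {x | ∃ σ ∈ M, IsName P σ ∧ x = val G σ}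

/-- The iterated power set `P^j(ω)` in the sense of `N` (for a transitive class `N` that contains `ω`). -/
def Typ (N : Set ZFSet.{0}) : ℕ → Set ZFSet.{0}
  | 0 => {x | x ∈ omega}
  | j + 1 => {x | x ∈ N ∧ ∀ y ∈ x, y ∈ Typ N j}

/-- Tuples. -/
noncomputable def tup : List ZFSet.{0} → ZFSet.{0}
  | [] => ∅
  | a :: l => pair a (tup l)

/-- The assignment `val G (l 0), val G (l 1), ...` (`∅` beyond the length of the list). -/
noncomputable def asg (G : Set ZFSet.{0}) (l : List ZFSet.{0}) (i : ℕ) : ZFSet.{0} := val G (l.getD i ∅)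

/-- `p` forces that `φ` holds in `(P^j(ω), ∈)` with parameters the values of the names in `l`. -/
def Forces (M : Set ZFSet.{0}) (C : Set (Set ZFSet.{0})) (P L : Set ZFSet.{0}) (j : ℕ) (φ : Fm) (l : List ZFSet.{0})
    (p : ZFSet.{0}) : Prop :=
  ∀ G, Generic C P L G → p ∈ G → Sat0 (Typ (MG M P G) j) φ (asg G l)

end Pool.Agent.H65C
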