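import Pool.Agent.Lib.H65C.Defs

/-!
# Project H65C, second part: definitions for the forcing theorem for small names

Everything in this file is used in the statement of the final theorem of the second part.
-/

namespace Pool.Agent.H65C

open ZFSet

/-- `X ∈ M` is a set of names that is closed under subnames, and `s ∈ M` is a function with `X ⊆ s[P^j(ω)^M]`; so `X` has at most
`ℶ_j` elements in the sense of `M`. -/
structure SmallSet (M P : Set ZFSet.{0}) (j : ℕ) (X s : ZFSet.{0}) : Prop where
  memX : X ∈ M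
  memS : s ∈ M
  name : ∀ x ∈ X, IsName P x
  closed : ∀ x ∈ X, ∀ τ, Occ τ x → τ ∈ X
  func : ∀ i x y, pair i x ∈ s → pair i y ∈ s → x = y
  surj : ∀ x ∈ X, ∃ i ∈ Typ M j, pair i x ∈ s

/-- `σ` is a name that is hereditarily of size at most `ℶ_j` in `M`. -/
def SmallName (M P : Set ZFSet.{0}) (j : ℕ) (σ : ZFSet.{0}) : Prop := ∃ X s, SmallSet M P j X s ∧ σ ∈ X

/-- The set of all values of names that are hereditarily of size at most `ℶ_j`. -/
def MGs (M P : Set ZFSet.{0}) (j : ℕ) (G : Set ZFSet.{0}) : Set ZFSet.{0} := {x | ∃ σ, SmallName M P j σ ∧ x = val G σ}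

/-- `p` forces that `φ` holds in `(MGs M P j G, ∈)` with parameters the values of the names in `l`. -/
def ForcesS (M : Set ZFSet.{0}) (C : Set (Set ZFSet.{0})) (P L : Set ZFSet.{0}) (j : ℕ) (φ : Fm) (l : List ZFSet.{0})
    (p : ZFSet.{0}) : Prop :=
  ∀ G, Generic C P L G → p ∈ G → Sat0 (MGs M P j G) φ (asg G l)

end Pool.Agent.H65C
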