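import Pool.Agent.Lib.H65C.Defs

/-!
# Project H65C, third part: definitions for the forcing theorem for readable extensions

Everything in this file is used in the statement of the final theorem of the third part.
-/

namespace Pool.Agent.H65C

open ZFSet

/-- Every set of elements of `M` in `M[G]` can be read off, by a set `ε ∈ M`, from the filter `G` and a subset `A ∈ M[G]` of
`P^j(ω)^M`. (For `A = {∅}` this says that the set has a nice name. It also holds if `M[G]` is a generic extension of `M` by a set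
forcing of size at most `ℶ_j` in `M`.) -/
def Readable (M P : Set ZFSet.{0}) (j : ℕ) (G : Set ZFSet.{0}) : Prop :=
  ∀ E ∈ MG M P G, (∀ i ∈ E, i ∈ M) → ∃ ε ∈ M, ∃ A ∈ MG M P G, (∀ a ∈ A, a ∈ Typ M j) ∧
    ∀ i, i ∈ E ↔ ∃ a ∈ A, ∃ p ∈ G, pair i (pair a p) ∈ ε

/-- `p` forces `φ` for the names in `l`: `φ` holds in `(M[G], ∈)` for all generic `G` with `p ∈ G`. -/
def ForcesA (M : Set ZFSet.{0}) (C : Set (Set ZFSet.{0})) (P L : Set ZFSet.{0}) (φ : Fm) (l : List ZFSet.{0})
    (p : ZFSet.{0}) : Prop :=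
  ∀ G, Generic C P L G → p ∈ G → Sat0 (MG M P G) φ (asg G l)

/-- The forcing theorem for all formulas, as in the problem file: definability and truth lemma. -/
structure ForcingTheorem (M : Set ZFSet.{0}) (C : Set (Set ZFSet.{0})) (P L : Set ZFSet.{0}) : Prop where
  definability : ∀ (φ : Fm) (k : ℕ), {z | ∃ p ∈ P, ∃ l : List ZFSet.{0}, l.length = k ∧
    (∀ σ ∈ l, σ ∈ M ∧ IsName P σ) ∧ ForcesA M C P L φ l p ∧ z = tup (p :: l)} ∈ C
  truth : ∀ (φ : Fm) (l : List ZFSet.{0}), (∀ σ ∈ l, σ ∈ M ∧ IsName P σ) → ∀ G, Generic C P L G →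
    (Sat0 (MG M P G) φ (asg G l) ↔ ∃ p ∈ G, ForcesA M C P L φ l p)

end Pool.Agent.H65C
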