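import Pool.Agent.Lib.H65C.G2

/-!
# Project H65C, chunk G4 (S): chains of names and chains of sets
-/

namespace Pool.Agent.H65C

open ZFSet

theorem G4_mono {C : Set (Set ZFSet.{0})} {P L : Set ZFSet.{0}} (hF : ClassForcing C P L) {q r u : ZFSet.{0}} {n : ℕ}
    (h : Wc L q u n) (hr : pair r q ∈ L) : Wc L r u n := by
  induction n generalizing u with
  | zero => exact trivial
  | succ n ih =>
    obtain ⟨w, hw, hc⟩ := h
    exact ⟨w, G1_oc_mono hF hw hr, ih hc⟩

/-- Proof. (→) induction on `n`, `u` general: an element of `u^G` is `w^G` with `(w, p) ∈ u`, `p ∈ G`; take a common lower bound in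
`G` of `p` and of the condition for `w`. (←) induction on `n` with `G1_oc_val`. -/
theorem G4_chain {C : Set (Set ZFSet.{0})} {P L G : Set ZFSet.{0}} (hF : ClassForcing C P L) (hG : Generic C P L G)
    (n : ℕ) (u : ZFSet.{0}) : ChM n (val G u) ↔ ∃ q ∈ G, Wc L q u n := by
  induction n generalizing u with
  | zero =>
    obtain ⟨q, hq⟩ := G2_nonempty hF hG
    exact ⟨fun _ => ⟨q, hq, trivial⟩, fun _ => trivial⟩
  | succ n ih =>
    constructor
    · rintro ⟨y, hy, hc⟩
      obtain ⟨w, rfl, q, hq, ho⟩ := G1_val_oc hF hG hy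
      obtain ⟨q', hq', hw⟩ := (ih w).1 hc
      obtain ⟨r, hr, h1, h2⟩ := hG.dir q hq q' hq'
      exact ⟨r, hr, w, G1_oc_mono hF ho h1, G4_mono hF hw h2⟩
    · rintro ⟨q, hq, w, ho, hw⟩
      exact ⟨val G w, G1_oc_val hG ho hq, (ih w).2 ⟨q, hq, hw⟩⟩

theorem G4_W0_mono {C : Set (Set ZFSet.{0})} {P L : Set ZFSet.{0}} (hF : ClassForcing C P L) {q r u : ZFSet.{0}} {n : ℕ}
    (h : W0 L q u n) (hr : pair r q ∈ L) : W0 L r u n := by
  exact ⟨G4_mono hF h.1 hr, fun s hs => h.2 s (hF.trans s r q hs hr)⟩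

/-- Chains can be shortened. -/
theorem G4_le {R : ZFSet.{0} → ZFSet.{0} → Prop} {m n : ℕ} (h : m ≤ n) {x : ZFSet.{0}} (hx : Ch R n x) : Ch R m x := by
  have h1 : ∀ (k : ℕ) (y : ZFSet.{0}), Ch R (k + 1) y → Ch R k y := by
    intro k
    induction k with
    | zero => exact fun _ _ => trivial
    | succ k ih =>
      rintro y ⟨z, hz, hc⟩
      exact ⟨z, hz, ih z hc⟩
  induction n, h using Nat.le_induction with
  | base => exact hx
  | succ k _ ih => exact ih (h1 k x hx)

end Pool.Agent.H65C
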