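import Pool.Agent.Lib.H65C.N1
import Pool.Agent.Lib.H65C.G4

/-!
# Project H65C, chunk V1 (S): values
-/

namespace Pool.Agent.H65C

open ZFSet

/-- Proof. `t = 0`: if `ChM n x`, not `ChM (n + 1) x`, and the same for `m`, then `m = n` (`G4_le`). `t + 1`: extensionality. -/
theorem V1_unique (t : ℕ) (x z z' : ZFSet.{0}) (h : V t x z) (h' : V t x z') : z = z' := by
  cases t with
  | zero =>
    obtain ⟨n, rfl, h1, h2⟩ := h
    obtain ⟨m, rfl, h3, h4⟩ := h'
    rcases lt_trichotomy n m with h5 | h5 | h5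
    · exact absurd (G4_le (Nat.succ_le_of_lt h5) h3) h2
    · rw [h5]
    · exact absurd (G4_le (Nat.succ_le_of_lt h5) h1) h4
  | succ t =>
    refine ZFSet.ext fun y => ?_
    exact (h y).trans (h' y).symm

/-- Proof. The collection of the `z'` with `V t y z'` for some `y ∈ x` is small: it is the range of a function on the small type
`{y // y ∈ x ∧ ∃ z', V t y z'}` (`ZFSet.range`, or `ZFSet.image` with `Classical.allZFSetDefinable` on a `sep`). -/
theorem V1_total (t : ℕ) (x : ZFSet.{0}) : ∃ z, V (t + 1) x z := by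
  have hs : Small.{0} {y : ZFSet.{0} // y ∈ x ∧ ∃ z', V t y z'} :=
    small_of_injective (β := (x : ZFSet.{0})) (f := fun y => ⟨y.1, y.2.1⟩)
      (fun a b hab => Subtype.ext (congrArg (fun z : (x : ZFSet.{0}) => z.1) hab))
  refine ⟨ZFSet.range fun y : {y : ZFSet.{0} // y ∈ x ∧ ∃ z', V t y z'} => y.2.2.choose, fun z' => ?_⟩
  rw [mem_range]
  constructor
  · rintro ⟨y, rfl⟩
    exact ⟨y.1, y.2.1, y.2.2.choose_spec⟩
  · rintro ⟨y, hy, hz⟩
    exact ⟨⟨y, hy, z', hz⟩, V1_unique t y _ _ (Exists.choose_spec (⟨z', hz⟩ : ∃ z', V t y z')) hz⟩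

theorem V1_nat (n : ℕ) : ChM n (nat n) ∧ ¬ ChM (n + 1) (nat n) := by
  constructor
  · induction n with
    | zero => exact trivial
    | succ n ih => exact ⟨nat n, (N1_mem_nat _ _).2 ⟨n, Nat.lt_succ_self n, rfl⟩, ih⟩
  · induction n using Nat.strong_induction_on with
    | _ n ih =>
      rintro ⟨y, hy, hc⟩
      obtain ⟨m, hm, rfl⟩ := (N1_mem_nat y n).1 hy
      exact ih m hm (G4_le (Nat.succ_le_of_lt hm) hc)

/-- Proof. Induction on `t`, `V1_nat`, `V1_unique`. -/
theorem V1_id (N : Set ZFSet.{0}) (t : ℕ) (x : ZFSet.{0}) (h : x ∈ Typ N t) : V t x x := by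
  induction t generalizing x with
  | zero =>
    obtain ⟨n, rfl⟩ := (N1_mem_omega x).1 h
    exact ⟨n, rfl, V1_nat n⟩
  | succ t ih =>
    intro z'
    constructor
    · intro hz
      exact ⟨z', hz, ih z' (h.2 z' hz)⟩
    · rintro ⟨y, hy, hv⟩
      rw [← V1_unique t y _ _ (ih y (h.2 y hy)) hv]
      exact hy

end Pool.Agent.H65C
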