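import Pool.Agent.Lib.H65C.D2
import Pool.Agent.Lib.H65C.V1

/-!
# Project H65C, chunk E2 (M): the truth lemma for NUM
-/

namespace Pool.Agent.H65C

open ZFSet

variable {M : Set ZFSet.{0}} {C : Set (Set ZFSet.{0})} {P L G : Set ZFSet.{0}}

theorem e2_cons {M : Set ZFSet.{0}} {a : ZFSet.{0}} {v : ℕ → ZFSet.{0}} (ha : a ∈ M) (hv : ∀ i, v i ∈ M) :
    ∀ i, cons a v i ∈ M := by
  intro i
  cases i with
  | zero => exact ha
  | succ n => exact hv n

theorem e2_dir (hF : ClassForcing C P L) (hG : Generic C P L G) {p q r : ZFSet.{0}} (hp : p ∈ G) (hq : q ∈ G)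
    (hr : r ∈ G) : ∃ t ∈ G, pair t p ∈ L ∧ pair t q ∈ L ∧ pair t r ∈ L := by
  obtain ⟨a, ha, ha1, ha2⟩ := hG.dir p hp q hq
  obtain ⟨b, hb, hb1, hb2⟩ := hG.dir a ha r hr
  exact ⟨b, hb, hF.trans _ _ _ hb1 ha1, hF.trans _ _ _ hb1 ha2, hb2⟩

/-- Proof. (→) `ChM n (u^G)` by `G4_chain`; a condition in `G` for a chain of length `n + 1` would be compatible in `G` with `q`. (←)
`G4_chain` gives `q1 ∈ G` with `Wc L q1 u n`; `G2_decide` for `fun q => Wc L q u (n + 1)` (a class by `D1_wc`, `G2_cl`) gives `q2 ∈ G`, and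
its first alternative is excluded by `G4_chain`; take a common lower bound. -/
theorem E2_w0 (hB : GBModel M C) (hF : ClassForcing C P L) (hG : Generic C P L G) {u : ZFSet.{0}} (hu : u ∈ M) (n : ℕ) :
    (ChM n (val G u) ∧ ¬ ChM (n + 1) (val G u)) ↔ ∃ q ∈ G, W0 L q u n := by
  have hω : ∀ _ : ℕ, omega ∈ M := fun _ => hB.zfc.infinity
  have hN := N1_base hB.zfc
  constructor
  · rintro ⟨h1, h2⟩
    obtain ⟨q1, hq1, hw1⟩ := (G4_chain hF hG n u).mp h1
    have hcl : Cl M C fun q => Wc L q u (n + 1) := by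
      have h3 : Cl M C fun a => ∃ m, nat (n + 1) = nat m ∧ Wc L a u m :=
        G2_cl hB (D1_wc hB hF 0 1 2) (v := cons u (cons (nat (n + 1)) fun _ => omega))
          (e2_cons hu (e2_cons (N1_nat_mem hN _) hω))
      have h4 : {a | a ∈ M ∧ ∃ m, nat (n + 1) = nat m ∧ Wc L a u m} = {a | a ∈ M ∧ Wc L a u (n + 1)} := by
        ext a
        constructor
        · rintro ⟨ha, m, hm, hw⟩
          rw [← N1_inj _ _ hm] at hw
          exact ⟨ha, hw⟩
        · rintro ⟨ha, hw⟩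
          exact ⟨ha, _, rfl, hw⟩
      unfold Cl at h3 ⊢
      rw [h4] at h3
      exact h3
    obtain ⟨q2, hq2, h5⟩ := G2_decide hB hF hG hcl
    rcases h5 with h5 | h5
    · exact absurd ((G4_chain hF hG (n + 1) u).mpr ⟨q2, hq2, h5⟩) h2
    · obtain ⟨r, hr, hr1, hr2⟩ := hG.dir q1 hq1 q2 hq2
      exact ⟨r, hr, G4_mono hF hw1 hr1, fun r' hr' => h5 r' (hF.trans _ _ _ hr' hr2)⟩
  · rintro ⟨q, hq, h1, h2⟩
    refine ⟨(G4_chain hF hG n u).mpr ⟨q, hq, h1⟩, fun h3 => ?_⟩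
    obtain ⟨q', hq', h4⟩ := (G4_chain hF hG (n + 1) u).mp h3
    obtain ⟨r, _, hr1, hr2⟩ := hG.dir q hq q' hq'
    exact h2 r hr1 (G4_mono hF h4 hr2)

/-- `q ∈ G` and `Dg` give a value. -/
theorem E2_dg (hB : GBModel M C) (hF : ClassForcing C P L) (hG : Generic C P L G) {u q : ZFSet.{0}} (hu : u ∈ M) (t : ℕ)
    (hq : q ∈ G) (h : Dg L t q u) : ∃ z, V t (val G u) z := by
  cases t with
  | zero =>
    obtain ⟨n, hn⟩ := h rfl
    exact ⟨nat n, n, rfl, (E2_w0 hB hF hG hu n).mpr ⟨q, hq, hn⟩⟩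
  | succ t => exact V1_total t _

/-- If there is a value then some `q ∈ G` has `Dg`. -/
theorem E2_dg' (hB : GBModel M C) (hF : ClassForcing C P L) (hG : Generic C P L G) {u z : ZFSet.{0}} (hu : u ∈ M) (t : ℕ)
    (h : V t (val G u) z) : ∃ q ∈ G, Dg L t q u := by
  cases t with
  | zero =>
    obtain ⟨n, _, hn⟩ := h
    obtain ⟨q, hq, hw⟩ := (E2_w0 hB hF hG hu n).mp hn
    exact ⟨q, hq, fun _ => ⟨n, hw⟩⟩
  | succ t =>
    obtain ⟨q, hq⟩ := G2_nonempty hF hG
    exact ⟨q, hq, fun h => absurd h (Nat.succ_ne_zero t)⟩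

/-- Proof. Induction on `t`, `u` and `z` general; `t = 0` is `E2_w0`. `t + 1`, (→), let `q ∈ G` with `NUM L (t + 1) q u z`; show
`z' ∈ z ↔ ∃ y ∈ u^G, V t y z'`. If `z' ∈ z`: the first clause and `G2_below` give `r ∈ G` and `w` with `Oc L r w u`, `NUM L t r w z'`; use
`G1_oc_val` and the induction hypothesis. If `y ∈ u^G` and `V t y z'`: `y = w^G` with `Oc L q1 w u`, `q1 ∈ G` (`G1_val_oc`), and some
`q2 ∈ G` has `Dg L t q2 w` (`E2_dg'`); let `r ∈ G` be below `q`, `q1`, `q2`. The second clause and `G2_below` (below `r`) give `r' ∈ G` and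
`m ∈ z` with `NUM L t r' w m`, so `V t y m` and `z' = m` (`V1_unique`). (←) Let `A q` be 'some `m ∈ z` has no `r ≤ q` with
`∃ w, Oc L r w u ∧ NUM L t r w m`' and `B q` be 'some `w` has `Oc L q w u`, `Dg L t q w` and no `r ≤ q` and `m ∈ z` with `NUM L t r w m`'. Both are
classes (`D1`, `G2_cl`). `G2_decide`: `A q` with `q ∈ G` is impossible: `m = z'` is the value of some `w^G`, the induction hypothesis
and `G1_val_oc` give conditions in `G`, take a common lower bound with `q`. `B q` with `q ∈ G` is impossible: `w^G ∈ u^G` has a value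
(`E2_dg`), which is in `z`, again by the induction hypothesis. So there are `qA`, `qB` in `G` with no extension in `A`, `B`; a common
lower bound in `G` satisfies `NUM L (t + 1) q u z`. All `m ∈ z` are in `omega` (`N1_trans`) and in `M`. -/
theorem E2_num (hB : GBModel M C) (hF : ClassForcing C P L) (hG : Generic C P L G) (t : ℕ) {u z : ZFSet.{0}} (hu : u ∈ M)
    (hz : z ∈ omega) : V t (val G u) z ↔ ∃ q ∈ G, NUM L t q u z := by
  have hω : ∀ _ : ℕ, omega ∈ M := fun _ => hB.zfc.infinity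
  have hN := N1_base hB.zfc
  induction t generalizing u z with
  | zero =>
    constructor
    · rintro ⟨n, hz, hn⟩
      obtain ⟨q, hq, hw⟩ := (E2_w0 hB hF hG hu n).mp hn
      exact ⟨q, hq, n, hz, hw⟩
    · rintro ⟨q, hq, n, hz, hw⟩
      exact ⟨n, hz, (E2_w0 hB hF hG hu n).mpr ⟨q, hq, hw⟩⟩
  | succ t ih =>
    have hzM : z ∈ M := hN.trans _ hN.infinity _ hz
    have hmM : ∀ m ∈ z, m ∈ M := fun m hm => hN.trans _ hzM _ hm
    have hmω : ∀ m ∈ z, m ∈ omega := fun m hm => N1_trans z m hz hm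
    constructor
    · intro hV
      -- the two classes
      have hA : Cl M C fun q => ∃ m ∈ z, ∀ r, pair r q ∈ L → ¬ ∃ w, Oc L r w u ∧ NUM L t r w m :=
        G2_cl hB (dfn_bex hN (R := fun v' => ∀ r, pair r (v' 1) ∈ L →
            (fun v'' : ℕ → ZFSet.{0} => ¬ ∃ w, Oc L (v'' 0) w (v'' 3) ∧
              (fun x : ℕ → ZFSet.{0} => NUM L t (x 1) (x 0) (x 2)) (cons w v'')) (cons r v'))
          (D1_all hB hF (dfn_not (D1_oc_ex hB hF (D1_num hB hF t 1 0 2) 0 3)) 1) 2)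
          (v := cons u (cons z fun _ => omega)) (e2_cons hu (e2_cons hzM hω))
      have hBc : Cl M C fun q => ∃ w, Oc L q w u ∧ (Dg L t q w ∧
          ∀ r, pair r q ∈ L → ¬ ∃ m ∈ z, NUM L t r w m) :=
        G2_cl hB (D1_oc_ex hB hF (R := fun v' => Dg L t (v' 1) (v' 0) ∧ ∀ r, pair r (v' 1) ∈ L →
            (fun v'' : ℕ → ZFSet.{0} => ¬ ∃ m ∈ v'' 4,
              (fun x : ℕ → ZFSet.{0} => NUM L t (x 1) (x 2) (x 0)) (cons m v'')) (cons r v'))
          (dfn_and (D1_dg hB hF t 1 0)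
            (D1_all hB hF (dfn_not (dfn_bex hN (D1_num hB hF t 1 2 0) 4)) 1)) 0 1)
          (v := cons u (cons z fun _ => omega)) (e2_cons hu (e2_cons hzM hω))
      obtain ⟨qA, hqA, hA1⟩ := G2_decide hB hF hG hA
      obtain ⟨qB, hqB, hB1⟩ := G2_decide hB hF hG hBc
      have hA2 : ∀ r, pair r qA ∈ L → ¬ ∃ m ∈ z, ∀ r', pair r' r ∈ L → ¬ ∃ w, Oc L r' w u ∧ NUM L t r' w m := by
        rcases hA1 with hA1 | hA1
        · exfalso
          obtain ⟨m, hm, hno⟩ := hA1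
          obtain ⟨y, hy, hyV⟩ := (hV m).mp hm
          obtain ⟨w, hyw, q1, hq1, hoc⟩ := G1_val_oc hF hG hy
          subst hyw
          have hwM : w ∈ M := (G1_oc_mem hN (P := P) hoc hu).1
          obtain ⟨q2, hq2, hnum⟩ := (ih hwM (hmω m hm)).mp hyV
          obtain ⟨r, _, h1, h2, h3⟩ := e2_dir hF hG hqA hq1 hq2
          exact hno r h1 ⟨w, G1_oc_mono hF hoc h2, E1_num hF hnum h3⟩
        · exact hA1
      have hB2 : ∀ r, pair r qB ∈ L → ¬ ∃ w, Oc L r w u ∧ (Dg L t r w ∧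
          ∀ r', pair r' r ∈ L → ¬ ∃ m ∈ z, NUM L t r' w m) := by
        rcases hB1 with hB1 | hB1
        · exfalso
          obtain ⟨w, hoc, hdg, hno⟩ := hB1
          have hwM : w ∈ M := (G1_oc_mem hN (P := P) hoc hu).1
          obtain ⟨m, hm⟩ := E2_dg hB hF hG hwM t hqB hdg
          have hmz : m ∈ z := (hV m).mpr ⟨val G w, G1_oc_val hG hoc hqB, hm⟩
          obtain ⟨q2, hq2, hnum⟩ := (ih hwM (hmω m hmz)).mp hm
          obtain ⟨r, _, h1, h2⟩ := hG.dir qB hqB q2 hq2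
          exact hno r h1 ⟨m, hmz, E1_num hF hnum h2⟩
        · exact hB1
      obtain ⟨q, hq, h1, h2⟩ := hG.dir qA hqA qB hqB
      refine ⟨q, hq, ?_, ?_⟩
      · intro m hm r hr
        by_contra hcon
        refine hA2 r (hF.trans _ _ _ hr h1) ⟨m, hm, ?_⟩
        rintro r' hr' ⟨w, hw1, hw2⟩
        exact hcon ⟨r', hr', w, hw1, hw2⟩
      · intro r hr w hw hdg
        by_contra hcon
        refine hB2 r (hF.trans _ _ _ hr h2) ⟨w, hw, hdg, ?_⟩
        rintro r' hr' ⟨m, hm1, hm2⟩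
        exact hcon ⟨r', hr', m, hm1, hm2⟩
    · rintro ⟨q, hq, h1, h2⟩
      intro z'
      constructor
      · intro hz'
        have hcl : Cl M C fun r => ∃ w, Oc L r w u ∧ NUM L t r w z' :=
          G2_cl hB (D1_oc_ex hB hF (R := fun x => NUM L t (x 1) (x 0) (x 3)) (D1_num hB hF t 1 0 3) 0 1)
            (v := cons u (cons z' fun _ => omega)) (e2_cons hu (e2_cons (hmM z' hz') hω))
        obtain ⟨r, hr, w, hw, hnum⟩ := G2_below hB hF hG hcl hq (fun r hr => h1 z' hz' r hr)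
        exact ⟨val G w, G1_oc_val hG hw hr,
          (ih (G1_oc_mem hN (P := P) hw hu).1 (hmω z' hz')).mpr ⟨r, hr, hnum⟩⟩
      · rintro ⟨y, hy, hyV⟩
        obtain ⟨w, hyw, q1, hq1, hoc⟩ := G1_val_oc hF hG hy
        subst hyw
        have hwM : w ∈ M := (G1_oc_mem hN (P := P) hoc hu).1
        obtain ⟨q2, hq2, hdg⟩ := E2_dg' hB hF hG hwM t hyV
        obtain ⟨r, hr, hr1, hr2, hr3⟩ := e2_dir hF hG hq hq1 hq2
        have hcl : Cl M C fun r => ∃ m ∈ z, NUM L t r w m :=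
          G2_cl hB (dfn_bex hN (R := fun x => NUM L t (x 1) (x 2) (x 0)) (D1_num hB hF t 1 2 0) 2)
            (v := cons w (cons z fun _ => omega)) (e2_cons hwM (e2_cons hzM hω))
        obtain ⟨r', hr', m, hm, hnum⟩ := G2_below hB hF hG hcl hr (fun r'' hr'' =>
          h2 r'' (hF.trans _ _ _ hr'' hr1) w (G1_oc_mono hF (G1_oc_mono hF hoc hr2) hr'')
            (E1_dg hF (E1_dg hF hdg hr3) hr''))
        have h3 := (ih hwM (hmω m hm)).mpr ⟨r', hr', hnum⟩
        rw [V1_unique t _ _ _ hyV h3]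
        exact hm

end Pool.Agent.H65C
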