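import Pool.Agent.Lib.H65C.E2

/-!
# Project H65C, chunk E3 (M): the truth lemma for EQ
-/

namespace Pool.Agent.H65C

open ZFSet

variable {M : Set ZFSet.{0}} {C : Set (Set ZFSet.{0})} {P L G : Set ZFSet.{0}}

theorem e3_omega {x z : ZFSet.{0}} (h : V 0 x z) : z ∈ omega := by
  obtain ⟨n, hz, _⟩ := h
  exact (N1_mem_omega z).mpr ⟨n, hz⟩

theorem e3_num (hB : GBModel M C) (hF : ClassForcing C P L) (hG : Generic C P L G) (t s : ℕ) {u w : ZFSet.{0}} (hu : u ∈ M)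
    (hw : w ∈ M) : (∃ z ∈ omega, V t (val G u) z ∧ V s (val G w) z) ↔
      ∃ q ∈ G, ∃ z ∈ omega, NUM L t q u z ∧ NUM L s q w z := by
  constructor
  · rintro ⟨z, hz, h1, h2⟩
    obtain ⟨q1, hq1, hn1⟩ := (E2_num hB hF hG t hu hz).mp h1
    obtain ⟨q2, hq2, hn2⟩ := (E2_num hB hF hG s hw hz).mp h2
    obtain ⟨r, hr, hr1, hr2⟩ := hG.dir q1 hq1 q2 hq2
    exact ⟨r, hr, z, hz, E1_num hF hn1 hr1, E1_num hF hn2 hr2⟩
  · rintro ⟨q, hq, z, hz, h1, h2⟩
    exact ⟨z, hz, (E2_num hB hF hG t hu hz).mpr ⟨q, hq, h1⟩, (E2_num hB hF hG s hw hz).mpr ⟨q, hq, h2⟩⟩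

/-- One half of a clause, from conditions to values. -/
theorem e3_half (hB : GBModel M C) (hF : ClassForcing C P L) (hG : Generic C P L G) (t s : ℕ)
    (E : ZFSet.{0} → ZFSet.{0} → ZFSet.{0} → Prop)
    (hE : Dfn M C fun v => E (v 0) (v 1) (v 2))
    (ih : ∀ u' ∈ M, ∀ w' ∈ M, (∃ q ∈ G, E q u' w') → ∃ z, V t (val G u') z ∧ V s (val G w') z)
    {u w q : ZFSet.{0}} (hu : u ∈ M) (hw : w ∈ M) (hq : q ∈ G)
    (h : ∀ r, pair r q ∈ L → ∀ u', Oc L r u' u → Dg L t r u' →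
      ∃ r', pair r' r ∈ L ∧ ∃ w', Oc L r' w' w ∧ E r' u' w') {z' : ZFSet.{0}}
    (hz : ∃ y ∈ val G u, V t y z') : ∃ y ∈ val G w, V s y z' := by
  have hω : ∀ _ : ℕ, omega ∈ M := fun _ => hB.zfc.infinity
  have hN := N1_base hB.zfc
  obtain ⟨y, hy, hyV⟩ := hz
  obtain ⟨u', hyu, q1, hq1, hoc⟩ := G1_val_oc hF hG hy
  subst hyu
  have huM : u' ∈ M := (G1_oc_mem hN (P := P) hoc hu).1
  obtain ⟨q2, hq2, hdg⟩ := E2_dg' hB hF hG huM t hyV
  obtain ⟨r, hr, hr1, hr2, hr3⟩ := e2_dir hF hG hq hq1 hq2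
  have hcl : Cl M C fun r => ∃ w', Oc L r w' w ∧ E r u' w' :=
    G2_cl hB (D1_oc_ex hB hF (R := fun x => E (x 1) (x 3) (x 0))
      (dfn_ren hE (fun i => match i with | 0 => 1 | 1 => 3 | _ => 0)) 0 1)
      (v := cons w (cons u' fun _ => omega)) (e2_cons hw (e2_cons huM hω))
  obtain ⟨r', hr', w', hw', hE'⟩ := G2_below hB hF hG hcl hr (fun r'' hr'' =>
    h r'' (hF.trans _ _ _ hr'' hr1) u' (G1_oc_mono hF (G1_oc_mono hF hoc hr2) hr'')
      (E1_dg hF (E1_dg hF hdg hr3) hr''))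
  have hwM : w' ∈ M := (G1_oc_mem hN (P := P) hw' hw).1
  obtain ⟨z'', h1, h2⟩ := ih u' huM w' hwM ⟨r', hr', hE'⟩
  rw [V1_unique t _ _ _ hyV h1]
  exact ⟨val G w', G1_oc_val hG hw' hr', h2⟩

/-- One half of a clause, from values to conditions. -/
theorem e3_half' (hB : GBModel M C) (hF : ClassForcing C P L) (hG : Generic C P L G) (t s : ℕ)
    (E : ZFSet.{0} → ZFSet.{0} → ZFSet.{0} → Prop)
    (hE : Dfn M C fun v => E (v 0) (v 1) (v 2))
    (hmono : ∀ q r u' w', E q u' w' → pair r q ∈ L → E r u' w')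
    (ih : ∀ u' ∈ M, ∀ w' ∈ M, (∃ z, V t (val G u') z ∧ V s (val G w') z) → ∃ q ∈ G, E q u' w')
    {u w : ZFSet.{0}} (hu : u ∈ M) (hw : w ∈ M)
    (h : ∀ z', (∃ y ∈ val G u, V t y z') → ∃ y ∈ val G w, V s y z') :
    ∃ q ∈ G, ∀ r, pair r q ∈ L → ∀ u', Oc L r u' u → Dg L t r u' →
      ∃ r', pair r' r ∈ L ∧ ∃ w', Oc L r' w' w ∧ E r' u' w' := by
  have hω : ∀ _ : ℕ, omega ∈ M := fun _ => hB.zfc.infinity
  have hN := N1_base hB.zfc
  have hA : Cl M C fun q => ∃ u', Oc L q u' u ∧ (Dg L t q u' ∧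
      ∀ r, pair r q ∈ L → ¬ ∃ w', Oc L r w' w ∧ E r u' w') :=
    G2_cl hB (D1_oc_ex hB hF (R := fun x => Dg L t (x 1) (x 0) ∧ ∀ r, pair r (x 1) ∈ L →
        (fun x' : ℕ → ZFSet.{0} => ¬ ∃ w', Oc L (x' 0) w' (x' 4) ∧
          (fun x'' : ℕ → ZFSet.{0} => E (x'' 1) (x'' 2) (x'' 0)) (cons w' x')) (cons r x))
      (dfn_and (D1_dg hB hF t 1 0)
        (D1_all hB hF (dfn_not (D1_oc_ex hB hF
          (dfn_ren hE (fun i => match i with | 0 => 1 | 1 => 2 | _ => 0)) 0 4)) 1)) 0 1)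
      (v := cons u (cons w fun _ => omega)) (e2_cons hu (e2_cons hw hω))
  obtain ⟨qA, hqA, hA1⟩ := G2_decide hB hF hG hA
  refine ⟨qA, hqA, ?_⟩
  rcases hA1 with hA1 | hA1
  · exfalso
    obtain ⟨u', hoc, hdg, hno⟩ := hA1
    have huM : u' ∈ M := (G1_oc_mem hN (P := P) hoc hu).1
    obtain ⟨z', hz'⟩ := E2_dg hB hF hG huM t hqA hdg
    obtain ⟨y, hy, hyV⟩ := h z' ⟨val G u', G1_oc_val hG hoc hqA, hz'⟩
    obtain ⟨w', hyw, q1, hq1, hoc1⟩ := G1_val_oc hF hG hy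
    subst hyw
    have hwM : w' ∈ M := (G1_oc_mem hN (P := P) hoc1 hw).1
    obtain ⟨q2, hq2, hE2⟩ := ih u' huM w' hwM ⟨z', hz', hyV⟩
    obtain ⟨r, _, h1, h2, h3⟩ := e2_dir hF hG hqA hq1 hq2
    exact hno r h1 ⟨w', G1_oc_mono hF hoc1 h2, hmono _ _ _ _ hE2 h3⟩
  · intro r hr u' hoc hdg
    by_contra hcon
    refine hA1 r hr ⟨u', hoc, hdg, ?_⟩
    rintro r' hr' ⟨w', h1, h2⟩
    exact hcon ⟨r', hr', w', h1, h2⟩

/-- Proof. Induction as in the definition of `EQ`. If one of `t`, `s` is `0`: the common value is a natural number (a value of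
type `0` is one), so this is `E2_num` for both names (common lower bounds, `E1_num`). For `t + 1`, `s + 1` the proof is the same as
the one of `E2_num` (see there), with `z ∋ m` replaced by `w' ` occurring in `w`: (→) let `z` be the value of type `t + 1` of `u^G`
(`V1_total`) and show that it is the value of type `s + 1` of `w^G`, with the two clauses and `G2_below`; (←) `A q`: some `u'` has
`Oc L q u' u`, `Dg L t q u'` and there are no `r ≤ q` and `w'` with `Oc L r w' w ∧ EQ L t s r u' w'`; `B q` symmetric. -/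
theorem E3_eq (hB : GBModel M C) (hF : ClassForcing C P L) (hG : Generic C P L G) (t s : ℕ) {u w : ZFSet.{0}} (hu : u ∈ M)
    (hw : w ∈ M) : (∃ z, V t (val G u) z ∧ V s (val G w) z) ↔ ∃ q ∈ G, EQ L t s q u w := by
  induction t generalizing s u w with
  | zero =>
    have h0 : (∃ z, V 0 (val G u) z ∧ V s (val G w) z) ↔ (∃ z ∈ omega, V 0 (val G u) z ∧ V s (val G w) z) :=
      ⟨fun ⟨z, h1, h2⟩ => ⟨z, e3_omega h1, h1, h2⟩, fun ⟨z, _, h1, h2⟩ => ⟨z, h1, h2⟩⟩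
    rw [h0, e3_num hB hF hG 0 s hu hw]
    cases s with
    | zero => rfl
    | succ s => rfl
  | succ t ih =>
    cases s with
    | zero =>
      have h0 : (∃ z, V (t + 1) (val G u) z ∧ V 0 (val G w) z) ↔
          (∃ z ∈ omega, V (t + 1) (val G u) z ∧ V 0 (val G w) z) :=
        ⟨fun ⟨z, h1, h2⟩ => ⟨z, e3_omega h2, h1, h2⟩, fun ⟨z, _, h1, h2⟩ => ⟨z, h1, h2⟩⟩
      rw [h0, e3_num hB hF hG (t + 1) 0 hu hw]
      rfl
    | succ s =>
      constructor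
      · rintro ⟨z, h1, h2⟩
        obtain ⟨q1, hq1, ha⟩ := e3_half' hB hF hG t s (fun q u w => EQ L t s q u w) (D2_eq hB hF t s 0 1 2)
          (fun q r u' w' he hr => E1_eq hF he hr) (fun u' hu' w' hw' => (ih s hu' hw').mp) hu hw
          (fun z' hz' => (h2 z').mp ((h1 z').mpr hz'))
        obtain ⟨q2, hq2, hb⟩ := e3_half' hB hF hG s t (fun q w u => EQ L t s q u w) (D2_eq hB hF t s 0 2 1)
          (fun q r u' w' he hr => E1_eq hF he hr)
          (fun w' hw' u' hu' hz => (ih s hu' hw').mp (by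
            obtain ⟨z, hz1, hz2⟩ := hz
            exact ⟨z, hz2, hz1⟩)) hw hu
          (fun z' hz' => (h1 z').mp ((h2 z').mpr hz'))
        obtain ⟨q, hq, hr1, hr2⟩ := hG.dir q1 hq1 q2 hq2
        exact ⟨q, hq, fun r hr => ha r (hF.trans _ _ _ hr hr1), fun r hr => hb r (hF.trans _ _ _ hr hr2)⟩
      · rintro ⟨q, hq, ha, hb⟩
        obtain ⟨z, hz⟩ := V1_total t (val G u)
        refine ⟨z, hz, fun z' => ?_⟩
        constructor
        · intro hz'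
          exact e3_half hB hF hG t s (fun q u w => EQ L t s q u w) (D2_eq hB hF t s 0 1 2)
            (fun u' hu' w' hw' => (ih s hu' hw').mpr) hu hw hq ha ((hz z').mp hz')
        · intro hz'
          refine (hz z').mpr (e3_half hB hF hG s t (fun q w u => EQ L t s q u w) (D2_eq hB hF t s 0 2 1)
            (fun w' hw' u' hu' hz => ?_) hw hu hq hb hz')
          obtain ⟨z, hz1, hz2⟩ := (ih s hu' hw').mpr hz
          exact ⟨z, hz2, hz1⟩

end Pool.Agent.H65C
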