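import Pool.Agent.Lib.H65C.E3

/-!
# Project H65C, chunk E4 (S/M): the truth lemma for MEM
-/

namespace Pool.Agent.H65C

open ZFSet

variable {M : Set ZFSet.{0}} {C : Set (Set ZFSet.{0})} {P L G : Set ZFSet.{0}}

theorem e4_base (hB : GBModel M C) : Base M :=
  ⟨hB.zfc.trans, hB.zfc.pairing, hB.zfc.union, hB.zfc.infinity⟩

/-- Proof. (←) `G2_below` gives `r ∈ G` and `w'` with `Oc L r w' w`, `EQ L t s r u w'`; use `E3_eq`, `V1_unique` and `G1_oc_val`. (→)
`a ∈ b` is the value of type `s` of some `w'^G ∈ w^G`; `E3_eq` and `G1_val_oc` give conditions in `G`; a common lower bound `q` works,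
because the property is inherited by all `r ≤ q` (take `r' = r`). -/
theorem E4_mem (hB : GBModel M C) (hF : ClassForcing C P L) (hG : Generic C P L G) (t s : ℕ) {u w a b : ZFSet.{0}}
    (hu : u ∈ M) (hw : w ∈ M) (ha : V t (val G u) a) (hb : V (s + 1) (val G w) b) :
    a ∈ b ↔ ∃ q ∈ G, MEM L t s q u w := by
  have hM := e4_base hB
  constructor
  · intro hab
    obtain ⟨y, hy, hya⟩ := (hb a).1 hab
    obtain ⟨w', rfl, q1, hq1, hoc⟩ := G1_val_oc hF hG hy
    have hw' : w' ∈ M := (G1_oc_mem (P := P) hM hoc hw).1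
    obtain ⟨q2, hq2, heq⟩ := (E3_eq hB hF hG t s hu hw').1 ⟨a, ha, hya⟩
    obtain ⟨q, hq, hqq1, hqq2⟩ := hG.dir q1 hq1 q2 hq2
    refine ⟨q, hq, fun r hr => ⟨r, hF.refl r (G2_sub hB hF hr).1, w', ?_, ?_⟩⟩
    · exact G1_oc_mono hF hoc (hF.trans r q q1 hr hqq1)
    · exact E1_eq hF heq (hF.trans r q q2 hr hqq2)
  · rintro ⟨q, hq, hmem⟩
    have hdfn : Dfn M C fun v => ∃ w', Oc L (v 0) w' (v 2) ∧
        (fun x : ℕ → ZFSet.{0} => EQ L t s (x 1) (x 2) (x 0)) (cons w' v) :=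
      D1_oc_ex hB hF (D2_eq hB hF t s 1 2 0) 0 2
    have hcl : Cl M C fun r => ∃ w', Oc L r w' w ∧ EQ L t s r u w' :=
      G2_cl hB hdfn (v := cons u fun _ => w) (by
        intro i
        cases i with
        | zero => exact hu
        | succ i => exact hw)
    obtain ⟨r, hr, w', hoc, heq⟩ := G2_below hB hF hG hcl hq hmem
    have hw' : w' ∈ M := (G1_oc_mem (P := P) hM hoc hw).1
    obtain ⟨z, hz1, hz2⟩ := (E3_eq hB hF hG t s hu hw').2 ⟨r, hr, heq⟩
    have hza : z = a := V1_unique t _ _ _ hz1 ha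
    rw [hza] at hz2
    exact (hb a).2 ⟨val G w', G1_oc_val hG hoc hr, hz2⟩

end Pool.Agent.H65C
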