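import Pool.Agent.Lib.H65C.E1

/-!
# Project H65C, chunk F1 (S): the forcing relation is monotone and regular
-/

namespace Pool.Agent.H65C

open ZFSet

variable {C : Set (Set ZFSet.{0})} {M P L : Set ZFSet.{0}}

/-- Induction on `φ`, `v` general. -/
theorem F1_mono (hF : ClassForcing C P L) (j : ℕ) (φ : Fm) {q r : ZFSet.{0}} {v : ℕ → ZFSet.{0}}
    (h : FR M P L j φ q v) (hr : pair r q ∈ L) : FR M P L j φ r v := by
  induction φ generalizing v with
  | mem i k => exact E1_mem hF h hr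
  | eq i k => exact E1_eq hF h hr
  | cls c i => exact h.elim
  | bot => exact h.elim
  | imp φ ψ _ _ => exact fun r1 hr1 h1 => h r1 (hF.trans _ _ _ hr1 hr) h1
  | all φ ih => exact fun u hu hu' => ih (h u hu hu')

theorem f1_exists (hF : ClassForcing C P L) {q : ZFSet.{0}} (hq : q ∈ P) : pair q q ∈ L := hF.refl q hq

/-- Induction on `φ`, `v` and `q` general (`E1_eq_dense`, `E1_mem_dense`; `q ∈ P` is needed for `bot` and `cls`; for `imp` use
`F1_mono`: if `r ≤ q` and `FR φ r`, then below every `r1 ≤ r` there is `r2` with `FR (imp φ ψ) r2`, hence `FR ψ r2`). -/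
theorem F1_dense (hF : ClassForcing C P L) (j : ℕ) (φ : Fm) {q : ZFSet.{0}} (hq : q ∈ P) {v : ℕ → ZFSet.{0}}
    (h : ∀ r, pair r q ∈ L → ∃ r', pair r' r ∈ L ∧ FR M P L j φ r' v) : FR M P L j φ q v := by
  induction φ generalizing v q with
  | mem i k => exact E1_mem_dense hF h
  | eq i k => exact E1_eq_dense hF h
  | cls c i =>
    obtain ⟨r, _, hr⟩ := h q (hF.refl q hq)
    exact hr.elim
  | bot =>
    obtain ⟨r, _, hr⟩ := h q (hF.refl q hq)
    exact hr.elim
  | imp φ ψ _ ihψ =>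
    intro r hr h1
    have hrr := e1_refl hF hr
    have hrP : r ∈ P := by
      obtain ⟨p, hp, q', hq', he⟩ := hF.rel _ hr
      rw [(pair_inj.1 he).1]
      exact hp
    refine ihψ hrP ?_
    intro r1 hr1
    obtain ⟨r2, hr2, h2⟩ := h r1 (hF.trans _ _ _ hr1 hr)
    refine ⟨r2, hr2, h2 r2 (e1_refl hF hr2) ?_⟩
    exact F1_mono hF j φ h1 (hF.trans _ _ _ hr2 hr1)
  | all φ ih =>
    intro u hu hu'
    refine ih hq ?_
    intro r hr
    obtain ⟨r1, hr1, h1⟩ := h r hr
    exact ⟨r1, hr1, h1 u hu hu'⟩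

end Pool.Agent.H65C
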