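import Pool.Agent.Lib.H65C.S1

/-!
# Project H65C, chunk S2 (S/M): being a name is definable
-/

namespace Pool.Agent.H65C

open ZFSet

/-- Proof. (→) the set of `S1_closure` (its last clause with `Q = IsName P`) and `G1_sub`. (←) by well-founded induction (`occ_wf`)
every element of `s` is a name. -/
theorem S2_iff {M : Set ZFSet.{0}} {C : Set (Set ZFSet.{0})} {P : Set ZFSet.{0}} (hB : GBModel M C) {σ : ZFSet.{0}} (hσ : σ ∈ M) :
    IsName P σ ↔ ∃ s ∈ M, σ ∈ s ∧ ∀ x ∈ s, ∀ z ∈ x, ∃ τ ∈ s, ∃ p ∈ M, p ∈ P ∧ z = pair τ p := by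
  constructor
  · intro hn
    obtain ⟨s, hs, h1, h2, h3⟩ := S1_closure hB hσ
    refine ⟨s, hs, h1, fun x hx z hz => ?_⟩
    have hxn : IsName P x := h3 (IsName P) hn (fun x τ hQ ⟨p, hp⟩ => (G1_sub hQ hp).1) x hx
    obtain ⟨_, k1, _⟩ := hxn
    obtain ⟨τ, p, hp, rfl⟩ := k1 z hz
    exact ⟨τ, h2 x hx τ ⟨p, hz⟩, p, (G1_mem (N1_base hB.zfc) (hB.zfc.trans s hs x hx) hz).2, hp, rfl⟩
  · rintro ⟨s, _, h1, h2⟩
    have key : ∀ x : ZFSet.{0}, x ∈ s → IsName P x := by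
      intro x
      induction x using occ_wf.induction with
      | _ x ih =>
        intro hx
        refine IsName.mk x (fun z hz => ?_) (fun τ p hp => ?_)
        · obtain ⟨τ, _, p, _, hp, rfl⟩ := h2 x hx z hz
          exact ⟨τ, p, hp, rfl⟩
        · obtain ⟨τ', hτ', p', _, _, he⟩ := h2 x hx _ hp
          have he' := (pair_inj.mp he).1
          rw [he']
          exact ih τ' ⟨p, by rw [← he']; exact hp⟩ hτ'
    exact key σ h1

theorem S2_dfn {M : Set ZFSet.{0}} {C : Set (Set ZFSet.{0})} {P : Set ZFSet.{0}} (hB : GBModel M C) (hP : P ∈ C) (i : ℕ) :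
    Dfn M C fun v => IsName P (v i) := by
  have hN := N1_base hB.zfc
  have hne : C.Nonempty := ⟨P, hP⟩
  refine dfn_congr (dfn_ex (R := fun w => w (i + 1) ∈ w 0 ∧ ∀ x ∈ w 0, ∀ z ∈ x, ∃ τ ∈ w 0, ∃ p ∈ M, p ∈ P ∧ z = pair τ p)
    (dfn_and (dfn_mem hne (i + 1) 0)
      (dfn_ball hN (R := fun w => ∀ z ∈ w 0, ∃ τ ∈ w 1, ∃ p ∈ M, p ∈ P ∧ z = pair τ p)
        (dfn_ball hN (R := fun w => ∃ τ ∈ w 2, ∃ p ∈ M, p ∈ P ∧ w 0 = pair τ p)
          (dfn_bex hN (R := fun w => ∃ p ∈ M, p ∈ P ∧ w 1 = pair (w 0) p)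
            (dfn_ex (R := fun w => w 0 ∈ P ∧ w 2 = pair (w 1) (w 0))
              (dfn_and (dfn_cls hP 0) (dfn_opair hN hne 2 1 0))) 2) 0) 0))) fun v hv => ?_
  exact (S2_iff hB (hv i)).symm

end Pool.Agent.H65C
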