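import Pool.Agent.Lib.H65C.D2
import Pool.Agent.Lib.H65C.S2

/-!
# Project H65C, chunk F2 (S/M): the forcing relation is definable
-/

namespace Pool.Agent.H65C

open ZFSet

variable {C : Set (Set ZFSet.{0})} {M P L : Set ZFSet.{0}}

/-- Induction on `φ`. For `all φ`: `FR (all φ) (v 0) (fun i => v (i + 1))` is
`∀ u ∈ M, IsName P u → FR φ (v 0) (cons u (fun i => v (i + 1)))`, a renaming of the induction hypothesis (`dfn_ren` with
`0 ↦ 1`, `1 ↦ 0`, `i + 2 ↦ i + 2`), `S2_dfn`, `dfn_all`. -/
theorem F2_dfn (hB : GBModel M C) (hF : ClassForcing C P L) (j : ℕ) (φ : Fm) :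
    Dfn M C fun v => FR M P L j φ (v 0) fun i => v (i + 1) := by
  have hne : C.Nonempty := ⟨_, hF.carrier⟩
  induction φ with
  | mem i k => exact D2_mem hB hF (j + 1) j 0 (i + 1) (k + 1)
  | eq i k => exact D2_eq hB hF (j + 1) (j + 1) 0 (i + 1) (k + 1)
  | cls c i => exact dfn_false hne
  | bot => exact dfn_false hne
  | imp φ ψ ih1 ih2 =>
    have h1 := dfn_ren ih1 (fun n => match n with
      | 0 => 0
      | n + 1 => n + 2)
    have h2 := dfn_ren ih2 (fun n => match n with
      | 0 => 0
      | n + 1 => n + 2)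
    exact dfn_congr (D1_all hB hF (dfn_imp h1 h2) 0) fun v hv => Iff.rfl
  | all φ ih =>
    have h1 := dfn_ren ih (fun n => match n with
      | 0 => 1
      | 1 => 0
      | n + 2 => n + 2)
    refine dfn_congr (dfn_all (dfn_imp (S2_dfn hB hF.carrier 0) h1)) fun v hv => ?_
    have key : ∀ a : ZFSet.{0}, (fun i => cons a v ((fun n => match n with
      | 0 => 1
      | 1 => 0
      | n + 2 => n + 2 : ℕ → ℕ) (i + 1))) = cons a fun i => v (i + 1) := by
      intro a
      funext i
      cases i with
      | zero => rfl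
      | succ n => rfl
    constructor
    · intro h a ha hn
      have h3 := h a ha hn
      have h4 : FR M P L j φ (v 0) (fun i => cons a v ((fun n => match n with
        | 0 => 1
        | 1 => 0
        | n + 2 => n + 2 : ℕ → ℕ) (i + 1))) := h3
      rw [key a] at h4
      exact h4
    · intro h a ha hn
      have h3 : FR M P L j φ (v 0) (cons a fun i => v (i + 1)) := h a ha hn
      rw [← key a] at h3
      exact h3

end Pool.Agent.H65C
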