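import Pool.Agent.Lib.H65C.A4

/-!
# Project H65C, chunk K1 (M): chains are witnessed by elements of `N`
-/

namespace Pool.Agent.H65C

open ZFSet

/-- Proof. (←) Induction on `n`, `x` general: `nat (n + 1) = insert (nat n) (nat n)`. (→) Induction on `n`, `x` general: for `n + 1`
take `y` with `R y x` and the set `s` for `y` and `n`, and `s' = insert (pair x (nat (n + 1))) s` (`base_insert`, `base_pair`,
`N1_nat_mem`); if `pair y' (insert k k)` is the new element then `y' = x` and `k = nat n` (`pair_inj`, `N1_succ_inj`). For `n = 0`: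
`s = {pair x ∅}`, and `insert k k ≠ ∅`. -/
theorem K1_chain {N : Set ZFSet.{0}} (hN : Base N) (R : ZFSet.{0} → ZFSet.{0} → Prop) (hR : ∀ x ∈ N, ∀ y, R y x → y ∈ N)
    (n : ℕ) (x : ZFSet.{0}) (hx : x ∈ N) :
    Ch R n x ↔ ∃ s ∈ N, pair x (nat n) ∈ s ∧
      ∀ y ∈ N, ∀ k ∈ N, pair y (insert k k) ∈ s → ∃ y' ∈ N, R y' y ∧ pair y' k ∈ s := by
  constructor
  · intro h
    induction n generalizing x with
    | zero =>
      have hp : pair x (nat 0) ∈ N := base_pair hN hx (N1_nat_mem hN 0)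
      refine ⟨{pair x (nat 0), pair x (nat 0)}, hN.pairing _ hp _ hp, by simp, fun y _ k _ hyk => ?_⟩
      exfalso
      have h1 : pair y (insert k k) = pair x (nat 0) := by
        simpa using hyk
      have h2 : (insert k k : ZFSet.{0}) = ∅ := (pair_inj.1 h1).2
      have h3 : k ∈ (insert k k : ZFSet.{0}) := mem_insert k k
      rw [h2] at h3
      exact notMem_empty _ h3
    | succ n ih =>
      obtain ⟨y, hy, hc⟩ := h
      have hyN : y ∈ N := hR x hx y hy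
      obtain ⟨s, hsN, hs1, hs2⟩ := ih y hyN hc
      refine ⟨insert (pair x (nat (n + 1))) s, base_insert hN (base_pair hN hx (N1_nat_mem hN (n + 1))) hsN,
        mem_insert _ _, fun y1 hy1 k1 hk1 h1 => ?_⟩
      rcases mem_insert_iff.1 h1 with h2 | h2
      · obtain ⟨h3, h4⟩ := pair_inj.1 h2
        have h5 : k1 = nat n := N1_succ_inj _ _ h4
        subst h3 h5
        exact ⟨y, hyN, hy, mem_insert_of_mem _ hs1⟩
      · obtain ⟨y', hy'N, h3, h4⟩ := hs2 y1 hy1 k1 hk1 h2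
        exact ⟨y', hy'N, h3, mem_insert_of_mem _ h4⟩
  · intro h
    induction n generalizing x with
    | zero => trivial
    | succ n ih =>
      obtain ⟨s, hsN, hs1, hs2⟩ := h
      obtain ⟨y', hy'N, h3, h4⟩ := hs2 x hx (nat n) (N1_nat_mem hN n) hs1
      exact ⟨y', h3, ih y' hy'N ⟨s, hsN, h4, hs2⟩⟩

/-- Definability of the existence of chains for a definable relation. The assignment is `v 0, v 1, ...`; the relation is
`fun y x => S (cons y (cons x v))`, i.e. it may depend on the parameters `v`. Proof: `K1_chain`, `N1_mem_omega`, and the closure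
properties of `A2`, `A3`, `A4` (`dfn_ren` to shift the variables). -/
theorem K1_dfn {N : Set ZFSet.{0}} {𝒳 : Set (Set ZFSet.{0})} (hN : Base N) {S : (ℕ → ZFSet.{0}) → Prop}
    (hS : Dfn N 𝒳 S) (hR : ∀ v : ℕ → ZFSet.{0}, (∀ i, v i ∈ N) → ∀ x ∈ N, ∀ y, S (cons y (cons x v)) → y ∈ N) (i k : ℕ) :
    Dfn N 𝒳 fun v => ∃ n, v k = nat n ∧ Ch (fun y x => S (cons y (cons x v))) n (v i) := by
  have h : 𝒳.Nonempty := dfn_nonempty hS
  have d1 : Dfn N 𝒳 fun w => pair (w 1) (insert (w 0) (w 0)) ∈ w 2 := by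
    refine dfn_congr (dfn_ex (R := fun w => w 0 = insert (w 1) (w 1) ∧ pair (w 2) (w 0) ∈ w 3)
      (dfn_and (dfn_succ hN h 0 1) (dfn_opair_mem hN h 3 2 0))) fun w hw => ?_
    constructor
    · rintro ⟨a, _, h1, h2⟩
      have h1' : a = insert (w 0) (w 0) := h1
      have h2' : pair (w 1) a ∈ w 2 := h2
      rw [h1'] at h2'
      exact h2'
    · intro h1
      exact ⟨insert (w 0) (w 0), base_insert hN (hw 0) (hw 0), rfl, h1⟩
  have d2 : Dfn N 𝒳 fun w => S (cons (w 0) (cons (w 2) fun j => w (j + 4))) := by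
    refine dfn_congr (dfn_ren hS fun j => match j with | 0 => 0 | 1 => 2 | j + 2 => j + 4) fun w _ => ?_
    have e : (fun j => w (match j with | 0 => 0 | 1 => 2 | j + 2 => j + 4)) = cons (w 0) (cons (w 2) fun j => w (j + 4)) := by
      funext j
      match j with
      | 0 => rfl
      | 1 => rfl
      | j + 2 => rfl
    rw [e]
  have d3 : Dfn N 𝒳 fun w => ∃ y' ∈ N, S (cons y' (cons (w 1) fun j => w (j + 3))) ∧ pair y' (w 0) ∈ w 2 :=
    dfn_ex (R := fun w => S (cons (w 0) (cons (w 2) fun j => w (j + 4))) ∧ pair (w 0) (w 1) ∈ w 3)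
      (dfn_and d2 (dfn_opair_mem hN h 3 0 1))
  have d4 : Dfn N 𝒳 fun w => ∀ y ∈ N, ∀ k ∈ N, pair y (insert k k) ∈ w 0 →
      ∃ y' ∈ N, S (cons y' (cons y fun j => w (j + 1))) ∧ pair y' k ∈ w 0 :=
    dfn_all (R := fun w => ∀ k ∈ N, pair (w 0) (insert k k) ∈ w 1 →
      ∃ y' ∈ N, S (cons y' (cons (w 0) fun j => w (j + 2))) ∧ pair y' k ∈ w 1)
      (dfn_all (R := fun w => pair (w 1) (insert (w 0) (w 0)) ∈ w 2 →
        ∃ y' ∈ N, S (cons y' (cons (w 1) fun j => w (j + 3))) ∧ pair y' (w 0) ∈ w 2) (dfn_imp d1 d3))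
  have d5 : Dfn N 𝒳 fun v => v k ∈ omega ∧ ∃ s ∈ N, pair (v i) (v k) ∈ s ∧ ∀ y ∈ N, ∀ k ∈ N, pair y (insert k k) ∈ s →
      ∃ y' ∈ N, S (cons y' (cons y v)) ∧ pair y' k ∈ s :=
    dfn_and (dfn_mem_omega hN h k)
      (dfn_ex (R := fun w => pair (w (i + 1)) (w (k + 1)) ∈ w 0 ∧ ∀ y ∈ N, ∀ k ∈ N, pair y (insert k k) ∈ w 0 →
        ∃ y' ∈ N, S (cons y' (cons y fun j => w (j + 1))) ∧ pair y' k ∈ w 0)
        (dfn_and (dfn_opair_mem hN h 0 (i + 1) (k + 1)) d4))
  refine dfn_congr d5 fun v hv => ?_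
  constructor
  · rintro ⟨h1, h2⟩
    obtain ⟨n, hn⟩ := (N1_mem_omega _).1 h1
    refine ⟨n, hn, (K1_chain hN _ (hR v hv) n (v i) (hv i)).2 ?_⟩
    rw [hn] at h2
    exact h2
  · rintro ⟨n, hn, h1⟩
    refine ⟨(N1_mem_omega _).2 ⟨n, hn⟩, ?_⟩
    rw [hn]
    exact (K1_chain hN _ (hR v hv) n (v i) (hv i)).1 h1

end Pool.Agent.H65C
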