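import Pool.Agent.Lib.H65C.V1
import Pool.Agent.Lib.H65C.K1

/-!
# Project H65C, chunk V2 (M): values of elements of a model of ZFC are in the model
-/

namespace Pool.Agent.H65C

open ZFSet

theorem V2_cons {N : Set ZFSet.{0}} {v : ℕ → ZFSet.{0}} (hv : ∀ i, v i ∈ N) {a : ZFSet.{0}} (ha : a ∈ N) (i : ℕ) :
    cons a v i ∈ N := by
  cases i with
  | zero => exact ha
  | succ n => exact hv n

theorem V2_typ {N : Set ZFSet.{0}} (hN : Base N) (t : ℕ) {x : ZFSet.{0}} (hx : x ∈ Typ N t) : x ∈ N := by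
  cases t with
  | zero => exact hN.trans _ hN.infinity _ hx
  | succ t => exact hx.1

theorem V2_ne : ({∅} : Set (Set ZFSet.{0})).Nonempty := ⟨∅, rfl⟩

/-- The separation scheme in terms of definable predicates (`𝒳 = {∅}`: all class symbols are interpreted by `∅`). -/
theorem V2_sep {N : Set ZFSet.{0}} (hN : ZFCModel N) {R : (ℕ → ZFSet.{0}) → Prop} (hR : Dfn N {∅} R) {v : ℕ → ZFSet.{0}}
    (hv : ∀ i, v i ∈ N) {a : ZFSet.{0}} (ha : a ∈ N) : ∃ b ∈ N, ∀ z, z ∈ b ↔ z ∈ a ∧ R (cons z v) := by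
  obtain ⟨φ, X, hX, h⟩ := hR
  have hX' : X = fun _ => ∅ := funext fun c => hX c
  subst hX'
  obtain ⟨b, hb, h1⟩ := hN.separation φ v hv a ha
  refine ⟨b, hb, fun z => ?_⟩
  rw [h1 z]
  constructor
  · rintro ⟨hz, hs⟩
    exact ⟨hz, (h _ (V2_cons hv (hN.trans _ ha _ hz))).1 hs⟩
  · rintro ⟨hz, hs⟩
    exact ⟨hz, (h _ (V2_cons hv (hN.trans _ ha _ hz))).2 hs⟩

/-- The replacement scheme in terms of definable predicates. -/
theorem V2_repl {N : Set ZFSet.{0}} (hN : ZFCModel N) {R : (ℕ → ZFSet.{0}) → Prop} (hR : Dfn N {∅} R) {v : ℕ → ZFSet.{0}}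
    (hv : ∀ i, v i ∈ N) {a : ZFSet.{0}} (ha : a ∈ N) (h : ∀ x ∈ a, ∃! y, y ∈ N ∧ R (cons y (cons x v))) :
    ∃ b ∈ N, ∀ y ∈ N, y ∈ b ↔ ∃ x ∈ a, R (cons y (cons x v)) := by
  obtain ⟨φ, X, hX, hφ⟩ := hR
  have hX' : X = fun _ => ∅ := funext fun c => hX c
  subst hX'
  have key : ∀ x ∈ a, ∀ y ∈ N, (Sat0 N φ (cons y (cons x v)) ↔ R (cons y (cons x v))) := fun x hx y hy =>
    hφ _ (V2_cons (V2_cons hv (hN.trans _ ha _ hx)) hy)
  obtain ⟨b, hb, h1⟩ := hN.replacement φ v hv a ha (by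
    intro x hx
    obtain ⟨y, ⟨hy, hy'⟩, hu⟩ := h x hx
    exact ⟨y, ⟨hy, (key x hx y hy).2 hy'⟩, fun y' hy'' => hu y' ⟨hy''.1, (key x hx y' hy''.1).1 hy''.2⟩⟩)
  refine ⟨b, hb, fun y hy => ?_⟩
  rw [h1 y hy]
  constructor
  · rintro ⟨x, hx, hs⟩
    exact ⟨x, hx, (key x hx y hy).1 hs⟩
  · rintro ⟨x, hx, hs⟩
    exact ⟨x, hx, (key x hx y hy).2 hs⟩

theorem V2_zero {N : Set ZFSet.{0}} (hN : Base N) : Dfn N {∅} fun v => V 0 (v 0) (v 1) := by
  have hS : Dfn N {∅} fun w => w 0 ∈ w 1 := dfn_mem V2_ne 0 1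
  have hR : ∀ v : ℕ → ZFSet.{0}, (∀ i, v i ∈ N) → ∀ x ∈ N, ∀ y,
      (fun w : ℕ → ZFSet.{0} => w 0 ∈ w 1) (cons y (cons x v)) → y ∈ N := fun v _ x hx y hy => hN.trans x hx y hy
  have hA : Dfn N {∅} fun v => ∃ n, v 1 = nat n ∧ ChM n (v 0) := K1_dfn hN hS hR 0 1
  have hB : Dfn N {∅} fun w => w 0 = insert (w 2) (w 2) ∧ ∃ n, w 0 = nat n ∧ ChM n (w 1) :=
    dfn_and (dfn_succ hN V2_ne 0 2) (K1_dfn hN hS hR 1 0)
  refine dfn_congr (dfn_and hA (dfn_not (dfn_ex hB))) ?_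
  intro v hv
  constructor
  · rintro ⟨⟨n, hn, hc⟩, h2⟩
    refine ⟨n, hn, hc, fun h3 => h2 ⟨nat (n + 1), N1_nat_mem hN _, ?_, n + 1, rfl, h3⟩⟩
    show nat (n + 1) = insert (v 1) (v 1)
    rw [hn]
    rfl
  · rintro ⟨n, hn, hc, h3⟩
    refine ⟨⟨n, hn, hc⟩, ?_⟩
    rintro ⟨a, ha, h4, m, h5, h6⟩
    have h4' : a = insert (v 1) (v 1) := h4
    have h5' : a = nat m := h5
    have h7 : nat m = nat (n + 1) := by
      rw [← h5', h4', hn]
      rfl
    have h8 := N1_inj _ _ h7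
    subst h8
    exact h3 h6

theorem V2_bex {N : Set ZFSet.{0}} (hN : Base N) (t : ℕ) (h : Dfn N {∅} fun v => V t (v 0) (v 1)) (j : ℕ) :
    Dfn N {∅} fun w => ∃ y ∈ w j, V t y (w 0) :=
  dfn_bex hN (R := fun u => V t (u 0) (u 1)) h j

/-- Proof. Both parts together by induction on `t`. `t = 0`: for the first, `z = nat n`; for the second, `K1_dfn` with
`S = fun w => w 0 ∈ w 1` and `A2`-`A4` (`ChM (n + 1)` is expressed with a variable equal to `insert (v j) (v j)`). `t + 1`: the set `z`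
is in `N`: for `t = 0` it is a subset of `ω` given by `V2_sep` on `omega`, for `t ≥ 1` it is given by `V2_repl` on `x`
(`V1_total`, `V1_unique` and the induction hypothesis give `∃!`). Definability of `V (t + 1)`: for `x ∈ N` all values `z'` of elements
of `x` are in `N`, so the quantifier over `z'` can be restricted to `N`. -/
theorem V2_main {N : Set ZFSet.{0}} (hN : ZFCModel N) (t : ℕ) :
    (∀ x ∈ N, ∀ z, V t x z → z ∈ Typ N t) ∧ Dfn N {∅} fun v => V t (v 0) (v 1) := by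
  have hB : Base N := N1_base hN
  induction t with
  | zero =>
    refine ⟨?_, V2_zero hB⟩
    rintro x _ z ⟨n, rfl, _⟩
    exact (N1_mem_omega _).2 ⟨n, rfl⟩
  | succ t ih =>
    obtain ⟨ih1, ih2⟩ := ih
    have hval : ∀ x ∈ N, ∀ z', (∃ y ∈ x, V t y z') → z' ∈ Typ N t := by
      rintro x hx z' ⟨y, hy, hz'⟩
      exact ih1 y (hN.trans x hx y hy) z' hz'
    refine ⟨?_, ?_⟩
    · intro x hx z hz
      have hz : ∀ z', z' ∈ z ↔ ∃ y ∈ x, V t y z' := hz
      refine ⟨?_, fun z' hz' => hval x hx z' ((hz z').1 hz')⟩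
      cases t with
      | zero =>
        obtain ⟨b, hb, h1⟩ := V2_sep hN (v := fun _ => x) (V2_bex hB 0 ih2 1) (fun _ => hx) hN.infinity
        have h2 : z = b := by
          apply ZFSet.ext
          intro z'
          rw [h1 z', hz z']
          exact ⟨fun h => ⟨hval x hx z' h, h⟩, fun h => h.2⟩
        rw [h2]
        exact hb
      | succ t =>
        have h3 : Dfn N {∅} fun w => V (t + 1) (w 1) (w 0) := by
          have := dfn_ren ih2 (fun i => if i = 0 then 1 else 0)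
          exact this
        obtain ⟨b, hb, h1⟩ := V2_repl hN (v := fun _ => x) h3 (fun _ => hx) hx (by
          intro y hy
          obtain ⟨z', hz'⟩ := V1_total t y
          refine ⟨z', ⟨V2_typ hB (t + 1) (hval x hx z' ⟨y, hy, hz'⟩), hz'⟩, ?_⟩
          rintro z'' ⟨_, h4⟩
          exact V1_unique (t + 1) y z'' z' h4 hz')
        have h2 : z = b := by
          apply ZFSet.ext
          intro z'
          rw [hz z']
          constructor
          · intro h
            exact (h1 z' (V2_typ hB (t + 1) (hval x hx z' h))).2 h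
          · intro h
            exact (h1 z' (hN.trans b hb z' h)).1 h
        rw [h2]
        exact hb
    · have h5 : Dfn N {∅} fun w => (w 0 ∈ w 2 ↔ ∃ y ∈ w 1, V t y (w 0)) :=
        dfn_iff (dfn_mem V2_ne 0 2) (V2_bex hB t ih2 1)
      refine dfn_congr (dfn_all h5) ?_
      intro v hv
      constructor
      · intro h z'
        constructor
        · intro h6
          exact (h z' (hN.trans _ (hv 1) _ h6)).1 h6
        · intro h6
          exact (h z' (V2_typ hB t (hval _ (hv 0) z' h6))).2 h6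
      · intro h z' _
        exact h z'

theorem V2_closed {N : Set ZFSet.{0}} (hN : ZFCModel N) (t : ℕ) {x z : ZFSet.{0}} (hx : x ∈ N) (h : V t x z) :
    z ∈ Typ N t :=
  (V2_main hN t).1 x hx z h

end Pool.Agent.H65C
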