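import Pool.Agent.Lib.H65C.F1
import Pool.Agent.Lib.H65C.F2
import Pool.Agent.Lib.H65C.E4
import Pool.Agent.Lib.H65C.V2

/-!
# Project H65C, chunk F3 (M): the truth lemma
-/

namespace Pool.Agent.H65C

open ZFSet

variable {C : Set (Set ZFSet.{0})} {M P L G : Set ZFSet.{0}}

def f3_a : ℕ → ℕ
  | 0 => 0
  | n + 1 => n + 2

def f3_b : ℕ → ℕ
  | 0 => 0
  | 1 => 1
  | n + 2 => n + 3

/-- the class of the conditions without extension forcing `ψ` -/
theorem f3_no (hB : GBModel M C) (hF : ClassForcing C P L) (j : ℕ) (ψ : Fm) :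
    Dfn M C fun v => ∀ r, pair r (v 0) ∈ L → ¬ FR M P L j ψ r fun i => v (i + 1) := by
  have h1 : Dfn M C fun x : ℕ → ZFSet.{0} => ¬ FR M P L j ψ (x 0) fun i => x (i + 2) :=
    dfn_not (dfn_ren (F2_dfn hB hF j ψ) f3_a)
  exact D1_all hB hF h1 0

theorem f3_noex (hB : GBModel M C) (hF : ClassForcing C P L) (j : ℕ) (φ : Fm) :
    Dfn M C fun v => ∃ u ∈ M, IsName P u ∧
      ∀ r, pair r (v 0) ∈ L → ¬ FR M P L j φ r (cons u fun i => v (i + 1)) := by
  have h1 : Dfn M C fun x : ℕ → ZFSet.{0} => ¬ FR M P L j φ (x 0) fun i => x (f3_b (i + 1)) :=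
    dfn_not (dfn_ren (F2_dfn hB hF j φ) f3_b)
  have h2 := D1_all hB hF h1 1
  have h3 := dfn_ex (dfn_and (S2_dfn hB hF.carrier 0) h2)
  refine dfn_congr h3 fun v _ => ?_
  refine exists_congr fun u => and_congr Iff.rfl (and_congr Iff.rfl ?_)
  refine forall_congr' fun r => imp_congr Iff.rfl (not_congr ?_)
  have e : (fun i => (cons r (cons u v)) (f3_b (i + 1))) = cons u fun i => v (i + 1) := by
    funext i
    cases i with
    | zero => rfl
    | succ i => rfl
  show FR M P L j φ r (fun i => (cons r (cons u v)) (f3_b (i + 1))) ↔ _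
  rw [e]

/-- a condition that does not force `ψ` has an extension without extensions forcing `ψ` -/
theorem f3_ext (hB : GBModel M C) (hF : ClassForcing C P L) (j : ℕ) (ψ : Fm) {q : ZFSet.{0}} (hq : q ∈ P)
    {v : ℕ → ZFSet.{0}} (h : ¬ FR M P L j ψ q v) :
    ∃ r, pair r q ∈ L ∧ ∀ r', pair r' r ∈ L → ¬ FR M P L j ψ r' v := by
  by_contra hc
  apply h
  refine F1_dense hF j ψ hq fun r hr => ?_
  by_contra hd
  exact hc ⟨r, hr, fun r' hr' hf => hd ⟨r', hr', hf⟩⟩

/-- Proof. Induction on `φ`, `v` and `w` general. `mem i k`: `E4_mem` with `t = j + 1`, `s = j`. `eq i k`: `E3_eq` and `V1_unique`.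
`cls`, `bot`: both sides are false. `imp φ ψ`: (→) `q ∈ G` with `FR (imp φ ψ) q`; if `Sat0 φ` then some `r ∈ G` has `FR φ r`; take a common
lower bound in `G` (`F1_mono`). (←) `G2_decide` for the class `FR (imp φ ψ) q v` (`F2_dfn`, `G2_cl`): otherwise some `q ∈ G` has no
extension in it. `G2_below` for the class '`FR φ r v` and no `r' ≤ r` has `FR ψ r' v`' (below `q`: every `r1 ≤ q` has `r2 ≤ r1` with
`FR φ r2`, not `FR ψ r2`, and by `F1_dense` there is `r3 ≤ r2` without extension in `FR ψ`) gives such an `r ∈ G`. So `Sat0 φ`, hence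
`Sat0 ψ`, some `r' ∈ G` has `FR ψ r'`, a common lower bound is a contradiction. `all φ`: (→) an `a` in `Typ (MG M P G) (j + 1)` is `val G u`
for a name `u ∈ M` (`Typ` is contained in `MG`), and `V (j + 1) a a` by `V1_id`. (←) similarly: otherwise there are `q ∈ G` without
extension in `FR (all φ)`, and, by `G2_below` for the class 'there is a name `u ∈ M` such that no `r' ≤ r` has `FR φ r' (cons u v)`', an
`r ∈ G` and a name `u` of this kind (`F1_dense`). Let `a` be the value of type `j + 1` of `val G u` (`V1_total`); it is in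
`Typ (MG M P G) (j + 1)` by `V2_closed` and `hZ`; so `Sat0 φ (cons a w)`, and the induction hypothesis gives a contradiction. -/
theorem F3_truth (hB : GBModel M C) (hF : ClassForcing C P L) (hG : Generic C P L G) (hZ : ZFCModel (MG M P G)) (j : ℕ)
    (φ : Fm) (v w : ℕ → ZFSet.{0}) (hv : ∀ i, v i ∈ M ∧ IsName P (v i)) (hw : ∀ i, V (j + 1) (val G (v i)) (w i)) :
    (∃ q ∈ G, FR M P L j φ q v) ↔ Sat0 (Typ (MG M P G) (j + 1)) φ w := by
  induction φ generalizing v w with
  | mem i k => exact (E4_mem hB hF hG (j + 1) j (hv i).1 (hv k).1 (hw i) (hw k)).symm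
  | eq i k =>
    have h1 := E3_eq hB hF hG (j + 1) (j + 1) (hv i).1 (hv k).1
    constructor
    · intro h2
      obtain ⟨z, hz1, hz2⟩ := h1.2 h2
      exact (V1_unique _ _ _ _ (hw i) hz1).trans (V1_unique _ _ _ _ hz2 (hw k))
    · intro h2
      have h3 : w i = w k := h2
      exact h1.1 ⟨w i, hw i, by rw [h3]; exact hw k⟩
  | cls c i =>
    constructor
    · rintro ⟨q, _, h⟩
      exact h.elim
    · intro h
      exact (Set.notMem_empty _ h).elim
  | bot =>
    constructor
    · rintro ⟨q, _, h⟩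
      exact h.elim
    · intro h
      exact False.elim h
  | imp φ ψ ih1 ih2 =>
    constructor
    · rintro ⟨q, hq, h⟩ hs
      obtain ⟨r, hr, hfr⟩ := (ih1 v w hv hw).2 hs
      obtain ⟨s, hs1, hs2, hs3⟩ := hG.dir q hq r hr
      exact (ih2 v w hv hw).1 ⟨s, hs1, h s hs2 (F1_mono hF j φ hfr hs3)⟩
    · intro hs
      have hs' : Sat0 (Typ (MG M P G) (j + 1)) φ w → Sat0 (Typ (MG M P G) (j + 1)) ψ w := hs
      have hcl : Cl M C fun a => FR M P L j (.imp φ ψ) a v :=
        G2_cl hB (F2_dfn hB hF j (.imp φ ψ)) (v := v) fun i => (hv i).1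
      obtain ⟨q, hq, h1 | h1⟩ := G2_decide hB hF hG hcl
      · exact ⟨q, hq, h1⟩
      · exfalso
        have hcl2 : Cl M C fun a => FR M P L j φ a v ∧ ∀ r, pair r a ∈ L → ¬ FR M P L j ψ r v :=
          G2_cl hB (dfn_and (F2_dfn hB hF j φ) (f3_no hB hF j ψ)) (v := v) fun i => (hv i).1
        obtain ⟨r, hr, hr1, hr2⟩ := G2_below hB hF hG hcl2 hq (fun r1 hr1 => by
          have h2 := h1 r1 hr1
          have h3 : ∃ r2, pair r2 r1 ∈ L ∧ FR M P L j φ r2 v ∧ ¬ FR M P L j ψ r2 v := by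
            by_contra hc
            apply h2
            intro r2 hr2 hf
            by_contra hn
            exact hc ⟨r2, hr2, hf, hn⟩
          obtain ⟨r2, hr2, hf, hn⟩ := h3
          obtain ⟨r3, hr3, hr3'⟩ := f3_ext hB hF j ψ (G2_sub hB hF hr2).1 hn
          exact ⟨r3, hF.trans _ _ _ hr3 hr2, F1_mono hF j φ hf hr3, hr3'⟩)
        obtain ⟨r', hr', hfr'⟩ := (ih2 v w hv hw).2 (hs' ((ih1 v w hv hw).1 ⟨r, hr, hr1⟩))
        obtain ⟨s, _, hs2, hs3⟩ := hG.dir r hr r' hr'
        exact hr2 s hs2 (F1_mono hF j ψ hfr' hs3)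
  | all φ ih =>
    have key : ∀ (u : ZFSet.{0}) (a : ZFSet.{0}), u ∈ M → IsName P u → V (j + 1) (val G u) a →
        ((∃ q ∈ G, FR M P L j φ q (cons u v)) ↔ Sat0 (Typ (MG M P G) (j + 1)) φ (cons a w)) := by
      intro u a hu hn hV
      refine ih (cons u v) (cons a w) (fun i => ?_) (fun i => ?_)
      · cases i with
        | zero => exact ⟨hu, hn⟩
        | succ i => exact hv i
      · cases i with
        | zero => exact hV
        | succ i => exact hw i
    constructor
    · rintro ⟨q, hq, h⟩ a ha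
      have ha1 : a ∈ MG M P G := ha.1
      obtain ⟨σ, hσ, hn, rfl⟩ := ha1
      exact (key σ _ hσ hn (V1_id _ (j + 1) _ ha)).1 ⟨q, hq, h σ hσ hn⟩
    · intro hs
      have hs' : ∀ a ∈ Typ (MG M P G) (j + 1), Sat0 (Typ (MG M P G) (j + 1)) φ (cons a w) := hs
      have hcl : Cl M C fun a => FR M P L j (.all φ) a v :=
        G2_cl hB (F2_dfn hB hF j (.all φ)) (v := v) fun i => (hv i).1
      obtain ⟨q, hq, h1 | h1⟩ := G2_decide hB hF hG hcl
      · exact ⟨q, hq, h1⟩
      · exfalso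
        have hcl2 : Cl M C fun a => ∃ u ∈ M, IsName P u ∧
            ∀ r, pair r a ∈ L → ¬ FR M P L j φ r (cons u v) :=
          G2_cl hB (f3_noex hB hF j φ) (v := v) fun i => (hv i).1
        obtain ⟨r, hr, u, hu, hn, hno⟩ := G2_below hB hF hG hcl2 hq (fun r1 hr1 => by
          have h2 := h1 r1 hr1
          have h3 : ∃ u ∈ M, IsName P u ∧ ¬ FR M P L j φ r1 (cons u v) := by
            by_contra hc
            apply h2
            intro u hu hn
            by_contra hf
            exact hc ⟨u, hu, hn, hf⟩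
          obtain ⟨u, hu, hn, hf⟩ := h3
          obtain ⟨r3, hr3, hr3'⟩ := f3_ext hB hF j φ (G2_sub hB hF hr1).1 hf
          exact ⟨r3, hr3, u, hu, hn, hr3'⟩)
        obtain ⟨a, ha⟩ := V1_total j (val G u)
        have hat : a ∈ Typ (MG M P G) (j + 1) := V2_closed hZ (j + 1) ⟨u, hu, hn, rfl⟩ ha
        obtain ⟨r', hr', hfr'⟩ := (key u a hu hn ha).2 (hs' a hat)
        obtain ⟨s, _, hs2, hs3⟩ := hG.dir r hr r' hr'
        exact hno s hs2 (F1_mono hF j φ hfr' hs3)

end Pool.Agent.H65C
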