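import Pool.Agent.Lib.H65C.G2

/-!
# Project H65C, chunk G3 (M): existence of generic filters (Rasiowa-Sikorski)
-/

namespace Pool.Agent.H65C

open ZFSet

/-- Proof. Enumerate the dense subclasses of `P` in the countable family `C` as `D 0, D 1, ...` (if there are any: `P` itself is one),
choose `q 0 = p`, `q (n + 1) ≤ q n` in `D n`, and let `G` be the set of all `r ∈ P` with `q n ≤ r` for some `n`. -/
theorem G3_exists {C : Set (Set ZFSet.{0})} (hC : C.Countable) {P L : Set ZFSet.{0}} (hF : ClassForcing C P L)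
    {p : ZFSet.{0}} (hp : p ∈ P) : ∃ G, Generic C P L G ∧ p ∈ G := by
  classical
  set S : Set (Set ZFSet.{0}) := {D | D ∈ C ∧ D ⊆ P ∧ ∀ x ∈ P, ∃ y ∈ D, pair y x ∈ L} with hS
  have hSc : S.Countable := hC.mono (fun D h => h.1)
  have hPS : P ∈ S := ⟨hF.carrier, le_refl _, fun x hx => ⟨x, hx, hF.refl x hx⟩⟩
  obtain ⟨D, hD⟩ := hSc.exists_eq_range ⟨P, hPS⟩
  have hDS : ∀ n, D n ∈ S := fun n => by rw [hD]; exact ⟨n, rfl⟩
  have step : ∀ (n : ℕ) (x : {x // x ∈ P}), ∃ y : {x // x ∈ P}, y.1 ∈ D n ∧ pair y.1 x.1 ∈ L := by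
    intro n x
    obtain ⟨y, hy, hyx⟩ := (hDS n).2.2 x.1 x.2
    exact ⟨⟨y, (hDS n).2.1 hy⟩, hy, hyx⟩
  choose nxt hnxt using step
  let q : ℕ → {x // x ∈ P} := fun n => Nat.rec ⟨p, hp⟩ (fun n x => nxt n x) n
  have hqs : ∀ n, q (n + 1) = nxt n (q n) := fun n => rfl
  have hmono : ∀ m n, m ≤ n → pair (q n).1 (q m).1 ∈ L := by
    intro m n h
    induction n, h using Nat.le_induction with
    | base => exact hF.refl _ (q m).2
    | succ n _ ih =>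
      refine hF.trans _ _ _ ?_ ih
      rw [hqs]
      exact (hnxt n (q n)).2
  refine ⟨{r | r ∈ P ∧ ∃ n, pair (q n).1 r ∈ L}, ⟨fun r h => h.1, ?_, ?_, ?_⟩, hp, 0,
    hF.refl p hp⟩
  · rintro r ⟨hr, n, hn⟩ s hs
    refine ⟨?_, n, hF.trans _ _ _ hn hs⟩
    obtain ⟨a, ha, b, hb, e⟩ := hF.rel _ hs
    rw [(pair_inj.1 e).2]
    exact hb
  · rintro r ⟨hr, n, hn⟩ s ⟨hs, m, hm⟩
    exact ⟨(q (max n m)).1, ⟨(q _).2, max n m, hF.refl _ (q _).2⟩,
      hF.trans _ _ _ (hmono n _ (le_max_left _ _)) hn,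
      hF.trans _ _ _ (hmono m _ (le_max_right _ _)) hm⟩
  · intro E hE hEP hEd
    have hES : E ∈ S := ⟨hE, hEP, hEd⟩
    rw [hD] at hES
    obtain ⟨n, rfl⟩ := hES
    refine ⟨(q (n + 1)).1, ?_, (q (n + 1)).2, n + 1, hF.refl _ (q (n + 1)).2⟩
    rw [hqs]
    exact (hnxt n (q n)).1

end Pool.Agent.H65C
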