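import Pool.Agent.Lib.H65C.Work2
import Pool.Agent.Lib.H65C.G2
import Pool.Agent.Lib.H65C.A4

/-!
# Project H65C, chunk H0 (S/M): replacement, separation, products in `M`, in terms of definable predicates
-/

namespace Pool.Agent.H65C

open ZFSet

variable {M : Set ZFSet.{0}} {C : Set (Set ZFSet.{0})}

theorem h0_cons {a : ZFSet.{0}} {v : ℕ → ZFSet.{0}} (ha : a ∈ M) (hv : ∀ i, v i ∈ M) : ∀ i, cons a v i ∈ M := by
  intro i
  cases i with
  | zero => exact ha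
  | succ n => exact hv n

/-- Renaming for `H0_repl`. -/
def h0_f : ℕ → ℕ
  | 0 => 0
  | 1 => 1
  | n + 2 => n + 4

theorem h0_fe (x y z a : ZFSet.{0}) (v : ℕ → ZFSet.{0}) :
    (fun i => cons y (cons x (cons z (cons a v))) (h0_f i)) = cons y (cons x v) := by
  funext i
  match i with
  | 0 => rfl
  | 1 => rfl
  | n + 2 => rfl

theorem h0_dfn (hM : Base M) {R : (ℕ → ZFSet.{0}) → Prop} (hR : Dfn M C R) :
    Dfn M C fun w => ∃ x ∈ M, ∃ y ∈ M, w 0 = pair x y ∧ (x ∈ w 1 ∧ R (fun i => cons y (cons x w) (h0_f i))) :=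
  dfn_ex (R := fun w => ∃ y ∈ M, w 1 = pair (w 0) y ∧ (w 0 ∈ w 2 ∧ R (fun i => cons y w (h0_f i))))
    (dfn_ex (R := fun w => w 2 = pair (w 1) (w 0) ∧ (w 1 ∈ w 3 ∧ R (fun i => w (h0_f i))))
      (dfn_and (dfn_opair hM (dfn_nonempty hR) 2 1 0) (dfn_and (dfn_mem (dfn_nonempty hR) 1 3) (dfn_ren hR h0_f))))

/-- Proof. Class replacement for `F = {z ∈ M | ∃ x y ∈ M, z = pair x y ∧ x ∈ a ∧ R (cons y (cons x v))}`, which is in `C` by
`G2_cl` with the assignment `cons a v` (rename the variables of `R` with `dfn_ren`). -/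
theorem H0_repl (hB : GBModel M C) {R : (ℕ → ZFSet.{0}) → Prop} (hR : Dfn M C R) {v : ℕ → ZFSet.{0}}
    (hv : ∀ i, v i ∈ M) {a : ZFSet.{0}} (ha : a ∈ M)
    (hf : ∀ x ∈ a, ∀ y ∈ M, ∀ y' ∈ M, R (cons y (cons x v)) → R (cons y' (cons x v)) → y = y') :
    ∃ b ∈ M, ∀ y, y ∈ b ↔ y ∈ M ∧ ∃ x ∈ a, R (cons y (cons x v)) := by
  have hM := N1_base hB.zfc
  have hF := G2_cl hB (h0_dfn hM hR) (h0_cons ha hv)
  have hF2 : {z | z ∈ M ∧ ∃ x ∈ M, ∃ y ∈ M, z = pair x y ∧ (x ∈ a ∧ R (cons y (cons x v)))} ∈ C := by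
    have h1 : {z | z ∈ M ∧ ∃ x ∈ M, ∃ y ∈ M, z = pair x y ∧ (x ∈ a ∧ R (cons y (cons x v)))} =
        {z | z ∈ M ∧ ∃ x ∈ M, ∃ y ∈ M, cons z (cons a v) 0 = pair x y ∧
          (x ∈ cons z (cons a v) 1 ∧ R (fun i => cons y (cons x (cons z (cons a v))) (h0_f i)))} := by
      ext z
      constructor
      · rintro ⟨hz, x, hx, y, hy, h1, h2, h3⟩
        refine ⟨hz, x, hx, y, hy, h1, h2, ?_⟩
        rw [h0_fe]
        exact h3
      · rintro ⟨hz, x, hx, y, hy, h1, h2, h3⟩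
        rw [h0_fe] at h3
        exact ⟨hz, x, hx, y, hy, h1, h2, h3⟩
    rw [h1]
    exact hF
  have key : ∀ x y, pair x y ∈ {z | z ∈ M ∧ ∃ x ∈ M, ∃ y ∈ M, z = pair x y ∧ (x ∈ a ∧ R (cons y (cons x v)))} ↔
      (y ∈ M ∧ x ∈ a ∧ R (cons y (cons x v))) := by
    intro x y
    constructor
    · rintro ⟨_, x', _, y', hy', h1, h2, h3⟩
      obtain ⟨rfl, rfl⟩ := pair_inj.mp h1
      exact ⟨hy', h2, h3⟩
    · rintro ⟨hy, hx, h⟩
      have hxM := hM.trans a ha x hx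
      exact ⟨base_pair hM hxM hy, x, hxM, y, hy, rfl, hx, h⟩
  obtain ⟨b, hb, h⟩ := hB.replacement _ hF2 (by
    intro x y z h1 h2
    obtain ⟨hy, hx, h1⟩ := (key x y).mp h1
    obtain ⟨hz, _, h2⟩ := (key x z).mp h2
    exact hf x hx y hy z hz h1 h2) a ha
  refine ⟨b, hb, fun y => ?_⟩
  rw [h y]
  constructor
  · rintro ⟨x, hx, h1⟩
    obtain ⟨hy, _, h1⟩ := (key x y).mp h1
    exact ⟨hy, x, hx, h1⟩
  · rintro ⟨hy, x, hx, h1⟩
    exact ⟨x, hx, (key x y).mpr ⟨hy, hx, h1⟩⟩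

/-- Proof. `H0_repl` for `fun w => w 0 = w 1 ∧ R (cons (w 1) (fun i => w (i + 2)))`. -/
theorem H0_sep (hB : GBModel M C) {R : (ℕ → ZFSet.{0}) → Prop} (hR : Dfn M C R) {v : ℕ → ZFSet.{0}}
    (hv : ∀ i, v i ∈ M) {a : ZFSet.{0}} (ha : a ∈ M) : ∃ b ∈ M, ∀ z, z ∈ b ↔ z ∈ a ∧ R (cons z v) := by
  have hR2 : Dfn M C fun w => w 0 = w 1 ∧ R (fun i => w (i + 1)) :=
    dfn_and (dfn_eq (dfn_nonempty hR) 0 1) (dfn_ren hR fun i => i + 1)
  have he : ∀ y x, (fun i => cons y (cons x v) (i + 1)) = cons x v := fun y x => rfl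
  obtain ⟨b, hb, h⟩ := H0_repl hB hR2 hv ha (by
    rintro x _ y _ y' _ ⟨h1, _⟩ ⟨h2, _⟩
    exact h1.trans h2.symm)
  refine ⟨b, hb, fun z => ?_⟩
  rw [h z]
  constructor
  · rintro ⟨_, x, hx, h1, h2⟩
    have h1 : z = x := h1
    subst h1
    exact ⟨hx, h2⟩
  · rintro ⟨hz, h1⟩
    exact ⟨(N1_base hB.zfc).trans a ha z hz, z, hz, rfl, h1⟩

theorem H0_union (hM : Base M) {a b : ZFSet.{0}} (ha : a ∈ M) (hb : b ∈ M) : a ∪ b ∈ M := by
  have h1 : a ∪ b = (⋃₀ ({a, b} : ZFSet.{0}) : ZFSet.{0}) := by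
    ext z
    rw [mem_union, mem_sUnion]
    constructor
    · rintro (h | h)
      · exact ⟨a, mem_pair.2 (Or.inl rfl), h⟩
      · exact ⟨b, mem_pair.2 (Or.inr rfl), h⟩
    · rintro ⟨y, hy, h⟩
      rcases mem_pair.1 hy with rfl | rfl
      · exact Or.inl h
      · exact Or.inr h
  rw [h1]
  exact hM.union _ (hM.pairing a ha b hb)

/-- Proof. For `x ∈ a` the set `{x} × b` is in `M` (`H0_repl`); the relation `w 0 = {w 1} × b` is definable (for all `z ∈ M`: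
`z ∈ w 0` iff `∃ y ∈ b, z = pair (w 1) y`), so the set of all `{x} × b`, `x ∈ a`, is in `M` by `H0_repl`; take the union. -/
theorem H0_prod (hB : GBModel M C) {a b : ZFSet.{0}} (ha : a ∈ M) (hb : b ∈ M) : a.prod b ∈ M := by
  have hM := N1_base hB.zfc
  have hne : ({∅} : Set (Set ZFSet.{0})).Nonempty := ⟨∅, rfl⟩
  obtain ⟨c, hc, hc2⟩ := hB.zfc.power _ (H0_union hM ha hb)
  obtain ⟨d, hd, hd2⟩ := hB.zfc.power c hc
  have hR : Dfn M {∅} fun w => ∃ x ∈ w 1, ∃ y ∈ w 2, w 0 = pair x y :=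
    dfn_congr (dfn_bex hM (R := fun w => ∃ y ∈ w 3, w 1 = pair (w 0) y)
      (dfn_bex hM (R := fun w => w 2 = pair (w 1) (w 0)) (dfn_opair hM hne 2 1 0) 3) 1) fun v _ => Iff.rfl
  obtain ⟨φ, X, hX, h⟩ := hR
  have hX0 : X = fun _ => ∅ := funext fun c => hX c
  subst hX0
  obtain ⟨e, he, he2⟩ := hB.zfc.separation φ (cons a (cons b fun _ => a))
    (h0_cons ha (h0_cons hb fun _ => ha)) d hd
  have hed : a.prod b = e := by
    ext z
    rw [he2 z, mem_prod]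
    constructor
    · rintro ⟨x, hx, y, hy, rfl⟩
      have hxM := hM.trans a ha x hx
      have hyM := hM.trans b hb y hy
      have hpM := base_pair hM hxM hyM
      refine ⟨?_, ?_⟩
      · rw [hd2 _ hpM]
        intro w hw
        have hwM := hM.trans _ hpM w hw
        rw [hc2 _ hwM]
        intro t ht
        rw [mem_union]
        rcases mem_pair.1 hw with rfl | rfl
        · rw [mem_singleton] at ht
          subst ht
          exact Or.inl hx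
        · rcases mem_pair.1 ht with rfl | rfl
          · exact Or.inl hx
          · exact Or.inr hy
      · exact (h _ (h0_cons hpM (h0_cons ha (h0_cons hb fun _ => ha)))).mpr ⟨x, hx, y, hy, rfl⟩
    · rintro ⟨hz, h1⟩
      have hzM := hM.trans d hd z hz
      obtain ⟨x, hx, y, hy, h2⟩ := (h _ (h0_cons hzM (h0_cons ha (h0_cons hb fun _ => ha)))).mp h1
      exact ⟨x, hx, y, hy, h2⟩
  rw [hed]
  exact he

end Pool.Agent.H65C
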