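import Pool.Agent.Lib.H65C.A4
import Pool.Agent.Lib.H65C.G2

/-!
# Project H65C, chunk S1 (M): the hereditary subnames of a name form a set of `M`
-/

namespace Pool.Agent.H65C

open ZFSet

/-- Replacement in `M` for definable relations. -/
theorem s1_repl {M : Set ZFSet.{0}} (hZ : ZFCModel M) {R : (ℕ → ZFSet.{0}) → Prop}
    (hR : Dfn M {∅} R) {v : ℕ → ZFSet.{0}} (hv : ∀ i, v i ∈ M) {a : ZFSet.{0}} (ha : a ∈ M)
    (hfun : ∀ x ∈ a, ∀ y ∈ M, ∀ z ∈ M, R (cons y (cons x v)) → R (cons z (cons x v)) → y = z) :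
    ∃ b ∈ M, ∀ y, y ∈ b ↔ y ∈ M ∧ ∃ x ∈ a, R (cons y (cons x v)) := by
  have hcons : ∀ (w : ℕ → ZFSet.{0}), (∀ i, w i ∈ M) → ∀ x ∈ M, ∀ i, cons x w i ∈ M := by
    intro w hw x hx i
    cases i with
    | zero => exact hx
    | succ n => exact hw n
  have h2 := dfn_ex hR
  obtain ⟨φ, X, hX, hφ⟩ := hR
  obtain ⟨ψ, Y, hY, hψ⟩ := h2
  have hX' : X = fun _ => ∅ := funext fun c => hX c
  have hY' : Y = fun _ => ∅ := funext fun c => hY c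
  subst hX'
  subst hY'
  have hax : ∀ x ∈ a, x ∈ M := fun x hx => hZ.trans a ha x hx
  obtain ⟨a', ha', ha2⟩ := hZ.separation ψ v hv a ha
  have ha3 : ∀ x, x ∈ a' ↔ x ∈ a ∧ ∃ y ∈ M, R (cons y (cons x v)) := by
    intro x
    rw [ha2]
    constructor
    · rintro ⟨hx, h⟩
      exact ⟨hx, (hψ _ (hcons v hv x (hax x hx))).1 h⟩
    · rintro ⟨hx, h⟩
      exact ⟨hx, (hψ _ (hcons v hv x (hax x hx))).2 h⟩
  obtain ⟨b, hb, hb2⟩ := hZ.replacement φ v hv a' ha' (by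
    intro x hx
    obtain ⟨hxa, y, hy, hr⟩ := (ha3 x).1 hx
    refine ⟨y, ⟨hy, ?_⟩, ?_⟩
    · exact (hφ _ (hcons _ (hcons v hv x (hax x hxa)) y hy)).2 hr
    · rintro z ⟨hz, hr'⟩
      exact hfun x hxa z hz y hy ((hφ _ (hcons _ (hcons v hv x (hax x hxa)) z hz)).1 hr') hr)
  refine ⟨b, hb, fun y => ?_⟩
  constructor
  · intro hyb
    have hy : y ∈ M := hZ.trans b hb y hyb
    obtain ⟨x, hx, hr⟩ := (hb2 y hy).1 hyb
    have hxa := ((ha3 x).1 hx).1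
    exact ⟨hy, x, hxa, (hφ _ (hcons _ (hcons v hv x (hax x hxa)) y hy)).1 hr⟩
  · rintro ⟨hy, x, hx, hr⟩
    refine (hb2 y hy).2 ⟨x, (ha3 x).2 ⟨hx, y, hy, hr⟩, ?_⟩
    exact (hφ _ (hcons _ (hcons v hv x (hax x hx)) y hy)).2 hr

theorem s1_ne : ({∅} : Set (Set ZFSet.{0})).Nonempty := ⟨∅, rfl⟩

/-- `s` is a coherent set of pairs `(n, D^n {σ})`. -/
def s1Good (M : Set ZFSet.{0}) (σ s : ZFSet.{0}) : Prop :=
  ∀ k ∈ M, ∀ y ∈ M, pair k y ∈ s → ((k = ∅ → y = {σ, σ}) ∧ ∀ k' ∈ M, k = insert k' k' →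
    ∃ y' ∈ M, pair k' y' ∈ s ∧ ∀ τ ∈ M, (τ ∈ y ↔ ∃ x ∈ y', ∃ p ∈ M, pair τ p ∈ x))

theorem s1_dfn {M : Set ZFSet.{0}} (hM : Base M) :
    Dfn M {∅} fun u => ∃ s ∈ M, pair (u 1) (u 0) ∈ s ∧ s1Good M (u 2) s := by
  have h8 : Dfn M {∅} fun w => pair (w 2) (w 0) ∈ w 1 := dfn_opair_mem hM s1_ne 1 2 0
  have h7 : Dfn M {∅} fun w => ∃ p ∈ M, pair (w 1) p ∈ w 0 := dfn_ex h8
  have h6 : Dfn M {∅} fun w => ∃ x ∈ w 1, ∃ p ∈ M, pair (w 0) p ∈ x := dfn_bex hM h7 1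
  have h6' : Dfn M {∅} fun w => (w 0 ∈ w 3 ↔ ∃ x ∈ w 1, ∃ p ∈ M, pair (w 0) p ∈ x) := dfn_iff (dfn_mem s1_ne 0 3) h6
  have h5 : Dfn M {∅} fun w => ∀ τ ∈ M, (τ ∈ w 2 ↔ ∃ x ∈ w 0, ∃ p ∈ M, pair τ p ∈ x) := dfn_all h6'
  have h5' : Dfn M {∅} fun w => pair (w 1) (w 0) ∈ w 4 ∧ ∀ τ ∈ M, (τ ∈ w 2 ↔ ∃ x ∈ w 0, ∃ p ∈ M, pair τ p ∈ x) :=
    dfn_and (dfn_opair_mem hM s1_ne 4 1 0) h5
  have h4 : Dfn M {∅} fun w => ∃ y' ∈ M, pair (w 0) y' ∈ w 3 ∧ ∀ τ ∈ M, (τ ∈ w 1 ↔ ∃ x ∈ y', ∃ p ∈ M, pair τ p ∈ x) :=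
    dfn_ex h5'
  have h4' : Dfn M {∅} fun w => (w 2 = insert (w 0) (w 0) → ∃ y' ∈ M, pair (w 0) y' ∈ w 3 ∧ ∀ τ ∈ M, (τ ∈ w 1 ↔ ∃ x ∈ y', ∃ p ∈ M, pair τ p ∈ x)) :=
    dfn_imp (dfn_succ hM s1_ne 2 0) h4
  have h3 : Dfn M {∅} fun w => ∀ k' ∈ M, (w 1 = insert k' k' → ∃ y' ∈ M, pair k' y' ∈ w 2 ∧ ∀ τ ∈ M, (τ ∈ w 0 ↔ ∃ x ∈ y', ∃ p ∈ M, pair τ p ∈ x)) :=
    dfn_all h4'
  have h3' : Dfn M {∅} fun w => (w 1 = ∅ → w 0 = {w 5, w 5}) :=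
    dfn_imp (dfn_empty hM s1_ne 1) (dfn_upair hM s1_ne 0 5 5)
  have h3'' : Dfn M {∅} fun w => (pair (w 1) (w 0) ∈ w 2 → ((w 1 = ∅ → w 0 = {w 5, w 5}) ∧ ∀ k' ∈ M, (w 1 = insert k' k' → ∃ y' ∈ M, pair k' y' ∈ w 2 ∧ ∀ τ ∈ M, (τ ∈ w 0 ↔ ∃ x ∈ y', ∃ p ∈ M, pair τ p ∈ x)))) :=
    dfn_imp (dfn_opair_mem hM s1_ne 2 1 0) (dfn_and h3' h3)
  have h2 : Dfn M {∅} fun w => ∀ y ∈ M, (pair (w 0) y ∈ w 1 → ((w 0 = ∅ → y = {w 4, w 4}) ∧ ∀ k' ∈ M, (w 0 = insert k' k' → ∃ y' ∈ M, pair k' y' ∈ w 1 ∧ ∀ τ ∈ M, (τ ∈ y ↔ ∃ x ∈ y', ∃ p ∈ M, pair τ p ∈ x)))) :=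
    dfn_all h3''
  have h1 : Dfn M {∅} fun w => s1Good M (w 3) (w 0) := dfn_all h2
  have h1' : Dfn M {∅} fun w => pair (w 2) (w 1) ∈ w 0 ∧ s1Good M (w 3) (w 0) :=
    dfn_and (dfn_opair_mem hM s1_ne 0 2 1) h1
  exact dfn_ex h1'

/-- For `y ∈ M` the set of all `τ` that occur in an element of `y` is in `M`. Proof: class replacement for the class
`F = {pair z τ | z ∈ M, ∃ p, z = pair τ p}` (in `C` by comprehension; functional by `pair_inj`) and the set `⋃₀ y`. -/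
theorem S1_step {M : Set ZFSet.{0}} {C : Set (Set ZFSet.{0})} (hB : GBModel M C) {y : ZFSet.{0}} (hy : y ∈ M) :
    ∃ d ∈ M, ∀ τ, τ ∈ d ↔ ∃ x ∈ y, Occ τ x := by
  have hZ := hB.zfc
  have hM : Base M := N1_base hZ
  have h2 : Dfn M {∅} fun w => w 2 = pair (w 1) (w 0) := dfn_opair hM s1_ne 2 1 0
  have h1 : Dfn M {∅} fun w => ∃ p ∈ M, w 1 = pair (w 0) p := dfn_ex h2
  obtain ⟨b, hb, hb2⟩ := s1_repl hZ h1 (v := fun _ => y) (fun _ => hy) (hM.union y hy) (by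
    intro x hx τ hτ τ' hτ' h3 h4
    obtain ⟨p, _, hp⟩ := h3
    obtain ⟨p', _, hp'⟩ := h4
    have hp1 : x = pair τ p := hp
    have hp2 : x = pair τ' p' := hp'
    rw [hp1] at hp2
    exact (pair_inj.1 hp2).1)
  refine ⟨b, hb, fun τ => ?_⟩
  rw [hb2]
  constructor
  · rintro ⟨_, x, hx, p, _, hp⟩
    obtain ⟨x', hx', hxx⟩ := mem_sUnion.1 hx
    have hp1 : x = pair τ p := hp
    exact ⟨x', hx', p, by rw [← hp1]; exact hxx⟩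
  · rintro ⟨x, hx, p, hp⟩
    have hpM : pair τ p ∈ M := hM.trans x (hM.trans y hy x hx) _ hp
    have h5 := base_of_pair hM hpM
    exact ⟨h5.1, pair τ p, mem_sUnion.2 ⟨x, hx, hp⟩, p, h5.2, rfl⟩

/-- Proof. Let `D y` be the set of `S1_step`, `D^n` its iterates. The relation `F n z` `n ∈ ω` and there is `s ∈ M` with
`pair n z ∈ s` such that for all `pair k y ∈ s`: if `k = ∅` then `y = {σ}`, and for all `k'` with `k = insert k' k'` there is `y'` with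
`pair k' y' ∈ s` and `∀ τ, τ ∈ y ↔ ∃ x ∈ y', Occ τ x` is definable, and `F (nat n) z` iff `z = D^n {σ}` (uniqueness by induction on
`n` for all `pair (nat n) z ∈ s`; existence: finite sets `{pair (nat i) (D^i {σ}) : i ≤ n}`). Class replacement for `F` on `ω` gives
`b ∈ M`, and `s = ⋃₀ b`. -/
theorem S1_closure {M : Set ZFSet.{0}} {C : Set (Set ZFSet.{0})} (hB : GBModel M C) {σ : ZFSet.{0}} (hσ : σ ∈ M) :
    ∃ s ∈ M, σ ∈ s ∧ (∀ x ∈ s, ∀ τ, Occ τ x → τ ∈ s) ∧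
      ∀ Q : ZFSet.{0} → Prop, Q σ → (∀ x τ, Q x → Occ τ x → Q τ) → ∀ x ∈ s, Q x := by
  classical
  have hZ := hB.zfc
  have hM : Base M := N1_base hZ
  have hstep : ∀ y : {y : ZFSet.{0} // y ∈ M}, ∃ d : {y : ZFSet.{0} // y ∈ M}, ∀ τ, τ ∈ d.1 ↔ ∃ x ∈ y.1, Occ τ x := by
    intro y
    obtain ⟨d, hd, hd2⟩ := S1_step hB y.2
    exact ⟨⟨d, hd⟩, hd2⟩
  choose D hD using hstep
  let it : ℕ → {y : ZFSet.{0} // y ∈ M} := fun n => Nat.rec ⟨{σ, σ}, hM.pairing σ hσ σ hσ⟩ (fun _ y => D y) n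
  have it0 : (it 0).1 = {σ, σ} := rfl
  have itS : ∀ n, ∀ τ, τ ∈ (it (n + 1)).1 ↔ ∃ x ∈ (it n).1, Occ τ x := fun n => hD (it n)
  have hocc : ∀ y ∈ M, ∀ τ ∈ M, (∃ x ∈ y, ∃ p ∈ M, pair τ p ∈ x) ↔ ∃ x ∈ y, Occ τ x := by
    intro y hy τ hτ
    constructor
    · rintro ⟨x, hx, p, _, hp⟩; exact ⟨x, hx, p, hp⟩
    · rintro ⟨x, hx, p, hp⟩
      exact ⟨x, hx, p, (base_of_pair hM (hM.trans x (hM.trans y hy x hx) _ hp)).2, hp⟩
  have uniq : ∀ s, s1Good M σ s → ∀ n, ∀ z ∈ M, pair (nat n) z ∈ s → z = (it n).1 := by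
    intro s hs n
    induction n with
    | zero =>
      intro z hz hp
      exact (hs (nat 0) (N1_nat_mem hM 0) z hz hp).1 rfl
    | succ n ih =>
      intro z hz hp
      obtain ⟨y', hy', hp', h1⟩ := (hs (nat (n + 1)) (N1_nat_mem hM (n + 1)) z hz hp).2 (nat n) (N1_nat_mem hM n) rfl
      have h2 := ih y' hy' hp'
      apply ZFSet.ext
      intro τ
      rw [itS n τ]
      constructor
      · intro h3
        have hτ : τ ∈ M := hM.trans z hz τ h3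
        have h4 := (hocc y' hy' τ hτ).1 ((h1 τ hτ).1 h3)
        rwa [h2] at h4
      · intro h3
        have hτ : τ ∈ M := hM.trans _ (it (n + 1)).2 τ ((itS n τ).2 h3)
        rw [← h2] at h3
        exact (h1 τ hτ).2 ((hocc y' hy' τ hτ).2 h3)
  have exs : ∀ n, ∃ s ∈ M, ∀ z, z ∈ s ↔ ∃ i ≤ n, z = pair (nat i) (it i).1 := by
    intro n
    induction n with
    | zero =>
      refine ⟨{pair (nat 0) (it 0).1, pair (nat 0) (it 0).1}, hM.pairing _ (base_pair hM (N1_nat_mem hM 0) (it 0).2) _ (base_pair hM (N1_nat_mem hM 0) (it 0).2), fun z => ?_⟩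
      rw [mem_pair]
      constructor
      · rintro (h | h) <;> exact ⟨0, le_refl _, h⟩
      · rintro ⟨i, hi, h⟩
        have : i = 0 := by omega
        subst this
        exact Or.inl h
    | succ n ih =>
      obtain ⟨s, hs, hs2⟩ := ih
      refine ⟨insert (pair (nat (n + 1)) (it (n + 1)).1) s, base_insert hM (base_pair hM (N1_nat_mem hM _) (it (n + 1)).2) hs, fun z => ?_⟩
      rw [mem_insert_iff, hs2]
      constructor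
      · rintro (h | ⟨i, hi, h⟩)
        · exact ⟨n + 1, le_refl _, h⟩
        · exact ⟨i, by omega, h⟩
      · rintro ⟨i, hi, h⟩
        by_cases hi' : i = n + 1
        · subst hi'; exact Or.inl h
        · exact Or.inr ⟨i, by omega, h⟩
  have exg : ∀ n, ∃ s ∈ M, pair (nat n) (it n).1 ∈ s ∧ s1Good M σ s := by
    intro n
    obtain ⟨s, hs, hs2⟩ := exs n
    refine ⟨s, hs, (hs2 _).2 ⟨n, le_refl _, rfl⟩, ?_⟩
    intro k hk y hy hp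
    obtain ⟨i, hi, hpi⟩ := (hs2 _).1 hp
    obtain ⟨hk1, hy1⟩ := pair_inj.1 hpi
    constructor
    · intro hk0
      have h0 : nat i = nat 0 := by rw [← hk1, hk0]; rfl
      have hi0 := N1_inj _ _ h0
      rw [hy1, hi0]
      exact it0
    · intro k' hk' hkk
      cases i with
      | zero =>
        exfalso
        have h0 : (∅ : ZFSet.{0}) = insert k' k' := by rw [← hkk, hk1]; rfl
        have h3 : k' ∈ (∅ : ZFSet.{0}) := by rw [h0]; exact mem_insert_iff.2 (Or.inl rfl)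
        exact notMem_empty _ h3
      | succ i =>
        have h0 : (insert (nat i) (nat i) : ZFSet.{0}) = insert k' k' := by rw [← hkk, hk1]; rfl
        have h3 := N1_succ_inj _ _ h0
        subst h3
        refine ⟨(it i).1, (it i).2, (hs2 _).2 ⟨i, by omega, rfl⟩, ?_⟩
        intro τ hτ
        rw [hy1, itS i τ, hocc _ (it i).2 τ hτ]
  obtain ⟨b, hb, hb2⟩ := s1_repl hZ (s1_dfn hM) (v := fun _ => σ) (fun _ => hσ) hM.infinity (by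
    intro x hx y hy z hz h1 h2
    obtain ⟨n, rfl⟩ := (N1_mem_omega x).1 hx
    obtain ⟨s, _, hp, hg⟩ := h1
    obtain ⟨s', _, hp', hg'⟩ := h2
    rw [uniq s hg n y hy hp, uniq s' hg' n z hz hp'])
  have hb3 : ∀ z, z ∈ b ↔ ∃ n, z = (it n).1 := by
    intro z
    rw [hb2]
    constructor
    · rintro ⟨hz, x, hx, s, _, hp, hg⟩
      obtain ⟨n, rfl⟩ := (N1_mem_omega x).1 hx
      exact ⟨n, uniq s hg n z hz hp⟩
    · rintro ⟨n, rfl⟩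
      refine ⟨(it n).2, nat n, (N1_mem_omega _).2 ⟨n, rfl⟩, ?_⟩
      obtain ⟨s, hs, hp, hg⟩ := exg n
      exact ⟨s, hs, hp, hg⟩
  have hs3 : ∀ x, x ∈ (⋃₀ b : ZFSet.{0}) ↔ ∃ n, x ∈ (it n).1 := by
    intro x
    rw [mem_sUnion]
    constructor
    · rintro ⟨z, hz, hx⟩
      obtain ⟨n, rfl⟩ := (hb3 z).1 hz
      exact ⟨n, hx⟩
    · rintro ⟨n, hx⟩
      exact ⟨_, (hb3 _).2 ⟨n, rfl⟩, hx⟩
  refine ⟨⋃₀ b, hM.union b hb, (hs3 σ).2 ⟨0, by rw [it0]; exact mem_pair.2 (Or.inl rfl)⟩, ?_, ?_⟩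
  · intro x hx τ hτ
    obtain ⟨n, hn⟩ := (hs3 x).1 hx
    exact (hs3 τ).2 ⟨n + 1, (itS n τ).2 ⟨x, hn, hτ⟩⟩
  · intro Q hQ0 hQ x hx
    obtain ⟨n, hn⟩ := (hs3 x).1 hx
    clear hx
    induction n generalizing x with
    | zero =>
      rw [it0] at hn
      rcases mem_pair.1 hn with h | h <;> (rw [h]; exact hQ0)
    | succ n ih =>
      obtain ⟨x', hx', hτ⟩ := (itS n x).1 hn
      exact hQ x' x (ih x' hx') hτ

end Pool.Agent.H65C
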