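import Pool.Agent.Lib.H65C.H0
import Pool.Agent.Lib.H65C.S1

/-!
# Project H65C, chunk H1 (M): check names are in `M` and definable

Let `W p f` be: for all `z y` with `pair z y ∈ f`: `∀ w ∈ z, ∃ y', pair w y' ∈ f`, and
`∀ e, e ∈ y ↔ ∃ w ∈ z, ∃ y', pair w y' ∈ f ∧ e = pair y' p` (`f` is a witness).
(1) If `W p f` and `pair z y ∈ f` then `y = chk p z` (`∈`-induction on `z`, `mem_chk`).
(2) For `x ∈ M` there is `f ∈ M` with `W p f` and `pair x (chk p x) ∈ f`: `∈`-induction on `x`. For `w ∈ x` let `m w` be the set of all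
`e` that are in all `f ∈ M` with `W p f ∧ pair w (chk p w) ∈ f` (for such an `f`, `pair w y ∈ f` for some `y` is the same as
`pair w (chk p w) ∈ f` by (1)); it is in `M` by `H0_sep` (a subset of one such `f`), and it is a witness. The relation `m = m w` is
definable, so `{m w : w ∈ x}` is in `M` (`H0_repl`), and so is its union `U`, which is again a witness (by (1)). `chk p x ∈ M` by
`H0_repl` for `∃ y', pair w y' ∈ U ∧ e = pair y' p`, and `insert (pair x (chk p x)) U` is a witness.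
(3) `v i = chk (v j) (v k)` iff there is `f ∈ M` with `W (v j) f` and `pair (v k) (v i) ∈ f`; in `W` all quantifiers can be
restricted to `M`.
-/

namespace Pool.Agent.H65C

open ZFSet

variable {M : Set ZFSet.{0}} {C : Set (Set ZFSet.{0})}

/-- `f` is a witness, quantifiers over `M`. -/
def h1_W (M : Set ZFSet.{0}) (p f : ZFSet.{0}) : Prop :=
  ∀ z ∈ M, ∀ y ∈ M, pair z y ∈ f → ((∀ w ∈ z, ∃ y' ∈ M, pair w y' ∈ f) ∧
    (∀ e ∈ M, (e ∈ y ↔ ∃ w ∈ z, ∃ y' ∈ M, pair w y' ∈ f ∧ e = pair y' p)))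

/-- `f` is a part of the function `chk p` with a transitive domain. -/
def h1_V (p f : ZFSet.{0}) : Prop :=
  ∀ z y, pair z y ∈ f → y = chk p z ∧ ∀ w ∈ z, pair w (chk p w) ∈ f

theorem h1_WV (hM : Base M) {p f : ZFSet.{0}} (hp : p ∈ M) (hf : f ∈ M) : h1_W M p f ↔ h1_V p f := by
  have hpair : ∀ z y, pair z y ∈ f → z ∈ M ∧ y ∈ M := fun z y h => base_of_pair hM (hM.trans f hf _ h)
  constructor
  · intro hW
    have key : ∀ z, ∀ y, pair z y ∈ f → y = chk p z := by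
      intro z
      induction z using ZFSet.inductionOn with
      | _ z ih =>
        intro y hzy
        obtain ⟨hz, hy⟩ := hpair z y hzy
        obtain ⟨h1, h2⟩ := hW z hz y hy hzy
        ext e
        rw [mem_chk]
        constructor
        · intro he
          obtain ⟨w, hw, y', hy', hwy, rfl⟩ := (h2 e (hM.trans y hy e he)).1 he
          exact ⟨w, hw, by rw [ih w hw y' hwy]⟩
        · rintro ⟨w, hw, rfl⟩
          obtain ⟨y', hy', hwy⟩ := h1 w hw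
          have h3 := ih w hw y' hwy
          rw [← h3]
          exact (h2 _ (base_pair hM hy' hp)).2 ⟨w, hw, y', hy', hwy, rfl⟩
    intro z y hzy
    refine ⟨key z y hzy, fun w hw => ?_⟩
    obtain ⟨hz, hy⟩ := hpair z y hzy
    obtain ⟨y', hy', hwy⟩ := (hW z hz y hy hzy).1 w hw
    rw [← key w y' hwy]
    exact hwy
  · intro hV z hz y hy hzy
    obtain ⟨h1, h2⟩ := hV z y hzy
    refine ⟨fun w hw => ⟨chk p w, (hpair _ _ (h2 w hw)).2, h2 w hw⟩, fun e he => ?_⟩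
    rw [h1, mem_chk]
    constructor
    · rintro ⟨w, hw, rfl⟩
      exact ⟨w, hw, chk p w, (hpair _ _ (h2 w hw)).2, h2 w hw, rfl⟩
    · rintro ⟨w, hw, y', _, hwy, rfl⟩
      exact ⟨w, hw, by rw [(hV w y' hwy).1]⟩

theorem h1_dW {𝒳 : Set (Set ZFSet.{0})} (hM : Base M) (h : 𝒳.Nonempty) (j k : ℕ) :
    Dfn M 𝒳 fun v => h1_W M (v j) (v k) := by
  have d1 : Dfn M 𝒳 fun w => ∃ y' ∈ M, pair (w 0) y' ∈ w (k + 3) := dfn_ex (dfn_opair_mem hM h (k + 4) 1 0)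
  have d2 : Dfn M 𝒳 fun u => ∀ w ∈ u 1, ∃ y' ∈ M, pair w y' ∈ u (k + 2) := dfn_ball hM d1 1
  have d3 : Dfn M 𝒳 fun w => ∃ y' ∈ M, pair (w 0) y' ∈ w (k + 4) ∧ w 1 = pair y' (w (j + 4)) :=
    dfn_ex (dfn_and (dfn_opair_mem hM h (k + 5) 1 0) (dfn_opair hM h 2 0 (j + 5)))
  have d4 : Dfn M 𝒳 fun u => ∃ w ∈ u 2, ∃ y' ∈ M, pair w y' ∈ u (k + 3) ∧ u 0 = pair y' (u (j + 3)) := dfn_bex hM d3 2
  have d5 : Dfn M 𝒳 fun u => (u 0 ∈ u 1 ↔ ∃ w ∈ u 2, ∃ y' ∈ M, pair w y' ∈ u (k + 3) ∧ u 0 = pair y' (u (j + 3))) :=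
    dfn_iff (dfn_mem h 0 1) d4
  have d6 : Dfn M 𝒳 fun u => ∀ e ∈ M, (e ∈ u 0 ↔ ∃ w ∈ u 1, ∃ y' ∈ M, pair w y' ∈ u (k + 2) ∧ e = pair y' (u (j + 2))) :=
    dfn_all d5
  have d7 : Dfn M 𝒳 fun u => pair (u 1) (u 0) ∈ u (k + 2) → ((∀ w ∈ u 1, ∃ y' ∈ M, pair w y' ∈ u (k + 2)) ∧
      ∀ e ∈ M, (e ∈ u 0 ↔ ∃ w ∈ u 1, ∃ y' ∈ M, pair w y' ∈ u (k + 2) ∧ e = pair y' (u (j + 2)))) :=
    dfn_imp (dfn_opair_mem hM h (k + 2) 1 0) (dfn_and d2 d6)
  have d8 : Dfn M 𝒳 fun u => ∀ y ∈ M, pair (u 0) y ∈ u (k + 1) → ((∀ w ∈ u 0, ∃ y' ∈ M, pair w y' ∈ u (k + 1)) ∧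
      ∀ e ∈ M, (e ∈ y ↔ ∃ w ∈ u 0, ∃ y' ∈ M, pair w y' ∈ u (k + 1) ∧ e = pair y' (u (j + 1)))) :=
    dfn_all d7
  exact dfn_all d8

theorem h1_sep (hZ : ZFCModel M) {R : (ℕ → ZFSet.{0}) → Prop} (hR : Dfn M {∅} R) {v : ℕ → ZFSet.{0}}
    (hv : ∀ i, v i ∈ M) {a : ZFSet.{0}} (ha : a ∈ M) : ∃ b ∈ M, ∀ z, z ∈ b ↔ z ∈ a ∧ R (cons z v) := by
  have hM : Base M := N1_base hZ
  have d : Dfn M {∅} fun u => u 0 = u 1 ∧ R fun i => u (i + 1) :=
    dfn_and (dfn_eq s1_ne 0 1) (dfn_ren hR fun i => i + 1)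
  obtain ⟨b, hb, hb2⟩ := s1_repl hZ d hv ha (by
    intro x _ y _ z _ h1 h2
    exact h1.1.trans h2.1.symm)
  refine ⟨b, hb, fun z => ?_⟩
  rw [hb2]
  constructor
  · rintro ⟨_, x, hx, h1, h2⟩
    have h1' : z = x := h1
    subst h1'
    exact ⟨hx, h2⟩
  · rintro ⟨hz, h1⟩
    exact ⟨hM.trans a ha z hz, z, hz, rfl, h1⟩

/-- `e` is in all witnesses for `w`. -/
def h1_m (M : Set ZFSet.{0}) (p w e : ZFSet.{0}) : Prop :=
  ∀ f ∈ M, h1_W M p f → (∃ y ∈ M, pair w y ∈ f) → e ∈ f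

theorem h1_dm (hM : Base M) {𝒳 : Set (Set ZFSet.{0})} (h : 𝒳.Nonempty) (i j k : ℕ) :
    Dfn M 𝒳 fun v => h1_m M (v i) (v j) (v k) := by
  have d1 : Dfn M 𝒳 fun u => ∃ y ∈ M, pair (u (j + 1)) y ∈ u 0 := dfn_ex (dfn_opair_mem hM h 1 (j + 2) 0)
  have d2 : Dfn M 𝒳 fun u => h1_W M (u (i + 1)) (u 0) → (∃ y ∈ M, pair (u (j + 1)) y ∈ u 0) → u (k + 1) ∈ u 0 :=
    dfn_imp (h1_dW hM h (i + 1) 0) (dfn_imp d1 (dfn_mem h (k + 1) 0))
  exact dfn_all d2

theorem h1_wit (hZ : ZFCModel M) {p : ZFSet.{0}} (hp : p ∈ M) : ∀ x ∈ M, ∃ f ∈ M, h1_V p f ∧ pair x (chk p x) ∈ f := by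
  have hM : Base M := N1_base hZ
  intro x
  induction x using ZFSet.inductionOn with
  | _ x ih =>
    intro hx
    have hxM : ∀ w ∈ x, w ∈ M := fun w hw => hM.trans x hx w hw
    -- the minimal witness for `w ∈ x`
    have hmin : ∀ w ∈ x, ∃ m ∈ M, (∀ e, e ∈ m ↔ h1_m M p w e) ∧ h1_V p m ∧ pair w (chk p w) ∈ m := by
      intro w hw
      obtain ⟨f, hf, hV, hwf⟩ := ih w hw (hxM w hw)
      have hcw : chk p w ∈ M := (base_of_pair hM (hM.trans f hf _ hwf)).2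
      obtain ⟨m, hm, hm2⟩ := h1_sep hZ (h1_dm hM s1_ne 1 2 0) (v := cons p fun _ => w)
        (a2_cons hp fun _ => hxM w hw) hf
      have hm3 : ∀ e, e ∈ m ↔ h1_m M p w e := by
        intro e
        rw [hm2]
        constructor
        · exact fun h => h.2
        · exact fun h => ⟨h f hf ((h1_WV hM hp hf).2 hV) ⟨_, hcw, hwf⟩, h⟩
      refine ⟨m, hm, hm3, ?_, ?_⟩
      · intro z y hzy
        have h1 := (hm3 _).1 hzy
        refine ⟨(hV z y (h1 f hf ((h1_WV hM hp hf).2 hV) ⟨_, hcw, hwf⟩)).1, fun w' hw' => ?_⟩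
        rw [hm3]
        intro f' hf' hW' hy'
        have h2 := h1 f' hf' hW' hy'
        exact ((h1_WV hM hp hf').1 hW' z y h2).2 w' hw'
      · rw [hm3]
        rintro f' hf' hW' ⟨y, hy, hy'⟩
        have h2 := ((h1_WV hM hp hf').1 hW' w y hy').1
        rw [← h2]
        exact hy'
    -- collect
    have dR : Dfn M {∅} fun u => ∀ e ∈ M, (e ∈ u 0 ↔ h1_m M (u 2) (u 1) e) :=
      dfn_all (R := fun u => (u 0 ∈ u 1 ↔ h1_m M (u 3) (u 2) (u 0))) (dfn_iff (dfn_mem s1_ne 0 1) (h1_dm hM s1_ne 3 2 0))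
    obtain ⟨b, hb, hb2⟩ := s1_repl hZ dR (v := fun _ => p) (fun _ => hp) hx (by
      intro w hw y hy z hz h1 h2
      ext e
      constructor
      · intro he
        have heM := hM.trans y hy e he
        exact (h2 e heM).2 ((h1 e heM).1 he)
      · intro he
        have heM := hM.trans z hz e he
        exact (h1 e heM).2 ((h2 e heM).1 he))
    have hU : (⋃₀ b : ZFSet.{0}) ∈ M := hM.union b hb
    have hbV : ∀ m ∈ b, h1_V p m := by
      intro m hm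
      obtain ⟨hmM, w, hw, h1⟩ := (hb2 m).1 hm
      obtain ⟨m', hm', h2, h3, _⟩ := hmin w hw
      have h4 : m = m' := by
        ext e
        constructor
        · intro he
          rw [h2]
          exact (h1 e (hM.trans m hmM e he)).1 he
        · intro he
          exact (h1 e (hM.trans m' hm' e he)).2 ((h2 e).1 he)
      rw [h4]
      exact h3
    have hUV : h1_V p (⋃₀ b : ZFSet.{0}) := by
      intro z y hzy
      rw [mem_sUnion] at hzy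
      obtain ⟨m, hm, hzm⟩ := hzy
      obtain ⟨h1, h2⟩ := hbV m hm z y hzm
      refine ⟨h1, fun w hw => ?_⟩
      rw [mem_sUnion]
      exact ⟨m, hm, h2 w hw⟩
    have hUx : ∀ w ∈ x, pair w (chk p w) ∈ (⋃₀ b : ZFSet.{0}) := by
      intro w hw
      obtain ⟨m, hm, h2, _, h3⟩ := hmin w hw
      rw [mem_sUnion]
      refine ⟨m, ?_, h3⟩
      rw [hb2]
      exact ⟨hm, w, hw, fun e _ => h2 e⟩
    -- the check name
    have dS : Dfn M {∅} fun u => ∃ y' ∈ M, pair (u 1) y' ∈ u 3 ∧ u 0 = pair y' (u 2) :=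
      dfn_ex (dfn_and (dfn_opair_mem hM s1_ne 4 2 0) (dfn_opair hM s1_ne 1 0 3))
    obtain ⟨c, hc, hc2⟩ := s1_repl hZ dS (v := cons p fun _ => (⋃₀ b : ZFSet.{0}))
      (a2_cons hp fun _ => hU) hx (by
      rintro w hw y hy z hz ⟨y1, _, h1, h1'⟩ ⟨y2, _, h2, h2'⟩
      have e1 : y1 = chk p w := (hUV w y1 h1).1
      have e2 : y2 = chk p w := (hUV w y2 h2).1
      have e3 : y = pair y1 p := h1'
      have e4 : z = pair y2 p := h2'
      rw [e3, e4, e1, e2])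
    have hcx : c = chk p x := by
      ext e
      rw [hc2, mem_chk]
      constructor
      · rintro ⟨_, w, hw, y', _, h1, h2⟩
        have e1 : y' = chk p w := (hUV w y' h1).1
        have e2 : e = pair y' p := h2
        exact ⟨w, hw, by rw [e2, e1]⟩
      · rintro ⟨w, hw, rfl⟩
        have hcw : chk p w ∈ M := (base_of_pair hM (hM.trans _ hU _ (hUx w hw))).2
        exact ⟨base_pair hM hcw hp, w, hw, chk p w, hcw, hUx w hw, rfl⟩
    rw [hcx] at hc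
    refine ⟨insert (pair x (chk p x)) (⋃₀ b : ZFSet.{0}), base_insert hM (base_pair hM hx hc) hU, ?_,
      mem_insert_iff.2 (Or.inl rfl)⟩
    intro z y hzy
    rw [mem_insert_iff] at hzy
    rcases hzy with h | h
    · obtain ⟨rfl, rfl⟩ := pair_inj.mp h
      exact ⟨rfl, fun w hw => mem_insert_iff.2 (Or.inr (hUx w hw))⟩
    · exact ⟨(hUV z y h).1, fun w hw => mem_insert_iff.2 (Or.inr ((hUV z y h).2 w hw))⟩

theorem H1_mem (hB : GBModel M C) {p x : ZFSet.{0}} (hp : p ∈ M) (hx : x ∈ M) : chk p x ∈ M := by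
  have hM : Base M := N1_base hB.zfc
  obtain ⟨f, hf, _, h⟩ := h1_wit hB.zfc hp x hx
  exact (base_of_pair hM (hM.trans f hf _ h)).2

/-- (Note: without `C.Nonempty` the statement is false.) -/
theorem H1_dfn (hB : GBModel M C) (i j k : ℕ) (hC : C.Nonempty) : Dfn M C fun v => v i = chk (v j) (v k) := by
  have hM : Base M := N1_base hB.zfc
  have d : Dfn M C fun v => ∃ f ∈ M, h1_W M (v j) f ∧ pair (v k) (v i) ∈ f :=
    dfn_ex (R := fun u => h1_W M (u (j + 1)) (u 0) ∧ pair (u (k + 1)) (u (i + 1)) ∈ u 0)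
      (dfn_and (h1_dW hM hC (j + 1) 0) (dfn_opair_mem hM hC 0 (k + 1) (i + 1)))
  refine dfn_congr d fun v hv => ?_
  constructor
  · rintro ⟨f, hf, hW, h⟩
    exact ((h1_WV hM (hv j) hf).1 hW _ _ h).1
  · intro h
    obtain ⟨f, hf, hV, h1⟩ := h1_wit hB.zfc (hv j) (v k) (hv k)
    exact ⟨f, hf, (h1_WV hM (hv j) hf).2 hV, by rw [h]; exact h1⟩

end Pool.Agent.H65C
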