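import Pool.Agent.Lib.H65C.Work2
import Pool.Agent.Lib.H65C.D1

/-!
# Project H65C, chunk H11 (S/M): the coded relations are monotone and definable
-/

namespace Pool.Agent.H65C

open ZFSet

variable {M : Set ZFSet.{0}} {C : Set (Set ZFSet.{0})} {P L : Set ZFSet.{0}}

theorem H11_wi_mono (hF : ClassForcing C P L) {j : ℕ} {ρ q r i : ZFSet.{0}} (h : Wi L j ρ q i) (hr : pair r q ∈ L) :
    Wi L j ρ r i := by
  obtain ⟨u, h1, h2⟩ := h
  exact ⟨u, e1_oc hF h1 hr, E1_num hF h2 hr⟩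

theorem H11_wp_mono (hF : ClassForcing C P L) {j : ℕ} {s ρ q r x y : ZFSet.{0}} (h : Wp L j s ρ q x y)
    (hr : pair r q ∈ L) : Wp L j s ρ r x y := by
  obtain ⟨i, h1, h2⟩ := h
  exact ⟨i, h1, H11_wi_mono hF h2 hr⟩

theorem H11_rh_mono (hF : ClassForcing C P L) {j : ℕ} {s ρ q r x y : ZFSet.{0}} (h : Rh L j s ρ q x y)
    (hr : pair r q ∈ L) : Rh L j s ρ r x y :=
  ⟨fun r1 hr1 => h.1 r1 (hF.trans _ _ _ hr1 hr), fun r1 hr1 => h.2 r1 (hF.trans _ _ _ hr1 hr)⟩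

/-- `D1_oc_ex`, `D1_num`. -/
theorem H11_wi_dfn (hB : GBModel M C) (hF : ClassForcing C P L) (j a b c : ℕ) :
    Dfn M C fun v => Wi L j (v a) (v b) (v c) :=
  D1_oc_ex hB hF (D1_num hB hF j (b + 1) 0 (c + 1)) b a

theorem H11_wp_dfn (hB : GBModel M C) (hF : ClassForcing C P L) (j a b c d e : ℕ) :
    Dfn M C fun v => Wp L j (v a) (v b) (v c) (v d) (v e) := by
  have hM : Base M := N1_base hB.zfc
  have hne : C.Nonempty := ⟨P, hF.carrier⟩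
  have h1 := dfn_ex (dfn_ex (dfn_and (dfn_opair (N := M) hM hne 0 (d + 2) (e + 2))
    (dfn_and (dfn_opair_mem (N := M) hM hne (a + 2) 1 0) (H11_wi_dfn hB hF j (b + 2) (c + 2) 1))))
  refine dfn_congr h1 fun v hv => ?_
  constructor
  · rintro ⟨i, _, p, _, h2, h3, h4⟩
    have h5 : p = pair (v d) (v e) := h2
    subst h5
    exact ⟨i, h3, h4⟩
  · rintro ⟨i, h2, h3⟩
    have h4 : pair i (pair (v d) (v e)) ∈ M := hM.trans _ (hv a) _ h2
    obtain ⟨h5, h6⟩ := base_of_pair hM h4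
    exact ⟨i, h5, pair (v d) (v e), h6, rfl, h2, h3⟩

/-- `D1_all`, `D1_ex`, `D1_oc_all`. -/
theorem H11_rh_dfn (hB : GBModel M C) (hF : ClassForcing C P L) (j a b c d e : ℕ) :
    Dfn M C fun v => Rh L j (v a) (v b) (v c) (v d) (v e) := by
  have h1 : ∀ d e : ℕ, Dfn M C fun v => ∀ r, pair r (v c) ∈ L → ∀ w, Oc L r w (v d) →
      ∃ r', pair r' r ∈ L ∧ Wp L j (v a) (v b) r' w (v e) := fun d e =>
    D1_all hB hF (D1_oc_all hB hF (D1_ex hB hF (H11_wp_dfn hB hF j (a + 3) (b + 3) 0 1 (e + 3)) 1) 0 (d + 1)) c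
  exact dfn_and (h1 d e) (h1 e d)

end Pool.Agent.H65C
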