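import Pool.Agent.Lib.H65C.Work2
import Pool.Agent.Lib.H65C.A4

/-!
# Project H65C, chunk H4 (S): finite types
-/

namespace Pool.Agent.H65C

open ZFSet

theorem H4_sub {N : Set ZFSet.{0}} (hN : Base N) (t : ℕ) : Typ N t ⊆ N := by
  cases t with
  | zero => exact fun x hx => hN.trans _ hN.infinity _ hx
  | succ t => exact fun x hx => hx.1

theorem H4_mono {N : Set ZFSet.{0}} (hN : Base N) (t : ℕ) : Typ N t ⊆ Typ N (t + 1) := by
  induction t with
  | zero =>
    intro x hx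
    refine ⟨hN.trans _ hN.infinity _ hx, fun y hy => ?_⟩
    obtain ⟨n, rfl⟩ := (N1_mem_omega _).1 hx
    clear hx
    induction n with
    | zero => exact absurd hy (ZFSet.notMem_empty _)
    | succ n ih =>
      rcases ZFSet.mem_insert_iff.1 hy with rfl | h
      · exact (N1_mem_omega _).2 ⟨n, rfl⟩
      · exact ih h
  | succ t ih => exact fun x hx => ⟨hx.1, fun y hy => ih (hx.2 y hy)⟩

theorem H4_le {N : Set ZFSet.{0}} (hN : Base N) {t t' : ℕ} (h : t ≤ t') : Typ N t ⊆ Typ N t' := by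
  induction t', h using Nat.le_induction with
  | base => exact fun _ h => h
  | succ t' _ ih => exact fun _ h => H4_mono hN t' (ih h)

theorem H4_nat {N : Set ZFSet.{0}} (hN : Base N) (t n : ℕ) : nat n ∈ Typ N t := by
  exact H4_le hN (Nat.zero_le t) ((N1_mem_omega _).2 ⟨n, rfl⟩)

theorem H4_elt {N : Set ZFSet.{0}} (hN : Base N) {t : ℕ} {x y : ZFSet.{0}} (hx : x ∈ Typ N (t + 1)) (hy : y ∈ x) :
    y ∈ Typ N t := by
  exact hx.2 y hy

/-- `pair x y = {{x}, {x, y}}`. -/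
theorem H4_pair {N : Set ZFSet.{0}} (hN : Base N) {t : ℕ} {x y : ZFSet.{0}} (hx : x ∈ Typ N t) (hy : y ∈ Typ N t) :
    pair x y ∈ Typ N (t + 2) := by
  have h1 : x ∈ N := H4_sub hN t hx
  have h2 : y ∈ N := H4_sub hN t hy
  have h3 : ({x} : ZFSet.{0}) ∈ N := by
    have h := hN.pairing x h1 x h1
    rwa [ZFSet.pair_eq_singleton] at h
  have h4 : ({x, y} : ZFSet.{0}) ∈ N := hN.pairing x h1 y h2
  refine ⟨hN.pairing _ h3 _ h4, fun z hz => ?_⟩
  rcases ZFSet.mem_pair.1 hz with rfl | rfl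
  · refine ⟨h3, fun w hw => ?_⟩
    rw [ZFSet.mem_singleton.1 hw]
    exact hx
  · refine ⟨h4, fun w hw => ?_⟩
    rcases ZFSet.mem_pair.1 hw with rfl | rfl
    · exact hx
    · exact hy

theorem H4_incl {M N : Set ZFSet.{0}} (h : M ⊆ N) (t : ℕ) : Typ M t ⊆ Typ N t := by
  induction t with
  | zero => exact fun _ h => h
  | succ t ih => exact fun x hx => ⟨h hx.1, fun y hy => ih (hx.2 y hy)⟩

theorem H4_dfn {M : Set ZFSet.{0}} {C : Set (Set ZFSet.{0})} (hM : Base M) (hC : C.Nonempty) (t i : ℕ) :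
    Dfn M C fun v => v i ∈ Typ M t := by
  induction t generalizing i with
  | zero => exact dfn_mem_omega hM hC i
  | succ t ih =>
    refine dfn_congr (dfn_ball hM (ih 0) i) fun v hv => ?_
    exact ⟨fun h => ⟨hv i, h⟩, fun h => h.2⟩

end Pool.Agent.H65C
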