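import Pool.Agent.Lib.H65C.H11
import Pool.Agent.Lib.H65C.H4
import Pool.Agent.Lib.H65C.S2

/-!
# Project H65C, chunk H12 (S/M): certificates are monotone and definable
-/

namespace Pool.Agent.H65C

open ZFSet

variable {M : Set ZFSet.{0}} {C : Set (Set ZFSet.{0})} {P L : Set ZFSet.{0}}

theorem h12_closed_dfn (hM : Base M) (hn : C.Nonempty) (a : ℕ) : Dfn M C fun v => ∀ x ∈ v a, ∀ τ, Occ τ x → τ ∈ v a := by
  refine dfn_congr (dfn_ball hM (R := fun v => ∀ τ ∈ M, ∀ p ∈ M, pair τ p ∈ v 0 → τ ∈ v (a + 1))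
    (dfn_all (R := fun v => ∀ p ∈ M, pair (v 0) p ∈ v 1 → v 0 ∈ v (a + 2))
      (dfn_all (R := fun v => pair (v 1) (v 0) ∈ v 2 → v 1 ∈ v (a + 3))
        (dfn_imp (dfn_opair_mem hM hn 2 1 0) (dfn_mem hn 1 (a + 3))))) a) fun v hv => ?_
  constructor
  · rintro h x hx τ ⟨p, hp⟩
    have h1 := G1_mem hM (hM.trans _ (hv a) x hx) hp
    exact h x hx τ h1.1 p h1.2 hp
  · intro h x hx τ _ p _ hp
    exact h x hx τ ⟨p, hp⟩

theorem h12_func_dfn (hM : Base M) (hn : C.Nonempty) (s : ℕ) :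
    Dfn M C fun v => ∀ i x y, pair i x ∈ v s → pair i y ∈ v s → x = y := by
  refine dfn_congr (dfn_all (R := fun v => ∀ x ∈ M, ∀ y ∈ M, pair (v 0) x ∈ v (s + 1) → pair (v 0) y ∈ v (s + 1) → x = y)
    (dfn_all (R := fun v => ∀ y ∈ M, pair (v 1) (v 0) ∈ v (s + 2) → pair (v 1) y ∈ v (s + 2) → v 0 = y)
      (dfn_all (R := fun v => pair (v 2) (v 1) ∈ v (s + 3) → pair (v 2) (v 0) ∈ v (s + 3) → v 1 = v 0)
        (dfn_imp (dfn_opair_mem hM hn (s + 3) 2 1) (dfn_imp (dfn_opair_mem hM hn (s + 3) 2 0) (dfn_eq hn 1 0)))))) fun v hv => ?_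
  constructor
  · intro h i x y hx hy
    have h1 := G1_mem hM (hv s) hx
    exact h i h1.1 x h1.2 y (G1_mem hM (hv s) hy).2 hx hy
  · intro h i _ x _ y _ hx hy
    exact h i x y hx hy

theorem H12_cert_mono (hF : ClassForcing C P L) {j : ℕ} {X s ρ ρ' q r : ZFSet.{0}} (h : Cert L j X s ρ ρ' q)
    (hr : pair r q ∈ L) : Cert L j X s ρ ρ' r := by
  refine ⟨fun x hx y hy t ht => h.mem1 x hx y hy t (hF.trans _ _ _ ht hr), fun x hx y hy t ht => h.mem2 x hx y hy t (hF.trans _ _ _ ht hr),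
    fun x hx y hy t ht => h.eq1 x hx y hy t (hF.trans _ _ _ ht hr), fun x hx y hy t ht => h.eq2 x hx y hy t (hF.trans _ _ _ ht hr)⟩

/-- A conjunction of four definable predicates (`dfn_congr` and the constructor). -/
theorem H12_cert_dfn (hB : GBModel M C) (hF : ClassForcing C P L) (j a b c d e : ℕ) :
    Dfn M C fun v => Cert L j (v a) (v b) (v c) (v d) (v e) := by
  have hM := N1_base hB.zfc
  have d1 : Dfn M C fun v => ∀ x ∈ v a, ∀ y ∈ v a, ∀ r, pair r (v e) ∈ L → Wp L j (v b) (v d) r x y →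
      ∃ r', pair r' r ∈ L ∧ ∃ w, Oc L r' w y ∧ Wp L j (v b) (v c) r' x w :=
    dfn_ball hM (R := fun v => ∀ y ∈ v (a + 1), ∀ r, pair r (v (e + 1)) ∈ L → Wp L j (v (b + 1)) (v (d + 1)) r (v 0) y →
        ∃ r', pair r' r ∈ L ∧ ∃ w, Oc L r' w y ∧ Wp L j (v (b + 1)) (v (c + 1)) r' (v 0) w)
      (dfn_ball hM (R := fun v => ∀ r, pair r (v (e + 2)) ∈ L → Wp L j (v (b + 2)) (v (d + 2)) r (v 1) (v 0) →
          ∃ r', pair r' r ∈ L ∧ ∃ w, Oc L r' w (v 0) ∧ Wp L j (v (b + 2)) (v (c + 2)) r' (v 1) w)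
        (D1_all (R := fun v => Wp L j (v (b + 3)) (v (d + 3)) (v 0) (v 2) (v 1) →
            ∃ r', pair r' (v 0) ∈ L ∧ ∃ w, Oc L r' w (v 1) ∧ Wp L j (v (b + 3)) (v (c + 3)) r' (v 2) w) hB hF
          (dfn_imp (H11_wp_dfn hB hF j (b + 3) (d + 3) 0 2 1)
            (D1_ex (R := fun v => ∃ w, Oc L (v 0) w (v 2) ∧ Wp L j (v (b + 4)) (v (c + 4)) (v 0) (v 3) w) hB hF
              (D1_oc_ex (R := fun v => Wp L j (v (b + 5)) (v (c + 5)) (v 1) (v 4) (v 0)) hB hF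
                (H11_wp_dfn hB hF j (b + 5) (c + 5) 1 4 0) 0 2) 0)) (e + 2)) (a + 1)) a
  have d2 : Dfn M C fun v => ∀ x ∈ v a, ∀ y ∈ v a, ∀ r, pair r (v e) ∈ L → ∀ w, Oc L r w y → Wp L j (v b) (v c) r x w →
      ∃ r', pair r' r ∈ L ∧ Wp L j (v b) (v d) r' x y :=
    dfn_ball hM (R := fun v => ∀ y ∈ v (a + 1), ∀ r, pair r (v (e + 1)) ∈ L → ∀ w, Oc L r w y →
        Wp L j (v (b + 1)) (v (c + 1)) r (v 0) w → ∃ r', pair r' r ∈ L ∧ Wp L j (v (b + 1)) (v (d + 1)) r' (v 0) y)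
      (dfn_ball hM (R := fun v => ∀ r, pair r (v (e + 2)) ∈ L → ∀ w, Oc L r w (v 0) →
          Wp L j (v (b + 2)) (v (c + 2)) r (v 1) w → ∃ r', pair r' r ∈ L ∧ Wp L j (v (b + 2)) (v (d + 2)) r' (v 1) (v 0))
        (D1_all (R := fun v => ∀ w, Oc L (v 0) w (v 1) → Wp L j (v (b + 3)) (v (c + 3)) (v 0) (v 2) w →
            ∃ r', pair r' (v 0) ∈ L ∧ Wp L j (v (b + 3)) (v (d + 3)) r' (v 2) (v 1)) hB hF
          (D1_oc_all (R := fun v => Wp L j (v (b + 4)) (v (c + 4)) (v 1) (v 3) (v 0) →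
              ∃ r', pair r' (v 1) ∈ L ∧ Wp L j (v (b + 4)) (v (d + 4)) r' (v 3) (v 2)) hB hF
            (dfn_imp (H11_wp_dfn hB hF j (b + 4) (c + 4) 1 3 0)
              (D1_ex (R := fun v => Wp L j (v (b + 5)) (v (d + 5)) (v 0) (v 4) (v 3)) hB hF
                (H11_wp_dfn hB hF j (b + 5) (d + 5) 0 4 3) 1)) 0 1) (e + 2)) (a + 1)) a
  have d3 : Dfn M C fun v => ∀ x ∈ v a, ∀ y ∈ v a, ∀ r, pair r (v e) ∈ L → Wp L j (v b) (v c) r x y →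
      Rh L j (v b) (v d) r x y :=
    dfn_ball hM (R := fun v => ∀ y ∈ v (a + 1), ∀ r, pair r (v (e + 1)) ∈ L → Wp L j (v (b + 1)) (v (c + 1)) r (v 0) y →
        Rh L j (v (b + 1)) (v (d + 1)) r (v 0) y)
      (dfn_ball hM (R := fun v => ∀ r, pair r (v (e + 2)) ∈ L → Wp L j (v (b + 2)) (v (c + 2)) r (v 1) (v 0) →
          Rh L j (v (b + 2)) (v (d + 2)) r (v 1) (v 0))
        (D1_all (R := fun v => Wp L j (v (b + 3)) (v (c + 3)) (v 0) (v 2) (v 1) →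
            Rh L j (v (b + 3)) (v (d + 3)) (v 0) (v 2) (v 1)) hB hF
          (dfn_imp (H11_wp_dfn hB hF j (b + 3) (c + 3) 0 2 1) (H11_rh_dfn hB hF j (b + 3) (d + 3) 0 2 1))
          (e + 2)) (a + 1)) a
  have d4 : Dfn M C fun v => ∀ x ∈ v a, ∀ y ∈ v a, ∀ r, pair r (v e) ∈ L → Rh L j (v b) (v d) r x y →
      ∃ r', pair r' r ∈ L ∧ Wp L j (v b) (v c) r' x y :=
    dfn_ball hM (R := fun v => ∀ y ∈ v (a + 1), ∀ r, pair r (v (e + 1)) ∈ L → Rh L j (v (b + 1)) (v (d + 1)) r (v 0) y →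
        ∃ r', pair r' r ∈ L ∧ Wp L j (v (b + 1)) (v (c + 1)) r' (v 0) y)
      (dfn_ball hM (R := fun v => ∀ r, pair r (v (e + 2)) ∈ L → Rh L j (v (b + 2)) (v (d + 2)) r (v 1) (v 0) →
          ∃ r', pair r' r ∈ L ∧ Wp L j (v (b + 2)) (v (c + 2)) r' (v 1) (v 0))
        (D1_all (R := fun v => Rh L j (v (b + 3)) (v (d + 3)) (v 0) (v 2) (v 1) →
            ∃ r', pair r' (v 0) ∈ L ∧ Wp L j (v (b + 3)) (v (c + 3)) r' (v 2) (v 1)) hB hF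
          (dfn_imp (H11_rh_dfn hB hF j (b + 3) (d + 3) 0 2 1)
            (D1_ex (R := fun v => Wp L j (v (b + 4)) (v (c + 4)) (v 0) (v 3) (v 2)) hB hF
              (H11_wp_dfn hB hF j (b + 4) (c + 4) 0 3 2) 0)) (e + 2)) (a + 1)) a
  exact dfn_congr (dfn_and d1 (dfn_and d2 (dfn_and d3 d4))) fun v _ =>
    ⟨fun h => ⟨h.1, h.2.1, h.2.2.1, h.2.2.2⟩, fun h => ⟨h.mem1, h.mem2, h.eq1, h.eq2⟩⟩

/-- A conjunction of definable predicates; all quantifiers can be restricted to `M` (`S2_dfn`, `H4_dfn`, `Occ τ x` is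
`∃ p ∈ M, pair τ p ∈ x`). -/
theorem H12_cod_dfn (hB : GBModel M C) (hP : P ∈ C) (j a b : ℕ) : Dfn M C fun v => Cod M P j (v a) (v b) := by
  have hM := N1_base hB.zfc
  have hn : C.Nonempty := ⟨P, hP⟩
  have d1 : Dfn M C fun v => ∀ x ∈ v a, IsName P x := dfn_ball hM (R := fun v => IsName P (v 0)) (S2_dfn hB hP 0) a
  have d3 : Dfn M C fun v => ∀ z ∈ v b, ∃ i ∈ M, i ∈ Typ M j ∧ ∃ x ∈ v a, ∃ y ∈ v a, ∃ u ∈ M, u = pair x y ∧ z = pair i u :=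
    dfn_ball hM (R := fun v => ∃ i ∈ M, i ∈ Typ M j ∧ ∃ x ∈ v (a + 1), ∃ y ∈ v (a + 1), ∃ u ∈ M, u = pair x y ∧ v 0 = pair i u)
      (dfn_ex (R := fun v => v 0 ∈ Typ M j ∧ ∃ x ∈ v (a + 2), ∃ y ∈ v (a + 2), ∃ u ∈ M, u = pair x y ∧ v 1 = pair (v 0) u)
        (dfn_and (H4_dfn hM hn j 0)
          (dfn_bex hM (R := fun v => ∃ y ∈ v (a + 3), ∃ u ∈ M, u = pair (v 0) y ∧ v 2 = pair (v 1) u)
            (dfn_bex hM (R := fun v => ∃ u ∈ M, u = pair (v 1) (v 0) ∧ v 3 = pair (v 2) u)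
              (dfn_ex (R := fun v => v 0 = pair (v 2) (v 1) ∧ v 4 = pair (v 3) (v 0))
                (dfn_and (dfn_opair hM hn 0 2 1) (dfn_opair hM hn 4 3 0))) (a + 3)) (a + 2)))) b
  have d5 : Dfn M C fun v => ∀ x ∈ v a, ∀ y ∈ v a, ∃ i ∈ M, ∃ u ∈ M, u = pair x y ∧ pair i u ∈ v b :=
    dfn_ball hM (R := fun v => ∀ y ∈ v (a + 1), ∃ i ∈ M, ∃ u ∈ M, u = pair (v 0) y ∧ pair i u ∈ v (b + 1))
      (dfn_ball hM (R := fun v => ∃ i ∈ M, ∃ u ∈ M, u = pair (v 1) (v 0) ∧ pair i u ∈ v (b + 2))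
        (dfn_ex (R := fun v => ∃ u ∈ M, u = pair (v 2) (v 1) ∧ pair (v 0) u ∈ v (b + 3))
          (dfn_ex (R := fun v => v 0 = pair (v 3) (v 2) ∧ pair (v 1) (v 0) ∈ v (b + 4))
            (dfn_and (dfn_opair hM hn 0 3 2) (dfn_opair_mem hM hn (b + 4) 1 0)))) (a + 1)) a
  refine dfn_congr (dfn_and d1 (dfn_and (h12_closed_dfn hM hn a) (dfn_and d3 (dfn_and (h12_func_dfn hM hn b) d5)))) fun v hv => ?_
  constructor
  · rintro ⟨h1, h2, h3, h4, h5⟩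
    refine ⟨hv a, hv b, h1, h2, fun z hz => ?_, h4, fun x hx y hy => ?_⟩
    · obtain ⟨i, _, hi, x, hx, y, hy, u, _, rfl, hu⟩ := h3 z hz
      exact ⟨i, hi, x, hx, y, hy, hu⟩
    · obtain ⟨i, _, u, _, rfl, hu⟩ := h5 x hx y hy
      exact ⟨i, hu⟩
  · intro h
    refine ⟨h.name, h.closed, fun z hz => ?_, h.func, fun x hx y hy => ?_⟩
    · obtain ⟨i, hi, x, hx, y, hy, hz'⟩ := h.rel z hz
      exact ⟨i, H4_sub hM j hi, hi, x, hx, y, hy, _, base_pair hM (hM.trans _ (hv a) x hx) (hM.trans _ (hv a) y hy), rfl, hz'⟩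
    · obtain ⟨i, hi⟩ := h.surj x hx y hy
      have h1 := G1_mem hM (hv b) hi
      exact ⟨i, h1.1, _, h1.2, rfl, hi⟩

theorem H12_small_dfn (hB : GBModel M C) (hP : P ∈ C) (j a : ℕ) : Dfn M C fun v => SmallName M P j (v a) := by
  have hM := N1_base hB.zfc
  have hn : C.Nonempty := ⟨P, hP⟩
  have d1 : Dfn M C fun v => ∀ x ∈ v 1, IsName P x := dfn_ball hM (R := fun v => IsName P (v 0)) (S2_dfn hB hP 0) 1
  have d5 : Dfn M C fun v => ∀ x ∈ v 1, ∃ i ∈ M, i ∈ Typ M j ∧ pair i x ∈ v 0 :=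
    dfn_ball hM (R := fun v => ∃ i ∈ M, i ∈ Typ M j ∧ pair i (v 0) ∈ v 1)
      (dfn_ex (R := fun v => v 0 ∈ Typ M j ∧ pair (v 0) (v 1) ∈ v 2)
        (dfn_and (H4_dfn hM hn j 0) (dfn_opair_mem hM hn 2 0 1))) 1
  have d : Dfn M C fun v => SmallSet M P j (v 1) (v 0) := by
    refine dfn_congr (dfn_and d1 (dfn_and (h12_closed_dfn hM hn 1) (dfn_and (h12_func_dfn hM hn 0) d5))) fun v hv => ?_
    constructor
    · rintro ⟨h1, h2, h4, h5⟩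
      refine ⟨hv 1, hv 0, h1, h2, h4, fun x hx => ?_⟩
      obtain ⟨i, _, hi, h6⟩ := h5 x hx
      exact ⟨i, hi, h6⟩
    · intro h
      refine ⟨h.name, h.closed, h.func, fun x hx => ?_⟩
      obtain ⟨i, hi, h6⟩ := h.surj x hx
      exact ⟨i, H4_sub hM j hi, hi, h6⟩
  refine dfn_congr (dfn_ex (R := fun w => ∃ s ∈ M, SmallSet M P j (w 0) s ∧ w (a + 1) ∈ w 0)
    (dfn_ex (R := fun w => SmallSet M P j (w 1) (w 0) ∧ w (a + 2) ∈ w 1) (dfn_and d (dfn_mem hn (a + 2) 1)))) fun v _ => ?_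
  constructor
  · rintro ⟨X, _, s, _, h1, h2⟩
    exact ⟨X, s, h1, h2⟩
  · rintro ⟨X, s, h1, h2⟩
    exact ⟨X, h1.memX, s, h1.memS, h1, h2⟩

end Pool.Agent.H65C
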