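import Pool.Agent.Lib.H65C.H12

/-!
# Project H65C, chunk H13 (S): the forcing relation for atomic formulas
-/

namespace Pool.Agent.H65C

open ZFSet

variable {M : Set ZFSet.{0}} {C : Set (Set ZFSet.{0})} {P L : Set ZFSet.{0}}

theorem H13_good_mono (hF : ClassForcing C P L) {j : ℕ} {b : Bool} {q r x y : ZFSet.{0}} (h : Good M P L j b q x y)
    (hr : pair r q ∈ L) : Good M P L j b r x y := by
  obtain ⟨X, hX, s, hs, ρ, hρ, ρ', hρ', h1, h2, h3, h4, h5⟩ := h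
  exact ⟨X, hX, s, hs, ρ, hρ, ρ', hρ', h1, h2, h3, H12_cert_mono hF h4 hr, H11_wp_mono hF h5 hr⟩

theorem H13_good_dfn (hB : GBModel M C) (hF : ClassForcing C P L) (j : ℕ) (b : Bool) (i k l : ℕ) :
    Dfn M C fun v => Good M P L j b (v i) (v k) (v l) := by
  have hn : C.Nonempty := ⟨P, hF.carrier⟩
  have key : ∀ c : ℕ, Dfn M C fun w => Cod M P j (w 3) (w 2) ∧ w (k + 4) ∈ w 3 ∧ w (l + 4) ∈ w 3 ∧
      Cert L j (w 3) (w 2) (w 1) (w 0) (w (i + 4)) ∧ Wp L j (w 2) (w c) (w (i + 4)) (w (k + 4)) (w (l + 4)) := fun c =>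
    dfn_and (H12_cod_dfn hB hF.carrier j 3 2) (dfn_and (dfn_mem hn (k + 4) 3) (dfn_and (dfn_mem hn (l + 4) 3)
      (dfn_and (H12_cert_dfn hB hF j 3 2 1 0 (i + 4)) (H11_wp_dfn hB hF j 2 c (i + 4) (k + 4) (l + 4)))))
  cases b with
  | false =>
    exact dfn_ex (R := fun w => ∃ s ∈ M, ∃ ρ ∈ M, ∃ ρ' ∈ M, Cod M P j (w 0) s ∧ w (k + 1) ∈ w 0 ∧ w (l + 1) ∈ w 0 ∧
        Cert L j (w 0) s ρ ρ' (w (i + 1)) ∧ Wp L j s ρ (w (i + 1)) (w (k + 1)) (w (l + 1)))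
      (dfn_ex (R := fun w => ∃ ρ ∈ M, ∃ ρ' ∈ M, Cod M P j (w 1) (w 0) ∧ w (k + 2) ∈ w 1 ∧ w (l + 2) ∈ w 1 ∧
        Cert L j (w 1) (w 0) ρ ρ' (w (i + 2)) ∧ Wp L j (w 0) ρ (w (i + 2)) (w (k + 2)) (w (l + 2)))
      (dfn_ex (R := fun w => ∃ ρ' ∈ M, Cod M P j (w 2) (w 1) ∧ w (k + 3) ∈ w 2 ∧ w (l + 3) ∈ w 2 ∧
        Cert L j (w 2) (w 1) (w 0) ρ' (w (i + 3)) ∧ Wp L j (w 1) (w 0) (w (i + 3)) (w (k + 3)) (w (l + 3)))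
      (dfn_ex (R := fun w => Cod M P j (w 3) (w 2) ∧ w (k + 4) ∈ w 3 ∧ w (l + 4) ∈ w 3 ∧
        Cert L j (w 3) (w 2) (w 1) (w 0) (w (i + 4)) ∧ Wp L j (w 2) (w 1) (w (i + 4)) (w (k + 4)) (w (l + 4))) (key 1))))
  | true =>
    exact dfn_ex (R := fun w => ∃ s ∈ M, ∃ ρ ∈ M, ∃ ρ' ∈ M, Cod M P j (w 0) s ∧ w (k + 1) ∈ w 0 ∧ w (l + 1) ∈ w 0 ∧
        Cert L j (w 0) s ρ ρ' (w (i + 1)) ∧ Wp L j s ρ' (w (i + 1)) (w (k + 1)) (w (l + 1)))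
      (dfn_ex (R := fun w => ∃ ρ ∈ M, ∃ ρ' ∈ M, Cod M P j (w 1) (w 0) ∧ w (k + 2) ∈ w 1 ∧ w (l + 2) ∈ w 1 ∧
        Cert L j (w 1) (w 0) ρ ρ' (w (i + 2)) ∧ Wp L j (w 0) ρ' (w (i + 2)) (w (k + 2)) (w (l + 2)))
      (dfn_ex (R := fun w => ∃ ρ' ∈ M, Cod M P j (w 2) (w 1) ∧ w (k + 3) ∈ w 2 ∧ w (l + 3) ∈ w 2 ∧
        Cert L j (w 2) (w 1) (w 0) ρ' (w (i + 3)) ∧ Wp L j (w 1) ρ' (w (i + 3)) (w (k + 3)) (w (l + 3)))
      (dfn_ex (R := fun w => Cod M P j (w 3) (w 2) ∧ w (k + 4) ∈ w 3 ∧ w (l + 4) ∈ w 3 ∧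
        Cert L j (w 3) (w 2) (w 1) (w 0) (w (i + 4)) ∧ Wp L j (w 2) (w 0) (w (i + 4)) (w (k + 4)) (w (l + 4))) (key 0))))

theorem H13_at_mono (hF : ClassForcing C P L) {j : ℕ} {b : Bool} {q r x y : ZFSet.{0}} (h : At M P L j b q x y)
    (hr : pair r q ∈ L) : At M P L j b r x y := by
  exact fun r1 hr1 => h r1 (hF.trans _ _ _ hr1 hr)

theorem H13_at_dense (hF : ClassForcing C P L) {j : ℕ} {b : Bool} {q x y : ZFSet.{0}}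
    (h : ∀ r, pair r q ∈ L → ∃ r', pair r' r ∈ L ∧ At M P L j b r' x y) : At M P L j b q x y := by
  intro r hr
  obtain ⟨r1, hr1, h1⟩ := h r hr
  obtain ⟨r2, hr2, h2⟩ := h1 r1 (e1_refl hF hr1)
  exact ⟨r2, hF.trans _ _ _ hr2 hr1, h2⟩

/-- By `H13_good_mono` (take `r' = r`; `r ∈ P` by `rel`). -/
theorem H13_at_of_good (hF : ClassForcing C P L) {j : ℕ} {b : Bool} {q x y : ZFSet.{0}} (h : Good M P L j b q x y) :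
    At M P L j b q x y := by
  exact fun r hr => ⟨r, e1_refl hF hr, H13_good_mono hF h hr⟩

theorem H13_at_dfn (hB : GBModel M C) (hF : ClassForcing C P L) (j : ℕ) (b : Bool) (i k l : ℕ) :
    Dfn M C fun v => At M P L j b (v i) (v k) (v l) := by
  exact D1_all hB hF (R := fun v => ∃ r', pair r' (v 0) ∈ L ∧ Good M P L j b r' (v (k + 1)) (v (l + 1)))
    (D1_ex hB hF (R := fun v => Good M P L j b (v 0) (v (k + 2)) (v (l + 2)))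
      (H13_good_dfn hB hF j b 0 (k + 2) (l + 2)) 0) i

end Pool.Agent.H65C
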