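import Pool.Agent.Lib.H65C.H12
import Pool.Agent.Lib.H65C.G2

/-!
# Project H65C, chunk H16 (M): correct codes have a certificate in the generic filter
-/

namespace Pool.Agent.H65C

open ZFSet

variable {M : Set ZFSet.{0}} {C : Set (Set ZFSet.{0})} {P L G : Set ZFSet.{0}}

theorem h16_cl (hB : GBModel M C) (hF : ClassForcing C P L) (j : ℕ) {s ρ w y : ZFSet.{0}} (hs : s ∈ M) (hρ : ρ ∈ M)
    (hw : w ∈ M) (hy : y ∈ M) : Cl M C fun r => Wp L j s ρ r w y :=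
  G2_cl hB (H11_wp_dfn hB hF j 1 2 0 3 4) (v := cons s (cons ρ (cons w fun _ => y)))
    (a2_cons hs (a2_cons hρ (a2_cons hw fun _ => hy)))

def h16_Q1 (L : Set ZFSet.{0}) (j : ℕ) (X s ρ ρ' r : ZFSet.{0}) : Prop :=
  ∃ x ∈ X, ∃ y ∈ X, Wp L j s ρ' r x y ∧ ¬ ∃ r', pair r' r ∈ L ∧ ∃ w, Oc L r' w y ∧ Wp L j s ρ r' x w

def h16_Q2 (L : Set ZFSet.{0}) (j : ℕ) (X s ρ ρ' r : ZFSet.{0}) : Prop :=
  ∃ x ∈ X, ∃ y ∈ X, ∃ w, Oc L r w y ∧ (Wp L j s ρ r x w ∧ ¬ ∃ r', pair r' r ∈ L ∧ Wp L j s ρ' r' x y)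

def h16_Q3 (L : Set ZFSet.{0}) (j : ℕ) (X s ρ ρ' r : ZFSet.{0}) : Prop :=
  ∃ x ∈ X, ∃ y ∈ X, Wp L j s ρ r x y ∧ ((∃ w, Oc L r w x ∧ ¬ ∃ r', pair r' r ∈ L ∧ Wp L j s ρ' r' w y) ∨
    ∃ w, Oc L r w y ∧ ¬ ∃ r', pair r' r ∈ L ∧ Wp L j s ρ' r' w x)

def h16_Q4 (L : Set ZFSet.{0}) (j : ℕ) (X s ρ ρ' r : ZFSet.{0}) : Prop :=
  ∃ x ∈ X, ∃ y ∈ X, Rh L j s ρ' r x y ∧ ¬ ∃ r', pair r' r ∈ L ∧ Wp L j s ρ r' x y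

section cl

variable {j : ℕ} {X s ρ ρ' : ZFSet.{0}}

theorem h16_cl1 (hB : GBModel M C) (hF : ClassForcing C P L) (hX : X ∈ M) (hs : s ∈ M) (hρ : ρ ∈ M) (hρ' : ρ' ∈ M) :
    Cl M C (h16_Q1 L j X s ρ ρ') := by
  have hM := N1_base hB.zfc
  have d1 : Dfn M C fun v => ∃ w, Oc L (v 0) w (v 1) ∧ Wp L j (v 5) (v 6) (v 0) (v 2) w :=
    D1_oc_ex (R := fun v => Wp L j (v 6) (v 7) (v 1) (v 3) (v 0)) hB hF (H11_wp_dfn hB hF j 6 7 1 3 0) 0 1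
  have d2 : Dfn M C fun v => ∃ r', pair r' (v 2) ∈ L ∧ ∃ w, Oc L r' w (v 0) ∧ Wp L j (v 4) (v 5) r' (v 1) w :=
    D1_ex (R := fun v => ∃ w, Oc L (v 0) w (v 1) ∧ Wp L j (v 5) (v 6) (v 0) (v 2) w) hB hF d1 2
  have d3 : Dfn M C fun v => ∃ y ∈ v 2, Wp L j (v 3) (v 5) (v 1) (v 0) y ∧
      ¬ ∃ r', pair r' (v 1) ∈ L ∧ ∃ w, Oc L r' w y ∧ Wp L j (v 3) (v 4) r' (v 0) w :=
    dfn_bex (R := fun v => Wp L j (v 4) (v 6) (v 2) (v 1) (v 0) ∧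
      ¬ ∃ r', pair r' (v 2) ∈ L ∧ ∃ w, Oc L r' w (v 0) ∧ Wp L j (v 4) (v 5) r' (v 1) w) hM
      (dfn_and (H11_wp_dfn hB hF j 4 6 2 1 0) (dfn_not d2)) 2
  have d4 : Dfn M C fun v => ∃ x ∈ v 1, ∃ y ∈ v 1, Wp L j (v 2) (v 4) (v 0) x y ∧
      ¬ ∃ r', pair r' (v 0) ∈ L ∧ ∃ w, Oc L r' w y ∧ Wp L j (v 2) (v 3) r' x w :=
    dfn_bex (R := fun v => ∃ y ∈ v 2, Wp L j (v 3) (v 5) (v 1) (v 0) y ∧
      ¬ ∃ r', pair r' (v 1) ∈ L ∧ ∃ w, Oc L r' w y ∧ Wp L j (v 3) (v 4) r' (v 0) w) hM d3 1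
  exact G2_cl hB d4 (v := cons X (cons s (cons ρ fun _ => ρ'))) (a2_cons hX (a2_cons hs (a2_cons hρ fun _ => hρ')))

theorem h16_cl2 (hB : GBModel M C) (hF : ClassForcing C P L) (hX : X ∈ M) (hs : s ∈ M) (hρ : ρ ∈ M) (hρ' : ρ' ∈ M) :
    Cl M C (h16_Q2 L j X s ρ ρ') := by
  have hM := N1_base hB.zfc
  have d1 : Dfn M C fun v => ∃ r', pair r' (v 3) ∈ L ∧ Wp L j (v 5) (v 7) r' (v 2) (v 1) :=
    D1_ex (R := fun v => Wp L j (v 6) (v 8) (v 0) (v 3) (v 2)) hB hF (H11_wp_dfn hB hF j 6 8 0 3 2) 3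
  have d2 : Dfn M C fun v => ∃ w, Oc L (v 2) w (v 0) ∧ (Wp L j (v 4) (v 5) (v 2) (v 1) w ∧
      ¬ ∃ r', pair r' (v 2) ∈ L ∧ Wp L j (v 4) (v 6) r' (v 1) (v 0)) :=
    D1_oc_ex (R := fun v => Wp L j (v 5) (v 6) (v 3) (v 2) (v 0) ∧
      ¬ ∃ r', pair r' (v 3) ∈ L ∧ Wp L j (v 5) (v 7) r' (v 2) (v 1)) hB hF
      (dfn_and (H11_wp_dfn hB hF j 5 6 3 2 0) (dfn_not d1)) 2 0
  have d3 : Dfn M C fun v => ∃ y ∈ v 2, ∃ w, Oc L (v 1) w y ∧ (Wp L j (v 3) (v 4) (v 1) (v 0) w ∧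
      ¬ ∃ r', pair r' (v 1) ∈ L ∧ Wp L j (v 3) (v 5) r' (v 0) y) :=
    dfn_bex (R := fun v => ∃ w, Oc L (v 2) w (v 0) ∧ (Wp L j (v 4) (v 5) (v 2) (v 1) w ∧
      ¬ ∃ r', pair r' (v 2) ∈ L ∧ Wp L j (v 4) (v 6) r' (v 1) (v 0))) hM d2 2
  have d4 : Dfn M C fun v => ∃ x ∈ v 1, ∃ y ∈ v 1, ∃ w, Oc L (v 0) w y ∧ (Wp L j (v 2) (v 3) (v 0) x w ∧
      ¬ ∃ r', pair r' (v 0) ∈ L ∧ Wp L j (v 2) (v 4) r' x y) :=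
    dfn_bex (R := fun v => ∃ y ∈ v 2, ∃ w, Oc L (v 1) w y ∧ (Wp L j (v 3) (v 4) (v 1) (v 0) w ∧
      ¬ ∃ r', pair r' (v 1) ∈ L ∧ Wp L j (v 3) (v 5) r' (v 0) y)) hM d3 1
  exact G2_cl hB d4 (v := cons X (cons s (cons ρ fun _ => ρ'))) (a2_cons hX (a2_cons hs (a2_cons hρ fun _ => hρ')))

theorem h16_cl3 (hB : GBModel M C) (hF : ClassForcing C P L) (hX : X ∈ M) (hs : s ∈ M) (hρ : ρ ∈ M) (hρ' : ρ' ∈ M) :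
    Cl M C (h16_Q3 L j X s ρ ρ') := by
  have hM := N1_base hB.zfc
  have d1 : Dfn M C fun v => ∃ r', pair r' (v 3) ∈ L ∧ Wp L j (v 5) (v 7) r' (v 0) (v 1) :=
    D1_ex (R := fun v => Wp L j (v 6) (v 8) (v 0) (v 1) (v 2)) hB hF (H11_wp_dfn hB hF j 6 8 0 1 2) 3
  have d1' : Dfn M C fun v => ∃ r', pair r' (v 3) ∈ L ∧ Wp L j (v 5) (v 7) r' (v 0) (v 2) :=
    D1_ex (R := fun v => Wp L j (v 6) (v 8) (v 0) (v 1) (v 3)) hB hF (H11_wp_dfn hB hF j 6 8 0 1 3) 3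
  have d2 : Dfn M C fun v => ∃ w, Oc L (v 2) w (v 1) ∧ ¬ ∃ r', pair r' (v 2) ∈ L ∧ Wp L j (v 4) (v 6) r' w (v 0) :=
    D1_oc_ex (R := fun v => ¬ ∃ r', pair r' (v 3) ∈ L ∧ Wp L j (v 5) (v 7) r' (v 0) (v 1)) hB hF (dfn_not d1) 2 1
  have d2' : Dfn M C fun v => ∃ w, Oc L (v 2) w (v 0) ∧ ¬ ∃ r', pair r' (v 2) ∈ L ∧ Wp L j (v 4) (v 6) r' w (v 1) :=
    D1_oc_ex (R := fun v => ¬ ∃ r', pair r' (v 3) ∈ L ∧ Wp L j (v 5) (v 7) r' (v 0) (v 2)) hB hF (dfn_not d1') 2 0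
  have d3 : Dfn M C fun v => ∃ y ∈ v 2, Wp L j (v 3) (v 4) (v 1) (v 0) y ∧
      ((∃ w, Oc L (v 1) w (v 0) ∧ ¬ ∃ r', pair r' (v 1) ∈ L ∧ Wp L j (v 3) (v 5) r' w y) ∨
        ∃ w, Oc L (v 1) w y ∧ ¬ ∃ r', pair r' (v 1) ∈ L ∧ Wp L j (v 3) (v 5) r' w (v 0)) :=
    dfn_bex (R := fun v => Wp L j (v 4) (v 5) (v 2) (v 1) (v 0) ∧
      ((∃ w, Oc L (v 2) w (v 1) ∧ ¬ ∃ r', pair r' (v 2) ∈ L ∧ Wp L j (v 4) (v 6) r' w (v 0)) ∨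
        ∃ w, Oc L (v 2) w (v 0) ∧ ¬ ∃ r', pair r' (v 2) ∈ L ∧ Wp L j (v 4) (v 6) r' w (v 1))) hM
      (dfn_and (H11_wp_dfn hB hF j 4 5 2 1 0) (dfn_or d2 d2')) 2
  have d4 : Dfn M C fun v => ∃ x ∈ v 1, ∃ y ∈ v 1, Wp L j (v 2) (v 3) (v 0) x y ∧
      ((∃ w, Oc L (v 0) w x ∧ ¬ ∃ r', pair r' (v 0) ∈ L ∧ Wp L j (v 2) (v 4) r' w y) ∨
        ∃ w, Oc L (v 0) w y ∧ ¬ ∃ r', pair r' (v 0) ∈ L ∧ Wp L j (v 2) (v 4) r' w x) :=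
    dfn_bex (R := fun v => ∃ y ∈ v 2, Wp L j (v 3) (v 4) (v 1) (v 0) y ∧
      ((∃ w, Oc L (v 1) w (v 0) ∧ ¬ ∃ r', pair r' (v 1) ∈ L ∧ Wp L j (v 3) (v 5) r' w y) ∨
        ∃ w, Oc L (v 1) w y ∧ ¬ ∃ r', pair r' (v 1) ∈ L ∧ Wp L j (v 3) (v 5) r' w (v 0))) hM d3 1
  exact G2_cl hB d4 (v := cons X (cons s (cons ρ fun _ => ρ'))) (a2_cons hX (a2_cons hs (a2_cons hρ fun _ => hρ')))

theorem h16_cl4 (hB : GBModel M C) (hF : ClassForcing C P L) (hX : X ∈ M) (hs : s ∈ M) (hρ : ρ ∈ M) (hρ' : ρ' ∈ M) :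
    Cl M C (h16_Q4 L j X s ρ ρ') := by
  have hM := N1_base hB.zfc
  have d2 : Dfn M C fun v => ∃ r', pair r' (v 2) ∈ L ∧ Wp L j (v 4) (v 5) r' (v 1) (v 0) :=
    D1_ex (R := fun v => Wp L j (v 5) (v 6) (v 0) (v 2) (v 1)) hB hF (H11_wp_dfn hB hF j 5 6 0 2 1) 2
  have d3 : Dfn M C fun v => ∃ y ∈ v 2, Rh L j (v 3) (v 5) (v 1) (v 0) y ∧
      ¬ ∃ r', pair r' (v 1) ∈ L ∧ Wp L j (v 3) (v 4) r' (v 0) y :=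
    dfn_bex (R := fun v => Rh L j (v 4) (v 6) (v 2) (v 1) (v 0) ∧
      ¬ ∃ r', pair r' (v 2) ∈ L ∧ Wp L j (v 4) (v 5) r' (v 1) (v 0)) hM
      (dfn_and (H11_rh_dfn hB hF j 4 6 2 1 0) (dfn_not d2)) 2
  have d4 : Dfn M C fun v => ∃ x ∈ v 1, ∃ y ∈ v 1, Rh L j (v 2) (v 4) (v 0) x y ∧
      ¬ ∃ r', pair r' (v 0) ∈ L ∧ Wp L j (v 2) (v 3) r' x y :=
    dfn_bex (R := fun v => ∃ y ∈ v 2, Rh L j (v 3) (v 5) (v 1) (v 0) y ∧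
      ¬ ∃ r', pair r' (v 1) ∈ L ∧ Wp L j (v 3) (v 4) r' (v 0) y) hM d3 1
  exact G2_cl hB d4 (v := cons X (cons s (cons ρ fun _ => ρ'))) (a2_cons hX (a2_cons hs (a2_cons hρ fun _ => hρ')))

end cl

theorem h16_oc (L : Set ZFSet.{0}) {q w y : ZFSet.{0}} (h : Oc L q w y) : Occ w y := by
  obtain ⟨p, hp, _⟩ := h
  exact ⟨p, hp⟩

/-- One inclusion for the clause eq2. -/
theorem h16_sub (hB : GBModel M C) (hF : ClassForcing C P L) (hG : Generic C P L G) {j : ℕ} {X s ρ' : ZFSet.{0}}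
    (hX : Cod M P j X s) (hρ' : ρ' ∈ M)
    (h2 : ∀ x ∈ X, ∀ y ∈ X, (∃ r ∈ G, Wp L j s ρ' r x y) ↔ val G x ∈ val G y) {r x y : ZFSet.{0}} (hr : r ∈ G)
    (hx : x ∈ X) (hy : y ∈ X)
    (hR : ∀ r₁, pair r₁ r ∈ L → ∀ w, Oc L r₁ w x → ∃ r', pair r' r₁ ∈ L ∧ Wp L j s ρ' r' w y) {z : ZFSet.{0}}
    (hz : z ∈ val G x) : z ∈ val G y := by
  obtain ⟨w, rfl, q₀, hq₀, hoc⟩ := G1_val_oc hF hG hz
  have hw : w ∈ X := hX.closed x hx w (h16_oc L hoc)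
  obtain ⟨r₁, hr₁, h3, h4⟩ := hG.dir r hr q₀ hq₀
  have hoc₁ := G1_oc_mono hF hoc h4
  have htr := hB.zfc.trans X hX.memX
  obtain ⟨r₃, hr₃, h5⟩ := G2_below hB hF hG (h16_cl hB hF j hX.memS hρ' (htr w hw) (htr y hy)) hr₁ (fun r₂ h6 =>
    hR r₂ (hF.trans _ _ _ h6 h3) w (G1_oc_mono hF hoc₁ h6))
  exact (h2 w hw y hy).1 ⟨r₃, hr₃, h5⟩

/-- Proof. For each of the four clauses let `Q` be the class of its violations: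
`mem1`: `Q r` iff `∃ x ∈ X, ∃ y ∈ X`, `Wp ρ' r x y` and no `r' ≤ r` has `∃ w, Oc L r' w y ∧ Wp ρ r' x w`;
`mem2`: `∃ x ∈ X, ∃ y ∈ X, ∃ w`, `Oc L r w y`, `Wp ρ r x w` and no `r' ≤ r` has `Wp ρ' r' x y`;
`eq1`: `∃ x ∈ X, ∃ y ∈ X`, `Wp ρ r x y` and either some `w` has `Oc L r w x` and no `r' ≤ r` has `Wp ρ' r' w y`, or some `w` has `Oc L r w y` and
no `r' ≤ r` has `Wp ρ' r' w x`;
`eq2`: `∃ x ∈ X, ∃ y ∈ X`, `Rh ρ' r x y` and no `r' ≤ r` has `Wp ρ r' x y`.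
All are classes (`G2_cl`, `H11`). By `G2_decide` either some `r ∈ G` is in `Q` or some `q ∈ G` has no extension in `Q`. The first
alternative is impossible, by `h1`, `h2`, `G1_oc_val`, `G1_val_oc` (if `w` has `Oc L r w y` then `w ∈ X` by `closed`) and common lower
bounds in `G`; for `eq2`: `Rh ρ' r x y`, `r ∈ G`, gives with `G2_below` and `h2` that `val G x ⊆ val G y` and conversely, so
`val G x = val G y` (`ZFSet.ext`) and `h1` applies. A common lower bound in `G` of the four conditions satisfies `Cert`. -/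
theorem H16_exists (hB : GBModel M C) (hF : ClassForcing C P L) (hG : Generic C P L G) {j : ℕ} {X s ρ ρ' : ZFSet.{0}}
    (hX : Cod M P j X s) (hρ : ρ ∈ M) (hρ' : ρ' ∈ M)
    (h1 : ∀ x ∈ X, ∀ y ∈ X, (∃ r ∈ G, Wp L j s ρ r x y) ↔ val G x = val G y)
    (h2 : ∀ x ∈ X, ∀ y ∈ X, (∃ r ∈ G, Wp L j s ρ' r x y) ↔ val G x ∈ val G y) : ∃ q ∈ G, Cert L j X s ρ ρ' q := by
  have hX' := hX.memX
  have hs := hX.memS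
  -- no condition of `G` is in a class of violations
  have n1 : ∀ r ∈ G, ¬ h16_Q1 L j X s ρ ρ' r := by
    rintro r hr ⟨x, hx, y, hy, h3, h4⟩
    have h5 := (h2 x hx y hy).1 ⟨r, hr, h3⟩
    obtain ⟨w, hw, q₀, hq₀, hoc⟩ := G1_val_oc hF hG h5
    have hwX : w ∈ X := hX.closed y hy w (h16_oc L hoc)
    obtain ⟨r₁, hr₁, h6⟩ := (h1 x hx w hwX).2 hw
    obtain ⟨a, ha, a1, a2⟩ := hG.dir r hr q₀ hq₀
    obtain ⟨c, hc, c1, c2⟩ := hG.dir a ha r₁ hr₁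
    exact h4 ⟨c, hF.trans _ _ _ c1 a1, w, G1_oc_mono hF (G1_oc_mono hF hoc a2) c1, H11_wp_mono hF h6 c2⟩
  have n2 : ∀ r ∈ G, ¬ h16_Q2 L j X s ρ ρ' r := by
    rintro r hr ⟨x, hx, y, hy, w, hoc, h3, h4⟩
    have hwX : w ∈ X := hX.closed y hy w (h16_oc L hoc)
    have h5 : val G x = val G w := (h1 x hx w hwX).1 ⟨r, hr, h3⟩
    have h6 : val G x ∈ val G y := by
      rw [h5]
      exact G1_oc_val hG hoc hr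
    obtain ⟨r₁, hr₁, h7⟩ := (h2 x hx y hy).2 h6
    obtain ⟨a, _, a1, a2⟩ := hG.dir r hr r₁ hr₁
    exact h4 ⟨a, a1, H11_wp_mono hF h7 a2⟩
  have n3 : ∀ r ∈ G, ¬ h16_Q3 L j X s ρ ρ' r := by
    rintro r hr ⟨x, hx, y, hy, h3, h4⟩
    have h5 : val G x = val G y := (h1 x hx y hy).1 ⟨r, hr, h3⟩
    rcases h4 with ⟨w, hoc, h4⟩ | ⟨w, hoc, h4⟩
    · have hwX : w ∈ X := hX.closed x hx w (h16_oc L hoc)
      have h6 : val G w ∈ val G y := by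
        rw [← h5]
        exact G1_oc_val hG hoc hr
      obtain ⟨r₁, hr₁, h7⟩ := (h2 w hwX y hy).2 h6
      obtain ⟨a, _, a1, a2⟩ := hG.dir r hr r₁ hr₁
      exact h4 ⟨a, a1, H11_wp_mono hF h7 a2⟩
    · have hwX : w ∈ X := hX.closed y hy w (h16_oc L hoc)
      have h6 : val G w ∈ val G x := by
        rw [h5]
        exact G1_oc_val hG hoc hr
      obtain ⟨r₁, hr₁, h7⟩ := (h2 w hwX x hx).2 h6
      obtain ⟨a, _, a1, a2⟩ := hG.dir r hr r₁ hr₁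
      exact h4 ⟨a, a1, H11_wp_mono hF h7 a2⟩
  have n4 : ∀ r ∈ G, ¬ h16_Q4 L j X s ρ ρ' r := by
    rintro r hr ⟨x, hx, y, hy, h3, h4⟩
    have h5 : val G x = val G y := by
      ext z
      exact ⟨fun hz => h16_sub hB hF hG hX hρ' h2 hr hx hy h3.1 hz, fun hz => h16_sub hB hF hG hX hρ' h2 hr hy hx h3.2 hz⟩
    obtain ⟨r₁, hr₁, h7⟩ := (h1 x hx y hy).2 h5
    obtain ⟨a, _, a1, a2⟩ := hG.dir r hr r₁ hr₁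
    exact h4 ⟨a, a1, H11_wp_mono hF h7 a2⟩
  -- the four conditions
  obtain ⟨q₁, hq₁, k1⟩ := G2_decide hB hF hG (h16_cl1 (j := j) hB hF hX' hs hρ hρ')
  obtain ⟨q₂, hq₂, k2⟩ := G2_decide hB hF hG (h16_cl2 (j := j) hB hF hX' hs hρ hρ')
  obtain ⟨q₃, hq₃, k3⟩ := G2_decide hB hF hG (h16_cl3 (j := j) hB hF hX' hs hρ hρ')
  obtain ⟨q₄, hq₄, k4⟩ := G2_decide hB hF hG (h16_cl4 (j := j) hB hF hX' hs hρ hρ')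
  replace k1 := k1.resolve_left (n1 q₁ hq₁)
  replace k2 := k2.resolve_left (n2 q₂ hq₂)
  replace k3 := k3.resolve_left (n3 q₃ hq₃)
  replace k4 := k4.resolve_left (n4 q₄ hq₄)
  obtain ⟨a, ha, a1, a2⟩ := hG.dir q₁ hq₁ q₂ hq₂
  obtain ⟨c, hc, c1, c2⟩ := hG.dir q₃ hq₃ q₄ hq₄
  obtain ⟨q, hq, b1, b2⟩ := hG.dir a ha c hc
  have l1 : ∀ r, pair r q ∈ L → ¬ h16_Q1 L j X s ρ ρ' r := fun r hr => k1 r (hF.trans _ _ _ hr (hF.trans _ _ _ b1 a1))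
  have l2 : ∀ r, pair r q ∈ L → ¬ h16_Q2 L j X s ρ ρ' r := fun r hr => k2 r (hF.trans _ _ _ hr (hF.trans _ _ _ b1 a2))
  have l3 : ∀ r, pair r q ∈ L → ¬ h16_Q3 L j X s ρ ρ' r := fun r hr => k3 r (hF.trans _ _ _ hr (hF.trans _ _ _ b2 c1))
  have l4 : ∀ r, pair r q ∈ L → ¬ h16_Q4 L j X s ρ ρ' r := fun r hr => k4 r (hF.trans _ _ _ hr (hF.trans _ _ _ b2 c2))
  refine ⟨q, hq, ⟨?_, ?_, ?_, ?_⟩⟩
  · intro x hx y hy r hr h3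
    by_contra h4
    exact l1 r hr ⟨x, hx, y, hy, h3, h4⟩
  · intro x hx y hy r hr w hoc h3
    by_contra h4
    exact l2 r hr ⟨x, hx, y, hy, w, hoc, h3, h4⟩
  · intro x hx y hy r hr h3
    refine ⟨fun r₁ hr₁ w hoc => ?_, fun r₁ hr₁ w hoc => ?_⟩
    · by_contra h4
      exact l3 r₁ (hF.trans _ _ _ hr₁ hr) ⟨x, hx, y, hy, H11_wp_mono hF h3 hr₁, Or.inl ⟨w, hoc, h4⟩⟩
    · by_contra h4
      exact l3 r₁ (hF.trans _ _ _ hr₁ hr) ⟨x, hx, y, hy, H11_wp_mono hF h3 hr₁, Or.inr ⟨w, hoc, h4⟩⟩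
  · intro x hx y hy r hr h3
    by_contra h4
    exact l4 r hr ⟨x, hx, y, hy, h3, h4⟩

end Pool.Agent.H65C
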