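import Pool.Agent.Lib.H65C.H6
import Pool.Agent.Lib.H65C.V2

/-!
# Project H65C, chunk H7 (S/M): the set of codes of true atomic statements is in `M[G]`
-/

namespace Pool.Agent.H65C

open ZFSet

theorem h7_fst {N : Set ZFSet.{0}} {Θ i c : ZFSet.{0}} (h : pair i c ∈ Θ) : i ∈ (⋃₀ (⋃₀ Θ) : ZFSet.{0}) := by
  rw [mem_sUnion]
  refine ⟨{i}, ?_, by simp⟩
  rw [mem_sUnion]
  exact ⟨_, h, by simp [pair]⟩

theorem h7_snd {N : Set ZFSet.{0}} (hN : Base N) {Θ i c : ZFSet.{0}} (hΘ : Θ ∈ N) (h : pair i c ∈ Θ) : c ∈ N := by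
  have h1 : pair i c ∈ N := hN.trans _ hΘ _ h
  have h2 : ({i, c} : ZFSet.{0}) ∈ N := hN.trans _ h1 _ (by simp [pair])
  exact hN.trans _ h2 _ (by simp)

theorem h7_fstN {N : Set ZFSet.{0}} (hN : Base N) {Θ i c : ZFSet.{0}} (hΘ : Θ ∈ N) (h : pair i c ∈ Θ) : i ∈ N := by
  have h1 : pair i c ∈ N := hN.trans _ hΘ _ h
  have h2 : ({i, c} : ZFSet.{0}) ∈ N := hN.trans _ h1 _ (by simp [pair])
  exact hN.trans _ h2 _ (by simp)

theorem h7_aux {N : Set ZFSet.{0}} (hZ : ZFCModel N) {D : ZFSet.{0} → ZFSet.{0} → Prop}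
    (hD : Dfn N {∅} fun u => D (u 2) (u 1)) {Θ : ZFSet.{0}} (hΘ : Θ ∈ N) :
    ∃ E ∈ N, ∀ i, i ∈ E ↔ ∃ a b, pair i (pair a b) ∈ Θ ∧ D a b := by
  have hN : Base N := N1_base hZ
  have h1 : Dfn N {∅} fun u : ℕ → ZFSet.{0} => u 0 = pair (u 2) (u 1) ∧ pair (u 3) (u 0) ∈ u 4 ∧ D (u 2) (u 1) :=
    dfn_and (dfn_opair hN V2_ne 0 2 1) (dfn_and (dfn_opair_mem hN V2_ne 4 3 0) hD)
  have h2 := dfn_ex (dfn_ex (dfn_ex h1))
  have ha : (⋃₀ (⋃₀ Θ) : ZFSet.{0}) ∈ N := hZ.union _ (hZ.union _ hΘ)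
  obtain ⟨E, hE, h3⟩ := V2_sep hZ (v := fun _ => Θ) h2 (fun _ => hΘ) ha
  refine ⟨E, hE, fun i => ?_⟩
  rw [h3 i]
  constructor
  · rintro ⟨_, a, _, b, _, c, _, h4, h5, h6⟩
    have h4' : c = pair a b := h4
    have h5' : pair i c ∈ Θ := h5
    have h6' : D a b := h6
    exact ⟨a, b, h4' ▸ h5', h6'⟩
  · rintro ⟨a, b, h4, h5⟩
    have hc : pair a b ∈ N := h7_snd hN hΘ h4
    have hab : ({a, b} : ZFSet.{0}) ∈ N := hN.trans _ hc _ (by simp [pair])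
    have haN : a ∈ N := hN.trans _ hab _ (by simp)
    have hbN : b ∈ N := hN.trans _ hab _ (by simp)
    exact ⟨h7_fst (N := N) h4, a, haN, b, hbN, pair a b, hc, rfl, h4, h5⟩

/-- Proof. Let `Θ` be the set of `H6_theta`. The set is the set of all `i ∈ ⋃₀ ⋃₀ Θ` such that there are `a, b ∈ M[G]` with
`pair i (pair a b) ∈ Θ` and `a ∈ b` (`b = true`) or `a = b` (`b = false`); use `V2_sep` for `N = M[G]` (`N1_base`). -/
theorem H7_eset {M : Set ZFSet.{0}} {C : Set (Set ZFSet.{0})} {P L G : Set ZFSet.{0}} (hB : GBModel M C)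
    (hF : ClassForcing C P L) (hG : Generic C P L G) (hZ : ZFCModel (MG M P G)) {j : ℕ} {X s : ZFSet.{0}}
    (hX : Cod M P j X s) (b : Bool) :
    ∃ E ∈ MG M P G, ∀ i, i ∈ E ↔ ∃ x y, pair i (pair x y) ∈ s ∧ Tr G b x y := by
  have hnm : ∀ i x y, pair i (pair x y) ∈ s → IsName P x ∧ IsName P y := by
    intro i x y h
    obtain ⟨i', _, x', hx', y', hy', h1⟩ := hX.rel _ h
    obtain ⟨_, h2⟩ := pair_injective h1
    obtain ⟨h3, h4⟩ := pair_injective h2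
    rw [h3, h4]
    exact ⟨hX.name _ hx', hX.name _ hy'⟩
  obtain ⟨Θ, hΘ, h1⟩ := H6_theta hB hF hG hX.memS hnm
  have hD : Dfn (MG M P G) {∅} fun u : ℕ → ZFSet.{0} => (if b then u 2 ∈ u 1 else u 2 = u 1 : Prop) := by
    cases b with
    | true => exact dfn_congr (dfn_mem V2_ne 2 1) fun v _ => by simp
    | false => exact dfn_congr (dfn_eq V2_ne 2 1) fun v _ => by simp
  obtain ⟨E, hE, h2⟩ := h7_aux hZ (D := fun x y => (if b then x ∈ y else x = y : Prop)) hD hΘ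
  refine ⟨E, hE, fun i => ?_⟩
  rw [h2 i]
  constructor
  · rintro ⟨a, c, h3, h4⟩
    obtain ⟨i', x, y, h5, h6⟩ := (h1 _).1 h3
    obtain ⟨h7, h8⟩ := pair_injective h6
    obtain ⟨h9, h10⟩ := pair_injective h8
    refine ⟨x, y, h7 ▸ h5, ?_⟩
    show (if b then val G x ∈ val G y else val G x = val G y : Prop)
    rw [← h9, ← h10]
    exact h4
  · rintro ⟨x, y, h3, h4⟩
    exact ⟨val G x, val G y, (h1 _).2 ⟨i, x, y, h3, rfl⟩, h4⟩

end Pool.Agent.H65C
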