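import Pool.Agent.Lib.H65C.H8

/-!
# Project H65C, chunk H9 (S/M): subsets of `P^j(ω)^M` in `M[G]` have codes
-/

namespace Pool.Agent.H65C

open ZFSet

/-- Proof. `E = val G ρ`. If `i ∈ E` then `i = val G u` with `Oc L q1 u ρ`, `q1 ∈ G` (`G1_val_oc`), `u ∈ M`, `V j i i` (`V1_id`), so some
`q2 ∈ G` has `NUM L j q2 u i` (`H8_num`); take a common lower bound in `G` (`G1_oc_mono`, `E1_num`). Conversely, if `q ∈ G`,
`Oc L q u ρ`, `NUM L j q u i` then `val G u ∈ E` and `V j (val G u) i`, also `V j (val G u) (val G u)` by `V1_id`, so `i = val G u` by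
`V1_unique`. -/
theorem H9_code {M : Set ZFSet.{0}} {C : Set (Set ZFSet.{0})} {P L G : Set ZFSet.{0}} (hB : GBModel M C)
    (hF : ClassForcing C P L) (hG : Generic C P L G) {j : ℕ} {E : ZFSet.{0}} (hE : E ∈ MG M P G)
    (hs : ∀ i ∈ E, i ∈ Typ M j) : ∃ ρ ∈ M, ∀ i ∈ Typ M j, i ∈ E ↔ ∃ q ∈ G, Wi L j ρ q i := by
  obtain ⟨ρ, hρ, _, hEρ⟩ := hE
  have hbase : Base M := N1_base hB.zfc
  refine ⟨ρ, hρ, fun i hi => ⟨fun h => ?_, ?_⟩⟩
  · rw [hEρ] at h
    obtain ⟨u, hu, q1, hq1, h1⟩ := G1_val_oc hF hG h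
    have huM : u ∈ M := by
      obtain ⟨p, hp, _⟩ := h1
      exact (G1_mem hbase hρ hp).1
    have hV : V j (val G u) i := by
      rw [← hu]
      exact V1_id M j i hi
    obtain ⟨q2, hq2, h2⟩ := (H8_num hB hF hG j huM hi).1 hV
    obtain ⟨r, hr, hr1, hr2⟩ := hG.dir q1 hq1 q2 hq2
    exact ⟨r, hr, u, G1_oc_mono hF h1 hr1, E1_num hF h2 hr2⟩
  · rintro ⟨q, hq, u, h1, h2⟩
    have huM : u ∈ M := by
      obtain ⟨p, hp, _⟩ := h1
      exact (G1_mem hbase hρ hp).1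
    have hV : V j (val G u) i := (H8_num hB hF hG j huM hi).2 ⟨q, hq, h2⟩
    have hmem : val G u ∈ E := by
      rw [hEρ]
      exact G1_oc_val hG h1 hq
    have hV2 := V1_id M j (val G u) (hs _ hmem)
    rw [V1_unique j (val G u) i (val G u) hV hV2]
    exact hmem

end Pool.Agent.H65C
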