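import Pool.Agent.Lib.H65C.H5
import Pool.Agent.Lib.H65C.H7
import Pool.Agent.Lib.H65C.H9
import Pool.Agent.Lib.H65C.H13
import Pool.Agent.Lib.H65C.H15
import Pool.Agent.Lib.H65C.H16

/-!
# Project H65C, chunk H17 (S/M): the truth lemma for atomic formulas and small names
-/

namespace Pool.Agent.H65C

open ZFSet

variable {M : Set ZFSet.{0}} {C : Set (Set ZFSet.{0})} {P L G : Set ZFSet.{0}}

theorem h17_rel {j : ℕ} {X s : ZFSet.{0}} (hX : Cod M P j X s) {i x y : ZFSet.{0}} (h : pair i (pair x y) ∈ s) :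
    i ∈ Typ M j := by
  obtain ⟨i', hi', x', _, y', _, he⟩ := hX.rel _ h
  rw [(pair_inj.mp he).1]
  exact hi'

theorem h17_one (hB : GBModel M C) (hF : ClassForcing C P L) (hG : Generic C P L G) (hZ : ZFCModel (MG M P G)) {j : ℕ}
    {X s : ZFSet.{0}} (hX : Cod M P j X s) (b : Bool) :
    ∃ ρ ∈ M, ∀ x ∈ X, ∀ y ∈ X, (∃ r ∈ G, Wp L j s ρ r x y) ↔ Tr G b x y := by
  obtain ⟨E, hE, hE2⟩ := H7_eset hB hF hG hZ hX b
  have hET : ∀ i ∈ E, i ∈ Typ M j := by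
    intro i hi
    obtain ⟨x, y, h, _⟩ := (hE2 i).1 hi
    exact h17_rel hX h
  obtain ⟨ρ, hρ, hρ2⟩ := H9_code hB hF hG hE hET
  refine ⟨ρ, hρ, fun x hx y hy => ⟨?_, fun h => ?_⟩⟩
  · rintro ⟨r, hr, i, hi, hw⟩
    obtain ⟨x', y', h1, h2⟩ := (hE2 i).1 ((hρ2 i (h17_rel hX hi)).2 ⟨r, hr, hw⟩)
    obtain ⟨e1, e2⟩ := pair_inj.mp (hX.func _ _ _ h1 hi)
    rw [e1, e2] at h2
    exact h2
  · obtain ⟨i, hi⟩ := hX.surj x hx y hy
    obtain ⟨q, hq, hw⟩ := (hρ2 i (h17_rel hX hi)).1 ((hE2 i).2 ⟨x, y, hi, h⟩)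
    exact ⟨q, hq, i, hi, hw⟩

/-- Proof. `H7_eset` for `b = false`, `b = true` and `H9_code` give `ρ`, `ρ'`; the two equivalences of `H16_exists` follow from `rel`, `func`,
`surj` of `Cod`. -/
theorem H17_cert (hB : GBModel M C) (hF : ClassForcing C P L) (hG : Generic C P L G) (hZ : ZFCModel (MG M P G)) {j : ℕ}
    {X s : ZFSet.{0}} (hX : Cod M P j X s) :
    ∃ ρ ∈ M, ∃ ρ' ∈ M, (∀ x ∈ X, ∀ y ∈ X, (∃ r ∈ G, Wp L j s ρ r x y) ↔ val G x = val G y) ∧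
      (∀ x ∈ X, ∀ y ∈ X, (∃ r ∈ G, Wp L j s ρ' r x y) ↔ val G x ∈ val G y) ∧ ∃ q ∈ G, Cert L j X s ρ ρ' q := by
  obtain ⟨ρ, hρ, h1⟩ := h17_one hB hF hG hZ hX false
  obtain ⟨ρ', hρ', h2⟩ := h17_one hB hF hG hZ hX true
  have h1' : ∀ x ∈ X, ∀ y ∈ X, (∃ r ∈ G, Wp L j s ρ r x y) ↔ val G x = val G y := h1
  have h2' : ∀ x ∈ X, ∀ y ∈ X, (∃ r ∈ G, Wp L j s ρ' r x y) ↔ val G x ∈ val G y := h2
  exact ⟨ρ, hρ, ρ', hρ', h1', h2', H16_exists hB hF hG hX hρ hρ' h1' h2'⟩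

/-- Proof. (→) `G2_below` for the class `Good` (`H13_good_dfn`) and `H15_correct`. (←) `H5_join`, `H17_cert`; take a common lower bound of the
certificate and of the condition for `Wp` (`H12_cert_mono`, `H11_wp_mono`), `H13_at_of_good`. -/
theorem H17_at (hB : GBModel M C) (hF : ClassForcing C P L) (hG : Generic C P L G) (hZ : ZFCModel (MG M P G)) {j : ℕ}
    (b : Bool) {x y : ZFSet.{0}} (hx : SmallName M P j x) (hy : SmallName M P j y) :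
    (∃ q ∈ G, At M P L (j + 4) b q x y) ↔ Tr G b x y := by
  have hM : Base M := N1_base hB.zfc
  have hxM := (H5_mem hM hx).1
  have hyM := (H5_mem hM hy).1
  constructor
  · rintro ⟨q, hq, h⟩
    have hcl : Cl M C fun r => Good M P L (j + 4) b r x y :=
      G2_cl hB (H13_good_dfn hB hF (j + 4) b 0 1 2) (v := cons x fun _ => y) (a2_cons hxM fun _ => hyM)
    obtain ⟨r, hr, X, _, s, _, ρ, hρ, ρ', hρ', hX, hxX, hyX, hc, hw⟩ := G2_below hB hF hG hcl hq h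
    obtain ⟨c1, c2⟩ := H15_correct hB hF hG hX hρ hρ' hr hc hxX hyX
    cases b with
    | false => exact c1.1 ⟨r, hr, hw⟩
    | true => exact c2.1 ⟨r, hr, hw⟩
  · intro h
    obtain ⟨X, s, hX, hxX, hyX⟩ := H5_join hB hx hy ⟨P, hF.carrier⟩
    obtain ⟨ρ, hρ, ρ', hρ', c1, c2, q, hq, hc⟩ := H17_cert hB hF hG hZ hX
    have hw : ∃ r ∈ G, Wp L (j + 4) s (if b then ρ' else ρ) r x y := by
      cases b with
      | false => exact (c1 x hxX y hyX).2 h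
      | true => exact (c2 x hxX y hyX).2 h
    obtain ⟨r, hr, hw⟩ := hw
    obtain ⟨t, ht, htq, htr⟩ := hG.dir q hq r hr
    exact ⟨t, ht, H13_at_of_good hF ⟨X, hX.memX, s, hX.memS, ρ, hρ, ρ', hρ', hX, hxX, hyX, H12_cert_mono hF hc htq,
      H11_wp_mono hF hw htr⟩⟩

end Pool.Agent.H65C
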