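import Pool.Agent.Lib.H65C.H13

/-!
# Project H65C, chunk H18 (S): the forcing relation for small names is monotone and regular
-/

namespace Pool.Agent.H65C

open ZFSet

variable {C : Set (Set ZFSet.{0})} {M P L : Set ZFSet.{0}}

/-- Induction on `φ`, as in `F1_mono`. -/
theorem H18_mono (hF : ClassForcing C P L) (j : ℕ) (φ : Fm) {q r : ZFSet.{0}} {v : ℕ → ZFSet.{0}}
    (h : FS M P L j φ q v) (hr : pair r q ∈ L) : FS M P L j φ r v := by
  induction φ generalizing v with
  | mem i k => exact H13_at_mono hF h hr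
  | eq i k => exact H13_at_mono hF h hr
  | cls c i => exact h.elim
  | bot => exact h.elim
  | imp φ ψ _ _ => exact fun r1 hr1 h1 => h r1 (hF.trans _ _ _ hr1 hr) h1
  | all φ ih => exact fun u hu hu' => ih (h u hu hu')

theorem h18_mem (hF : ClassForcing C P L) {r q : ZFSet.{0}} (hr : pair r q ∈ L) : r ∈ P := by
  obtain ⟨p, hp, q', hq', he⟩ := hF.rel _ hr
  rw [(pair_inj.1 he).1]
  exact hp

/-- As in `F1_dense`. -/
theorem H18_dense (hF : ClassForcing C P L) (j : ℕ) (φ : Fm) {q : ZFSet.{0}} (hq : q ∈ P) {v : ℕ → ZFSet.{0}}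
    (h : ∀ r, pair r q ∈ L → ∃ r', pair r' r ∈ L ∧ FS M P L j φ r' v) : FS M P L j φ q v := by
  induction φ generalizing v q with
  | mem i k => exact H13_at_dense hF h
  | eq i k => exact H13_at_dense hF h
  | cls c i =>
    obtain ⟨r, _, hr⟩ := h q (hF.refl q hq)
    exact hr.elim
  | bot =>
    obtain ⟨r, _, hr⟩ := h q (hF.refl q hq)
    exact hr.elim
  | imp φ ψ _ ihψ =>
    intro r hr h1
    have hrP : r ∈ P := h18_mem hF hr
    refine ihψ hrP ?_
    intro r1 hr1
    obtain ⟨r2, hr2, h2⟩ := h r1 (hF.trans _ _ _ hr1 hr)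
    refine ⟨r2, hr2, h2 r2 (hF.refl r2 (h18_mem hF hr2)) ?_⟩
    exact H18_mono hF j φ h1 (hF.trans _ _ _ hr2 hr1)
  | all φ ih =>
    intro u hu hu'
    refine ih hq ?_
    intro r hr
    obtain ⟨r1, hr1, h1⟩ := h r hr
    exact ⟨r1, hr1, h1 u hu hu'⟩

end Pool.Agent.H65C
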