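import Pool.Agent.Lib.H65C.H1

/-!
# Project H65C, chunk H2 (S): check names
-/

namespace Pool.Agent.H65C

open ZFSet

/-- `∈`-induction, `mem_chk`. -/
theorem H2_name {P : Set ZFSet.{0}} {p : ZFSet.{0}} (hp : p ∈ P) (x : ZFSet.{0}) : IsName P (chk p x) := by
  induction x using ZFSet.inductionOn with
  | _ x ih =>
    refine IsName.mk _ (fun z hz => ?_) (fun τ q h => ?_)
    · obtain ⟨y, _, rfl⟩ := (mem_chk p x z).1 hz
      exact ⟨chk p y, p, hp, rfl⟩
    · obtain ⟨y, hy, he⟩ := (mem_chk p x _).1 h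
      rw [(pair_inj.mp he).1]
      exact ih y hy

/-- `∈`-induction, `mem_chk`, `mem_val`. -/
theorem H2_val {G : Set ZFSet.{0}} {p : ZFSet.{0}} (hp : p ∈ G) (x : ZFSet.{0}) : val G (chk p x) = x := by
  induction x using ZFSet.inductionOn with
  | _ x ih =>
    ext z
    rw [mem_val]
    constructor
    · rintro ⟨τ, q, _, h, rfl⟩
      obtain ⟨y, hy, he⟩ := (mem_chk p x _).1 h
      rw [(pair_inj.mp he).1, ih y hy]
      exact hy
    · intro hz
      exact ⟨chk p z, p, hp, (mem_chk p x _).2 ⟨z, hz, rfl⟩, (ih z hz).symm⟩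

/-- With `p ∈ G` from `G2_nonempty`, `H1_mem`. -/
theorem H2_sub {M : Set ZFSet.{0}} {C : Set (Set ZFSet.{0})} {P L G : Set ZFSet.{0}} (hB : GBModel M C)
    (hF : ClassForcing C P L) (hG : Generic C P L G) : M ⊆ MG M P G := by
  intro x hx
  obtain ⟨p, hp⟩ := G2_nonempty hF hG
  have hpM : p ∈ M := hB.sub P hF.carrier (hG.sub hp)
  exact ⟨chk p x, H1_mem hB hpM hx, H2_name (hG.sub hp) x, (H2_val hp x).symm⟩

end Pool.Agent.H65C
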