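import Pool.Agent.Lib.H65C.A3
import Pool.Agent.Lib.H65C.G2
import Pool.Agent.Lib.H65C.N1

/-!
# Project H65C, chunk T1 (M): classes of tuples
-/

namespace Pool.Agent.H65C

open ZFSet

/-- `v` with its first `k` entries replaced by the list `l` (of length `k`): the assignment `l 0, ..., l (k - 1), v 0, v 1, ...`. -/
def app (l : List ZFSet.{0}) (v : ℕ → ZFSet.{0}) : ℕ → ZFSet.{0} :=
  l.foldr cons v

theorem t1_nil (v : ℕ → ZFSet.{0}) : app [] v = v := rfl

theorem t1_cons (a : ZFSet.{0}) (l : List ZFSet.{0}) (v : ℕ → ZFSet.{0}) : app (a :: l) v = cons a (app l v) := rfl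

theorem t1_at (l : List ZFSet.{0}) (a : ZFSet.{0}) (u : ℕ → ZFSet.{0}) : app l (cons a u) l.length = a := by
  induction l with
  | nil => rfl
  | cons b l ih => exact ih

theorem t1_skip (l : List ZFSet.{0}) (a : ZFSet.{0}) (u : ℕ → ZFSet.{0}) (i : ℕ) :
    (if i < l.length then app l (cons a u) i else app l (cons a u) (i + 1)) = app l u i := by
  induction l generalizing i with
  | nil =>
    rw [if_neg (by simp)]
    rfl
  | cons b l ih =>
    cases i with
    | zero =>
      rw [if_pos (by simp)]
      rfl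
    | succ i =>
      have h1 := ih i
      by_cases h : i < l.length
      · rw [if_pos h] at h1
        rw [if_pos (by simpa using h)]
        exact h1
      · rw [if_neg h] at h1
        rw [if_neg (by simpa using h)]
        exact h1

/-- The renaming used in `T1_dfn`. -/
def t1f (k : ℕ) : ℕ → ℕ
  | 0 => k
  | n + 1 => if n < k then n else n + 1

/-- The renaming that skips one variable. -/
def t1g : ℕ → ℕ
  | 0 => 0
  | 1 => 1
  | n + 2 => n + 3

theorem t1_ren (l : List ZFSet.{0}) (a : ZFSet.{0}) (u : ℕ → ZFSet.{0}) :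
    (fun i => app l (cons a u) (t1f l.length i)) = app (a :: l) u := by
  funext i
  cases i with
  | zero => exact t1_at l a u
  | succ i =>
    have h := t1_skip l a u i
    show app l (cons a u) (if i < l.length then i else i + 1) = app l u i
    rw [← h]
    by_cases h2 : i < l.length
    · rw [if_pos h2, if_pos h2]
    · rw [if_neg h2, if_neg h2]

theorem t1_g (a b : ZFSet.{0}) (v : ℕ → ZFSet.{0}) :
    (fun i => cons b (cons a v) (t1g (i + 1))) = cons a fun i => v (i + 1) := by
  funext i
  cases i <;> rfl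

theorem t1_empty {M : Set ZFSet.{0}} (hM : Base M) : (∅ : ZFSet.{0}) ∈ M := N1_nat_mem hM 0

theorem t1_tup_mem {M : Set ZFSet.{0}} (hM : Base M) (l : List ZFSet.{0}) (h : ∀ x ∈ l, x ∈ M) : tup l ∈ M := by
  induction l with
  | nil => exact t1_empty hM
  | cons a l ih =>
    exact base_pair hM (h a (by simp)) (ih fun x hx => h x (by simp [hx]))

/-- Proof. Induction on `k`, `R` general. `k = 0`: `v 0 = ∅ ∧ R (fun i => v (i + 1))`. `k + 1`: `v 0 = tup (a :: l)` iff there are `a b ∈ M` with
`v 0 = pair a b` and `b = tup l`, and `R (app (a :: l) u) = R (cons a (app l u))`. Apply the induction hypothesis to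
`R' := fun x => R (cons (x k) (fun i => if i < k then x i else x (i + 1)))` (a renaming of `R`, `dfn_ren`), the list `l` and the
assignment `cons b (cons a (fun i => v (i + 1)))`: `app l (cons a u)` has entry `a` at `k`. -/
theorem T1_dfn {M : Set ZFSet.{0}} {C : Set (Set ZFSet.{0})} (hM : Base M) (k : ℕ) {R : (ℕ → ZFSet.{0}) → Prop}
    (hR : Dfn M C R) :
    Dfn M C fun v => ∃ l : List ZFSet.{0}, l.length = k ∧ (∀ x ∈ l, x ∈ M) ∧ v 0 = tup l ∧
      R (app l fun i => v (i + 1)) := by
  have hne : C.Nonempty := by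
    obtain ⟨_, X, hX, _⟩ := hR
    exact ⟨X 0, hX 0⟩
  induction k generalizing R with
  | zero =>
    refine dfn_congr (dfn_and (dfn_empty hM hne 0) (dfn_ren hR fun i => i + 1)) fun v _ => ?_
    constructor
    · rintro ⟨h1, h2⟩
      exact ⟨[], rfl, by simp, h1, h2⟩
    · rintro ⟨l, h1, _, h3, h4⟩
      have hl : l = [] := List.length_eq_zero_iff.1 h1
      subst hl
      exact ⟨h3, h4⟩
  | succ k ih =>
    have h1 := ih (dfn_ren hR (t1f k))
    have h2 := dfn_ren h1 t1g
    have h3 := dfn_ex (dfn_ex (dfn_and (dfn_opair hM hne 2 1 0) h2))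
    refine dfn_congr h3 fun v _ => ?_
    constructor
    · rintro ⟨a, ha, b, hb, h4, l, h5, h6, h7, h8⟩
      refine ⟨a :: l, by simp [h5], ?_, ?_, ?_⟩
      · intro x hx
        rcases List.mem_cons.1 hx with rfl | hx
        · exact ha
        · exact h6 x hx
      · have h9 : v 0 = pair a b := h4
        have h10 : b = tup l := h7
        rw [h9, h10]
        rfl
      · subst h5
        rw [← t1_ren, ← t1_g a b v]
        exact h8
    · rintro ⟨l, h4, h5, h6, h7⟩
      cases l with
      | nil => simp at h4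
      | cons a l =>
        have h8 : l.length = k := by simpa using h4
        subst h8
        have h9 : ∀ x ∈ l, x ∈ M := fun x hx => h5 x (by simp [hx])
        refine ⟨a, h5 a (by simp), tup l, t1_tup_mem hM l h9, h6, l, rfl, h9, rfl, ?_⟩
        rw [← t1_ren, ← t1_g a (tup l) v] at h7
        exact h7

theorem T1_tup_inj (l l' : List ZFSet.{0}) (h : l.length = l'.length) (ht : tup l = tup l') : l = l' := by
  induction l generalizing l' with
  | nil =>
    symm
    exact List.length_eq_zero_iff.1 h.symm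
  | cons a l ih =>
    cases l' with
    | nil => simp at h
    | cons b l' =>
      have h1 : pair a (tup l) = pair b (tup l') := ht
      obtain ⟨h2, h3⟩ := pair_inj.1 h1
      rw [h2, ih l' (by simpa using h) h3]

theorem T1_app (l : List ZFSet.{0}) (i : ℕ) : app l (fun _ => ∅) i = l.getD i ∅ := by
  induction l generalizing i with
  | nil => simp [app]
  | cons a l ih =>
    cases i with
    | zero => rfl
    | succ i =>
      rw [t1_cons, List.getD_cons_succ, ← ih i]
      rfl

/-- Proof. `T1_dfn` for `k + 1` and comprehension (`G2_cl`, all parameters `∅`), then `T1_tup_inj`, `T1_app`; `tup l ∈ M` if the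
entries are in `M`. -/
theorem T1_class {M : Set ZFSet.{0}} {C : Set (Set ZFSet.{0})} (hB : GBModel M C) (k : ℕ) {R : (ℕ → ZFSet.{0}) → Prop}
    (hR : Dfn M C R) : ∃ X ∈ C, ∀ l : List ZFSet.{0}, l.length = k → (∀ x ∈ l, x ∈ M) →
      (tup l ∈ X ↔ R fun i => l.getD i ∅) := by
  have hM : Base M := N1_base hB.zfc
  have h1 := G2_cl hB (T1_dfn hM k hR) (v := fun _ => ∅) (fun _ => t1_empty hM)
  refine ⟨_, h1, ?_⟩
  intro l hl hlM
  have e : (fun i => l.getD i ∅) = app l fun _ => ∅ := by
    funext i
    exact (T1_app l i).symm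
  rw [e]
  constructor
  · rintro ⟨_, l', h2, _, h4, h5⟩
    have h6 : l = l' := T1_tup_inj l l' (hl.trans h2.symm) h4
    subst h6
    exact h5
  · intro h
    exact ⟨t1_tup_mem hM l hlM, l, hl, hlM, rfl, h⟩

end Pool.Agent.H65C
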