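import Pool.Agent.Lib.H65C.H20
import Pool.Agent.Lib.H65C.G3
import Pool.Agent.Lib.H65C.T1

/-!
# Project H65C, chunk H21 (S/M): the forcing theorem for small names
-/

namespace Pool.Agent.H65C

open ZFSet

variable {C : Set (Set ZFSet.{0})} {M P L : Set ZFSet.{0}}

theorem h21_names (hB : GBModel M C) (j : ℕ) (l : List ZFSet.{0})
    (hl : ∀ σ ∈ l, SmallName M P j σ) (i : ℕ) : SmallName M P j (l.getD i ∅) := by
  rcases lt_or_ge i l.length with h | h
  · rw [List.getD_eq_getElem l ∅ h]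
    exact hl _ (List.getElem_mem h)
  · rw [List.getD_eq_default l ∅ h]
    exact H5_empty (N1_base hB.zfc) j

/-- a condition that does not force `φ` has an extension without extensions forcing `φ` -/
theorem h21_ext (hF : ClassForcing C P L) (j : ℕ) (φ : Fm) {q : ZFSet.{0}} (hq : q ∈ P)
    {v : ℕ → ZFSet.{0}} (h : ¬ FS M P L j φ q v) :
    ∃ r, pair r q ∈ L ∧ ∀ r', pair r' r ∈ L → ¬ FS M P L j φ r' v := by
  by_contra hc
  apply h
  refine H18_dense hF j φ hq fun r hr => ?_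
  by_contra hd
  exact hc ⟨r, hr, fun r' hr' hf => hd ⟨r', hr', hf⟩⟩

theorem h21_truth (hB : GBModel M C) (hF : ClassForcing C P L) {G : Set ZFSet.{0}} (hG : Generic C P L G)
    (hZ : ZFCModel (MG M P G)) (j : ℕ) (φ : Fm) (l : List ZFSet.{0}) (hl : ∀ σ ∈ l, SmallName M P j σ) :
    (∃ q ∈ G, FS M P L j φ q fun i => l.getD i ∅) ↔ Sat0 (MGs M P j G) φ (asg G l) :=
  H20_truth hB hF hG hZ j φ (fun i => l.getD i ∅) (h21_names hB j l hl)

/-- The same proof as `Z_forces`, with `H20_truth`, `H18_mono`, `H18_dense`, `H5_empty`. -/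
theorem H21_forces (hB : GBModel M C) (hC : C.Countable) (hF : ClassForcing C P L)
    (hZ : ∀ G, Generic C P L G → ZFCModel (MG M P G)) (j : ℕ) (φ : Fm) (l : List ZFSet.{0})
    (hl : ∀ σ ∈ l, SmallName M P j σ) (p : ZFSet.{0}) (hp : p ∈ P) :
    ForcesS M C P L j φ l p ↔ FS M P L j φ p fun i => l.getD i ∅ := by
  constructor
  · intro h
    by_contra hn
    obtain ⟨r, hr, hno⟩ := h21_ext hF j φ hp hn
    have hrP : r ∈ P := by
      obtain ⟨a, ha, b, _, he⟩ := hF.rel _ hr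
      rw [(pair_inj.1 he).1]
      exact ha
    obtain ⟨G, hG, hrG⟩ := G3_exists hC hF hrP
    have hs := h G hG (hG.up r hrG p hr)
    obtain ⟨q, hq, hfq⟩ := (h21_truth hB hF hG (hZ G hG) j φ l hl).2 hs
    obtain ⟨s, _, hs1, hs2⟩ := hG.dir q hq r hrG
    exact hno s hs2 (H18_mono hF j φ hfq hs1)
  · intro h G hG hpG
    exact (h21_truth hB hF hG (hZ G hG) j φ l hl).1 ⟨p, hpG, h⟩

/-- **The forcing theorem for small names.** The same proof as `Z_main`. -/
theorem H21_main (hB : GBModel M C) (hC : C.Countable) (hF : ClassForcing C P L)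
    (hZ : ∀ G, Generic C P L G → ZFCModel (MG M P G)) (j : ℕ) (φ : Fm) (k : ℕ) :
    (∃ Y ∈ C, ∀ l : List ZFSet.{0}, l.length = k → (∀ σ ∈ l, SmallName M P j σ) →
      ∀ p ∈ P, tup (p :: l) ∈ Y ↔ ForcesS M C P L j φ l p) ∧
    ∀ l : List ZFSet.{0}, (∀ σ ∈ l, SmallName M P j σ) →
      ∀ G, Generic C P L G → (Sat0 (MGs M P j G) φ (asg G l) ↔ ∃ p ∈ G, ForcesS M C P L j φ l p) := by
  constructor
  · obtain ⟨X, hX, h⟩ := T1_class hB (k + 1) (H19_dfn hB hF j φ)
    refine ⟨X, hX, fun l hlk hl p hp => ?_⟩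
    rw [h (p :: l) (by simp [hlk]) (fun x hx => ?_), H21_forces hB hC hF hZ j φ l hl p hp]
    · rfl
    · rcases List.mem_cons.1 hx with hx | hx
      · rw [hx]
        exact hB.sub P hF.carrier hp
      · exact (H5_mem (N1_base hB.zfc) (hl x hx)).1
  · intro l hl G hG
    rw [← h21_truth hB hF hG (hZ G hG) j φ l hl]
    constructor
    · rintro ⟨q, hq, h⟩
      exact ⟨q, hq, (H21_forces hB hC hF hZ j φ l hl q (hG.sub hq)).2 h⟩
    · rintro ⟨q, hq, h⟩
      exact ⟨q, hq, (H21_forces hB hC hF hZ j φ l hl q (hG.sub hq)).1 h⟩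

end Pool.Agent.H65C
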