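import Pool.Agent.Lib.H65C.H21

/-!
# Project H65C, second part: the forcing theorem for small names, exact form
-/

namespace Pool.Agent.H65C

open ZFSet

variable {C : Set (Set ZFSet.{0})} {M P L : Set ZFSet.{0}}

/-- `v 1, ..., v k` have the property `N` -/
theorem h22_dfn (hn : C.Nonempty) {N : ZFSet.{0} → Prop} (hN : ∀ a : ℕ, Dfn M C fun v => N (v a)) (k : ℕ) :
    Dfn M C fun v => ∀ i < k, N (v (i + 1)) := by
  induction k with
  | zero => exact dfn_congr (dfn_true hn) fun v _ => by simp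
  | succ k ih =>
    refine dfn_congr (dfn_and ih (hN (k + 1))) fun v _ => ?_
    constructor
    · rintro ⟨h1, h2⟩ i hi
      rcases Nat.lt_succ_iff_lt_or_eq.1 hi with h | h
      · exact h1 i h
      · rw [h]
        exact h2
    · intro h
      exact ⟨fun i hi => h i (Nat.lt_succ_of_lt hi), h k (Nat.lt_succ_self k)⟩

/-- the exact class of all tuples of a condition and `k` sets with property `N`, with a definable property -/
theorem h22_class (hB : GBModel M C) (hF : ClassForcing C P L) {N : ZFSet.{0} → Prop}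
    (hN : ∀ a : ℕ, Dfn M C fun v => N (v a)) (hNM : ∀ x, N x → x ∈ M) (k : ℕ) {R : (ℕ → ZFSet.{0}) → Prop}
    (hR : Dfn M C R) :
    {z | ∃ p ∈ P, ∃ l : List ZFSet.{0}, l.length = k ∧ (∀ σ ∈ l, N σ) ∧
      R (fun i => (p :: l).getD i ∅) ∧ z = tup (p :: l)} ∈ C := by
  have hM : Base M := N1_base hB.zfc
  have d1 := dfn_and (dfn_cls hF.carrier 0) (dfn_and (h22_dfn ⟨P, hF.carrier⟩ hN k) hR)
  have d2 := T1_dfn hM (k + 1) d1
  have h := G2_cl hB d2 (v := fun _ => ∅) fun _ => t1_empty hM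
  refine (congrArg (fun X => X ∈ C) (Set.ext fun z => ?_)).mp h
  constructor
  · rintro ⟨_, l', hl1, hl2, hz, h1, h2, h3⟩
    have hz' : z = tup l' := hz
    have e : app l' (fun i => cons z (fun _ => ∅) (i + 1)) = fun i => l'.getD i ∅ := by
      funext i
      exact T1_app l' i
    rw [e] at h1 h2 h3
    cases l' with
    | nil => simp at hl1
    | cons p l =>
      have hlk : l.length = k := by simpa using hl1
      refine ⟨p, h1, l, hlk, fun σ hσ => ?_, h3, hz'⟩
      obtain ⟨i, hi, rfl⟩ := List.mem_iff_getElem.1 hσ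
      have h4 : N ((p :: l).getD (i + 1) ∅) := h2 i (by omega)
      have h5 : (p :: l).getD (i + 1) ∅ = l[i] := by
        rw [List.getD_cons_succ, List.getD_eq_getElem l ∅ hi]
      rw [h5] at h4
      exact h4
  · rintro ⟨p, hp, l, hlk, hl, h3, rfl⟩
    have hpl : ∀ x ∈ p :: l, x ∈ M := by
      intro x hx
      rcases List.mem_cons.1 hx with hx | hx
      · rw [hx]
        exact hB.sub P hF.carrier hp
      · exact hNM x (hl x hx)
    refine ⟨t1_tup_mem hM _ hpl, p :: l, by simp [hlk], hpl, rfl, ?_⟩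
    have e : app (p :: l) (fun i => cons (tup (p :: l)) (fun _ => ∅) (i + 1)) = fun i => (p :: l).getD i ∅ := by
      funext i
      exact T1_app (p :: l) i
    rw [e]
    refine ⟨hp, fun i hi => ?_, h3⟩
    show N ((p :: l).getD (i + 1) ∅)
    rw [List.getD_cons_succ, List.getD_eq_getElem l ∅ (by omega)]
    exact hl _ (List.getElem_mem _)

/-- **The forcing theorem for small names**, exact form. -/
theorem H22_main (hB : GBModel M C) (hC : C.Countable) (hF : ClassForcing C P L)
    (hZ : ∀ G, Generic C P L G → ZFCModel (MG M P G)) (j : ℕ) (φ : Fm) :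
    (∀ k : ℕ, {z | ∃ p ∈ P, ∃ l : List ZFSet.{0}, l.length = k ∧ (∀ σ ∈ l, SmallName M P j σ) ∧
      ForcesS M C P L j φ l p ∧ z = tup (p :: l)} ∈ C) ∧
    ∀ l : List ZFSet.{0}, (∀ σ ∈ l, SmallName M P j σ) →
      ∀ G, Generic C P L G → (Sat0 (MGs M P j G) φ (asg G l) ↔ ∃ p ∈ G, ForcesS M C P L j φ l p) := by
  refine ⟨fun k => ?_, (H21_main hB hC hF hZ j φ 0).2⟩
  have h := h22_class hB hF (N := SmallName M P j) (fun a => H12_small_dfn hB hF.carrier j a)
    (fun x hx => (H5_mem (N1_base hB.zfc) hx).1) k (H19_dfn hB hF j φ)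
  refine (congrArg (fun X => X ∈ C) (Set.ext fun z => ?_)).mp h
  constructor
  · rintro ⟨p, hp, l, hlk, hl, h3, hz⟩
    exact ⟨p, hp, l, hlk, hl, (H21_forces hB hC hF hZ j φ l hl p hp).2 h3, hz⟩
  · rintro ⟨p, hp, l, hlk, hl, h3, hz⟩
    exact ⟨p, hp, l, hlk, hl, (H21_forces hB hC hF hZ j φ l hl p hp).1 h3, hz⟩

end Pool.Agent.H65C
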