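import Pool.Agent.Lib.H65C.H0

/-!
# Project H65C, chunk H3 (S): names for ordered pairs

`opn p a b = {({(a, p)}, p), ({(a, p), (b, p)}, p)}`.
-/

namespace Pool.Agent.H65C

open ZFSet

theorem h3_opn (p a b : ZFSet.{0}) :
    opn p a b = {pair {pair a p, pair a p} p, pair {pair a p, pair b p} p} := by
  rw [pair_eq_singleton]
  rfl

theorem h3_name2 {P : Set ZFSet.{0}} {p a b : ZFSet.{0}} (hp : p ∈ P) (ha : IsName P a) (hb : IsName P b) :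
    IsName P {pair a p, pair b p} := by
  refine IsName.mk _ (fun z hz => ?_) fun τ q h => ?_
  · rcases mem_pair.1 hz with rfl | rfl
    · exact ⟨a, p, hp, rfl⟩
    · exact ⟨b, p, hp, rfl⟩
  · rcases mem_pair.1 h with h | h
    · obtain ⟨rfl, rfl⟩ := pair_inj.mp h
      exact ha
    · obtain ⟨rfl, rfl⟩ := pair_inj.mp h
      exact hb

theorem h3_val2 {G : Set ZFSet.{0}} {p : ZFSet.{0}} (hp : p ∈ G) (a b : ZFSet.{0}) :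
    val G {pair a p, pair b p} = {val G a, val G b} := by
  ext x
  rw [mem_val, mem_pair]
  constructor
  · rintro ⟨τ, q, _, h, rfl⟩
    rcases mem_pair.1 h with h | h
    · obtain ⟨rfl, rfl⟩ := pair_inj.mp h
      exact Or.inl rfl
    · obtain ⟨rfl, rfl⟩ := pair_inj.mp h
      exact Or.inr rfl
  · rintro (rfl | rfl)
    · exact ⟨a, p, hp, mem_pair.2 (Or.inl rfl), rfl⟩
    · exact ⟨b, p, hp, mem_pair.2 (Or.inr rfl), rfl⟩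

theorem H3_name {P : Set ZFSet.{0}} {p a b : ZFSet.{0}} (hp : p ∈ P) (ha : IsName P a) (hb : IsName P b) :
    IsName P (opn p a b) := by
  rw [h3_opn]
  exact h3_name2 hp (h3_name2 hp ha ha) (h3_name2 hp ha hb)

theorem H3_val {G : Set ZFSet.{0}} {p : ZFSet.{0}} (hp : p ∈ G) (a b : ZFSet.{0}) :
    val G (opn p a b) = pair (val G a) (val G b) := by
  rw [h3_opn, h3_val2 hp, h3_val2 hp, h3_val2 hp, pair_eq_singleton]
  rfl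

theorem H3_mem {M : Set ZFSet.{0}} (hM : Base M) {p a b : ZFSet.{0}} (hp : p ∈ M) (ha : a ∈ M) (hb : b ∈ M) :
    opn p a b ∈ M := by
  rw [h3_opn]
  exact hM.pairing _ (base_pair hM (hM.pairing _ (base_pair hM ha hp) _ (base_pair hM ha hp)) hp) _
    (base_pair hM (hM.pairing _ (base_pair hM ha hp) _ (base_pair hM hb hp)) hp)

theorem H3_dfn {M : Set ZFSet.{0}} {C : Set (Set ZFSet.{0})} (hB : GBModel M C) (hC : C.Nonempty) (i j k l : ℕ) :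
    Dfn M C fun v => v i = opn (v j) (v k) (v l) := by
  have hM := N1_base hB.zfc
  have hn := hC
  have d6 : Dfn M C fun w => w 0 = pair (w 2) (w (j + 6)) ∧ w (i + 6) = ({w 1, w 0} : ZFSet.{0}) :=
    dfn_and (dfn_opair hM hn 0 2 (j + 6)) (dfn_upair hM hn (i + 6) 1 0)
  have d5 : Dfn M C fun w => w 0 = pair (w 2) (w (j + 5)) ∧
      ∃ y ∈ M, y = pair (w 1) (w (j + 5)) ∧ w (i + 5) = ({w 0, y} : ZFSet.{0}) :=
    dfn_and (dfn_opair hM hn 0 2 (j + 5)) (dfn_ex (R := fun w => w 0 = pair (w 2) (w (j + 6)) ∧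
      w (i + 6) = ({w 1, w 0} : ZFSet.{0})) d6)
  have d4 : Dfn M C fun w => w 0 = ({w 3, w 2} : ZFSet.{0}) ∧ ∃ x ∈ M, x = pair (w 1) (w (j + 4)) ∧
      ∃ y ∈ M, y = pair (w 0) (w (j + 4)) ∧ w (i + 4) = ({x, y} : ZFSet.{0}) :=
    dfn_and (dfn_upair hM hn 0 3 2) (dfn_ex (R := fun w => w 0 = pair (w 2) (w (j + 5)) ∧
      ∃ y ∈ M, y = pair (w 1) (w (j + 5)) ∧ w (i + 5) = ({w 0, y} : ZFSet.{0})) d5)
  have d3 : Dfn M C fun w => w 0 = ({w 2, w 2} : ZFSet.{0}) ∧ ∃ t ∈ M, t = ({w 2, w 1} : ZFSet.{0}) ∧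
      ∃ x ∈ M, x = pair (w 0) (w (j + 3)) ∧ ∃ y ∈ M, y = pair t (w (j + 3)) ∧ w (i + 3) = ({x, y} : ZFSet.{0}) :=
    dfn_and (dfn_upair hM hn 0 2 2) (dfn_ex (R := fun w => w 0 = ({w 3, w 2} : ZFSet.{0}) ∧
      ∃ x ∈ M, x = pair (w 1) (w (j + 4)) ∧
      ∃ y ∈ M, y = pair (w 0) (w (j + 4)) ∧ w (i + 4) = ({x, y} : ZFSet.{0})) d4)
  have d2 : Dfn M C fun w => w 0 = pair (w (l + 2)) (w (j + 2)) ∧ ∃ s ∈ M, s = ({w 1, w 1} : ZFSet.{0}) ∧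
      ∃ t ∈ M, t = ({w 1, w 0} : ZFSet.{0}) ∧
      ∃ x ∈ M, x = pair s (w (j + 2)) ∧ ∃ y ∈ M, y = pair t (w (j + 2)) ∧ w (i + 2) = ({x, y} : ZFSet.{0}) :=
    dfn_and (dfn_opair hM hn 0 (l + 2) (j + 2)) (dfn_ex (R := fun w => w 0 = ({w 2, w 2} : ZFSet.{0}) ∧
      ∃ t ∈ M, t = ({w 2, w 1} : ZFSet.{0}) ∧
      ∃ x ∈ M, x = pair (w 0) (w (j + 3)) ∧ ∃ y ∈ M, y = pair t (w (j + 3)) ∧ w (i + 3) = ({x, y} : ZFSet.{0})) d3)
  have d1 : Dfn M C fun w => w 0 = pair (w (k + 1)) (w (j + 1)) ∧ ∃ B ∈ M, B = pair (w (l + 1)) (w (j + 1)) ∧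
      ∃ s ∈ M, s = ({w 0, w 0} : ZFSet.{0}) ∧ ∃ t ∈ M, t = ({w 0, B} : ZFSet.{0}) ∧
      ∃ x ∈ M, x = pair s (w (j + 1)) ∧ ∃ y ∈ M, y = pair t (w (j + 1)) ∧ w (i + 1) = ({x, y} : ZFSet.{0}) :=
    dfn_and (dfn_opair hM hn 0 (k + 1) (j + 1)) (dfn_ex (R := fun w => w 0 = pair (w (l + 2)) (w (j + 2)) ∧
      ∃ s ∈ M, s = ({w 1, w 1} : ZFSet.{0}) ∧ ∃ t ∈ M, t = ({w 1, w 0} : ZFSet.{0}) ∧
      ∃ x ∈ M, x = pair s (w (j + 2)) ∧ ∃ y ∈ M, y = pair t (w (j + 2)) ∧ w (i + 2) = ({x, y} : ZFSet.{0})) d2)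
  refine dfn_congr (dfn_ex (R := fun w => w 0 = pair (w (k + 1)) (w (j + 1)) ∧
      ∃ B ∈ M, B = pair (w (l + 1)) (w (j + 1)) ∧
      ∃ s ∈ M, s = ({w 0, w 0} : ZFSet.{0}) ∧ ∃ t ∈ M, t = ({w 0, B} : ZFSet.{0}) ∧
      ∃ x ∈ M, x = pair s (w (j + 1)) ∧ ∃ y ∈ M, y = pair t (w (j + 1)) ∧ w (i + 1) = ({x, y} : ZFSet.{0})) d1)
      fun v hv => ?_
  rw [h3_opn]
  change (∃ A ∈ M, A = pair (v k) (v j) ∧ ∃ B ∈ M, B = pair (v l) (v j) ∧ ∃ s ∈ M, s = ({A, A} : ZFSet.{0}) ∧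
    ∃ t ∈ M, t = ({A, B} : ZFSet.{0}) ∧ ∃ x ∈ M, x = pair s (v j) ∧ ∃ y ∈ M, y = pair t (v j) ∧
    v i = ({x, y} : ZFSet.{0})) ↔ _
  constructor
  · rintro ⟨_, _, rfl, _, _, rfl, _, _, rfl, _, _, rfl, _, _, rfl, _, _, rfl, h⟩
    exact h
  · intro h
    have hA : pair (v k) (v j) ∈ M := base_pair hM (hv k) (hv j)
    have hB2 : pair (v l) (v j) ∈ M := base_pair hM (hv l) (hv j)
    have hS := hM.pairing _ hA _ hA
    have hT := hM.pairing _ hA _ hB2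
    exact ⟨_, hA, rfl, _, hB2, rfl, _, hS, rfl, _, hT, rfl, _, base_pair hM hS (hv j), rfl, _,
      base_pair hM hT (hv j), rfl, h⟩

end Pool.Agent.H65C
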