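import Pool.Agent.Lib.H65C.H0
import Pool.Agent.Lib.H65C.H4

/-!
# Project H65C, chunk H5 (M): two small names have a common code
-/

namespace Pool.Agent.H65C

open ZFSet

variable {M : Set ZFSet.{0}} {C : Set (Set ZFSet.{0})} {P : Set ZFSet.{0}}

theorem H5_mem (hM : Base M) {j : ℕ} {σ : ZFSet.{0}} (h : SmallName M P j σ) : σ ∈ M ∧ IsName P σ := by
  obtain ⟨X, s, hS, hx⟩ := h
  exact ⟨hM.trans X hS.memX σ hx, hS.name σ hx⟩

/-- `X = {∅}`, `s = {pair ∅ ∅}`. -/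
theorem H5_empty (hM : Base M) (j : ℕ) : SmallName M P j ∅ := by
  have h0 : (∅ : ZFSet.{0}) ∈ M := N1_nat_mem hM 0
  have hsing : ∀ a ∈ M, ({a} : ZFSet.{0}) ∈ M := by
    intro a ha
    have h1 := hM.pairing a ha a ha
    have h2 : ({a, a} : ZFSet.{0}) = {a} := by
      ext z
      simp
    rwa [h2] at h1
  have hno : ∀ τ, ¬ Occ τ (∅ : ZFSet.{0}) := by
    rintro τ ⟨p, hp⟩
    exact notMem_empty _ hp
  refine ⟨{∅}, {pair ∅ ∅}, ⟨hsing _ h0, hsing _ (base_pair hM h0 h0), ?_, ?_, ?_, ?_⟩, by simp⟩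
  · intro x hx
    rw [mem_singleton] at hx
    subst hx
    exact IsName.mk _ (fun z hz => absurd hz (notMem_empty _)) fun τ p hp => absurd hp (notMem_empty _)
  · intro x hx τ hτ
    rw [mem_singleton] at hx
    subst hx
    exact absurd hτ (hno τ)
  · intro i x y h1 h2
    rw [mem_singleton] at h1 h2
    exact ((pair_inj.mp h1).2).trans ((pair_inj.mp h2).2).symm
  · intro x hx
    rw [mem_singleton] at hx
    subst hx
    exact ⟨∅, H4_nat hM j 0, by simp⟩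

theorem H5_sub {j : ℕ} {σ τ : ZFSet.{0}} (h : SmallName M P j σ) (ho : Occ τ σ) : SmallName M P j τ := by
  obtain ⟨X, s, hS, hx⟩ := h
  exact ⟨X, s, hS, hS.closed σ hx τ ho⟩

theorem h5_cons {a : ZFSet.{0}} {v : ℕ → ZFSet.{0}} (ha : a ∈ M) (hv : ∀ i, v i ∈ M) : ∀ i, cons a v i ∈ M :=
  a2_cons ha hv

/-- The set `{pair (pair (nat b) i) x : pair i x ∈ s, x ∈ X, i ∈ Typ M j}`. -/
theorem h5_tag (hB : GBModel M C) (hC : C.Nonempty) (j b : ℕ) {X s : ZFSet.{0}} (hX : X ∈ M) (hs : s ∈ M) :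
    ∃ U ∈ M, ∀ z, z ∈ U ↔ ∃ i x, pair i x ∈ s ∧ x ∈ X ∧ i ∈ Typ M j ∧ z = pair (pair (nat b) i) x := by
  have hM : Base M := N1_base hB.zfc
  have hb : nat b ∈ M := N1_nat_mem hM b
  have h0 : (∅ : ZFSet.{0}) ∈ M := N1_nat_mem hM 0
  have hR : Dfn M C fun w => ∃ i ∈ M, ∃ x ∈ M, ∃ c ∈ M,
      c = pair (w 2) i ∧ (w 0 = pair c x ∧ (w 1 = pair i x ∧ (x ∈ w 3 ∧ i ∈ Typ M j))) :=
    dfn_ex (R := fun w => ∃ x ∈ M, ∃ c ∈ M,
        c = pair (w 3) (w 0) ∧ (w 1 = pair c x ∧ (w 2 = pair (w 0) x ∧ (x ∈ w 4 ∧ w 0 ∈ Typ M j))))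
      (dfn_ex (R := fun w => ∃ c ∈ M,
          c = pair (w 4) (w 1) ∧ (w 2 = pair c (w 0) ∧ (w 3 = pair (w 1) (w 0) ∧ (w 0 ∈ w 5 ∧ w 1 ∈ Typ M j))))
        (dfn_ex (R := fun w =>
            w 0 = pair (w 5) (w 2) ∧ (w 3 = pair (w 0) (w 1) ∧ (w 4 = pair (w 2) (w 1) ∧ (w 1 ∈ w 6 ∧ w 2 ∈ Typ M j))))
          (dfn_and (dfn_opair hM hC 0 5 2) (dfn_and (dfn_opair hM hC 3 0 1) (dfn_and (dfn_opair hM hC 4 2 1)
            (dfn_and (dfn_mem hC 1 6) (H4_dfn hM hC j 2)))))))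
  obtain ⟨U, hU, h⟩ := H0_repl hB hR (v := cons (nat b) (cons X fun _ => ∅)) (h5_cons hb (h5_cons hX fun _ => h0)) hs
    (by
      rintro z _ y _ y' _ ⟨i, _, x, _, c, _, e1, e2, e3, _⟩ ⟨i', _, x', _, c', _, f1, f2, f3, _⟩
      have e1' : c = pair (nat b) i := e1
      have f1' : c' = pair (nat b) i' := f1
      have e2' : y = pair c x := e2
      have f2' : y' = pair c' x' := f2
      have e3' : z = pair i x := e3
      have f3' : z = pair i' x' := f3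
      obtain ⟨g1, g2⟩ := pair_inj.mp (e3'.symm.trans f3')
      rw [e2', f2', e1', f1', g1, g2])
  refine ⟨U, hU, fun z => ?_⟩
  rw [h z]
  constructor
  · rintro ⟨_, u, hu, i, _, x, _, c, _, e1, e2, e3, e4, e5⟩
    have e1' : c = pair (nat b) i := e1
    have e2' : z = pair c x := e2
    have e3' : u = pair i x := e3
    exact ⟨i, x, e3' ▸ hu, e4, e5, by rw [e2', e1']⟩
  · rintro ⟨i, x, h1, h2, h3, rfl⟩
    have hi := base_of_pair hM (hM.trans s hs _ h1)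
    exact ⟨base_pair hM (base_pair hM hb hi.1) hi.2, pair i x, h1, i, hi.1, x, hi.2, _, base_pair hM hb hi.1, rfl, rfl, rfl,
      h2, h3⟩

theorem h5_prod (hB : GBModel M C) (hC : C.Nonempty) {a b : ZFSet.{0}} (ha : a ∈ M) (hb : b ∈ M) : a.prod b ∈ M := by
  have hM : Base M := N1_base hB.zfc
  have h0 : (∅ : ZFSet.{0}) ∈ M := N1_nat_mem hM 0
  have hS : ∀ x ∈ a, ∃ S ∈ M, ∀ z, z ∈ S ↔ ∃ y ∈ b, z = pair x y := by
    intro x hx
    have hxM : x ∈ M := hM.trans a ha x hx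
    have hR : Dfn M C fun w => w 0 = pair (w 2) (w 1) := dfn_opair hM hC 0 2 1
    obtain ⟨S, hS, h⟩ := H0_repl hB hR (v := cons x fun _ => ∅) (h5_cons hxM fun _ => h0) hb
      (fun z _ y _ y' _ e f => (show y = pair x z from e).trans (show y' = pair x z from f).symm)
    refine ⟨S, hS, fun z => ?_⟩
    rw [h z]
    constructor
    · rintro ⟨_, y, hy, e⟩
      exact ⟨y, hy, e⟩
    · rintro ⟨y, hy, e⟩
      exact ⟨e ▸ base_pair hM hxM (hM.trans b hb y hy), y, hy, e⟩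
  have hR : Dfn M C fun w => ∀ z ∈ M, (z ∈ w 0 ↔ ∃ y ∈ w 2, z = pair (w 1) y) :=
    dfn_all (R := fun w => (w 0 ∈ w 1 ↔ ∃ y ∈ w 3, w 0 = pair (w 2) y))
      (dfn_iff (dfn_mem hC 0 1) (dfn_bex hM (R := fun w => w 1 = pair (w 3) (w 0)) (dfn_opair hM hC 1 3 0) 3))
  obtain ⟨T, hT, h⟩ := H0_repl hB hR (v := cons b fun _ => ∅) (h5_cons hb fun _ => h0) ha
    (by
      intro x _ y hy y' hy' e f
      have e' : ∀ z ∈ M, (z ∈ y ↔ ∃ u ∈ b, z = pair x u) := e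
      have f' : ∀ z ∈ M, (z ∈ y' ↔ ∃ u ∈ b, z = pair x u) := f
      ext z
      exact ⟨fun hz => (f' z (hM.trans y hy z hz)).2 ((e' z (hM.trans y hy z hz)).1 hz),
        fun hz => (e' z (hM.trans y' hy' z hz)).2 ((f' z (hM.trans y' hy' z hz)).1 hz)⟩)
  have hU : a.prod b = ⋃₀ T := by
    ext z
    rw [mem_prod, mem_sUnion]
    constructor
    · rintro ⟨x, hx, y, hy, rfl⟩
      obtain ⟨S, hS1, hS2⟩ := hS x hx
      refine ⟨S, (h S).2 ⟨hS1, x, hx, fun z _ => hS2 z⟩, (hS2 _).2 ⟨y, hy, rfl⟩⟩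
    · rintro ⟨S, hST, hzS⟩
      obtain ⟨hSM, x, hx, e⟩ := (h S).1 hST
      have e' : ∀ z ∈ M, (z ∈ S ↔ ∃ u ∈ b, z = pair x u) := e
      obtain ⟨y, hy, e2⟩ := (e' z (hM.trans S hSM z hzS)).1 hzS
      exact ⟨x, hx, y, hy, e2⟩
  rw [hU]
  exact hM.union T hT

theorem h5_dfn4 (hM : Base M) (hC : C.Nonempty) (i a b c d : ℕ) :
    Dfn M C fun v => v i = pair (pair (v a) (v b)) (pair (v c) (v d)) := by
  have h1 : Dfn M C fun v => ∃ p ∈ M, ∃ q ∈ M, p = pair (v a) (v b) ∧ (q = pair (v c) (v d) ∧ v i = pair p q) :=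
    dfn_ex (R := fun w => ∃ q ∈ M, w 0 = pair (w (a + 1)) (w (b + 1)) ∧ (q = pair (w (c + 1)) (w (d + 1)) ∧ w (i + 1) = pair (w 0) q))
      (dfn_ex (R := fun w => w 1 = pair (w (a + 2)) (w (b + 2)) ∧ (w 0 = pair (w (c + 2)) (w (d + 2)) ∧ w (i + 2) = pair (w 1) (w 0)))
        (dfn_and (dfn_opair hM hC 1 (a + 2) (b + 2)) (dfn_and (dfn_opair hM hC 0 (c + 2) (d + 2)) (dfn_opair hM hC (i + 2) 1 0))))
  refine dfn_congr h1 fun v hv => ⟨?_, fun h => ?_⟩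
  · rintro ⟨p, _, q, _, rfl, rfl, h⟩
    exact h
  · exact ⟨_, base_pair hM (hv a) (hv b), _, base_pair hM (hv c) (hv d), rfl, rfl, h⟩

/-- The set of all `pair (pair c c') (pair x x')` for `pair c x, pair c' x' ∈ U`. -/
theorem h5_two (hB : GBModel M C) (hC : C.Nonempty) {U : ZFSet.{0}} (hU : U ∈ M) :
    ∃ t ∈ M, ∀ z, z ∈ t ↔ ∃ c x c' x', pair c x ∈ U ∧ pair c' x' ∈ U ∧ z = pair (pair c c') (pair x x') := by
  have hM : Base M := N1_base hB.zfc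
  have h0 : (∅ : ZFSet.{0}) ∈ M := N1_nat_mem hM 0
  have hR : Dfn M C fun w => ∃ c ∈ M, ∃ x ∈ M, ∃ c' ∈ M, ∃ x' ∈ M,
      w 1 = pair (pair c x) (pair c' x') ∧ w 0 = pair (pair c c') (pair x x') :=
    dfn_ex (R := fun w => ∃ x ∈ M, ∃ c' ∈ M, ∃ x' ∈ M,
        w 2 = pair (pair (w 0) x) (pair c' x') ∧ w 1 = pair (pair (w 0) c') (pair x x'))
      (dfn_ex (R := fun w => ∃ c' ∈ M, ∃ x' ∈ M,
          w 3 = pair (pair (w 1) (w 0)) (pair c' x') ∧ w 2 = pair (pair (w 1) c') (pair (w 0) x'))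
        (dfn_ex (R := fun w => ∃ x' ∈ M,
            w 4 = pair (pair (w 2) (w 1)) (pair (w 0) x') ∧ w 3 = pair (pair (w 2) (w 0)) (pair (w 1) x'))
          (dfn_ex (R := fun w =>
              w 5 = pair (pair (w 3) (w 2)) (pair (w 1) (w 0)) ∧ w 4 = pair (pair (w 3) (w 1)) (pair (w 2) (w 0)))
            (dfn_and (h5_dfn4 hM hC 5 3 2 1 0) (h5_dfn4 hM hC 4 3 1 2 0)))))
  obtain ⟨t, ht, h⟩ := H0_repl hB hR (v := fun _ => ∅) (fun _ => h0) (h5_prod hB hC hU hU)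
    (by
      rintro z _ y _ y' _ ⟨c, _, x, _, c', _, x', _, e1, e2⟩ ⟨d, _, w, _, d', _, w', _, f1, f2⟩
      have e1' : z = pair (pair c x) (pair c' x') := e1
      have f1' : z = pair (pair d w) (pair d' w') := f1
      have e2' : y = pair (pair c c') (pair x x') := e2
      have f2' : y' = pair (pair d d') (pair w w') := f2
      obtain ⟨g1, g2⟩ := pair_inj.mp (e1'.symm.trans f1')
      obtain ⟨g3, g4⟩ := pair_inj.mp g1
      obtain ⟨g5, g6⟩ := pair_inj.mp g2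
      rw [e2', f2', g3, g4, g5, g6])
  refine ⟨t, ht, fun z => ?_⟩
  rw [h z]
  constructor
  · rintro ⟨_, u, hu, c, _, x, _, c', _, x', _, e1, e2⟩
    have e1' : u = pair (pair c x) (pair c' x') := e1
    rw [e1', pair_mem_prod] at hu
    exact ⟨c, x, c', x', hu.1, hu.2, e2⟩
  · rintro ⟨c, x, c', x', h1, h2, rfl⟩
    have g1 := base_of_pair hM (hM.trans U hU _ h1)
    have g2 := base_of_pair hM (hM.trans U hU _ h2)
    refine ⟨base_pair hM (base_pair hM g1.1 g2.1) (base_pair hM g1.2 g2.2), pair (pair c x) (pair c' x'), ?_, c, g1.1, x, g1.2,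
      c', g2.1, x', g2.2, rfl, rfl⟩
    rw [pair_mem_prod]
    exact ⟨h1, h2⟩

/-- Proof. Let `(X, s)` and `(X', s')` be small sets with `σ ∈ X`, `τ ∈ X'`. Let
`U = {pair (pair (nat 0) i) x : i ∈ Typ M j, pair i x ∈ s, x ∈ X} ∪ {pair (pair (nat 1) i) x : i ∈ Typ M j, pair i x ∈ s', x ∈ X'}`, in `M` by
`H0_repl` (images of `s`, `s'`; `H4_dfn`) and `H0_union`. Then
`t = {pair (pair c c') (pair x x') : pair c x ∈ U, pair c' x' ∈ U}` is in `M` by `H0_repl` applied to `U.prod U` (`H0_prod`), and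
`Cod M P (j + 4) (X ∪ X') t`: `pair (nat 0) i ∈ Typ M (j + 2)` and `pair c c' ∈ Typ M (j + 4)` by `H4_nat`, `H4_pair`; `U` is a function
(`nat 0 ≠ nat 1`, `pair_inj`). -/
theorem H5_join (hB : GBModel M C) {j : ℕ} {σ τ : ZFSet.{0}} (hσ : SmallName M P j σ) (hτ : SmallName M P j τ)
    (hC : C.Nonempty) : ∃ X s, Cod M P (j + 4) X s ∧ σ ∈ X ∧ τ ∈ X := by
  have hM : Base M := N1_base hB.zfc
  obtain ⟨X, s, hS, hσX⟩ := hσ
  obtain ⟨X', s', hS', hτX⟩ := hτ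
  obtain ⟨U0, hU0, h0⟩ := h5_tag hB hC j 0 hS.memX hS.memS
  obtain ⟨U1, hU1, h1⟩ := h5_tag hB hC j 1 hS'.memX hS'.memS
  obtain ⟨U, hUd⟩ : ∃ U : ZFSet.{0}, U = U0 ∪ U1 := ⟨_, rfl⟩
  have hU : U ∈ M := hUd ▸ H0_union hM hU0 hU1
  have hUm : ∀ z, z ∈ U ↔ (∃ i x, pair i x ∈ s ∧ x ∈ X ∧ i ∈ Typ M j ∧ z = pair (pair (nat 0) i) x) ∨
      ∃ i x, pair i x ∈ s' ∧ x ∈ X' ∧ i ∈ Typ M j ∧ z = pair (pair (nat 1) i) x := by
    intro z
    rw [hUd, mem_union, h0, h1]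
  have hne : nat 0 ≠ nat 1 := fun h => by
    have := N1_inj 0 1 h
    omega
  have u1 : ∀ c x, pair c x ∈ U → c ∈ Typ M (j + 2) ∧ x ∈ X ∪ X' := by
    intro c x h
    rcases (hUm _).1 h with ⟨i, y, _, g2, g3, g4⟩ | ⟨i, y, _, g2, g3, g4⟩
    · obtain ⟨e1, e2⟩ := pair_inj.mp g4
      rw [e1, e2, mem_union]
      exact ⟨H4_pair hM (H4_nat hM j 0) g3, Or.inl g2⟩
    · obtain ⟨e1, e2⟩ := pair_inj.mp g4
      rw [e1, e2, mem_union]
      exact ⟨H4_pair hM (H4_nat hM j 1) g3, Or.inr g2⟩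
  have u2 : ∀ c x y, pair c x ∈ U → pair c y ∈ U → x = y := by
    intro c x y hx hy
    rcases (hUm _).1 hx with ⟨i, x', g1, _, _, g4⟩ | ⟨i, x', g1, _, _, g4⟩ <;>
    rcases (hUm _).1 hy with ⟨k, y', f1, _, _, f4⟩ | ⟨k, y', f1, _, _, f4⟩ <;>
    obtain ⟨e1, e2⟩ := pair_inj.mp g4 <;>
    obtain ⟨e3, e4⟩ := pair_inj.mp f4 <;>
    obtain ⟨e5, e6⟩ := pair_inj.mp (e1.symm.trans e3)
    · rw [e2, e4]
      exact hS.func i _ _ g1 (e6 ▸ f1)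
    · exact absurd e5 hne
    · exact absurd e5.symm hne
    · rw [e2, e4]
      exact hS'.func i _ _ g1 (e6 ▸ f1)
  have u3 : ∀ x ∈ X ∪ X', ∃ c, pair c x ∈ U := by
    intro x hx
    rw [mem_union] at hx
    rcases hx with hx | hx
    · obtain ⟨i, hi, hix⟩ := hS.surj x hx
      exact ⟨_, (hUm _).2 (Or.inl ⟨i, x, hix, hx, hi, rfl⟩)⟩
    · obtain ⟨i, hi, hix⟩ := hS'.surj x hx
      exact ⟨_, (hUm _).2 (Or.inr ⟨i, x, hix, hx, hi, rfl⟩)⟩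
  obtain ⟨t, ht, htm⟩ := h5_two hB hC hU
  refine ⟨X ∪ X', t, ⟨H0_union hM hS.memX hS'.memX, ht, ?_, ?_, ?_, ?_, ?_⟩, mem_union.2 (Or.inl hσX), mem_union.2 (Or.inr hτX)⟩
  · intro x hx
    rw [mem_union] at hx
    exact hx.elim (hS.name x) (hS'.name x)
  · intro x hx ρ hρ
    rw [mem_union] at hx ⊢
    exact hx.elim (fun h => Or.inl (hS.closed x h ρ hρ)) fun h => Or.inr (hS'.closed x h ρ hρ)
  · intro z hz
    obtain ⟨c, x, c', x', g1, g2, g3⟩ := (htm z).1 hz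
    exact ⟨pair c c', H4_pair hM (u1 _ _ g1).1 (u1 _ _ g2).1, x, (u1 _ _ g1).2, x', (u1 _ _ g2).2, g3⟩
  · intro i a b ha hb
    obtain ⟨c, x, c', x', g1, g2, g3⟩ := (htm _).1 ha
    obtain ⟨d, y, d', y', f1, f2, f3⟩ := (htm _).1 hb
    obtain ⟨e1, e2⟩ := pair_inj.mp g3
    obtain ⟨e3, e4⟩ := pair_inj.mp f3
    obtain ⟨e5, e6⟩ := pair_inj.mp (e1.symm.trans e3)
    rw [e2, e4, u2 c x y g1 (e5 ▸ f1), u2 c' x' y' g2 (e6 ▸ f2)]
  · intro x hx y hy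
    obtain ⟨c, hc⟩ := u3 x hx
    obtain ⟨c', hc'⟩ := u3 y hy
    exact ⟨pair c c', (htm _).2 ⟨c, x, c', y, hc, hc', rfl⟩⟩

end Pool.Agent.H65C
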