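import Pool.Agent.Lib.H65C.H2
import Pool.Agent.Lib.H65C.H3

/-!
# Project H65C, chunk H6 (S/M): the evaluation of a set of pairs of names is in `M[G]`
-/

namespace Pool.Agent.H65C

open ZFSet

theorem h6_dfn {M : Set ZFSet.{0}} {C : Set (Set ZFSet.{0})} (hB : GBModel M C) (hC : C.Nonempty) :
    Dfn M C fun v => ∃ i ∈ M, ∃ u ∈ M, ∃ x ∈ M, ∃ y ∈ M, ∃ a ∈ M, ∃ b ∈ M, ∃ c ∈ M,
      v 1 = pair i u ∧ u = pair x y ∧ a = chk (v 2) i ∧ b = opn (v 2) x y ∧ c = opn (v 2) a b ∧ v 0 = pair c (v 2) := by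
  have hM : Base M := N1_base hB.zfc
  have d0 : Dfn M C fun w => w 8 = pair (w 6) (w 5) ∧ w 5 = pair (w 4) (w 3) ∧ w 2 = chk (w 9) (w 6) ∧
      w 1 = opn (w 9) (w 4) (w 3) ∧ w 0 = opn (w 9) (w 2) (w 1) ∧ w 7 = pair (w 0) (w 9) :=
    dfn_and (dfn_opair hM hC 8 6 5) (dfn_and (dfn_opair hM hC 5 4 3) (dfn_and (H1_dfn hB 2 9 6 hC)
      (dfn_and (H3_dfn hB hC 1 9 4 3) (dfn_and (H3_dfn hB hC 0 9 2 1) (dfn_opair hM hC 7 0 9)))))
  exact dfn_ex (dfn_ex (dfn_ex (dfn_ex (dfn_ex (dfn_ex (dfn_ex d0))))))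

/-- Proof. Let `p ∈ G`. The name `θ = {pair (opn p (chk p i) (opn p x y)) p : pair i (pair x y) ∈ s}` is in `M` by `H0_repl` (the assignment
contains `p`; `H1_dfn`, `H3_dfn`; the relation is a function of `z = pair i (pair x y)`), and it is a name (`H2_name`, `H3_name`) with
the right value (`H2_val`, `H3_val`, `mem_val`). -/
theorem H6_theta {M : Set ZFSet.{0}} {C : Set (Set ZFSet.{0})} {P L G : Set ZFSet.{0}} (hB : GBModel M C)
    (hF : ClassForcing C P L) (hG : Generic C P L G) {s : ZFSet.{0}} (hs : s ∈ M)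
    (hn : ∀ i x y, pair i (pair x y) ∈ s → IsName P x ∧ IsName P y) :
    ∃ Θ ∈ MG M P G, ∀ z, z ∈ Θ ↔ ∃ i x y, pair i (pair x y) ∈ s ∧ z = pair i (pair (val G x) (val G y)) := by
  have hM : Base M := N1_base hB.zfc
  have hC : C.Nonempty := ⟨P, hF.carrier⟩
  obtain ⟨p, hp⟩ := G2_nonempty hF hG
  have hpP : p ∈ P := hG.sub hp
  have hpM : p ∈ M := hB.sub P hF.carrier hpP
  obtain ⟨θ, hθ, hθ2⟩ := H0_repl hB (h6_dfn hB hC) (v := fun _ => p) (fun _ => hpM) hs (by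
    rintro z _ e _ e' _ ⟨i, _, u, _, x, _, y, _, a, _, b, _, c, _, h1, h2, h3, h4, h5, h6⟩
      ⟨i', _, u', _, x', _, y', _, a', _, b', _, c', _, g1, g2, g3, g4, g5, g6⟩
    have h1' : z = pair i u := h1
    have g1' : z = pair i' u' := g1
    obtain ⟨e1, e2⟩ := pair_inj.mp (h1'.symm.trans g1')
    obtain ⟨e3, e4⟩ := pair_inj.mp ((h2.symm.trans e2).trans g2)
    have h3' : a = chk p i := h3
    have g3' : a' = chk p i' := g3
    have h4' : b = opn p x y := h4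
    have g4' : b' = opn p x' y' := g4
    have h5' : c = opn p a b := h5
    have g5' : c' = opn p a' b' := g5
    have h6' : e = pair c p := h6
    have g6' : e' = pair c' p := g6
    rw [h6', g6', h5', g5', h4', g4', h3', g3', e1, e3, e4])
  have key : ∀ e, e ∈ θ ↔ ∃ i x y, pair i (pair x y) ∈ s ∧ e = pair (opn p (chk p i) (opn p x y)) p := by
    intro e
    rw [hθ2]
    constructor
    · rintro ⟨_, z, hz, i, _, u, _, x, _, y, _, a, _, b, _, c, _, h1, h2, h3, h4, h5, h6⟩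
      have h1' : z = pair i u := h1
      have h3' : a = chk p i := h3
      have h4' : b = opn p x y := h4
      have h5' : c = opn p a b := h5
      have h6' : e = pair c p := h6
      refine ⟨i, x, y, ?_, ?_⟩
      · rw [← h2, ← h1']
        exact hz
      · rw [h6', h5', h4', h3']
    · rintro ⟨i, x, y, hz, rfl⟩
      obtain ⟨hi, hu⟩ := base_of_pair hM (hM.trans s hs _ hz)
      obtain ⟨hx, hy⟩ := base_of_pair hM hu
      have ha : chk p i ∈ M := H1_mem hB hpM hi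
      have hb : opn p x y ∈ M := H3_mem hM hpM hx hy
      have hc : opn p (chk p i) (opn p x y) ∈ M := H3_mem hM hpM ha hb
      exact ⟨base_pair hM hc hpM, _, hz, i, hi, _, hu, x, hx, y, hy, _, ha, _, hb, _, hc, rfl, rfl, rfl, rfl, rfl, rfl⟩
  refine ⟨val G θ, ⟨θ, hθ, ?_, rfl⟩, fun z => ?_⟩
  · refine IsName.mk _ (fun e he => ?_) fun τ q h => ?_
    · obtain ⟨i, x, y, _, rfl⟩ := (key e).1 he
      exact ⟨_, p, hpP, rfl⟩
    · obtain ⟨i, x, y, hz, he⟩ := (key _).1 h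
      obtain ⟨h1, h2⟩ := hn i x y hz
      rw [(pair_inj.mp he).1]
      exact H3_name hpP (H2_name hpP i) (H3_name hpP h1 h2)
  · rw [mem_val]
    have hv : ∀ i x y, val G (opn p (chk p i) (opn p x y)) = pair i (pair (val G x) (val G y)) := by
      intro i x y
      rw [H3_val hp, H3_val hp, H2_val hp]
    constructor
    · rintro ⟨τ, q, _, h, rfl⟩
      obtain ⟨i, x, y, hz, he⟩ := (key _).1 h
      refine ⟨i, x, y, hz, ?_⟩
      rw [(pair_inj.mp he).1, hv]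
    · rintro ⟨i, x, y, hz, rfl⟩
      exact ⟨opn p (chk p i) (opn p x y), p, hp, (key _).2 ⟨i, x, y, hz, rfl⟩, (hv i x y).symm⟩

end Pool.Agent.H65C
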