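import Pool.Agent.Lib.H65C.E2
import Pool.Agent.Lib.H65C.H4

/-!
# Project H65C, chunk H8 (M): the truth lemma for NUM, for all elements of the types of `M`
-/

namespace Pool.Agent.H65C

open ZFSet

variable {M : Set ZFSet.{0}} {C : Set (Set ZFSet.{0})} {P L G : Set ZFSet.{0}}

/-- The same proof as `E2_num` (which is the case `z ∈ ω`; copy that proof), with `H4_elt` in place of `N1_trans`: for
`z ∈ Typ M (t + 1)` and `m ∈ z` the induction hypothesis applies to `m ∈ Typ M t`, and `m ∈ M`. -/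
theorem H8_num (hB : GBModel M C) (hF : ClassForcing C P L) (hG : Generic C P L G) (t : ℕ) {u z : ZFSet.{0}} (hu : u ∈ M)
    (hz : z ∈ Typ M t) : V t (val G u) z ↔ ∃ q ∈ G, NUM L t q u z := by
  have hω : ∀ _ : ℕ, omega ∈ M := fun _ => hB.zfc.infinity
  have hN := N1_base hB.zfc
  induction t generalizing u z with
  | zero =>
    constructor
    · rintro ⟨n, hz, hn⟩
      obtain ⟨q, hq, hw⟩ := (E2_w0 hB hF hG hu n).mp hn
      exact ⟨q, hq, n, hz, hw⟩
    · rintro ⟨q, hq, n, hz, hw⟩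
      exact ⟨n, hz, (E2_w0 hB hF hG hu n).mpr ⟨q, hq, hw⟩⟩
  | succ t ih =>
    have hzM : z ∈ M := hz.1
    have hmω : ∀ m ∈ z, m ∈ Typ M t := fun m hm => H4_elt hN hz hm
    have hmM : ∀ m ∈ z, m ∈ M := fun m hm => H4_sub hN t (hmω m hm)
    constructor
    · intro hV
      -- the two classes
      have hA : Cl M C fun q => ∃ m ∈ z, ∀ r, pair r q ∈ L → ¬ ∃ w, Oc L r w u ∧ NUM L t r w m :=
        G2_cl hB (dfn_bex hN (R := fun v' => ∀ r, pair r (v' 1) ∈ L →
            (fun v'' : ℕ → ZFSet.{0} => ¬ ∃ w, Oc L (v'' 0) w (v'' 3) ∧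
              (fun x : ℕ → ZFSet.{0} => NUM L t (x 1) (x 0) (x 2)) (cons w v'')) (cons r v'))
          (D1_all hB hF (dfn_not (D1_oc_ex hB hF (D1_num hB hF t 1 0 2) 0 3)) 1) 2)
          (v := cons u (cons z fun _ => omega)) (e2_cons hu (e2_cons hzM hω))
      have hBc : Cl M C fun q => ∃ w, Oc L q w u ∧ (Dg L t q w ∧
          ∀ r, pair r q ∈ L → ¬ ∃ m ∈ z, NUM L t r w m) :=
        G2_cl hB (D1_oc_ex hB hF (R := fun v' => Dg L t (v' 1) (v' 0) ∧ ∀ r, pair r (v' 1) ∈ L →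
            (fun v'' : ℕ → ZFSet.{0} => ¬ ∃ m ∈ v'' 4,
              (fun x : ℕ → ZFSet.{0} => NUM L t (x 1) (x 2) (x 0)) (cons m v'')) (cons r v'))
          (dfn_and (D1_dg hB hF t 1 0)
            (D1_all hB hF (dfn_not (dfn_bex hN (D1_num hB hF t 1 2 0) 4)) 1)) 0 1)
          (v := cons u (cons z fun _ => omega)) (e2_cons hu (e2_cons hzM hω))
      obtain ⟨qA, hqA, hA1⟩ := G2_decide hB hF hG hA
      obtain ⟨qB, hqB, hB1⟩ := G2_decide hB hF hG hBc
      have hA2 : ∀ r, pair r qA ∈ L → ¬ ∃ m ∈ z, ∀ r', pair r' r ∈ L → ¬ ∃ w, Oc L r' w u ∧ NUM L t r' w m := by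
        rcases hA1 with hA1 | hA1
        · exfalso
          obtain ⟨m, hm, hno⟩ := hA1
          obtain ⟨y, hy, hyV⟩ := (hV m).mp hm
          obtain ⟨w, hyw, q1, hq1, hoc⟩ := G1_val_oc hF hG hy
          subst hyw
          have hwM : w ∈ M := (G1_oc_mem hN (P := P) hoc hu).1
          obtain ⟨q2, hq2, hnum⟩ := (ih hwM (hmω m hm)).mp hyV
          obtain ⟨r, _, h1, h2, h3⟩ := e2_dir hF hG hqA hq1 hq2
          exact hno r h1 ⟨w, G1_oc_mono hF hoc h2, E1_num hF hnum h3⟩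
        · exact hA1
      have hB2 : ∀ r, pair r qB ∈ L → ¬ ∃ w, Oc L r w u ∧ (Dg L t r w ∧
          ∀ r', pair r' r ∈ L → ¬ ∃ m ∈ z, NUM L t r' w m) := by
        rcases hB1 with hB1 | hB1
        · exfalso
          obtain ⟨w, hoc, hdg, hno⟩ := hB1
          have hwM : w ∈ M := (G1_oc_mem hN (P := P) hoc hu).1
          obtain ⟨m, hm⟩ := E2_dg hB hF hG hwM t hqB hdg
          have hmz : m ∈ z := (hV m).mpr ⟨val G w, G1_oc_val hG hoc hqB, hm⟩
          obtain ⟨q2, hq2, hnum⟩ := (ih hwM (hmω m hmz)).mp hm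
          obtain ⟨r, _, h1, h2⟩ := hG.dir qB hqB q2 hq2
          exact hno r h1 ⟨m, hmz, E1_num hF hnum h2⟩
        · exact hB1
      obtain ⟨q, hq, h1, h2⟩ := hG.dir qA hqA qB hqB
      refine ⟨q, hq, ?_, ?_⟩
      · intro m hm r hr
        by_contra hcon
        refine hA2 r (hF.trans _ _ _ hr h1) ⟨m, hm, ?_⟩
        rintro r' hr' ⟨w, hw1, hw2⟩
        exact hcon ⟨r', hr', w, hw1, hw2⟩
      · intro r hr w hw hdg
        by_contra hcon
        refine hB2 r (hF.trans _ _ _ hr h2) ⟨w, hw, hdg, ?_⟩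
        rintro r' hr' ⟨m, hm1, hm2⟩
        exact hcon ⟨r', hr', m, hm1, hm2⟩
    · rintro ⟨q, hq, h1, h2⟩
      intro z'
      constructor
      · intro hz'
        have hcl : Cl M C fun r => ∃ w, Oc L r w u ∧ NUM L t r w z' :=
          G2_cl hB (D1_oc_ex hB hF (R := fun x => NUM L t (x 1) (x 0) (x 3)) (D1_num hB hF t 1 0 3) 0 1)
            (v := cons u (cons z' fun _ => omega)) (e2_cons hu (e2_cons (hmM z' hz') hω))
        obtain ⟨r, hr, w, hw, hnum⟩ := G2_below hB hF hG hcl hq (fun r hr => h1 z' hz' r hr)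
        exact ⟨val G w, G1_oc_val hG hw hr,
          (ih (G1_oc_mem hN (P := P) hw hu).1 (hmω z' hz')).mpr ⟨r, hr, hnum⟩⟩
      · rintro ⟨y, hy, hyV⟩
        obtain ⟨w, hyw, q1, hq1, hoc⟩ := G1_val_oc hF hG hy
        subst hyw
        have hwM : w ∈ M := (G1_oc_mem hN (P := P) hoc hu).1
        obtain ⟨q2, hq2, hdg⟩ := E2_dg' hB hF hG hwM t hyV
        obtain ⟨r, hr, hr1, hr2, hr3⟩ := e2_dir hF hG hq hq1 hq2
        have hcl : Cl M C fun r => ∃ m ∈ z, NUM L t r w m :=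
          G2_cl hB (dfn_bex hN (R := fun x => NUM L t (x 1) (x 2) (x 0)) (D1_num hB hF t 1 2 0) 2)
            (v := cons w (cons z fun _ => omega)) (e2_cons hwM (e2_cons hzM hω))
        obtain ⟨r', hr', m, hm, hnum⟩ := G2_below hB hF hG hcl hr (fun r'' hr'' =>
          h2 r'' (hF.trans _ _ _ hr'' hr1) w (G1_oc_mono hF (G1_oc_mono hF hoc hr2) hr'')
            (E1_dg hF (E1_dg hF hdg hr3) hr''))
        have h3 := (ih hwM (hmω m hm)).mpr ⟨r', hr', hnum⟩
        rw [V1_unique t _ _ _ hyV h3]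
        exact hm

end Pool.Agent.H65C
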