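import Pool.Agent.Lib.H65C.Work3
import Pool.Agent.Lib.H65C.H4
import Pool.Agent.Lib.H65C.H11

/-!
# Project H65C, third part: the coded relations are monotone and definable
-/

namespace Pool.Agent.H65C

open ZFSet

variable {M : Set ZFSet.{0}} {C : Set (Set ZFSet.{0})} {P L : Set ZFSet.{0}}

theorem I11_wp_mono (hF : ClassForcing C P L) {j : ℕ} {s ρ q r x y : ZFSet.{0}} (h : Wr M L j s ρ q x y)
    (hr : pair r q ∈ L) : Wr M L j s ρ r x y := by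
  obtain ⟨ε, ρ₀, h0, i, hi, p, h1, h2, h3⟩ := h
  exact ⟨ε, ρ₀, h0, i, hi, p, h1, hF.trans _ _ _ hr h2, H11_wi_mono hF h3 hr⟩

theorem I11_rh_mono (hF : ClassForcing C P L) {j : ℕ} {s ρ q r x y : ZFSet.{0}} (h : Rh3 M L j s ρ q x y)
    (hr : pair r q ∈ L) : Rh3 M L j s ρ r x y :=
  ⟨fun r1 hr1 => h.1 r1 (hF.trans _ _ _ hr1 hr), fun r1 hr1 => h.2 r1 (hF.trans _ _ _ hr1 hr)⟩

theorem I11_wp_dfn (hB : GBModel M C) (hF : ClassForcing C P L) (j a b c d e : ℕ) :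
    Dfn M C fun v => Wr M L j (v a) (v b) (v c) (v d) (v e) := by
  have hM : Base M := N1_base hB.zfc
  have hne : C.Nonempty := ⟨P, hF.carrier⟩
  -- variables: 0 = pair i p, 1 = pair x y, 2 = p, 3 = i, 4 = ρ, 5 = ε
  have h1 := dfn_ex (dfn_ex (dfn_ex (dfn_ex (dfn_ex (dfn_ex
    (dfn_and (dfn_opair (N := M) hM hne (b + 6) 5 4) (dfn_and (H4_dfn hM hne j 3)
    (dfn_and (dfn_opair (N := M) hM hne 1 (d + 6) (e + 6)) (dfn_and (dfn_opair (N := M) hM hne 0 3 2)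
    (dfn_and (dfn_opair_mem (N := M) hM hne 5 1 0) (dfn_and (dfn_opair_cls (N := M) hM hF.order (c + 6) 2)
    (H11_wi_dfn hB hF j 4 (c + 6) 3))))))))))))
  refine dfn_congr h1 fun v hv => ?_
  constructor
  · rintro ⟨ε, _, ρ, _, i, _, p, _, u, _, w, _, g1, g2, g3, g4, g5, g6, g7⟩
    have g1' : v b = pair ε ρ := g1
    have g3' : u = pair (v d) (v e) := g3
    have g4' : w = pair i p := g4
    have g5' : pair u w ∈ ε := g5
    refine ⟨ε, ρ, g1', i, g2, p, ?_, g6, g7⟩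
    rw [← g3', ← g4']
    exact g5'
  · rintro ⟨ε, ρ, g1, i, hi, p, g5, g6, g7⟩
    have hb : pair ε ρ ∈ M := g1 ▸ hv b
    obtain ⟨hε, hρ⟩ := base_of_pair hM hb
    obtain ⟨h2, h3⟩ := base_of_pair hM (hM.trans _ hε _ g5)
    obtain ⟨h4, h5⟩ := base_of_pair hM h3
    exact ⟨ε, hε, ρ, hρ, i, h4, p, h5, _, h2, _, h3, g1, hi, rfl, rfl, g5, g6, g7⟩

theorem I11_rh_dfn (hB : GBModel M C) (hF : ClassForcing C P L) (j a b c d e : ℕ) :
    Dfn M C fun v => Rh3 M L j (v a) (v b) (v c) (v d) (v e) := by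
  have h1 : ∀ d e : ℕ, Dfn M C fun v => ∀ r, pair r (v c) ∈ L → ∀ w, Oc L r w (v d) →
      ∃ r', pair r' r ∈ L ∧ Wr M L j (v a) (v b) r' w (v e) := fun d e =>
    D1_all hB hF (D1_oc_all hB hF (D1_ex hB hF (I11_wp_dfn hB hF j (a + 3) (b + 3) 0 1 (e + 3)) 1) 0 (d + 1)) c
  exact dfn_and (h1 d e) (h1 e d)

end Pool.Agent.H65C
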