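import Pool.Agent.Lib.H65C.I11
import Pool.Agent.Lib.H65C.H4
import Pool.Agent.Lib.H65C.S2

/-!
# Project H65C, chunk H12 (S/M): certificates are monotone and definable
-/

namespace Pool.Agent.H65C

open ZFSet

variable {M : Set ZFSet.{0}} {C : Set (Set ZFSet.{0})} {P L : Set ZFSet.{0}}

theorem i12_closed_dfn (hM : Base M) (hn : C.Nonempty) (a : ℕ) : Dfn M C fun v => ∀ x ∈ v a, ∀ τ, Occ τ x → τ ∈ v a := by
  refine dfn_congr (dfn_ball hM (R := fun v => ∀ τ ∈ M, ∀ p ∈ M, pair τ p ∈ v 0 → τ ∈ v (a + 1))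
    (dfn_all (R := fun v => ∀ p ∈ M, pair (v 0) p ∈ v 1 → v 0 ∈ v (a + 2))
      (dfn_all (R := fun v => pair (v 1) (v 0) ∈ v 2 → v 1 ∈ v (a + 3))
        (dfn_imp (dfn_opair_mem hM hn 2 1 0) (dfn_mem hn 1 (a + 3))))) a) fun v hv => ?_
  constructor
  · rintro h x hx τ ⟨p, hp⟩
    have h1 := G1_mem hM (hM.trans _ (hv a) x hx) hp
    exact h x hx τ h1.1 p h1.2 hp
  · intro h x hx τ _ p _ hp
    exact h x hx τ ⟨p, hp⟩

theorem i12_func_dfn (hM : Base M) (hn : C.Nonempty) (s : ℕ) :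
    Dfn M C fun v => ∀ i x y, pair i x ∈ v s → pair i y ∈ v s → x = y := by
  refine dfn_congr (dfn_all (R := fun v => ∀ x ∈ M, ∀ y ∈ M, pair (v 0) x ∈ v (s + 1) → pair (v 0) y ∈ v (s + 1) → x = y)
    (dfn_all (R := fun v => ∀ y ∈ M, pair (v 1) (v 0) ∈ v (s + 2) → pair (v 1) y ∈ v (s + 2) → v 0 = y)
      (dfn_all (R := fun v => pair (v 2) (v 1) ∈ v (s + 3) → pair (v 2) (v 0) ∈ v (s + 3) → v 1 = v 0)
        (dfn_imp (dfn_opair_mem hM hn (s + 3) 2 1) (dfn_imp (dfn_opair_mem hM hn (s + 3) 2 0) (dfn_eq hn 1 0)))))) fun v hv => ?_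
  constructor
  · intro h i x y hx hy
    have h1 := G1_mem hM (hv s) hx
    exact h i h1.1 x h1.2 y (G1_mem hM (hv s) hy).2 hx hy
  · intro h i _ x _ y _ hx hy
    exact h i x y hx hy

theorem I12_cert_mono (hF : ClassForcing C P L) {j : ℕ} {X s ρ ρ' q r : ZFSet.{0}} (h : Cert3 M L j X s ρ ρ' q)
    (hr : pair r q ∈ L) : Cert3 M L j X s ρ ρ' r := by
  refine ⟨fun x hx y hy t ht => h.mem1 x hx y hy t (hF.trans _ _ _ ht hr), fun x hx y hy t ht => h.mem2 x hx y hy t (hF.trans _ _ _ ht hr),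
    fun x hx y hy t ht => h.eq1 x hx y hy t (hF.trans _ _ _ ht hr), fun x hx y hy t ht => h.eq2 x hx y hy t (hF.trans _ _ _ ht hr)⟩

/-- A conjunction of four definable predicates (`dfn_congr` and the constructor). -/
theorem I12_cert_dfn (hB : GBModel M C) (hF : ClassForcing C P L) (j a b c d e : ℕ) :
    Dfn M C fun v => Cert3 M L j (v a) (v b) (v c) (v d) (v e) := by
  have hM := N1_base hB.zfc
  have d1 : Dfn M C fun v => ∀ x ∈ v a, ∀ y ∈ v a, ∀ r, pair r (v e) ∈ L → Wr M L j (v b) (v d) r x y →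
      ∃ r', pair r' r ∈ L ∧ ∃ w, Oc L r' w y ∧ Wr M L j (v b) (v c) r' x w :=
    dfn_ball hM (R := fun v => ∀ y ∈ v (a + 1), ∀ r, pair r (v (e + 1)) ∈ L → Wr M L j (v (b + 1)) (v (d + 1)) r (v 0) y →
        ∃ r', pair r' r ∈ L ∧ ∃ w, Oc L r' w y ∧ Wr M L j (v (b + 1)) (v (c + 1)) r' (v 0) w)
      (dfn_ball hM (R := fun v => ∀ r, pair r (v (e + 2)) ∈ L → Wr M L j (v (b + 2)) (v (d + 2)) r (v 1) (v 0) →
          ∃ r', pair r' r ∈ L ∧ ∃ w, Oc L r' w (v 0) ∧ Wr M L j (v (b + 2)) (v (c + 2)) r' (v 1) w)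
        (D1_all (R := fun v => Wr M L j (v (b + 3)) (v (d + 3)) (v 0) (v 2) (v 1) →
            ∃ r', pair r' (v 0) ∈ L ∧ ∃ w, Oc L r' w (v 1) ∧ Wr M L j (v (b + 3)) (v (c + 3)) r' (v 2) w) hB hF
          (dfn_imp (I11_wp_dfn hB hF j (b + 3) (d + 3) 0 2 1)
            (D1_ex (R := fun v => ∃ w, Oc L (v 0) w (v 2) ∧ Wr M L j (v (b + 4)) (v (c + 4)) (v 0) (v 3) w) hB hF
              (D1_oc_ex (R := fun v => Wr M L j (v (b + 5)) (v (c + 5)) (v 1) (v 4) (v 0)) hB hF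
                (I11_wp_dfn hB hF j (b + 5) (c + 5) 1 4 0) 0 2) 0)) (e + 2)) (a + 1)) a
  have d2 : Dfn M C fun v => ∀ x ∈ v a, ∀ y ∈ v a, ∀ r, pair r (v e) ∈ L → ∀ w, Oc L r w y → Wr M L j (v b) (v c) r x w →
      ∃ r', pair r' r ∈ L ∧ Wr M L j (v b) (v d) r' x y :=
    dfn_ball hM (R := fun v => ∀ y ∈ v (a + 1), ∀ r, pair r (v (e + 1)) ∈ L → ∀ w, Oc L r w y →
        Wr M L j (v (b + 1)) (v (c + 1)) r (v 0) w → ∃ r', pair r' r ∈ L ∧ Wr M L j (v (b + 1)) (v (d + 1)) r' (v 0) y)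
      (dfn_ball hM (R := fun v => ∀ r, pair r (v (e + 2)) ∈ L → ∀ w, Oc L r w (v 0) →
          Wr M L j (v (b + 2)) (v (c + 2)) r (v 1) w → ∃ r', pair r' r ∈ L ∧ Wr M L j (v (b + 2)) (v (d + 2)) r' (v 1) (v 0))
        (D1_all (R := fun v => ∀ w, Oc L (v 0) w (v 1) → Wr M L j (v (b + 3)) (v (c + 3)) (v 0) (v 2) w →
            ∃ r', pair r' (v 0) ∈ L ∧ Wr M L j (v (b + 3)) (v (d + 3)) r' (v 2) (v 1)) hB hF
          (D1_oc_all (R := fun v => Wr M L j (v (b + 4)) (v (c + 4)) (v 1) (v 3) (v 0) →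
              ∃ r', pair r' (v 1) ∈ L ∧ Wr M L j (v (b + 4)) (v (d + 4)) r' (v 3) (v 2)) hB hF
            (dfn_imp (I11_wp_dfn hB hF j (b + 4) (c + 4) 1 3 0)
              (D1_ex (R := fun v => Wr M L j (v (b + 5)) (v (d + 5)) (v 0) (v 4) (v 3)) hB hF
                (I11_wp_dfn hB hF j (b + 5) (d + 5) 0 4 3) 1)) 0 1) (e + 2)) (a + 1)) a
  have d3 : Dfn M C fun v => ∀ x ∈ v a, ∀ y ∈ v a, ∀ r, pair r (v e) ∈ L → Wr M L j (v b) (v c) r x y →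
      Rh3 M L j (v b) (v d) r x y :=
    dfn_ball hM (R := fun v => ∀ y ∈ v (a + 1), ∀ r, pair r (v (e + 1)) ∈ L → Wr M L j (v (b + 1)) (v (c + 1)) r (v 0) y →
        Rh3 M L j (v (b + 1)) (v (d + 1)) r (v 0) y)
      (dfn_ball hM (R := fun v => ∀ r, pair r (v (e + 2)) ∈ L → Wr M L j (v (b + 2)) (v (c + 2)) r (v 1) (v 0) →
          Rh3 M L j (v (b + 2)) (v (d + 2)) r (v 1) (v 0))
        (D1_all (R := fun v => Wr M L j (v (b + 3)) (v (c + 3)) (v 0) (v 2) (v 1) →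
            Rh3 M L j (v (b + 3)) (v (d + 3)) (v 0) (v 2) (v 1)) hB hF
          (dfn_imp (I11_wp_dfn hB hF j (b + 3) (c + 3) 0 2 1) (I11_rh_dfn hB hF j (b + 3) (d + 3) 0 2 1))
          (e + 2)) (a + 1)) a
  have d4 : Dfn M C fun v => ∀ x ∈ v a, ∀ y ∈ v a, ∀ r, pair r (v e) ∈ L → Rh3 M L j (v b) (v d) r x y →
      ∃ r', pair r' r ∈ L ∧ Wr M L j (v b) (v c) r' x y :=
    dfn_ball hM (R := fun v => ∀ y ∈ v (a + 1), ∀ r, pair r (v (e + 1)) ∈ L → Rh3 M L j (v (b + 1)) (v (d + 1)) r (v 0) y →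
        ∃ r', pair r' r ∈ L ∧ Wr M L j (v (b + 1)) (v (c + 1)) r' (v 0) y)
      (dfn_ball hM (R := fun v => ∀ r, pair r (v (e + 2)) ∈ L → Rh3 M L j (v (b + 2)) (v (d + 2)) r (v 1) (v 0) →
          ∃ r', pair r' r ∈ L ∧ Wr M L j (v (b + 2)) (v (c + 2)) r' (v 1) (v 0))
        (D1_all (R := fun v => Rh3 M L j (v (b + 3)) (v (d + 3)) (v 0) (v 2) (v 1) →
            ∃ r', pair r' (v 0) ∈ L ∧ Wr M L j (v (b + 3)) (v (c + 3)) r' (v 2) (v 1)) hB hF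
          (dfn_imp (I11_rh_dfn hB hF j (b + 3) (d + 3) 0 2 1)
            (D1_ex (R := fun v => Wr M L j (v (b + 4)) (v (c + 4)) (v 0) (v 3) (v 2)) hB hF
              (I11_wp_dfn hB hF j (b + 4) (c + 4) 0 3 2) 0)) (e + 2)) (a + 1)) a
  exact dfn_congr (dfn_and d1 (dfn_and d2 (dfn_and d3 d4))) fun v _ =>
    ⟨fun h => ⟨h.1, h.2.1, h.2.2.1, h.2.2.2⟩, fun h => ⟨h.mem1, h.mem2, h.eq1, h.eq2⟩⟩

theorem I12_nset_dfn (hB : GBModel M C) (hP : P ∈ C) (a b : ℕ) : Dfn M C fun v => NSet M P (v a) (v b) := by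
  have hM := N1_base hB.zfc
  have hn : C.Nonempty := ⟨P, hP⟩
  have d1 : Dfn M C fun v => ∀ x ∈ v a, IsName P x := dfn_ball hM (R := fun v => IsName P (v 0)) (S2_dfn hB hP 0) a
  refine dfn_congr (dfn_and d1 (i12_closed_dfn hM hn a)) fun v hv => ?_
  constructor
  · rintro ⟨h1, h2⟩
    exact ⟨hv a, hv b, h1, h2⟩
  · intro h
    exact ⟨h.name, h.closed⟩

end Pool.Agent.H65C
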