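import Pool.Agent.Lib.H65C.I12

/-!
# Project H65C, third part: the forcing relation for atomic formulas
-/

namespace Pool.Agent.H65C

open ZFSet

variable {M : Set ZFSet.{0}} {C : Set (Set ZFSet.{0})} {P L : Set ZFSet.{0}}

theorem i13_mem (hF : ClassForcing C P L) {r q : ZFSet.{0}} (hr : pair r q ∈ L) : r ∈ P := by
  obtain ⟨p, hp, q', hq', he⟩ := hF.rel _ hr
  rw [(pair_inj.1 he).1]
  exact hp

theorem I13_good_mono (hF : ClassForcing C P L) {j : ℕ} {b : Bool} {q r x y : ZFSet.{0}} (h : Good3 M P L j b q x y)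
    (hr : pair r q ∈ L) : Good3 M P L j b r x y := by
  obtain ⟨X, hX, s, hs, ρ, hρ, ρ', hρ', h1, h2, h3, h4, h5⟩ := h
  exact ⟨X, hX, s, hs, ρ, hρ, ρ', hρ', h1, h2, h3, I12_cert_mono hF h4 hr, I11_wp_mono hF h5 hr⟩

theorem I13_good_dfn (hB : GBModel M C) (hF : ClassForcing C P L) (j : ℕ) (b : Bool) (i k l : ℕ) :
    Dfn M C fun v => Good3 M P L j b (v i) (v k) (v l) := by
  have hne : C.Nonempty := ⟨_, hF.carrier⟩
  have d5 : Dfn M C fun v => Wr M L j (v 2) (if b then v 0 else v 1) (v (i + 4)) (v (k + 4)) (v (l + 4)) := by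
    cases b with
    | true => exact I11_wp_dfn hB hF j 2 0 (i + 4) (k + 4) (l + 4)
    | false => exact I11_wp_dfn hB hF j 2 1 (i + 4) (k + 4) (l + 4)
  -- variables: 0 = ρ', 1 = ρ, 2 = s, 3 = X
  have d0 : Dfn M C fun v => NSet M P (v 3) (v 2) ∧ v (k + 4) ∈ v 3 ∧ v (l + 4) ∈ v 3 ∧
      Cert3 M L j (v 3) (v 2) (v 1) (v 0) (v (i + 4)) ∧
      Wr M L j (v 2) (if b then v 0 else v 1) (v (i + 4)) (v (k + 4)) (v (l + 4)) :=
    dfn_and (I12_nset_dfn hB hF.carrier 3 2) (dfn_and (dfn_mem hne (k + 4) 3) (dfn_and (dfn_mem hne (l + 4) 3)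
      (dfn_and (I12_cert_dfn hB hF j 3 2 1 0 (i + 4)) d5)))
  exact dfn_ex (dfn_ex (dfn_ex (dfn_ex d0)))

theorem I13_at_mono (hF : ClassForcing C P L) {j : ℕ} {b : Bool} {q r x y : ZFSet.{0}} (h : At3 M P L j b q x y)
    (hr : pair r q ∈ L) : At3 M P L j b r x y :=
  fun r1 hr1 => h r1 (hF.trans _ _ _ hr1 hr)

theorem I13_at_dense (hF : ClassForcing C P L) {j : ℕ} {b : Bool} {q x y : ZFSet.{0}}
    (h : ∀ r, pair r q ∈ L → ∃ r', pair r' r ∈ L ∧ At3 M P L j b r' x y) : At3 M P L j b q x y := by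
  intro r hr
  obtain ⟨r', hr', h1⟩ := h r hr
  obtain ⟨r2, hr2, h2⟩ := h1 r' (hF.refl r' (i13_mem hF hr'))
  exact ⟨r2, hF.trans _ _ _ hr2 hr', h2⟩

theorem I13_at_of_good (hF : ClassForcing C P L) {j : ℕ} {b : Bool} {q x y : ZFSet.{0}} (h : Good3 M P L j b q x y) :
    At3 M P L j b q x y :=
  fun r hr => ⟨r, hF.refl r (i13_mem hF hr), I13_good_mono hF h hr⟩

theorem I13_at_dfn (hB : GBModel M C) (hF : ClassForcing C P L) (j : ℕ) (b : Bool) (i k l : ℕ) :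
    Dfn M C fun v => At3 M P L j b (v i) (v k) (v l) :=
  D1_all hB hF (D1_ex hB hF (I13_good_dfn hB hF j b 0 (k + 2) (l + 2)) 0) i

end Pool.Agent.H65C
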