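import Pool.Agent.Lib.H65C.I12
import Pool.Agent.Lib.H65C.G2

/-!
# Project H65C, chunk H14 (M): what a certificate says in the extension
-/

namespace Pool.Agent.H65C

open ZFSet

variable {M : Set ZFSet.{0}} {C : Set (Set ZFSet.{0})} {P L G : Set ZFSet.{0}}

theorem i14_v {a b c d : ZFSet.{0}} (ha : a ∈ M) (hb : b ∈ M) (hc : c ∈ M) (hd : d ∈ M) :
    ∀ i, cons a (cons b (cons c (cons d fun _ => d))) i ∈ M := by
  intro i
  match i with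
  | 0 => exact ha
  | 1 => exact hb
  | 2 => exact hc
  | 3 => exact hd
  | i + 4 => exact hd

theorem i14_wp (hB : GBModel M C) (hF : ClassForcing C P L) {j : ℕ} {s ρ x y : ZFSet.{0}} (hs : s ∈ M) (hρ : ρ ∈ M)
    (hx : x ∈ M) (hy : y ∈ M) : Cl M C fun r => Wr M L j s ρ r x y := by
  have h := G2_cl hB (R := fun v => Wr M L j (v 3) (v 4) (v 0) (v 2) (v 1)) (v := cons y (cons x (cons s (cons ρ fun _ => ρ))))
    (I11_wp_dfn hB hF j 3 4 0 2 1) (i14_v hy hx hs hρ)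
  exact h

theorem i14_ow (hB : GBModel M C) (hF : ClassForcing C P L) {j : ℕ} {s ρ x y : ZFSet.{0}} (hs : s ∈ M) (hρ : ρ ∈ M)
    (hx : x ∈ M) (hy : y ∈ M) : Cl M C fun r => ∃ w, Oc L r w y ∧ Wr M L j s ρ r x w := by
  have h := G2_cl hB (R := fun v => ∃ w, Oc L (v 0) w (v 1) ∧ Wr M L j (v 3) (v 4) (v 0) (v 2) w)
    (v := cons y (cons x (cons s (cons ρ fun _ => ρ))))
    (D1_oc_ex hB hF (R := fun v => Wr M L j (v 4) (v 5) (v 1) (v 3) (v 0)) (I11_wp_dfn hB hF j 4 5 1 3 0) 0 1) (i14_v hy hx hs hρ)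
  exact h

theorem i14_no (hB : GBModel M C) (hF : ClassForcing C P L) {j : ℕ} {s ρ x y : ZFSet.{0}} (hs : s ∈ M) (hρ : ρ ∈ M)
    (hx : x ∈ M) (hy : y ∈ M) : Cl M C fun r => ∃ w, Oc L r w x ∧ ∀ r', pair r' r ∈ L → ¬ Wr M L j s ρ r' w y := by
  have h := G2_cl hB (R := fun v => ∃ w, Oc L (v 0) w (v 2) ∧ ∀ r', pair r' (v 0) ∈ L → ¬ Wr M L j (v 3) (v 4) r' w (v 1))
    (v := cons y (cons x (cons s (cons ρ fun _ => ρ))))
    (D1_oc_ex hB hF (R := fun v => ∀ r', pair r' (v 1) ∈ L → ¬ Wr M L j (v 4) (v 5) r' (v 0) (v 2))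
      (D1_all hB hF (R := fun v => ¬ Wr M L j (v 5) (v 6) (v 0) (v 1) (v 3)) (dfn_not (I11_wp_dfn hB hF j 5 6 0 1 3)) 1) 0 2)
    (i14_v hy hx hs hρ)
  exact h

/-- one half of the direction from left to right -/
theorem i14_lr (hB : GBModel M C) (hF : ClassForcing C P L) (hG : Generic C P L G) {j : ℕ} {s ρ' r1 x y : ZFSet.{0}}
    (hs : s ∈ M) (hρ' : ρ' ∈ M) (hx : x ∈ M) (hy : y ∈ M) (hr1 : r1 ∈ G)
    (h : ∀ r, pair r r1 ∈ L → ∀ w, Oc L r w x → ∃ r', pair r' r ∈ L ∧ Wr M L j s ρ' r' w y) (w : ZFSet.{0})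
    (hw : ∃ r ∈ G, Oc L r w x) : ∃ r ∈ G, Wr M L j s ρ' r w y := by
  obtain ⟨r2, hr2, hw2⟩ := hw
  obtain ⟨r3, hr3, h31, h32⟩ := hG.dir r1 hr1 r2 hr2
  have hwM : w ∈ M := (G1_oc_mem (P := P) (N1_base hB.zfc) hw2 hx).1
  exact G2_below hB hF hG (i14_wp hB hF hs hρ' hwM hy) hr3 fun r4 hr4 =>
    h r4 (hF.trans _ _ _ hr4 h31) w (e1_oc hF hw2 (hF.trans _ _ _ hr4 h32))

/-- one half of the direction from right to left -/
theorem i14_rl (hB : GBModel M C) (hF : ClassForcing C P L) (hG : Generic C P L G) {j : ℕ} {s ρ' x y : ZFSet.{0}}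
    (hs : s ∈ M) (hρ' : ρ' ∈ M) (hx : x ∈ M) (hy : y ∈ M)
    (h : ∀ w, (∃ r ∈ G, Oc L r w x) → ∃ r ∈ G, Wr M L j s ρ' r w y) :
    ∃ q1 ∈ G, ∀ r, pair r q1 ∈ L → ∀ w, Oc L r w x → ∃ r', pair r' r ∈ L ∧ Wr M L j s ρ' r' w y := by
  obtain ⟨q1, hq1, h1 | h1⟩ := G2_decide hB hF hG (i14_no (j := j) hB hF hs hρ' hx hy)
  · exfalso
    obtain ⟨w, hw, hno⟩ := h1
    obtain ⟨r, hr, hwp⟩ := h w ⟨q1, hq1, hw⟩
    obtain ⟨r', _, h2, h3⟩ := hG.dir q1 hq1 r hr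
    exact hno r' h2 (I11_wp_mono hF hwp h3)
  · refine ⟨q1, hq1, fun r hr w hw => ?_⟩
    by_contra hc
    exact h1 r hr ⟨w, hw, fun r' hr' hwp => hc ⟨r', hr', hwp⟩⟩

/-- Proof. (→) Let `r1 ∈ G` be below `q` and `r`. By `mem1` (and `I11_wp_mono`) every `r2 ≤ r1` has an `r' ≤ r2` in the class
`∃ w, Oc L r' w y ∧ Wr M L j s ρ r' x w`; use `G2_below`. (←) Let `r3 ∈ G` be below `q` and the two conditions; by `mem2` every `r ≤ r3` has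
an `r' ≤ r` with `Wr M L j s ρ' r' x y`; use `G2_below`. -/
theorem I14_mem (hB : GBModel M C) (hF : ClassForcing C P L) (hG : Generic C P L G) {j : ℕ} {X s ρ ρ' q : ZFSet.{0}}
    (hX : NSet M P X s) (hρ : ρ ∈ M) (hρ' : ρ' ∈ M) (hq : q ∈ G) (hc : Cert3 M L j X s ρ ρ' q) {x y : ZFSet.{0}}
    (hx : x ∈ X) (hy : y ∈ X) :
    (∃ r ∈ G, Wr M L j s ρ' r x y) ↔ ∃ w, (∃ r ∈ G, Oc L r w y) ∧ ∃ r ∈ G, Wr M L j s ρ r x w := by
  have hM := N1_base hB.zfc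
  have hxM : x ∈ M := hM.trans _ hX.memX _ hx
  have hyM : y ∈ M := hM.trans _ hX.memX _ hy
  constructor
  · rintro ⟨r, hr, h1⟩
    obtain ⟨r1, hr1, h2, h3⟩ := hG.dir q hq r hr
    obtain ⟨r2, hr2, w, hw, h4⟩ := G2_below hB hF hG (i14_ow hB hF (j := j) hX.memS hρ hxM hyM) hr1 fun r2 hr2 =>
      hc.mem1 x hx y hy r2 (hF.trans _ _ _ hr2 h2) (I11_wp_mono hF h1 (hF.trans _ _ _ hr2 h3))
    exact ⟨w, ⟨r2, hr2, hw⟩, r2, hr2, h4⟩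
  · rintro ⟨w, ⟨r, hr, hw⟩, r', hr', h1⟩
    obtain ⟨r1, hr1, h2, h3⟩ := hG.dir r hr r' hr'
    obtain ⟨r3, hr3, h4, h5⟩ := hG.dir q hq r1 hr1
    exact G2_below hB hF hG (i14_wp hB hF hX.memS hρ' hxM hyM) hr3 fun r4 hr4 =>
      hc.mem2 x hx y hy r4 (hF.trans _ _ _ hr4 h4) w
        (e1_oc hF hw (hF.trans _ _ _ hr4 (hF.trans _ _ _ h5 h2)))
        (I11_wp_mono hF h1 (hF.trans _ _ _ hr4 (hF.trans _ _ _ h5 h3)))

/-- Proof. (→) Let `r1 ∈ G` be below `q` and `r`; `Rh3 M L j s ρ' r1 x y` by `eq1`; if `Oc L r2 w x` with `r2 ∈ G`, use the clause below a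
common lower bound of `r1`, `r2` and `G2_below`. (←) `G2_decide` for the class `∃ w, Oc L r w x` and no `r' ≤ r` has `Wr M L j s ρ' r' w y`:
an `r ∈ G` in this class is impossible by the assumption (common lower bounds); so there is `r1 ∈ G` without extension in the
class, similarly `r2 ∈ G` for the second clause; for `r3 ∈ G` below `r1`, `r2`, `q` one gets `Rh3 M L j s ρ' r3 x y`; use `I11_rh_mono`, `eq2` and
`G2_below`. -/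
theorem I14_eq (hB : GBModel M C) (hF : ClassForcing C P L) (hG : Generic C P L G) {j : ℕ} {X s ρ ρ' q : ZFSet.{0}}
    (hX : NSet M P X s) (hρ : ρ ∈ M) (hρ' : ρ' ∈ M) (hq : q ∈ G) (hc : Cert3 M L j X s ρ ρ' q) {x y : ZFSet.{0}}
    (hx : x ∈ X) (hy : y ∈ X) :
    (∃ r ∈ G, Wr M L j s ρ r x y) ↔
      (∀ w, (∃ r ∈ G, Oc L r w x) → ∃ r ∈ G, Wr M L j s ρ' r w y) ∧
      (∀ w, (∃ r ∈ G, Oc L r w y) → ∃ r ∈ G, Wr M L j s ρ' r w x) := by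
  have hM := N1_base hB.zfc
  have hxM : x ∈ M := hM.trans _ hX.memX _ hx
  have hyM : y ∈ M := hM.trans _ hX.memX _ hy
  constructor
  · rintro ⟨r, hr, h1⟩
    obtain ⟨r1, hr1, h2, h3⟩ := hG.dir q hq r hr
    have h4 := hc.eq1 x hx y hy r1 h2 (I11_wp_mono hF h1 h3)
    exact ⟨i14_lr hB hF hG hX.memS hρ' hxM hyM hr1 h4.1, i14_lr hB hF hG hX.memS hρ' hyM hxM hr1 h4.2⟩
  · rintro ⟨h1, h2⟩
    obtain ⟨q1, hq1, h3⟩ := i14_rl hB hF hG hX.memS hρ' hxM hyM h1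
    obtain ⟨q2, hq2, h4⟩ := i14_rl hB hF hG hX.memS hρ' hyM hxM h2
    obtain ⟨r1, hr1, h5, h6⟩ := hG.dir q1 hq1 q2 hq2
    obtain ⟨r3, hr3, h7, h8⟩ := hG.dir q hq r1 hr1
    have h9 : Rh3 M L j s ρ' r3 x y :=
      ⟨fun r hr => h3 r (hF.trans _ _ _ hr (hF.trans _ _ _ h8 h5)),
        fun r hr => h4 r (hF.trans _ _ _ hr (hF.trans _ _ _ h8 h6))⟩
    exact G2_below hB hF hG (i14_wp hB hF hX.memS hρ hxM hyM) hr3 fun r4 hr4 =>
      hc.eq2 x hx y hy r4 (hF.trans _ _ _ hr4 h7) (I11_rh_mono hF h9 hr4)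

end Pool.Agent.H65C
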