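import Pool.Agent.Lib.H65C.I14

/-!
# Project H65C, chunk H15 (S/M): certificates are correct
-/

namespace Pool.Agent.H65C

open ZFSet

variable {M : Set ZFSet.{0}} {C : Set (Set ZFSet.{0})} {P L G : Set ZFSet.{0}}

theorem i15_val (hF : ClassForcing C P L) (hG : Generic C P L G) (x z : ZFSet.{0}) :
    z ∈ val G x ↔ ∃ w, (∃ r ∈ G, Oc L r w x) ∧ z = val G w := by
  constructor
  · intro h
    obtain ⟨w, hw, r, hr, ho⟩ := G1_val_oc hF hG h
    exact ⟨w, ⟨r, hr, ho⟩, hw⟩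
  · rintro ⟨w, ⟨r, hr, ho⟩, rfl⟩
    exact G1_oc_val hG ho hr

theorem i15_occ {w x : ZFSet.{0}} (h : ∃ r ∈ G, Oc L r w x) : Occ w x := by
  obtain ⟨r, -, p, hp, -⟩ := h
  exact ⟨p, hp⟩

/-- Proof. Write `x ≈ y` for `∃ r ∈ G, Wr M L j s ρ r x y` and `w ∈' x` for `∃ r ∈ G, Oc L r w x`; so `w ∈' x` gives `Occ w x`, `w ∈ X`, and the
elements of `val G x` are the `val G w` with `w ∈' x` (`G1_oc_val`, `G1_val_oc`). By `I14_mem`, `I14_eq`: `x ≈ y` iff every `w ∈' x` has some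
`v ∈' y` with `w ≈ v`, and every `w ∈' y` has some `v ∈' x` with `w ≈ v`. By induction on `x` (`occ_wf`) one proves: for all `y ∈ X`,
(`x ≈ y` iff `val G x = val G y`) and (`y ≈ x` iff `val G x = val G y`). Then the second part follows from `I14_mem`. -/
theorem I15_correct (hB : GBModel M C) (hF : ClassForcing C P L) (hG : Generic C P L G) {j : ℕ} {X s ρ ρ' q : ZFSet.{0}}
    (hX : NSet M P X s) (hρ : ρ ∈ M) (hρ' : ρ' ∈ M) (hq : q ∈ G) (hc : Cert3 M L j X s ρ ρ' q) {x y : ZFSet.{0}}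
    (hx : x ∈ X) (hy : y ∈ X) :
    ((∃ r ∈ G, Wr M L j s ρ r x y) ↔ val G x = val G y) ∧ ((∃ r ∈ G, Wr M L j s ρ' r x y) ↔ val G x ∈ val G y) := by
  have hsym : ∀ x ∈ X, ∀ y ∈ X, (∃ r ∈ G, Wr M L j s ρ r x y) ↔ ∃ r ∈ G, Wr M L j s ρ r y x := by
    intro x hx y hy
    rw [I14_eq hB hF hG hX hρ hρ' hq hc hx hy, I14_eq hB hF hG hX hρ hρ' hq hc hy hx]
    exact and_comm
  have key : ∀ x ∈ X, ∀ y ∈ X, (∃ r ∈ G, Wr M L j s ρ r x y) ↔ val G x = val G y := by
    intro x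
    induction x using occ_wf.induction with
    | _ x ih =>
      intro hx y hy
      have hxX : ∀ w, (∃ r ∈ G, Oc L r w x) → w ∈ X := fun w h => hX.closed x hx w (i15_occ h)
      have hyX : ∀ w, (∃ r ∈ G, Oc L r w y) → w ∈ X := fun w h => hX.closed y hy w (i15_occ h)
      rw [I14_eq hB hF hG hX hρ hρ' hq hc hx hy]
      constructor
      · rintro ⟨h1, h2⟩
        apply ZFSet.ext
        intro z
        rw [i15_val hF hG, i15_val hF hG]
        constructor
        · rintro ⟨w, hw, rfl⟩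
          obtain ⟨v, hv, he⟩ := (I14_mem hB hF hG hX hρ hρ' hq hc (hxX w hw) hy).1 (h1 w hw)
          exact ⟨v, hv, (ih w (i15_occ hw) (hxX w hw) v (hyX v hv)).1 he⟩
        · rintro ⟨w, hw, rfl⟩
          obtain ⟨v, hv, he⟩ := (I14_mem hB hF hG hX hρ hρ' hq hc (hyX w hw) hx).1 (h2 w hw)
          refine ⟨v, hv, ?_⟩
          have h3 := (hsym w (hyX w hw) v (hxX v hv)).1 he
          exact ((ih v (i15_occ hv) (hxX v hv) w (hyX w hw)).1 h3).symm
      · intro h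
        refine ⟨fun w hw => ?_, fun w hw => ?_⟩
        · rw [I14_mem hB hF hG hX hρ hρ' hq hc (hxX w hw) hy]
          have h1 : val G w ∈ val G y := by
            rw [← h, i15_val hF hG]
            exact ⟨w, hw, rfl⟩
          obtain ⟨v, hv, he⟩ := (i15_val hF hG y _).1 h1
          exact ⟨v, hv, (ih w (i15_occ hw) (hxX w hw) v (hyX v hv)).2 he⟩
        · rw [I14_mem hB hF hG hX hρ hρ' hq hc (hyX w hw) hx]
          have h1 : val G w ∈ val G x := by
            rw [h, i15_val hF hG]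
            exact ⟨w, hw, rfl⟩
          obtain ⟨v, hv, he⟩ := (i15_val hF hG x _).1 h1
          exact ⟨v, hv, (hsym w (hyX w hw) v (hxX v hv)).2
            ((ih v (i15_occ hv) (hxX v hv) w (hyX w hw)).2 he.symm)⟩
  refine ⟨key x hx y hy, ?_⟩
  rw [I14_mem hB hF hG hX hρ hρ' hq hc hx hy, i15_val hF hG]
  constructor
  · rintro ⟨w, hw, he⟩
    exact ⟨w, hw, (key x hx w (hX.closed y hy w (i15_occ hw))).1 he⟩
  · rintro ⟨w, hw, he⟩
    exact ⟨w, hw, (key x hx w (hX.closed y hy w (i15_occ hw))).2 he⟩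

end Pool.Agent.H65C
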