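import Pool.Agent.Lib.H65C.H7
import Pool.Agent.Lib.H65C.H9
import Pool.Agent.Lib.H65C.I13
import Pool.Agent.Lib.H65C.I15
import Pool.Agent.Lib.H65C.I16

/-!
# Project H65C, third part: the truth lemma for atomic formulas
-/

namespace Pool.Agent.H65C

open ZFSet

variable {M : Set ZFSet.{0}} {C : Set (Set ZFSet.{0})} {P L G : Set ZFSet.{0}}

/-- the set of true pairs is in `M[G]` -/
theorem i17_eset (hB : GBModel M C) (hF : ClassForcing C P L) (hG : Generic C P L G) (hZ : ZFCModel (MG M P G))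
    {X s : ZFSet.{0}} (hX : NSet M P X s) (b : Bool) :
    ∃ E ∈ MG M P G, ∀ i, i ∈ E ↔ ∃ x ∈ X, ∃ y ∈ X, i = pair x y ∧ Tr G b x y := by
  have hM : Base M := N1_base hB.zfc
  have hC : C.Nonempty := ⟨P, hF.carrier⟩
  obtain ⟨s0, hs0, h0⟩ := H0_repl hB (dfn_opair (𝒳 := C) hM hC 0 1 1) (v := fun _ => X) (fun _ => hX.memX)
    (H0_prod hB hX.memX hX.memX) (by
      intro x _ y _ y' _ h h'
      have h1 : y = pair x x := h
      have h2 : y' = pair x x := h'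
      rw [h1, h2])
  have key : ∀ i x y, pair i (pair x y) ∈ s0 ↔ x ∈ X ∧ y ∈ X ∧ i = pair x y := by
    intro i x y
    rw [h0]
    constructor
    · rintro ⟨_, z, hz, h⟩
      have h1 : pair i (pair x y) = pair z z := h
      obtain ⟨e1, e2⟩ := pair_inj.mp h1
      rw [← e2, pair_mem_prod] at hz
      exact ⟨hz.1, hz.2, by rw [e1, ← e2]⟩
    · rintro ⟨hx, hy, rfl⟩
      have h2 : pair x y ∈ M := base_pair hM (hM.trans _ hX.memX x hx) (hM.trans _ hX.memX y hy)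
      exact ⟨base_pair hM h2 h2, pair x y, pair_mem_prod.2 ⟨hx, hy⟩, rfl⟩
  obtain ⟨Θ, hΘ, h1⟩ := H6_theta hB hF hG hs0 (fun i x y h => by
    obtain ⟨hx, hy, _⟩ := (key i x y).1 h
    exact ⟨hX.name _ hx, hX.name _ hy⟩)
  have hD : Dfn (MG M P G) {∅} fun u : ℕ → ZFSet.{0} => (if b then u 2 ∈ u 1 else u 2 = u 1 : Prop) := by
    cases b with
    | true => exact dfn_congr (dfn_mem V2_ne 2 1) fun v _ => by simp
    | false => exact dfn_congr (dfn_eq V2_ne 2 1) fun v _ => by simp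
  obtain ⟨E, hE, h2⟩ := h7_aux hZ (D := fun x y => (if b then x ∈ y else x = y : Prop)) hD hΘ
  refine ⟨E, hE, fun i => ?_⟩
  rw [h2 i]
  constructor
  · rintro ⟨a, c, h3, h4⟩
    obtain ⟨i', x, y, h5, h6⟩ := (h1 _).1 h3
    obtain ⟨h7, h8⟩ := pair_inj.mp h6
    obtain ⟨h9, h10⟩ := pair_inj.mp h8
    obtain ⟨hx, hy, hi⟩ := (key i' x y).1 h5
    refine ⟨x, hx, y, hy, h7.trans hi, ?_⟩
    show (if b then val G x ∈ val G y else val G x = val G y : Prop)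
    rw [← h9, ← h10]
    exact h4
  · rintro ⟨x, hx, y, hy, hi, h4⟩
    exact ⟨val G x, val G y, (h1 _).2 ⟨i, x, y, (key i x y).2 ⟨hx, hy, hi⟩, rfl⟩, h4⟩

theorem i17_one (hB : GBModel M C) (hF : ClassForcing C P L) (hG : Generic C P L G) (hZ : ZFCModel (MG M P G)) {j : ℕ}
    (hR : Readable M P j G) {X s : ZFSet.{0}} (hX : NSet M P X s) (b : Bool) :
    ∃ ρ ∈ M, ∀ x ∈ X, ∀ y ∈ X, (∃ r ∈ G, Wr M L j s ρ r x y) ↔ Tr G b x y := by
  have hM : Base M := N1_base hB.zfc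
  obtain ⟨E, hE, hE2⟩ := i17_eset hB hF hG hZ hX b
  obtain ⟨ε, hε, A, hA, hAT, hA2⟩ := hR E hE (fun i hi => by
    obtain ⟨x, hx, y, hy, h, _⟩ := (hE2 i).1 hi
    rw [h]
    exact base_pair hM (hM.trans _ hX.memX x hx) (hM.trans _ hX.memX y hy))
  obtain ⟨ρ, hρ, hρ2⟩ := H9_code hB hF hG hA hAT
  refine ⟨pair ε ρ, base_pair hM hε hρ, fun x hx y hy => ⟨?_, fun h => ?_⟩⟩
  · rintro ⟨r, hr, ε', ρ', h0, i, hi, p, h1, h2, h3⟩
    obtain ⟨e1, e2⟩ := pair_inj.mp h0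
    rw [← e1] at h1
    rw [← e2] at h3
    have hp : p ∈ G := hG.up r hr p h2
    have hiA : i ∈ A := (hρ2 i hi).2 ⟨r, hr, h3⟩
    obtain ⟨x', _, y', _, h4, h5⟩ := (hE2 _).1 ((hA2 (pair x y)).2 ⟨i, hiA, p, hp, h1⟩)
    obtain ⟨e3, e4⟩ := pair_inj.mp h4
    rw [e3, e4]
    exact h5
  · obtain ⟨a, ha, p, hp, h1⟩ := (hA2 (pair x y)).1 ((hE2 _).2 ⟨x, hx, y, hy, rfl, h⟩)
    obtain ⟨q, hq, hw⟩ := (hρ2 a (hAT a ha)).1 ha
    obtain ⟨r, hr, hr1, hr2⟩ := hG.dir p hp q hq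
    exact ⟨r, hr, ε, ρ, rfl, a, hAT a ha, p, h1, hr1, H11_wi_mono hF hw hr2⟩

/-- two names are in a common set of names -/
theorem i17_join (hB : GBModel M C) (hF : ClassForcing C P L) {x y : ZFSet.{0}} (hx : x ∈ M ∧ IsName P x)
    (hy : y ∈ M ∧ IsName P y) : ∃ X, NSet M P X X ∧ x ∈ X ∧ y ∈ X := by
  have hM : Base M := N1_base hB.zfc
  have one : ∀ x : ZFSet.{0}, x ∈ M ∧ IsName P x → ∃ X ∈ M, x ∈ X ∧ (∀ z ∈ X, ∀ τ, Occ τ z → τ ∈ X) ∧ ∀ z ∈ X, IsName P z := by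
    intro x hx
    obtain ⟨X, hX, h1, h2, h3⟩ := S1_closure hB hx.1
    exact ⟨X, hX, h1, h2, h3 (IsName P) hx.2 (fun z τ hz hτ => by
      obtain ⟨p, hp⟩ := hτ
      exact (G1_sub hz hp).1)⟩
  obtain ⟨X, hX, h1, h2, h3⟩ := one x hx
  obtain ⟨Y, hY, g1, g2, g3⟩ := one y hy
  have hU : X ∪ Y ∈ M := H0_union hM hX hY
  refine ⟨X ∪ Y, ⟨hU, hU, fun z hz => ?_, fun z hz τ hτ => ?_⟩, ZFSet.mem_union.2 (Or.inl h1),
    ZFSet.mem_union.2 (Or.inr g1)⟩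
  · rcases ZFSet.mem_union.1 hz with hz | hz
    · exact h3 z hz
    · exact g3 z hz
  · rcases ZFSet.mem_union.1 hz with hz | hz
    · exact ZFSet.mem_union.2 (Or.inl (h2 z hz τ hτ))
    · exact ZFSet.mem_union.2 (Or.inr (g2 z hz τ hτ))

theorem I17_at (hB : GBModel M C) (hF : ClassForcing C P L) (hG : Generic C P L G) (hZ : ZFCModel (MG M P G)) {j : ℕ}
    (hR : Readable M P j G) (b : Bool) {x y : ZFSet.{0}} (hx : x ∈ M ∧ IsName P x) (hy : y ∈ M ∧ IsName P y) :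
    (∃ q ∈ G, At3 M P L j b q x y) ↔ Tr G b x y := by
  constructor
  · rintro ⟨q, hq, h⟩
    have hcl : Cl M C fun r => Good3 M P L j b r x y :=
      G2_cl hB (I13_good_dfn hB hF j b 0 1 2) (v := cons x fun _ => y) (a2_cons hx.1 fun _ => hy.1)
    obtain ⟨r, hr, X, _, s, _, ρ, hρ, ρ', hρ', hX, hxX, hyX, hc, hw⟩ := G2_below hB hF hG hcl hq h
    obtain ⟨c1, c2⟩ := I15_correct hB hF hG hX hρ hρ' hr hc hxX hyX
    cases b with
    | false => exact c1.1 ⟨r, hr, hw⟩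
    | true => exact c2.1 ⟨r, hr, hw⟩
  · intro h
    obtain ⟨X, hX, hxX, hyX⟩ := i17_join hB hF hx hy
    obtain ⟨ρ, hρ, c1⟩ := i17_one hB hF hG hZ hR hX false
    obtain ⟨ρ', hρ', c2⟩ := i17_one hB hF hG hZ hR hX true
    have c1' : ∀ x ∈ X, ∀ y ∈ X, (∃ r ∈ G, Wr M L j X ρ r x y) ↔ val G x = val G y := c1
    have c2' : ∀ x ∈ X, ∀ y ∈ X, (∃ r ∈ G, Wr M L j X ρ' r x y) ↔ val G x ∈ val G y := c2
    obtain ⟨q, hq, hc⟩ := I16_exists hB hF hG hX hρ hρ' c1' c2'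
    have hw : ∃ r ∈ G, Wr M L j X (if b then ρ' else ρ) r x y := by
      cases b with
      | false => exact (c1 x hxX y hyX).2 h
      | true => exact (c2 x hxX y hyX).2 h
    obtain ⟨r, hr, hw⟩ := hw
    obtain ⟨t, ht, htq, htr⟩ := hG.dir q hq r hr
    exact ⟨t, ht, I13_at_of_good hF ⟨X, hX.memX, X, hX.memX, ρ, hρ, ρ', hρ', hX, hxX, hyX, I12_cert_mono hF hc htq,
      I11_wp_mono hF hw htr⟩⟩

end Pool.Agent.H65C
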