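import Pool.Agent.Lib.H65C.I13

/-!
# Project H65C, chunk H19 (S): the forcing relation for small names is definable
-/

namespace Pool.Agent.H65C

open ZFSet

variable {C : Set (Set ZFSet.{0})} {M P L : Set ZFSet.{0}}

/-- Induction on `φ`, as in `F2_dfn`, with `I13_at_dfn`, `H12_small_dfn`. -/
theorem I19_dfn (hB : GBModel M C) (hF : ClassForcing C P L) (j : ℕ) (φ : Fm) :
    Dfn M C fun v => FA M P L j φ (v 0) fun i => v (i + 1) := by
  have hne : C.Nonempty := ⟨_, hF.carrier⟩
  induction φ with
  | mem i k => exact I13_at_dfn hB hF j true 0 (i + 1) (k + 1)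
  | eq i k => exact I13_at_dfn hB hF j false 0 (i + 1) (k + 1)
  | cls c i => exact dfn_false hne
  | bot => exact dfn_false hne
  | imp φ ψ ih1 ih2 =>
    have h1 := dfn_ren ih1 (fun n => match n with
      | 0 => 0
      | n + 1 => n + 2)
    have h2 := dfn_ren ih2 (fun n => match n with
      | 0 => 0
      | n + 1 => n + 2)
    exact dfn_congr (D1_all hB hF (dfn_imp h1 h2) 0) fun v hv => Iff.rfl
  | all φ ih =>
    have h1 := dfn_ren ih (fun n => match n with
      | 0 => 1
      | 1 => 0
      | n + 2 => n + 2)
    refine dfn_congr (dfn_all (dfn_imp (S2_dfn hB hF.carrier 0) h1)) fun v hv => ?_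
    have key : ∀ a : ZFSet.{0}, (fun i => cons a v ((fun n => match n with
      | 0 => 1
      | 1 => 0
      | n + 2 => n + 2 : ℕ → ℕ) (i + 1))) = cons a fun i => v (i + 1) := by
      intro a
      funext i
      cases i with
      | zero => rfl
      | succ n => rfl
    constructor
    · intro h a ha hn
      have h3 := h a ha hn
      have h4 : FA M P L j φ (v 0) (fun i => cons a v ((fun n => match n with
        | 0 => 1
        | 1 => 0
        | n + 2 => n + 2 : ℕ → ℕ) (i + 1))) := h3
      rw [key a] at h4
      exact h4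
    · intro h a ha hn
      have h3 : FA M P L j φ (v 0) (cons a fun i => v (i + 1)) := h a ha hn
      rw [← key a] at h3
      exact h3

end Pool.Agent.H65C
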