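import Pool.Agent.Lib.H65C.I17
import Pool.Agent.Lib.H65C.I18
import Pool.Agent.Lib.H65C.I19

/-!
# Project H65C, chunk H20 (S/M): the truth lemma for small names
-/

namespace Pool.Agent.H65C

open ZFSet

variable {C : Set (Set ZFSet.{0})} {M P L G : Set ZFSet.{0}}

def i20_a : ℕ → ℕ
  | 0 => 0
  | n + 1 => n + 2

def i20_b : ℕ → ℕ
  | 0 => 0
  | 1 => 1
  | n + 2 => n + 3

/-- the class of the conditions without extension forcing `ψ` -/
theorem i20_no (hB : GBModel M C) (hF : ClassForcing C P L) (j : ℕ) (ψ : Fm) :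
    Dfn M C fun v => ∀ r, pair r (v 0) ∈ L → ¬ FA M P L j ψ r fun i => v (i + 1) := by
  have h1 : Dfn M C fun x : ℕ → ZFSet.{0} => ¬ FA M P L j ψ (x 0) fun i => x (i + 2) :=
    dfn_not (dfn_ren (I19_dfn hB hF j ψ) i20_a)
  exact D1_all hB hF h1 0

theorem i20_noex (hB : GBModel M C) (hF : ClassForcing C P L) (j : ℕ) (φ : Fm) :
    Dfn M C fun v => ∃ u ∈ M, IsName P u ∧
      ∀ r, pair r (v 0) ∈ L → ¬ FA M P L j φ r (cons u fun i => v (i + 1)) := by
  have h1 : Dfn M C fun x : ℕ → ZFSet.{0} => ¬ FA M P L j φ (x 0) fun i => x (i20_b (i + 1)) :=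
    dfn_not (dfn_ren (I19_dfn hB hF j φ) i20_b)
  have h2 := D1_all hB hF h1 1
  have h3 := dfn_ex (dfn_and (S2_dfn hB hF.carrier 0) h2)
  refine dfn_congr h3 fun v _ => ?_
  refine exists_congr fun u => and_congr Iff.rfl (and_congr Iff.rfl ?_)
  refine forall_congr' fun r => imp_congr Iff.rfl (not_congr ?_)
  have e : (fun i => (cons r (cons u v)) (i20_b (i + 1))) = cons u fun i => v (i + 1) := by
    funext i
    cases i with
    | zero => rfl
    | succ i => rfl
  show FA M P L j φ r (fun i => (cons r (cons u v)) (i20_b (i + 1))) ↔ _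
  rw [e]

/-- a condition that does not force `ψ` has an extension without extensions forcing `ψ` -/
theorem i20_ext (hF : ClassForcing C P L) (j : ℕ) (ψ : Fm) {q : ZFSet.{0}} (hq : q ∈ P)
    {v : ℕ → ZFSet.{0}} (h : ¬ FA M P L j ψ q v) :
    ∃ r, pair r q ∈ L ∧ ∀ r', pair r' r ∈ L → ¬ FA M P L j ψ r' v := by
  by_contra hc
  apply h
  refine I18_dense hF j ψ hq fun r hr => ?_
  by_contra hd
  exact hc ⟨r, hr, fun r' hr' hf => hd ⟨r', hr', hf⟩⟩

/-- Proof. Induction on `φ`, `v` general, as in `F3_truth`. Atoms: `H17_at`. `all φ`: (→) an element of `MG M P G` is `val G u` for a small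
name `u`. (←) otherwise there are `q ∈ G` without extension in `FS (all φ)` and, by `G2_below` for the class there is a small name
`u ∈ M` such that no `r' ≤ r` has `FS φ r' (cons u v)`, an `r ∈ G` and a small name `u` of this kind (`I18_dense`), a contradiction. -/
theorem I20_truth (hB : GBModel M C) (hF : ClassForcing C P L) (hG : Generic C P L G) (hZ : ZFCModel (MG M P G)) (j : ℕ)
    (hR : Readable M P j G)
    (φ : Fm) (v : ℕ → ZFSet.{0}) (hv : ∀ i, v i ∈ M ∧ IsName P (v i)) :
    (∃ q ∈ G, FA M P L j φ q v) ↔ Sat0 (MG M P G) φ fun i => val G (v i) := by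
  have hM : ∀ i, v i ∈ M := fun i => (hv i).1
  induction φ generalizing v with
  | mem i k => exact I17_at hB hF hG hZ hR true (hv i) (hv k)
  | eq i k => exact I17_at hB hF hG hZ hR false (hv i) (hv k)
  | cls c i =>
    constructor
    · rintro ⟨q, _, h⟩
      exact h.elim
    · intro h
      exact (Set.notMem_empty _ h).elim
  | bot =>
    constructor
    · rintro ⟨q, _, h⟩
      exact h.elim
    · intro h
      exact False.elim h
  | imp φ ψ ih1 ih2 =>
    constructor
    · rintro ⟨q, hq, h⟩ hs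
      obtain ⟨r, hr, hfr⟩ := (ih1 v hv hM).2 hs
      obtain ⟨s, hs1, hs2, hs3⟩ := hG.dir q hq r hr
      exact (ih2 v hv hM).1 ⟨s, hs1, h s hs2 (I18_mono hF j φ hfr hs3)⟩
    · intro hs
      have hs' : Sat0 (MG M P G) φ (fun i => val G (v i)) → Sat0 (MG M P G) ψ (fun i => val G (v i)) := hs
      have hcl : Cl M C fun a => FA M P L j (.imp φ ψ) a v :=
        G2_cl hB (I19_dfn hB hF j (.imp φ ψ)) (v := v) hM
      obtain ⟨q, hq, h1 | h1⟩ := G2_decide hB hF hG hcl
      · exact ⟨q, hq, h1⟩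
      · exfalso
        have hcl2 : Cl M C fun a => FA M P L j φ a v ∧ ∀ r, pair r a ∈ L → ¬ FA M P L j ψ r v :=
          G2_cl hB (dfn_and (I19_dfn hB hF j φ) (i20_no hB hF j ψ)) (v := v) hM
        obtain ⟨r, hr, hr1, hr2⟩ := G2_below hB hF hG hcl2 hq (fun r1 hr1 => by
          have h2 := h1 r1 hr1
          have h3 : ∃ r2, pair r2 r1 ∈ L ∧ FA M P L j φ r2 v ∧ ¬ FA M P L j ψ r2 v := by
            by_contra hc
            apply h2
            intro r2 hr2 hf
            by_contra hn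
            exact hc ⟨r2, hr2, hf, hn⟩
          obtain ⟨r2, hr2, hf, hn⟩ := h3
          obtain ⟨r3, hr3, hr3'⟩ := i20_ext hF j ψ (G2_sub hB hF hr2).1 hn
          exact ⟨r3, hF.trans _ _ _ hr3 hr2, I18_mono hF j φ hf hr3, hr3'⟩)
        obtain ⟨r', hr', hfr'⟩ := (ih2 v hv hM).2 (hs' ((ih1 v hv hM).1 ⟨r, hr, hr1⟩))
        obtain ⟨s, _, hs2, hs3⟩ := hG.dir r hr r' hr'
        exact hr2 s hs2 (I18_mono hF j ψ hfr' hs3)
  | all φ ih =>
    have key : ∀ u : ZFSet.{0}, u ∈ M ∧ IsName P u →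
        ((∃ q ∈ G, FA M P L j φ q (cons u v)) ↔ Sat0 (MG M P G) φ (cons (val G u) fun i => val G (v i))) := by
      intro u hu
      have e : (fun i => val G (cons u v i)) = cons (val G u) fun i => val G (v i) := by
        funext i
        cases i with
        | zero => rfl
        | succ i => rfl
      have hv' : ∀ i, cons u v i ∈ M ∧ IsName P (cons u v i) := fun i => by
        cases i with
        | zero => exact hu
        | succ i => exact hv i
      rw [← e]
      exact ih (cons u v) hv' fun i => (hv' i).1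
    constructor
    · rintro ⟨q, hq, h⟩ a ha
      obtain ⟨σ, hσ, hσ', rfl⟩ := ha
      exact (key σ ⟨hσ, hσ'⟩).1 ⟨q, hq, h σ hσ hσ'⟩
    · intro hs
      have hs' : ∀ a ∈ MG M P G, Sat0 (MG M P G) φ (cons a fun i => val G (v i)) := hs
      have hcl : Cl M C fun a => FA M P L j (.all φ) a v :=
        G2_cl hB (I19_dfn hB hF j (.all φ)) (v := v) hM
      obtain ⟨q, hq, h1 | h1⟩ := G2_decide hB hF hG hcl
      · exact ⟨q, hq, h1⟩
      · exfalso
        have hcl2 : Cl M C fun a => ∃ u ∈ M, IsName P u ∧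
            ∀ r, pair r a ∈ L → ¬ FA M P L j φ r (cons u v) :=
          G2_cl hB (i20_noex hB hF j φ) (v := v) hM
        obtain ⟨r, hr, u, hu, hn, hno⟩ := G2_below hB hF hG hcl2 hq (fun r1 hr1 => by
          have h2 := h1 r1 hr1
          have h3 : ∃ u ∈ M, IsName P u ∧ ¬ FA M P L j φ r1 (cons u v) := by
            by_contra hc
            apply h2
            intro u hu hn
            by_contra hf
            exact hc ⟨u, hu, hn, hf⟩
          obtain ⟨u, hu, hn, hf⟩ := h3
          obtain ⟨r3, hr3, hr3'⟩ := i20_ext hF j φ (G2_sub hB hF hr1).1 hf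
          exact ⟨r3, hr3, u, hu, hn, hr3'⟩)
        obtain ⟨r', hr', hfr'⟩ := (key u ⟨hu, hn⟩).2 (hs' (val G u) ⟨u, hu, hn, rfl⟩)
        obtain ⟨s, _, hs2, hs3⟩ := hG.dir r hr r' hr'
        exact hno s hs2 (I18_mono hF j φ hfr' hs3)

end Pool.Agent.H65C
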