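import Pool.Agent.Lib.H65C.I20
import Pool.Agent.Lib.H65C.G3
import Pool.Agent.Lib.H65C.T1

/-!
# Project H65C, third part: the forcing theorem for readable extensions
-/

namespace Pool.Agent.H65C

open ZFSet

variable {C : Set (Set ZFSet.{0})} {M P L : Set ZFSet.{0}}

theorem i21_names (hB : GBModel M C) (l : List ZFSet.{0}) (hl : ∀ σ ∈ l, σ ∈ M ∧ IsName P σ) (i : ℕ) :
    l.getD i ∅ ∈ M ∧ IsName P (l.getD i ∅) := by
  rcases lt_or_ge i l.length with h | h
  · rw [List.getD_eq_getElem l ∅ h]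
    exact hl _ (List.getElem_mem h)
  · rw [List.getD_eq_default l ∅ h]
    exact ⟨t1_empty (N1_base hB.zfc), G1_empty_name P⟩

/-- a condition that does not force `φ` has an extension without extensions forcing `φ` -/
theorem i21_ext (hF : ClassForcing C P L) (j : ℕ) (φ : Fm) {q : ZFSet.{0}} (hq : q ∈ P)
    {v : ℕ → ZFSet.{0}} (h : ¬ FA M P L j φ q v) :
    ∃ r, pair r q ∈ L ∧ ∀ r', pair r' r ∈ L → ¬ FA M P L j φ r' v := by
  by_contra hc
  apply h
  refine I18_dense hF j φ hq fun r hr => ?_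
  by_contra hd
  exact hc ⟨r, hr, fun r' hr' hf => hd ⟨r', hr', hf⟩⟩

theorem i21_truth (hB : GBModel M C) (hF : ClassForcing C P L) {G : Set ZFSet.{0}} (hG : Generic C P L G)
    (hZ : ZFCModel (MG M P G)) {j : ℕ} (hR : Readable M P j G) (φ : Fm) (l : List ZFSet.{0})
    (hl : ∀ σ ∈ l, σ ∈ M ∧ IsName P σ) :
    (∃ q ∈ G, FA M P L j φ q fun i => l.getD i ∅) ↔ Sat0 (MG M P G) φ (asg G l) :=
  I20_truth hB hF hG hZ j hR φ (fun i => l.getD i ∅) (i21_names hB l hl)

theorem i21_forces (hB : GBModel M C) (hC : C.Countable) (hF : ClassForcing C P L)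
    (hZ : ∀ G, Generic C P L G → ZFCModel (MG M P G)) {j : ℕ} (hR : ∀ G, Generic C P L G → Readable M P j G)
    (φ : Fm) (l : List ZFSet.{0}) (hl : ∀ σ ∈ l, σ ∈ M ∧ IsName P σ) (p : ZFSet.{0}) (hp : p ∈ P) :
    ForcesA M C P L φ l p ↔ FA M P L j φ p fun i => l.getD i ∅ := by
  constructor
  · intro h
    by_contra hn
    obtain ⟨r, hr, hno⟩ := i21_ext hF j φ hp hn
    obtain ⟨G, hG, hrG⟩ := G3_exists hC hF (i13_mem hF hr)
    have hs := h G hG (hG.up r hrG p hr)
    obtain ⟨q, hq, hfq⟩ := (i21_truth hB hF hG (hZ G hG) (hR G hG) φ l hl).2 hs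
    obtain ⟨s, _, hs1, hs2⟩ := hG.dir q hq r hrG
    exact hno s hs2 (I18_mono hF j φ hfq hs1)
  · intro h G hG hpG
    exact (i21_truth hB hF hG (hZ G hG) (hR G hG) φ l hl).1 ⟨p, hpG, h⟩

/-- `v 1, ..., v k` are names -/
theorem i21_dfn (hB : GBModel M C) (hP : P ∈ C) (k : ℕ) : Dfn M C fun v => ∀ i < k, IsName P (v (i + 1)) := by
  have hn : C.Nonempty := ⟨P, hP⟩
  induction k with
  | zero => exact dfn_congr (dfn_true hn) fun v _ => by simp
  | succ k ih =>
    refine dfn_congr (dfn_and ih (S2_dfn hB hP (k + 1))) fun v _ => ?_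
    constructor
    · rintro ⟨h1, h2⟩ i hi
      rcases Nat.lt_succ_iff_lt_or_eq.1 hi with h | h
      · exact h1 i h
      · rw [h]
        exact h2
    · intro h
      exact ⟨fun i hi => h i (Nat.lt_succ_of_lt hi), h k (Nat.lt_succ_self k)⟩

/-- the exact class of all tuples of a condition and `k` names with a definable property -/
theorem i21_class (hB : GBModel M C) (hF : ClassForcing C P L) (k : ℕ) {R : (ℕ → ZFSet.{0}) → Prop} (hR : Dfn M C R) :
    {z | ∃ p ∈ P, ∃ l : List ZFSet.{0}, l.length = k ∧ (∀ σ ∈ l, σ ∈ M ∧ IsName P σ) ∧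
      R (fun i => (p :: l).getD i ∅) ∧ z = tup (p :: l)} ∈ C := by
  have hM : Base M := N1_base hB.zfc
  have d1 := dfn_and (dfn_cls hF.carrier 0) (dfn_and (i21_dfn hB hF.carrier k) hR)
  have d2 := T1_dfn hM (k + 1) d1
  have h := G2_cl hB d2 (v := fun _ => ∅) fun _ => t1_empty hM
  refine (congrArg (fun X => X ∈ C) (Set.ext fun z => ?_)).mp h
  constructor
  · rintro ⟨_, l', hl1, hl2, hz, h1, h2, h3⟩
    have hz' : z = tup l' := hz
    have e : app l' (fun i => cons z (fun _ => ∅) (i + 1)) = fun i => l'.getD i ∅ := by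
      funext i
      exact T1_app l' i
    rw [e] at h1 h2 h3
    cases l' with
    | nil => simp at hl1
    | cons p l =>
      have hlk : l.length = k := by simpa using hl1
      refine ⟨p, h1, l, hlk, fun σ hσ => ⟨hl2 σ (List.mem_cons_of_mem _ hσ), ?_⟩, h3, hz'⟩
      obtain ⟨i, hi, rfl⟩ := List.mem_iff_getElem.1 hσ
      have h4 : IsName P ((p :: l).getD (i + 1) ∅) := h2 i (by omega)
      have h5 : (p :: l).getD (i + 1) ∅ = l[i] := by
        rw [List.getD_cons_succ, List.getD_eq_getElem l ∅ hi]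
      rw [h5] at h4
      exact h4
  · rintro ⟨p, hp, l, hlk, hl, h3, rfl⟩
    have hpl : ∀ x ∈ p :: l, x ∈ M := by
      intro x hx
      rcases List.mem_cons.1 hx with hx | hx
      · rw [hx]
        exact hB.sub P hF.carrier hp
      · exact (hl x hx).1
    refine ⟨t1_tup_mem hM _ hpl, p :: l, by simp [hlk], hpl, rfl, ?_⟩
    have e : app (p :: l) (fun i => cons (tup (p :: l)) (fun _ => ∅) (i + 1)) = fun i => (p :: l).getD i ∅ := by
      funext i
      exact T1_app (p :: l) i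
    rw [e]
    refine ⟨hp, fun i hi => ?_, h3⟩
    show IsName P ((p :: l).getD (i + 1) ∅)
    rw [List.getD_cons_succ, List.getD_eq_getElem l ∅ (by omega)]
    exact (hl _ (List.getElem_mem _)).2

/-- **The forcing theorem for class forcings with readable extensions.** -/
theorem I21_main (hB : GBModel M C) (hC : C.Countable) (hF : ClassForcing C P L)
    (hZ : ∀ G, Generic C P L G → ZFCModel (MG M P G)) {j : ℕ} (hR : ∀ G, Generic C P L G → Readable M P j G) :
    ForcingTheorem M C P L := by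
  constructor
  · intro φ k
    have h := i21_class hB hF k (I19_dfn hB hF j φ)
    refine (congrArg (fun X => X ∈ C) (Set.ext fun z => ?_)).mp h
    constructor
    · rintro ⟨p, hp, l, hlk, hl, h3, hz⟩
      exact ⟨p, hp, l, hlk, hl, (i21_forces hB hC hF hZ hR φ l hl p hp).2 h3, hz⟩
    · rintro ⟨p, hp, l, hlk, hl, h3, hz⟩
      exact ⟨p, hp, l, hlk, hl, (i21_forces hB hC hF hZ hR φ l hl p hp).1 h3, hz⟩
  · intro φ l hl G hG
    rw [← i21_truth hB hF hG (hZ G hG) (hR G hG) φ l hl]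
    constructor
    · rintro ⟨q, hq, h⟩
      exact ⟨q, hq, (i21_forces hB hC hF hZ hR φ l hl q (hG.sub hq)).2 h⟩
    · rintro ⟨q, hq, h⟩
      exact ⟨q, hq, (i21_forces hB hC hF hZ hR φ l hl q (hG.sub hq)).1 h⟩

end Pool.Agent.H65C
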