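import Pool.Agent.Lib.H65C.Defs

/-!
# Project H65C: working definitions (not used in the final statement)
-/

namespace Pool.Agent.H65C

open ZFSet

/-- The predicate `R` of assignments is definable over `(N, ∈)` with class symbols interpreted by elements of `𝒳` (only its
restriction to assignments with values in `N` matters). Used with `N = M`, `𝒳 = C`, and with `N = M[G]`, `𝒳 = {∅}`. -/
def Dfn (N : Set ZFSet.{0}) (𝒳 : Set (Set ZFSet.{0})) (R : (ℕ → ZFSet.{0}) → Prop) : Prop :=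
  ∃ (φ : Fm) (X : ℕ → Set ZFSet.{0}), (∀ c, X c ∈ 𝒳) ∧ ∀ v, (∀ i, v i ∈ N) → (Sat N X φ v ↔ R v)

/-- `N` is transitive, closed under unordered pairs and unions and contains `ω`. -/
structure Base (N : Set ZFSet.{0}) : Prop where
  trans : ∀ x ∈ N, ∀ y ∈ x, y ∈ N
  pairing : ∀ x ∈ N, ∀ y ∈ N, ({x, y} : ZFSet.{0}) ∈ N
  union : ∀ x ∈ N, (⋃₀ x : ZFSet.{0}) ∈ N
  infinity : omega ∈ N

/-- The natural number `n` as a set. -/
noncomputable def nat : ℕ → ZFSet.{0}
  | 0 => ∅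
  | n + 1 => insert (nat n) (nat n)

/-- There is an `R`-chain of length `n` below `x`. -/
def Ch (R : ZFSet.{0} → ZFSet.{0} → Prop) : ℕ → ZFSet.{0} → Prop
  | 0, _ => True
  | n + 1, x => ∃ y, R y x ∧ Ch R n y

/-- Chains for the relation `∈`. -/
def ChM : ℕ → ZFSet.{0} → Prop := Ch fun y x => y ∈ x

/-- `z` is the value of type `t` of the set `x`: for `t = 0` the rank of `x` if it is finite (otherwise there is no value), for
`t + 1` the set of all values of type `t` of elements of `x`. -/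
def V : ℕ → ZFSet.{0} → ZFSet.{0} → Prop
  | 0, x, z => ∃ n, z = nat n ∧ ChM n x ∧ ¬ ChM (n + 1) x
  | t + 1, x, z => ∀ z', z' ∈ z ↔ ∃ y ∈ x, V t y z'

/-- `w` occurs in `u` with a condition above `q`. -/
def Oc (L : Set ZFSet.{0}) (q w u : ZFSet.{0}) : Prop := ∃ p, pair w p ∈ u ∧ pair q p ∈ L

/-- `q` forces that the rank of `u` is at least `n`, by a chain. -/
def Wc (L : Set ZFSet.{0}) (q u : ZFSet.{0}) (n : ℕ) : Prop := Ch (Oc L q) n u

/-- `q` forces that the rank of `u` is `n`. -/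
def W0 (L : Set ZFSet.{0}) (q u : ZFSet.{0}) (n : ℕ) : Prop := Wc L q u n ∧ ∀ r, pair r q ∈ L → ¬ Wc L r u (n + 1)

/-- `q` knows that the value of type `t` of `u` exists (a condition only for `t = 0`). -/
def Dg (L : Set ZFSet.{0}) (t : ℕ) (q u : ZFSet.{0}) : Prop := t = 0 → ∃ n, W0 L q u n

/-- `q` forces that the value of type `t` of `u` is the natural number `z` (here `z ∈ ω`). -/
def NUM (L : Set ZFSet.{0}) : ℕ → ZFSet.{0} → ZFSet.{0} → ZFSet.{0} → Prop
  | 0, q, u, z => ∃ n, z = nat n ∧ W0 L q u n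
  | t + 1, q, u, z =>
    (∀ m ∈ z, ∀ r, pair r q ∈ L → ∃ r', pair r' r ∈ L ∧ ∃ w, Oc L r' w u ∧ NUM L t r' w m) ∧
    (∀ r, pair r q ∈ L → ∀ w, Oc L r w u → Dg L t r w → ∃ r', pair r' r ∈ L ∧ ∃ m ∈ z, NUM L t r' w m)

/-- `q` forces that the value of type `t` of `u` exists and is equal to the value of type `s` of `w`. -/
def EQ (L : Set ZFSet.{0}) : ℕ → ℕ → ZFSet.{0} → ZFSet.{0} → ZFSet.{0} → Prop
  | 0, 0, q, u, w => ∃ z ∈ omega, NUM L 0 q u z ∧ NUM L 0 q w z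
  | 0, s + 1, q, u, w => ∃ z ∈ omega, NUM L 0 q u z ∧ NUM L (s + 1) q w z
  | t + 1, 0, q, u, w => ∃ z ∈ omega, NUM L (t + 1) q u z ∧ NUM L 0 q w z
  | t + 1, s + 1, q, u, w =>
    (∀ r, pair r q ∈ L → ∀ u', Oc L r u' u → Dg L t r u' →
      ∃ r', pair r' r ∈ L ∧ ∃ w', Oc L r' w' w ∧ EQ L t s r' u' w') ∧
    (∀ r, pair r q ∈ L → ∀ w', Oc L r w' w → Dg L s r w' →
      ∃ r', pair r' r ∈ L ∧ ∃ u', Oc L r' u' u ∧ EQ L t s r' u' w')

/-- `q` forces that the value of type `t` of `u` is an element of the value of type `s + 1` of `w`. -/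
def MEM (L : Set ZFSet.{0}) (t s : ℕ) (q u w : ZFSet.{0}) : Prop :=
  ∀ r, pair r q ∈ L → ∃ r', pair r' r ∈ L ∧ ∃ w', Oc L r' w' w ∧ EQ L t s r' u w'

/-- The forcing relation for the structure `(P^(j+1)(ω), ∈)`; the variables are names, read through their values of type
`j + 1`. -/
def FR (M P L : Set ZFSet.{0}) (j : ℕ) : Fm → ZFSet.{0} → (ℕ → ZFSet.{0}) → Prop
  | .mem i k, q, v => MEM L (j + 1) j q (v i) (v k)
  | .eq i k, q, v => EQ L (j + 1) (j + 1) q (v i) (v k)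
  | .cls _ _, _, _ => False
  | .bot, _, _ => False
  | .imp φ ψ, q, v => ∀ r, pair r q ∈ L → FR M P L j φ r v → FR M P L j ψ r v
  | .all φ, q, v => ∀ u ∈ M, IsName P u → FR M P L j φ q (cons u v)

end Pool.Agent.H65C
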