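import Pool.Agent.Lib.H65C.Defs2
import Pool.Agent.Lib.H65C.Work

/-!
# Project H65C, second part: working definitions (not used in the final statement)
-/

namespace Pool.Agent.H65C

open ZFSet

/-- `X ∈ M` is a set of names closed under subnames, and `s ∈ M` is a function from a subset of `P^j(ω)^M` onto `X × X`. -/
structure Cod (M P : Set ZFSet.{0}) (j : ℕ) (X s : ZFSet.{0}) : Prop where
  memX : X ∈ M
  memS : s ∈ M
  name : ∀ x ∈ X, IsName P x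
  closed : ∀ x ∈ X, ∀ τ, Occ τ x → τ ∈ X
  rel : ∀ z ∈ s, ∃ i ∈ Typ M j, ∃ x ∈ X, ∃ y ∈ X, z = pair i (pair x y)
  func : ∀ i a b, pair i a ∈ s → pair i b ∈ s → a = b
  surj : ∀ x ∈ X, ∀ y ∈ X, ∃ i, pair i (pair x y) ∈ s

/-- `q` forces that `i` is in the value of type `j + 1` of `ρ` (for `i ∈ Typ M j`). -/
def Wi (L : Set ZFSet.{0}) (j : ℕ) (ρ q i : ZFSet.{0}) : Prop := ∃ u, Oc L q u ρ ∧ NUM L j q u i

/-- `q` forces that the code of the pair `(x, y)` is in the value of `ρ`. -/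
def Wp (L : Set ZFSet.{0}) (j : ℕ) (s ρ q x y : ZFSet.{0}) : Prop := ∃ i, pair i (pair x y) ∈ s ∧ Wi L j ρ q i

/-- `q` forces the right hand side of the recursion clause for `x = y` (in terms of the code `ρ` of the relation `∈`). -/
def Rh (L : Set ZFSet.{0}) (j : ℕ) (s ρ q x y : ZFSet.{0}) : Prop :=
  (∀ r, pair r q ∈ L → ∀ w, Oc L r w x → ∃ r', pair r' r ∈ L ∧ Wp L j s ρ r' w y) ∧
  (∀ r, pair r q ∈ L → ∀ w, Oc L r w y → ∃ r', pair r' r ∈ L ∧ Wp L j s ρ r' w x)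

/-- `q` forces that `ρ` and `ρ'` code the relations `=` and `∈` between the values of the names in `X`. -/
structure Cert (L : Set ZFSet.{0}) (j : ℕ) (X s ρ ρ' q : ZFSet.{0}) : Prop where
  mem1 : ∀ x ∈ X, ∀ y ∈ X, ∀ r, pair r q ∈ L → Wp L j s ρ' r x y →
    ∃ r', pair r' r ∈ L ∧ ∃ w, Oc L r' w y ∧ Wp L j s ρ r' x w
  mem2 : ∀ x ∈ X, ∀ y ∈ X, ∀ r, pair r q ∈ L → ∀ w, Oc L r w y → Wp L j s ρ r x w →
    ∃ r', pair r' r ∈ L ∧ Wp L j s ρ' r' x y
  eq1 : ∀ x ∈ X, ∀ y ∈ X, ∀ r, pair r q ∈ L → Wp L j s ρ r x y → Rh L j s ρ' r x y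
  eq2 : ∀ x ∈ X, ∀ y ∈ X, ∀ r, pair r q ∈ L → Rh L j s ρ' r x y → ∃ r', pair r' r ∈ L ∧ Wp L j s ρ r' x y

/-- The relation `=` (`b = false`) or `∈` (`b = true`). -/
def Tr (G : Set ZFSet.{0}) (b : Bool) (x y : ZFSet.{0}) : Prop := if b then val G x ∈ val G y else val G x = val G y

/-- `q` has a certificate in favour of `x = y` (`b = false`) or `x ∈ y` (`b = true`). -/
def Good (M P L : Set ZFSet.{0}) (j : ℕ) (b : Bool) (q x y : ZFSet.{0}) : Prop :=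
  ∃ X ∈ M, ∃ s ∈ M, ∃ ρ ∈ M, ∃ ρ' ∈ M, Cod M P j X s ∧ x ∈ X ∧ y ∈ X ∧ Cert L j X s ρ ρ' q ∧
    Wp L j s (if b then ρ' else ρ) q x y

/-- Densely below `q` there is a certificate. -/
def At (M P L : Set ZFSet.{0}) (j : ℕ) (b : Bool) (q x y : ZFSet.{0}) : Prop :=
  ∀ r, pair r q ∈ L → ∃ r', pair r' r ∈ L ∧ Good M P L j b r' x y

/-- The forcing relation for the structure of the values of small names. -/
def FS (M P L : Set ZFSet.{0}) (j : ℕ) : Fm → ZFSet.{0} → (ℕ → ZFSet.{0}) → Prop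
  | .mem i k, q, v => At M P L (j + 4) true q (v i) (v k)
  | .eq i k, q, v => At M P L (j + 4) false q (v i) (v k)
  | .cls _ _, _, _ => False
  | .bot, _, _ => False
  | .imp φ ψ, q, v => ∀ r, pair r q ∈ L → FS M P L j φ r v → FS M P L j ψ r v
  | .all φ, q, v => ∀ u ∈ M, SmallName M P j u → FS M P L j φ q (cons u v)

/-- The check name of `x` for the condition `p`: `{(y̌, p) : y ∈ x}`, see `mem_chk`. -/
noncomputable def chk (p : ZFSet.{0}) : ZFSet.{0} → ZFSet.{0} :=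
  mem_wf.fix fun x f => ZFSet.range fun y : (x : ZFSet.{0}) => pair (f y.1 y.2) p

theorem mem_chk (p x z : ZFSet.{0}) : z ∈ chk p x ↔ ∃ y ∈ x, z = pair (chk p y) p := by
  unfold chk
  rw [WellFounded.fix_eq, mem_range]
  constructor
  · rintro ⟨⟨y, hy⟩, rfl⟩
    exact ⟨y, hy, rfl⟩
  · rintro ⟨y, hy, rfl⟩
    exact ⟨⟨y, hy⟩, rfl⟩

/-- A name for the ordered pair of the values of `a` and `b`. -/
noncomputable def opn (p a b : ZFSet.{0}) : ZFSet.{0} :=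
  {pair {pair a p} p, pair {pair a p, pair b p} p}

end Pool.Agent.H65C
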