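import Pool.Agent.Lib.H65C.Defs3
import Pool.Agent.Lib.H65C.Work2

/-!
# Project H65C, third part: working definitions (not used in the final statement)

The parameter `s` is not used; it is kept so that the proofs of the second part can be copied.
-/

namespace Pool.Agent.H65C

open ZFSet

/-- `c = pair ε ρ`, and `q` forces that `(x, y)` is read off from the value of `ρ` and the filter by `ε`. -/
def Wr (M L : Set ZFSet.{0}) (j : ℕ) (_s c q x y : ZFSet.{0}) : Prop :=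
  ∃ ε ρ, c = pair ε ρ ∧ ∃ i ∈ Typ M j, ∃ p, pair (pair x y) (pair i p) ∈ ε ∧ pair q p ∈ L ∧ Wi L j ρ q i

/-- As `Rh`. -/
def Rh3 (M L : Set ZFSet.{0}) (j : ℕ) (s ρ q x y : ZFSet.{0}) : Prop :=
  (∀ r, pair r q ∈ L → ∀ w, Oc L r w x → ∃ r', pair r' r ∈ L ∧ Wr M L j s ρ r' w y) ∧
  (∀ r, pair r q ∈ L → ∀ w, Oc L r w y → ∃ r', pair r' r ∈ L ∧ Wr M L j s ρ r' w x)

/-- As `Cert`. -/
structure Cert3 (M L : Set ZFSet.{0}) (j : ℕ) (X s ρ ρ' q : ZFSet.{0}) : Prop where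
  mem1 : ∀ x ∈ X, ∀ y ∈ X, ∀ r, pair r q ∈ L → Wr M L j s ρ' r x y →
    ∃ r', pair r' r ∈ L ∧ ∃ w, Oc L r' w y ∧ Wr M L j s ρ r' x w
  mem2 : ∀ x ∈ X, ∀ y ∈ X, ∀ r, pair r q ∈ L → ∀ w, Oc L r w y → Wr M L j s ρ r x w →
    ∃ r', pair r' r ∈ L ∧ Wr M L j s ρ' r' x y
  eq1 : ∀ x ∈ X, ∀ y ∈ X, ∀ r, pair r q ∈ L → Wr M L j s ρ r x y → Rh3 M L j s ρ' r x y
  eq2 : ∀ x ∈ X, ∀ y ∈ X, ∀ r, pair r q ∈ L → Rh3 M L j s ρ' r x y → ∃ r', pair r' r ∈ L ∧ Wr M L j s ρ r' x y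

/-- `X ∈ M` is a set of names closed under subnames. -/
structure NSet (M P : Set ZFSet.{0}) (X s : ZFSet.{0}) : Prop where
  memX : X ∈ M
  memS : s ∈ M
  name : ∀ x ∈ X, IsName P x
  closed : ∀ x ∈ X, ∀ τ, Occ τ x → τ ∈ X

/-- As `Good`. -/
def Good3 (M P L : Set ZFSet.{0}) (j : ℕ) (b : Bool) (q x y : ZFSet.{0}) : Prop :=
  ∃ X ∈ M, ∃ s ∈ M, ∃ ρ ∈ M, ∃ ρ' ∈ M, NSet M P X s ∧ x ∈ X ∧ y ∈ X ∧ Cert3 M L j X s ρ ρ' q ∧
    Wr M L j s (if b then ρ' else ρ) q x y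

/-- As `At`. -/
def At3 (M P L : Set ZFSet.{0}) (j : ℕ) (b : Bool) (q x y : ZFSet.{0}) : Prop :=
  ∀ r, pair r q ∈ L → ∃ r', pair r' r ∈ L ∧ Good3 M P L j b r' x y

/-- The forcing relation for all formulas. -/
def FA (M P L : Set ZFSet.{0}) (j : ℕ) : Fm → ZFSet.{0} → (ℕ → ZFSet.{0}) → Prop
  | .mem i k, q, v => At3 M P L j true q (v i) (v k)
  | .eq i k, q, v => At3 M P L j false q (v i) (v k)
  | .cls _ _, _, _ => False
  | .bot, _, _ => False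
  | .imp φ ψ, q, v => ∀ r, pair r q ∈ L → FA M P L j φ r v → FA M P L j ψ r v
  | .all φ, q, v => ∀ u ∈ M, IsName P u → FA M P L j φ q (cons u v)

end Pool.Agent.H65C
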