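import Pool.Agent.Lib.H65C.F3
import Pool.Agent.Lib.H65C.G3
import Pool.Agent.Lib.H65C.T1

/-!
# Project H65C, chunk Z (S/M): the forcing theorem for statements of higher order arithmetic
-/

namespace Pool.Agent.H65C

open ZFSet

variable {C : Set (Set ZFSet.{0})} {M P L : Set ZFSet.{0}}

theorem z_getD (l : List ZFSet.{0}) (i : ℕ) : l.getD i ∅ ∈ l ∨ l.getD i ∅ = ∅ := by
  rcases lt_or_ge i l.length with h | h
  · left
    rw [List.getD_eq_getElem l ∅ h]
    exact List.getElem_mem h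
  · right
    exact List.getD_eq_default l ∅ h

theorem z_names (hB : GBModel M C) (j : ℕ) (l : List ZFSet.{0})
    (hl : ∀ σ ∈ l, σ ∈ M ∧ IsName P σ ∧ ∀ G, Generic C P L G → val G σ ∈ Typ (MG M P G) (j + 1)) (i : ℕ) :
    l.getD i ∅ ∈ M ∧ IsName P (l.getD i ∅) := by
  rcases z_getD l i with h | h
  · exact ⟨(hl _ h).1, (hl _ h).2.1⟩
  · rw [h]
    exact ⟨t1_empty (N1_base hB.zfc), G1_empty_name P⟩

theorem z_vals (j : ℕ) (l : List ZFSet.{0})
    (hl : ∀ σ ∈ l, σ ∈ M ∧ IsName P σ ∧ ∀ G, Generic C P L G → val G σ ∈ Typ (MG M P G) (j + 1))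
    {G : Set ZFSet.{0}} (hG : Generic C P L G) (i : ℕ) :
    V (j + 1) (val G (l.getD i ∅)) (asg G l i) := by
  rcases z_getD l i with h | h
  · exact V1_id (MG M P G) (j + 1) _ ((hl _ h).2.2 G hG)
  · have h1 : asg G l i = ∅ := by
      unfold asg
      rw [h, G1_val_empty]
    rw [h1, h, G1_val_empty]
    intro z'
    constructor
    · intro hz
      exact absurd hz (ZFSet.notMem_empty _)
    · rintro ⟨y, hy, _⟩
      exact absurd hy (ZFSet.notMem_empty _)

/-- Proof. (→) `F3_truth` with `w = asg G l`: `V (j + 1) (val G σ) (val G σ)` by `V1_id`, for the entries beyond the list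
`G1_val_empty`. (←) If not, `F1_dense` gives `r ≤ p` without extension in `FR φ`; take `G` generic with `r ∈ G` (`G3_exists`), then
`p ∈ G`, `F3_truth` gives `q ∈ G` with `FR φ q`, and a common lower bound of `q` and `r` is a contradiction. -/
theorem Z_forces (hB : GBModel M C) (hC : C.Countable) (hF : ClassForcing C P L)
    (hZ : ∀ G, Generic C P L G → ZFCModel (MG M P G)) (j : ℕ) (φ : Fm) (l : List ZFSet.{0})
    (hl : ∀ σ ∈ l, σ ∈ M ∧ IsName P σ ∧ ∀ G, Generic C P L G → val G σ ∈ Typ (MG M P G) (j + 1)) (p : ZFSet.{0}) (hp : p ∈ P) :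
    Forces M C P L (j + 1) φ l p ↔ FR M P L j φ p fun i => l.getD i ∅ := by
  constructor
  · intro h
    by_contra hn
    obtain ⟨r, hr, hno⟩ := f3_ext hB hF j φ hp hn
    have hrP : r ∈ P := by
      obtain ⟨a, ha, b, _, he⟩ := hF.rel _ hr
      rw [(pair_inj.1 he).1]
      exact ha
    obtain ⟨G, hG, hrG⟩ := G3_exists hC hF hrP
    have hs := h G hG (hG.up r hrG p hr)
    obtain ⟨q, hq, hfq⟩ := (F3_truth hB hF hG (hZ G hG) j φ (fun i => l.getD i ∅) (asg G l)
      (z_names hB j l hl) (z_vals j l hl hG)).2 hs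
    obtain ⟨s, _, hs1, hs2⟩ := hG.dir q hq r hrG
    exact hno s hs2 (F1_mono hF j φ hfq hs1)
  · intro h G hG hpG
    exact (F3_truth hB hF hG (hZ G hG) j φ (fun i => l.getD i ∅) (asg G l)
      (z_names hB j l hl) (z_vals j l hl hG)).1 ⟨p, hpG, h⟩

/-- **The forcing theorem for higher order arithmetic.** Proof. `T1_class` for `R = fun v => FR (v 0) (fun i => v (i + 1))` (`F2_dfn`) and
`k + 1`, `Z_forces`, `F3_truth`. -/
theorem Z_main (hB : GBModel M C) (hC : C.Countable) (hF : ClassForcing C P L)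
    (hZ : ∀ G, Generic C P L G → ZFCModel (MG M P G)) (j : ℕ) (φ : Fm) (k : ℕ) :
    (∃ X ∈ C, ∀ l : List ZFSet.{0}, l.length = k →
      (∀ σ ∈ l, σ ∈ M ∧ IsName P σ ∧ ∀ G, Generic C P L G → val G σ ∈ Typ (MG M P G) (j + 1)) →
      ∀ p ∈ P, tup (p :: l) ∈ X ↔ Forces M C P L (j + 1) φ l p) ∧
    ∀ l : List ZFSet.{0},
      (∀ σ ∈ l, σ ∈ M ∧ IsName P σ ∧ ∀ G, Generic C P L G → val G σ ∈ Typ (MG M P G) (j + 1)) →
      ∀ G, Generic C P L G → (Sat0 (Typ (MG M P G) (j + 1)) φ (asg G l) ↔ ∃ p ∈ G, Forces M C P L (j + 1) φ l p) := by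
  constructor
  · obtain ⟨X, hX, h⟩ := T1_class hB (k + 1) (F2_dfn hB hF j φ)
    refine ⟨X, hX, fun l hlk hl p hp => ?_⟩
    rw [h (p :: l) (by simp [hlk]) (fun x hx => ?_), Z_forces hB hC hF hZ j φ l hl p hp]
    · rfl
    · rcases List.mem_cons.1 hx with hx | hx
      · rw [hx]
        exact hB.sub P hF.carrier hp
      · exact (hl x hx).1
  · intro l hl G hG
    rw [← F3_truth hB hF hG (hZ G hG) j φ (fun i => l.getD i ∅) (asg G l)
      (z_names hB j l hl) (z_vals j l hl hG)]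
    constructor
    · rintro ⟨q, hq, h⟩
      exact ⟨q, hq, (Z_forces hB hC hF hZ j φ l hl q (hG.sub hq)).2 h⟩
    · rintro ⟨q, hq, h⟩
      exact ⟨q, hq, (Z_forces hB hC hF hZ j φ l hl q (hG.sub hq)).1 h⟩

end Pool.Agent.H65C
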