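import Pool.Agent.Lib.H65C.Z

/-!
# Project H65C: the forcing theorem for statements of higher order arithmetic, local form
-/

namespace Pool.Agent.H65C

open ZFSet

variable {C : Set (Set ZFSet.{0})} {M P L : Set ZFSet.{0}}

/-- The entries of `l` are names, and `p` forces that their values are elements of `P^j(ω)`. -/
def TypNames (M : Set ZFSet.{0}) (C : Set (Set ZFSet.{0})) (P L : Set ZFSet.{0}) (j : ℕ) (l : List ZFSet.{0})
    (p : ZFSet.{0}) : Prop :=
  ∀ σ ∈ l, σ ∈ M ∧ IsName P σ ∧ ∀ G, Generic C P L G → p ∈ G → val G σ ∈ Typ (MG M P G) j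

theorem z2_names (hB : GBModel M C) {j : ℕ} {l : List ZFSet.{0}} {p : ZFSet.{0}} (hl : TypNames M C P L (j + 1) l p)
    (i : ℕ) : l.getD i ∅ ∈ M ∧ IsName P (l.getD i ∅) := by
  rcases z_getD l i with h | h
  · exact ⟨(hl _ h).1, (hl _ h).2.1⟩
  · rw [h]
    exact ⟨t1_empty (N1_base hB.zfc), G1_empty_name P⟩

theorem z2_vals {j : ℕ} {l : List ZFSet.{0}} {p : ZFSet.{0}} (hl : TypNames M C P L (j + 1) l p)
    {G : Set ZFSet.{0}} (hG : Generic C P L G) (hp : p ∈ G) (i : ℕ) :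
    V (j + 1) (val G (l.getD i ∅)) (asg G l i) := by
  rcases z_getD l i with h | h
  · exact V1_id (MG M P G) (j + 1) _ ((hl _ h).2.2 G hG hp)
  · have h1 : asg G l i = ∅ := by
      unfold asg
      rw [h, G1_val_empty]
    rw [h1, h, G1_val_empty]
    intro z'
    constructor
    · intro hz
      exact absurd hz (ZFSet.notMem_empty _)
    · rintro ⟨y, hy, _⟩
      exact absurd hy (ZFSet.notMem_empty _)

theorem z2_forces (hB : GBModel M C) (hC : C.Countable) (hF : ClassForcing C P L)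
    (hZ : ∀ G, Generic C P L G → ZFCModel (MG M P G)) (j : ℕ) (φ : Fm) (l : List ZFSet.{0}) (p : ZFSet.{0})
    (hl : TypNames M C P L (j + 1) l p) (hp : p ∈ P) :
    Forces M C P L (j + 1) φ l p ↔ FR M P L j φ p fun i => l.getD i ∅ := by
  constructor
  · intro h
    by_contra hn
    obtain ⟨r, hr, hno⟩ := f3_ext hB hF j φ hp hn
    have hrP : r ∈ P := by
      obtain ⟨a, ha, b, _, he⟩ := hF.rel _ hr
      rw [(pair_inj.1 he).1]
      exact ha
    obtain ⟨G, hG, hrG⟩ := G3_exists hC hF hrP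
    have hpG := hG.up r hrG p hr
    have hs := h G hG hpG
    obtain ⟨q, hq, hfq⟩ := (F3_truth hB hF hG (hZ G hG) j φ (fun i => l.getD i ∅) (asg G l)
      (z2_names hB hl) (z2_vals hl hG hpG)).2 hs
    obtain ⟨s, _, hs1, hs2⟩ := hG.dir q hq r hrG
    exact hno s hs2 (F1_mono hF j φ hfq hs1)
  · intro h G hG hpG
    exact (F3_truth hB hF hG (hZ G hG) j φ (fun i => l.getD i ∅) (asg G l)
      (z2_names hB hl) (z2_vals hl hG hpG)).1 ⟨p, hpG, h⟩

/-- **The forcing theorem for higher order arithmetic**, for names that are forced by `p` to be elements of `P^(j+1)(ω)`. -/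
theorem Z2_main (hB : GBModel M C) (hC : C.Countable) (hF : ClassForcing C P L)
    (hZ : ∀ G, Generic C P L G → ZFCModel (MG M P G)) (j : ℕ) (φ : Fm) (k : ℕ) :
    (∃ X ∈ C, ∀ p ∈ P, ∀ l : List ZFSet.{0}, l.length = k → TypNames M C P L (j + 1) l p →
      (tup (p :: l) ∈ X ↔ Forces M C P L (j + 1) φ l p)) ∧
    ∀ G, Generic C P L G → ∀ p ∈ G, ∀ l : List ZFSet.{0}, TypNames M C P L (j + 1) l p →
      (Sat0 (Typ (MG M P G) (j + 1)) φ (asg G l) ↔ ∃ q ∈ G, pair q p ∈ L ∧ Forces M C P L (j + 1) φ l q) := by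
  constructor
  · obtain ⟨X, hX, h⟩ := T1_class hB (k + 1) (F2_dfn hB hF j φ)
    refine ⟨X, hX, fun p hp l hlk hl => ?_⟩
    rw [h (p :: l) (by simp [hlk]) (fun x hx => ?_), z2_forces hB hC hF hZ j φ l p hl hp]
    · rfl
    · rcases List.mem_cons.1 hx with hx | hx
      · rw [hx]
        exact hB.sub P hF.carrier hp
      · exact (hl x hx).1
  · intro G hG p hp l hl
    rw [← F3_truth hB hF hG (hZ G hG) j φ (fun i => l.getD i ∅) (asg G l) (z2_names hB hl) (z2_vals hl hG hp)]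
    constructor
    · rintro ⟨q, hq, h⟩
      obtain ⟨r, hr, hrq, hrp⟩ := hG.dir q hq p hp
      have hl' : TypNames M C P L (j + 1) l r := fun σ hσ =>
        ⟨(hl σ hσ).1, (hl σ hσ).2.1, fun G' hG' hr' => (hl σ hσ).2.2 G' hG' (hG'.up r hr' p hrp)⟩
      exact ⟨r, hr, hrp, (z2_forces hB hC hF hZ j φ l r hl' (hG.sub hr)).2 (F1_mono hF j φ h hrq)⟩
    · rintro ⟨q, hq, hqp, h⟩
      have hl' : TypNames M C P L (j + 1) l q := fun σ hσ =>
        ⟨(hl σ hσ).1, (hl σ hσ).2.1, fun G' hG' hr' => (hl σ hσ).2.2 G' hG' (hG'.up q hr' p hqp)⟩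
      exact ⟨q, hq, (z2_forces hB hC hF hZ j φ l q hl' (hG.sub hq)).1 h⟩

end Pool.Agent.H65C
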